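import Mathlib

namespace Pool.Agent.H391R2

open Polynomial

section places

variable {k C : Type} [Field k] [CommRing C] [Algebra (Polynomial k) C]

theorem place_exists [IsAlgClosed k] [FaithfulSMul (Polynomial k) C]
    [Algebra.IsIntegral (Polynomial k) C] (x : k) :
    ∃ φ : C →+* k, ∀ p, φ (algebraMap (Polynomial k) C p) = p.eval x := by
  have hmax : (RingHom.ker (Polynomial.evalRingHom x)).IsMaximal :=
    RingHom.ker_isMaximal_of_surjective _ (fun c => ⟨Polynomial.C c, by simp⟩)
  obtain ⟨Q, hQ, hQc⟩ := Ideal.exists_ideal_over_maximal_of_isIntegral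
    (S := C) (RingHom.ker (Polynomial.evalRingHom x)) (by
      rw [(RingHom.injective_iff_ker_eq_bot (algebraMap (Polynomial k) C)).1
        (FaithfulSMul.algebraMap_injective _ C)]
      exact bot_le)
  let _ : Field (C ⧸ Q) := Ideal.Quotient.field Q
  let i : k →+* C ⧸ Q := ((Ideal.Quotient.mk Q).comp (algebraMap (Polynomial k) C)).comp
    Polynomial.C
  have hi : ∀ p : Polynomial k, Ideal.Quotient.mk Q (algebraMap (Polynomial k) C p) =
      i (p.eval x) := by
    intro p
    change _ = Ideal.Quotient.mk Q (algebraMap (Polynomial k) C (Polynomial.C (p.eval x)))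
    rw [Ideal.Quotient.eq, ← map_sub, ← Ideal.mem_comap, hQc, RingHom.mem_ker]
    simp
  let _ : Algebra k (C ⧸ Q) := i.toAlgebra
  have hint : Algebra.IsIntegral k (C ⧸ Q) := by
    refine ⟨fun y => ?_⟩
    obtain ⟨y, rfl⟩ := Ideal.Quotient.mk_surjective y
    obtain ⟨p, hp, hp0⟩ := Algebra.IsIntegral.isIntegral (R := Polynomial k) y
    refine ⟨p.map (Polynomial.evalRingHom x), hp.map _, ?_⟩
    rw [Polynomial.eval₂_map]
    have h1 : (algebraMap k (C ⧸ Q)).comp (Polynomial.evalRingHom x) =
        (Ideal.Quotient.mk Q).comp (algebraMap (Polynomial k) C) := by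
      apply RingHom.ext
      intro p
      exact (hi p).symm
    rw [h1, ← Polynomial.hom_eval₂, hp0, map_zero]
  have hbij : Function.Bijective (algebraMap k (C ⧸ Q)) :=
    IsAlgClosed.algebraMap_bijective_of_isIntegral
  let e : k ≃+* C ⧸ Q := RingEquiv.ofBijective _ hbij
  refine ⟨(e.symm : C ⧸ Q →+* k).comp (Ideal.Quotient.mk Q), fun p => ?_⟩
  rw [RingHom.comp_apply, hi]
  exact e.symm_apply_apply _

variable {H : Type} [Group H] [Finite H] [MulSemiringAction H C]
  [SMulCommClass H (Polynomial k) C]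
  [Algebra.IsInvariant (Polynomial k) C H]

theorem place_trans [Infinite k] {K : Type} [Field K] (f₁ f₂ : C →+* K)
    (h : ∀ p : Polynomial k, f₁ (algebraMap _ C p) = f₂ (algebraMap _ C p)) :
    ∃ g : H, ∀ y, f₂ y = f₁ (g • y) := by
  classical
  cases nonempty_fintype H
  let _ : Algebra k C := ((algebraMap (Polynomial k) C).comp Polynomial.C).toAlgebra
  have hk : ∀ c : k, algebraMap k C c = algebraMap (Polynomial k) C (Polynomial.C c) :=
    fun c => rfl
  let V : H → Subspace k C := fun g =>
    { carrier := {y | f₂ y = f₁ (g • y)}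
      add_mem' := by
        intro a b ha hb
        simp only [Set.mem_ofPred_eq] at ha hb ⊢
        rw [map_add, smul_add, map_add, ha, hb]
      zero_mem' := by simp
      smul_mem' := by
        intro c y hy
        simp only [Set.mem_ofPred_eq] at hy ⊢
        rw [Algebra.smul_def, hk, map_mul, smul_mul', smul_algebraMap, map_mul, hy, h] }
  have hcov : ⋃ g, (V g : Set C) = Set.univ := by
    rw [Set.eq_univ_iff_forall]
    intro y
    rw [Set.mem_iUnion]
    obtain ⟨p, hp⟩ := (Polynomial.mem_lifts _).1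
      (Algebra.IsInvariant.charpoly_mem_lifts (Polynomial k) C H y)
    have h1 : (MulSemiringAction.charpoly H y).map f₁ = (MulSemiringAction.charpoly H y).map f₂ := by
      rw [← hp, Polynomial.map_map, Polynomial.map_map]
      congr 1
      exact RingHom.ext h
    have h2 : ((MulSemiringAction.charpoly H y).map f₂).eval (f₂ y) = 0 := by
      rw [Polynomial.eval_map_apply, MulSemiringAction.eval_charpoly, map_zero]
    rw [← h1, MulSemiringAction.charpoly_eq, Polynomial.map_prod, Polynomial.eval_prod,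
      Finset.prod_eq_zero_iff] at h2
    obtain ⟨g, -, hg⟩ := h2
    refine ⟨g, ?_⟩
    simp only [Polynomial.map_sub, Polynomial.map_X, Polynomial.map_C, Polynomial.eval_sub,
      Polynomial.eval_X, Polynomial.eval_C] at hg
    exact sub_eq_zero.1 hg
  obtain ⟨g, hg⟩ := Subspace.exists_eq_top_of_iUnion_eq_univ hcov
  refine ⟨g, fun y => ?_⟩
  have : y ∈ V g := by rw [hg]; trivial
  exact this

omit [SMulCommClass H (Polynomial k) C] in
/-- Elements vanishing at all conjugate places. -/
theorem dvd_pow_card (x : k) (φ : C →+* k)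
    (hφ : ∀ p, φ (algebraMap (Polynomial k) C p) = p.eval x) (y : C)
    (hy : ∀ g : H, φ (g • y) = 0) :
    algebraMap (Polynomial k) C (Polynomial.X - Polynomial.C x) ∣ y ^ Nat.card H := by
  classical
  cases nonempty_fintype H
  rw [Nat.card_eq_fintype_card]
  obtain ⟨p, hp⟩ := (Polynomial.mem_lifts _).1
    (Algebra.IsInvariant.charpoly_mem_lifts (Polynomial k) C H y)
  have h0 : (MulSemiringAction.charpoly H y).eval y = 0 := MulSemiringAction.eval_charpoly H y
  by_cases hC : Subsingleton C
  · exact ⟨0, Subsingleton.elim _ _⟩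
  have hnt : Nontrivial C := not_subsingleton_iff_nontrivial.1 hC
  have hdeg : (MulSemiringAction.charpoly H y).natDegree = Fintype.card H := by
    rw [MulSemiringAction.charpoly_eq, Polynomial.natDegree_prod_of_monic _ _
      (fun g _ => Polynomial.monic_X_sub_C _)]
    simp
  have hmon : (MulSemiringAction.charpoly H y).Monic := MulSemiringAction.monic_charpoly H y
  have hφc : (MulSemiringAction.charpoly H y).map φ = Polynomial.X ^ Fintype.card H := by
    rw [MulSemiringAction.charpoly_eq, Polynomial.map_prod]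
    simp [hy]
  rw [Polynomial.eval_eq_sum_range, Finset.sum_range_succ, hdeg] at h0
  have h1 : (MulSemiringAction.charpoly H y).coeff (Fintype.card H) = 1 := by
    rw [← hdeg]
    exact hmon
  rw [h1, one_mul] at h0
  have h2 : y ^ Fintype.card H = -∑ i ∈ Finset.range (Fintype.card H),
      (MulSemiringAction.charpoly H y).coeff i * y ^ i := (neg_eq_of_add_eq_zero_right h0).symm
  rw [h2, dvd_neg]
  refine Finset.dvd_sum fun i hi => Dvd.dvd.mul_right ?_ _
  rw [← hp, Polynomial.coeff_map]
  apply _root_.map_dvd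
  rw [Polynomial.dvd_iff_isRoot, Polynomial.IsRoot.def, ← hφ]
  have h3 : ((MulSemiringAction.charpoly H y).map φ).coeff i = 0 := by
    rw [hφc, Polynomial.coeff_X_pow, if_neg (Finset.mem_range.1 hi).ne]
  rw [← hp, Polynomial.coeff_map, Polynomial.coeff_map] at h3
  exact h3

/-- Local divisibility. -/
theorem local_dvd [CharZero k] (x : k) (φ : C →+* k)
    (hφ : ∀ p, φ (algebraMap (Polynomial k) C p) = p.eval x) (f : C) (hf : φ f = 0)
    (hfix : ∀ g : H, (∀ y, φ (g • y) = φ y) → g • f = f) :
    ∃ Z : C, φ Z ≠ 0 ∧ algebraMap (Polynomial k) C (Polynomial.X - Polynomial.C x) ∣ Z * f := by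
  classical
  cases nonempty_fintype H
  let D : Subgroup H :=
    { carrier := {g | ∀ y, φ (g • y) = φ y}
      mul_mem' := by
        intro a b ha hb y
        rw [mul_smul, ha, hb]
      one_mem' := by
        intro y
        rw [one_smul]
      inv_mem' := by
        intro a ha y
        have := ha (a⁻¹ • y)
        rw [smul_inv_smul] at this
        exact this.symm }
  have hD : ∀ g, g ∈ D ↔ ∀ y, φ (g • y) = φ y := fun g => Iff.rfl
  have hex : ∀ g : H, ∃ y, g ∉ D → φ (g • y) ≠ φ y := by
    intro g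
    by_cases hg : g ∈ D
    · exact ⟨0, fun h => absurd hg h⟩
    · rw [hD] at hg
      push Not at hg
      obtain ⟨y, hy⟩ := hg
      exact ⟨y, fun _ => hy⟩
  choose yy hyy using hex
  let Z0 : C := ∏ g ∈ Finset.univ.filter (fun g : H => g ∉ D),
    (yy g - algebraMap (Polynomial k) C (Polynomial.C (φ (g • yy g))))
  have hZ0 : φ Z0 ≠ 0 := by
    simp only [Z0, map_prod]
    refine Finset.prod_ne_zero_iff.2 fun g hg => ?_
    rw [map_sub, hφ, Polynomial.eval_C, sub_ne_zero]
    exact (hyy g (Finset.mem_filter.1 hg).2).symm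
  have hZg : ∀ g, g ∉ D → φ (g • Z0) = 0 := by
    intro g hg
    simp only [Z0, Finset.smul_prod', map_prod]
    apply Finset.prod_eq_zero (Finset.mem_filter.2 ⟨Finset.mem_univ g, hg⟩)
    rw [smul_sub, smul_algebraMap, map_sub, hφ, Polynomial.eval_C, sub_self]
  have hN : Nat.card H ≠ 0 := Nat.card_pos.ne'
  set N := Nat.card H with hNdef
  set t := algebraMap (Polynomial k) C (Polynomial.X - Polynomial.C x) with ht
  have hcross : ∀ g, g ∉ D → t ∣ (Z0 * (g • Z0)) ^ N := by
    intro g hg
    refine dvd_pow_card x φ hφ (H := H) _ fun g' => ?_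
    rw [smul_mul', map_mul, ← mul_smul]
    by_cases hg' : g' ∈ D
    · rw [hZg (g' * g) (fun h => hg ((Subgroup.mul_mem_cancel_left D hg').1 h)), mul_zero]
    · rw [hZg g' hg', zero_mul]
  obtain ⟨p, hp⟩ := Algebra.IsInvariant.isInvariant (A := Polynomial k) (G := H)
    (∑ g : H, g • (Z0 ^ N * f)) (fun g' => by
      rw [Finset.smul_sum]
      simp only [← mul_smul]
      exact Fintype.sum_equiv (Equiv.mulLeft g') _ _ fun g => rfl)
  have hpx : p.eval x = 0 := by
    rw [← hφ, hp, map_sum]
    refine Finset.sum_eq_zero fun g _ => ?_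
    rw [smul_mul', smul_pow', map_mul, map_pow]
    by_cases hg : g ∈ D
    · rw [(hD g).1 hg f, hf, mul_zero]
    · rw [hZg g hg, zero_pow hN, zero_mul]
  have htp : t ∣ ∑ g : H, g • (Z0 ^ N * f) := by
    rw [← hp]
    apply _root_.map_dvd
    rw [Polynomial.dvd_iff_isRoot]
    exact hpx
  refine ⟨Z0 ^ N * ∑ g ∈ Finset.univ.filter (fun g : H => g ∈ D), (g • Z0) ^ N, ?_, ?_⟩
  · rw [map_mul, map_sum, map_pow]
    have h1 : ∑ g ∈ Finset.univ.filter (fun g : H => g ∈ D), φ ((g • Z0) ^ N) =
        ∑ g ∈ Finset.univ.filter (fun g : H => g ∈ D), φ Z0 ^ N := by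
      refine Finset.sum_congr rfl fun g hg => ?_
      rw [map_pow, (hD g).1 (Finset.mem_filter.1 hg).2]
    rw [h1, Finset.sum_const, nsmul_eq_mul]
    refine mul_ne_zero (pow_ne_zero _ hZ0) (mul_ne_zero ?_ (pow_ne_zero _ hZ0))
    rw [Nat.cast_ne_zero, Finset.card_ne_zero]
    exact ⟨1, Finset.mem_filter.2 ⟨Finset.mem_univ _, D.one_mem⟩⟩
  · have h2 : Z0 ^ N * ∑ g : H, g • (Z0 ^ N * f) =
        (Z0 ^ N * ∑ g ∈ Finset.univ.filter (fun g : H => g ∈ D), (g • Z0) ^ N) * f +
        ∑ g ∈ Finset.univ.filter (fun g : H => ¬ g ∈ D), (Z0 * (g • Z0)) ^ N * (g • f) := by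
      rw [← Finset.sum_filter_add_sum_filter_not Finset.univ (fun g : H => g ∈ D), mul_add]
      congr 1
      · rw [mul_assoc, Finset.sum_mul]
        congr 1
        refine Finset.sum_congr rfl fun g hg => ?_
        rw [smul_mul', smul_pow', hfix g ((hD g).1 (Finset.mem_filter.1 hg).2)]
      · rw [Finset.mul_sum]
        refine Finset.sum_congr rfl fun g _ => ?_
        rw [smul_mul', smul_pow', mul_pow]
        ring
    have h3 : t ∣ ∑ g ∈ Finset.univ.filter (fun g : H => ¬ g ∈ D),
        (Z0 * (g • Z0)) ^ N * (g • f) :=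
      Finset.dvd_sum fun g hg => (hcross g (Finset.mem_filter.1 hg).2).mul_right _
    have h4 : t ∣ Z0 ^ N * ∑ g : H, g • (Z0 ^ N * f) := htp.mul_left _
    rw [h2] at h4
    exact (dvd_add_left h3).1 h4

/-- The Kummer argument. -/
theorem kummer_aux [IsAlgClosed k] [CharZero k] [IsDomain C] [IsIntegrallyClosed C]
    [FaithfulSMul (Polynomial k) C] (ζ : H → k)
    (hp : ∀ (x : k) (φ : C →+* k), (∀ p, φ (algebraMap (Polynomial k) C p) = p.eval x) →
      ∀ g : H, (∀ y, φ (g • y) = φ y) → ζ g = 1) :
    ∀ (n : ℕ) (f : C) (F : Polynomial k), f ≠ 0 →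
      (∀ g : H, g • f = algebraMap _ C (Polynomial.C (ζ g)) * f) →
      algebraMap (Polynomial k) C F = ∏ᶠ g : H, g • f → F.natDegree = n → ∀ g, ζ g = 1 := by
  classical
  cases nonempty_fintype H
  have hinj : Function.Injective (algebraMap (Polynomial k) C) :=
    FaithfulSMul.algebraMap_injective _ C
  intro n
  induction n using Nat.strong_induction_on with
  | _ n ih =>
  intro f F hf hs hF hn
  rw [finprod_eq_prod_of_fintype] at hF
  have hζ : ∀ g, ζ g ≠ 0 := by
    intro g h0
    have h1 := hs g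
    rw [h0, map_zero, map_zero, zero_mul, smul_eq_zero_iff_eq] at h1
    exact hf h1
  set Zt : k := ∏ g : H, ζ g with hZt
  have hZt0 : Zt ≠ 0 := Finset.prod_ne_zero_iff.2 fun g _ => hζ g
  set N := Fintype.card H with hN
  have hN0 : N ≠ 0 := Fintype.card_ne_zero
  have hFe : algebraMap (Polynomial k) C F =
      algebraMap _ C (Polynomial.C Zt) * f ^ N := by
    rw [hF, Finset.prod_congr rfl (fun g _ => hs g), Finset.prod_mul_distrib, Finset.prod_const,
      Finset.card_univ, hZt, map_prod, map_prod]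
  have hF0 : F ≠ 0 := by
    rintro rfl
    rw [map_zero] at hFe
    have h1 : algebraMap _ C (Polynomial.C Zt) ≠ 0 := by
      rw [map_ne_zero_iff _ hinj]
      exact Polynomial.C_ne_zero.2 hZt0
    exact mul_ne_zero h1 (pow_ne_zero _ hf) hFe.symm
  by_cases hn0 : F.natDegree = 0
  · -- constant case
    obtain ⟨c, rfl⟩ : ∃ c, F = Polynomial.C c := ⟨_, Polynomial.eq_C_of_natDegree_eq_zero hn0⟩
    let i : k →+* C := (algebraMap (Polynomial k) C).comp Polynomial.C
    have hi : ∀ c, i c = algebraMap (Polynomial k) C (Polynomial.C c) := fun c => rfl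
    have h1 : f ^ N = i (c / Zt) := by
      have h2 : i Zt * f ^ N = i Zt * i (c / Zt) := by
        have h9 : i Zt * f ^ N = i c := hFe.symm
        rw [h9, ← map_mul, mul_div_cancel₀ _ hZt0]
      have h3 : i Zt ≠ 0 := by
        rw [hi, map_ne_zero_iff _ hinj]
        exact Polynomial.C_ne_zero.2 hZt0
      exact mul_left_cancel₀ h3 h2
    have h2 : ∃ c', f = i c' := by
      have h3 : (Polynomial.X ^ N - Polynomial.C (c / Zt) : Polynomial k).Splits :=
        IsAlgClosed.splits _
      have h4 := (Polynomial.splits_iff_exists_multiset.1 h3)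
      obtain ⟨m, hm⟩ := h4
      have h5 : Polynomial.eval₂ i f (Polynomial.X ^ N - Polynomial.C (c / Zt)) = 0 := by
        rw [Polynomial.eval₂_sub, Polynomial.eval₂_pow, Polynomial.eval₂_X, Polynomial.eval₂_C, h1,
          sub_self]
      rw [hm, Polynomial.eval₂_mul, Polynomial.eval₂_C, mul_eq_zero] at h5
      rcases h5 with h5 | h5
      · exfalso
        rw [(Polynomial.monic_X_pow_sub_C _ hN0).leadingCoeff, map_one] at h5
        exact one_ne_zero h5
      · rw [← Polynomial.coe_eval₂RingHom, map_multiset_prod, Multiset.prod_eq_zero_iff] at h5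
        simp only [Multiset.map_map, Multiset.mem_map, Function.comp_apply,
          Polynomial.coe_eval₂RingHom, Polynomial.eval₂_sub, Polynomial.eval₂_X,
          Polynomial.eval₂_C] at h5
        obtain ⟨c', -, h6⟩ := h5
        exact ⟨c', sub_eq_zero.1 h6⟩
    obtain ⟨c', rfl⟩ := h2
    intro g
    have h3 := hs g
    rw [hi c', smul_algebraMap] at h3
    have h4 : (1 : C) * algebraMap (Polynomial k) C (Polynomial.C c') =
        algebraMap _ C (Polynomial.C (ζ g)) * algebraMap (Polynomial k) C (Polynomial.C c') := by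
      rw [one_mul]
      exact h3
    have h5 := mul_right_cancel₀ (by rw [← hi]; exact hf) h4
    rw [← map_one (algebraMap (Polynomial k) C)] at h5
    have h6 := hinj h5
    rw [← Polynomial.C_1] at h6
    exact (Polynomial.C_injective h6).symm
  · -- a root
    have hdeg : F.degree ≠ 0 := fun h => hn0 (Polynomial.natDegree_eq_of_degree_eq_some h)
    obtain ⟨x, hx⟩ := IsAlgClosed.exists_root F hdeg
    have hint : Algebra.IsIntegral (Polynomial k) C :=
      Algebra.IsInvariant.isIntegral (Polynomial k) C H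
    obtain ⟨φ, hφ⟩ := place_exists (C := C) x
    have hφf : φ f = 0 := by
      have h1 : φ (algebraMap (Polynomial k) C F) = 0 := by rw [hφ]; exact hx
      rw [hFe, map_mul, map_pow, hφ, Polynomial.eval_C, mul_eq_zero] at h1
      exact pow_eq_zero_iff hN0 |>.1 (h1.resolve_left hZt0)
    have hfix : ∀ g : H, (∀ y, φ (g • y) = φ y) → g • f = f := by
      intro g hg
      rw [hs g, hp x φ hφ g hg, map_one, map_one, one_mul]
    obtain ⟨Z, hZ, hdvd⟩ := local_dvd (H := H) x φ hφ f hφf hfix
    set t := algebraMap (Polynomial k) C (Polynomial.X - Polynomial.C x) with ht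
    have ht0 : t ≠ 0 := by
      rw [ht, map_ne_zero_iff _ hinj]
      exact Polynomial.X_sub_C_ne_zero x
    -- divisibility of F
    have hFN : (Polynomial.X - Polynomial.C x) ^ N ∣ F := by
      rw [← Polynomial.le_rootMultiplicity_iff hF0]
      by_contra hlt
      push Not at hlt
      set m := F.rootMultiplicity x with hm
      obtain ⟨F₁, hF₁, hF₁x⟩ := Polynomial.exists_eq_pow_rootMultiplicity_mul_and_not_dvd F hF0 x
      rw [← hm] at hF₁
      obtain ⟨y, hy⟩ := hdvd
      have h1 : algebraMap _ C (Polynomial.C Zt) * (t ^ N * y ^ N) =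
          Z ^ N * (t ^ m * algebraMap _ C F₁) := by
        rw [← mul_pow, ← hy, mul_pow, ← map_pow, ← map_mul, ← hF₁, hFe]
        ring
      have h2 : t ^ N = t ^ m * t ^ (N - m) := by rw [← pow_add, Nat.add_sub_cancel' hlt.le]
      have h3 : t ^ m * (algebraMap _ C (Polynomial.C Zt) * (t ^ (N - m) * y ^ N)) =
          t ^ m * (Z ^ N * algebraMap _ C F₁) := by
        rw [h2] at h1
        linear_combination h1
      have h4 := mul_left_cancel₀ (pow_ne_zero _ ht0) h3
      have h5 := congrArg φ h4
      have h6 : φ t = 0 := by rw [ht, hφ]; simp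
      rw [map_mul, map_mul, map_pow, h6, zero_pow (by omega), zero_mul, mul_zero, map_mul, map_pow,
        hφ] at h5
      have h7 : F₁.eval x ≠ 0 := fun h => hF₁x (Polynomial.dvd_iff_isRoot.2 h)
      exact mul_ne_zero (pow_ne_zero _ hZ) h7 h5.symm
    have htf : t ∣ f := by
      rw [← IsIntegrallyClosed.pow_dvd_pow_iff hN0]
      have h1 : t ^ N ∣ algebraMap _ C (Polynomial.C Zt) * f ^ N := by
        rw [← hFe, ht, ← map_pow]
        exact _root_.map_dvd _ hFN
      have h2 : IsUnit (algebraMap (Polynomial k) C (Polynomial.C Zt)) :=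
        (Polynomial.isUnit_C.2 hZt0.isUnit).map _
      exact (h2.dvd_mul_left).1 h1
    obtain ⟨f', rfl⟩ := htf
    obtain ⟨F', rfl⟩ := hFN
    have hf' : f' ≠ 0 := right_ne_zero_of_mul hf
    have hF'0 : F' ≠ 0 := right_ne_zero_of_mul hF0
    have hs' : ∀ g : H, g • f' = algebraMap _ C (Polynomial.C (ζ g)) * f' := by
      intro g
      have h1 := hs g
      rw [smul_mul', ht, smul_algebraMap, ← ht] at h1
      apply mul_left_cancel₀ ht0
      rw [h1]
      ring
    have hF' : algebraMap (Polynomial k) C F' = ∏ᶠ g : H, g • f' := by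
      rw [finprod_eq_prod_of_fintype]
      apply mul_left_cancel₀ (pow_ne_zero N ht0)
      rw [ht, ← map_pow, ← map_mul, hF, map_pow, ← ht]
      have h1 : ∀ g : H, g • (t * f') = t * g • f' := by
        intro g
        rw [smul_mul', ht, smul_algebraMap]
      rw [Finset.prod_congr rfl (fun g _ => h1 g), Finset.prod_mul_distrib, Finset.prod_const,
        Finset.card_univ]
    refine ih F'.natDegree ?_ f' F' hf' hs' hF' rfl
    rw [← hn, Polynomial.natDegree_mul (pow_ne_zero _ (Polynomial.X_sub_C_ne_zero x)) hF'0,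
      Polynomial.natDegree_pow, Polynomial.natDegree_X_sub_C, mul_one]
    omega

/-- The Kummer argument. -/
theorem kummer [IsAlgClosed k] [CharZero k] [IsDomain C] [IsIntegrallyClosed C]
    [FaithfulSMul (Polynomial k) C] (ζ : H → k)
    (hp : ∀ (x : k) (φ : C →+* k), (∀ p, φ (algebraMap (Polynomial k) C p) = p.eval x) →
      ∀ g : H, (∀ y, φ (g • y) = φ y) → ζ g = 1) (f : C) (hf : f ≠ 0)
    (hs : ∀ g : H, g • f = algebraMap _ C (Polynomial.C (ζ g)) * f) (g : H) : ζ g = 1 := by
  classical
  cases nonempty_fintype H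
  obtain ⟨F, hF⟩ := Algebra.IsInvariant.isInvariant (A := Polynomial k) (G := H)
    (∏ g : H, g • f) (Finset.smul_prod_perm f)
  exact kummer_aux ζ hp _ f F hf hs (by rw [hF, finprod_eq_prod_of_fintype]) rfl g

end places

end Pool.Agent.H391R2
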