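import Mathlib

namespace Pool.Agent.H391R2

open MvPolynomial

section y0

variable (k : Type) [Field k] (G : Type) [Group G] [Fintype G]

/-- Exponent vector. -/
noncomputable def ex (g : G) : G →₀ ℕ :=
  Finsupp.equivFunOnFinite.symm fun x => (Fintype.equivFin G (g⁻¹ * x) : ℕ)

variable {G} in
theorem ex_apply (g x : G) : ex G g x = (Fintype.equivFin G (g⁻¹ * x) : ℕ) := rfl

theorem ex_injective : Function.Injective (ex G) := by
  intro g h hgh
  have h1 := DFunLike.congr_fun hgh g
  rw [ex_apply, ex_apply] at h1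
  have h2 := (Fintype.equivFin G).injective (Fin.ext h1)
  rw [inv_mul_cancel] at h2
  exact (inv_mul_eq_one.1 h2.symm).symm

theorem ex_mapDomain (π : Equiv.Perm G) (g x : G) :
    (ex G g).mapDomain π x = (Fintype.equivFin G (g⁻¹ * π⁻¹ x) : ℕ) := by
  have h1 : x = π (π⁻¹ x) := by simp
  nth_rewrite 1 [h1]
  rw [Finsupp.mapDomain_apply π.injective, ex_apply]

/-- The polynomial with symmetry group `G`. -/
noncomputable def y0 : MvPolynomial G k := ∑ g : G, monomial (ex G g) 1

theorem y0_coeff (g : G) : coeff (ex G g) (y0 k G) = 1 := by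
  classical
  unfold y0
  rw [coeff_sum, Finset.sum_eq_single g]
  · rw [coeff_monomial, if_pos rfl]
  · intro h _ hne
    rw [coeff_monomial, if_neg fun h1 => hne (ex_injective G h1)]
  · intro h
    exact absurd (Finset.mem_univ _) h

theorem y0_rename_mul (g : G) : rename (Equiv.mulLeft g) (y0 k G) = y0 k G := by
  classical
  unfold y0
  rw [map_sum]
  refine Fintype.sum_equiv (Equiv.mulLeft g) _ _ fun h => ?_
  have h1 : Finsupp.mapDomain (Equiv.mulLeft g) (ex G h) = ex G (Equiv.mulLeft g h) := by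
    apply Finsupp.ext
    intro x
    rw [ex_mapDomain, ex_apply]
    simp [mul_assoc]
  rw [rename_monomial, h1]

theorem y0_stab (π : Equiv.Perm G) (h : rename π (y0 k G) = y0 k G) :
    ∃ g : G, π = Equiv.mulLeft g := by
  classical
  have h1 : coeff ((ex G 1).mapDomain π) (y0 k G) = 1 := by
    rw [← h, coeff_rename_mapDomain _ π.injective, y0_coeff]
  have h2 : ∃ g : G, ex G g = (ex G 1).mapDomain π := by
    by_contra hcon
    push Not at hcon
    unfold y0 at h1
    rw [coeff_sum, Finset.sum_eq_zero] at h1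
    · exact zero_ne_one h1
    · intro g _
      rw [coeff_monomial, if_neg (hcon g)]
  obtain ⟨g, hg⟩ := h2
  refine ⟨g, Equiv.ext fun y => ?_⟩
  have h3 := DFunLike.congr_fun hg (π y)
  rw [ex_mapDomain, ex_apply] at h3
  have h4 := (Fintype.equivFin G).injective (Fin.ext h3)
  have h5 : π⁻¹ (π y) = y := by simp
  rw [inv_one, one_mul, h5] at h4
  rw [Equiv.coe_mulLeft]
  exact inv_mul_eq_iff_eq_mul.1 h4

open Classical in
/-- The orbit of `y0`. -/
noncomputable def orb : Finset (MvPolynomial G k) :=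
  Finset.univ.image fun π : Equiv.Perm G => rename π (y0 k G)

theorem mem_orb {q : MvPolynomial G k} :
    q ∈ orb k G ↔ ∃ π : Equiv.Perm G, rename π (y0 k G) = q := by
  simp [orb]

theorem y0_mem_orb : y0 k G ∈ orb k G :=
  (mem_orb k G).2 ⟨1, by rw [Equiv.Perm.coe_one]; exact rename_id_apply _⟩

theorem rename_mem_orb (π : Equiv.Perm G) {q : MvPolynomial G k} (hq : q ∈ orb k G) :
    rename π q ∈ orb k G := by
  obtain ⟨ρ, rfl⟩ := (mem_orb k G).1 hq
  rw [rename_rename]
  exact (mem_orb k G).2 ⟨π * ρ, rfl⟩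

theorem orb_image (π : Equiv.Perm G) [DecidableEq (MvPolynomial G k)] :
    (orb k G).image (rename π) = orb k G := by
  apply Finset.eq_of_subset_of_card_le
  · intro q hq
    obtain ⟨p, hp, rfl⟩ := Finset.mem_image.1 hq
    exact rename_mem_orb k G π hp
  · rw [Finset.card_image_of_injective _ (rename_injective _ π.injective)]

open Polynomial in
theorem exists_psi : ∃ Ψ : Polynomial (MvPolynomial (Fin (Fintype.card G)) k),
    Ψ.Monic ∧ Ψ.natDegree = (orb k G).card ∧
    Ψ.map ((aeval fun i : Fin (Fintype.card G) => esymm G k (i + 1) :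
      MvPolynomial (Fin (Fintype.card G)) k →ₐ[k] MvPolynomial G k) :
      MvPolynomial (Fin (Fintype.card G)) k →+* MvPolynomial G k) =
      ∏ q ∈ orb k G, (Polynomial.X - Polynomial.C q) := by
  classical
  have hm : (∏ q ∈ orb k G, (Polynomial.X - Polynomial.C q)).Monic :=
    Polynomial.monic_prod_of_monic _ _ fun q _ => Polynomial.monic_X_sub_C q
  have hdeg : (∏ q ∈ orb k G, (Polynomial.X - Polynomial.C q)).natDegree = (orb k G).card := by
    rw [Polynomial.natDegree_prod_of_monic _ _ fun q _ => Polynomial.monic_X_sub_C q]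
    simp
  have hsymm : ∀ n, ((∏ q ∈ orb k G, (Polynomial.X - Polynomial.C q)).coeff n).IsSymmetric := by
    intro n π
    have h1 : (∏ q ∈ orb k G, (Polynomial.X - Polynomial.C q)).map
        ((rename π : MvPolynomial G k →ₐ[k] MvPolynomial G k) :
          MvPolynomial G k →+* MvPolynomial G k) =
        ∏ q ∈ orb k G, (Polynomial.X - Polynomial.C q) := by
      rw [Polynomial.map_prod]
      simp only [Polynomial.map_sub, Polynomial.map_X, Polynomial.map_C]
      nth_rewrite 2 [← orb_image k G π]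
      rw [Finset.prod_image fun a _ b _ h => rename_injective _ π.injective h]
      rfl
    nth_rewrite 2 [← h1]
    rw [Polynomial.coeff_map]
    rfl
  have hlift : (∏ q ∈ orb k G, (Polynomial.X - Polynomial.C q)) ∈ Polynomial.lifts
      ((aeval fun i : Fin (Fintype.card G) => esymm G k (i + 1) :
      MvPolynomial (Fin (Fintype.card G)) k →ₐ[k] MvPolynomial G k) :
      MvPolynomial (Fin (Fintype.card G)) k →+* MvPolynomial G k) := by
    rw [Polynomial.lifts_iff_coeff_lifts]
    intro n
    obtain ⟨p, hp⟩ := esymmAlgHom_surjective (σ := G) k (n := Fintype.card G) le_rfl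
      ⟨_, (mem_symmetricSubalgebra _).2 (hsymm n)⟩
    refine ⟨p, ?_⟩
    have h2 := congrArg Subtype.val hp
    rw [esymmAlgHom_apply] at h2
    exact h2
  obtain ⟨Ψ, h1, h2, h3⟩ := Polynomial.lifts_and_natDegree_eq_and_monic hlift hm
  exact ⟨Ψ, h3, h2.trans hdeg, h1⟩

theorem psi_map {Ψ : Polynomial (MvPolynomial (Fin (Fintype.card G)) k)}
    (hΨ : Ψ.map ((aeval fun i : Fin (Fintype.card G) => esymm G k (i + 1) :
      MvPolynomial (Fin (Fintype.card G)) k →ₐ[k] MvPolynomial G k) :
      MvPolynomial (Fin (Fintype.card G)) k →+* MvPolynomial G k) =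
      ∏ q ∈ orb k G, (Polynomial.X - Polynomial.C q)) {E : Type} [CommRing E] [Algebra k E]
      (v : G → E) (c : Fin (Fintype.card G) → E) (hc : ∀ i : Fin (Fintype.card G),
        c i = aeval v (esymm G k (i + 1))) :
      Ψ.map ((aeval c : MvPolynomial (Fin (Fintype.card G)) k →ₐ[k] E) :
        MvPolynomial (Fin (Fintype.card G)) k →+* E) =
      ∏ q ∈ orb k G, (Polynomial.X - Polynomial.C (aeval v q)) := by
  have h1 := congrArg (Polynomial.map ((aeval v : MvPolynomial G k →ₐ[k] E) :
    MvPolynomial G k →+* E)) hΨ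
  rw [Polynomial.map_map, Polynomial.map_prod] at h1
  simp only [Polynomial.map_sub, Polynomial.map_X, Polynomial.map_C] at h1
  rw [← RingHom.coe_coe (aeval v : MvPolynomial G k →ₐ[k] E)]
  rw [← h1]
  congr 1
  ext x
  · simp
  · simp [hc]

theorem aeval_mem_orb {E : Type} [CommRing E] [Algebra k E] (v : G → E) (π : Equiv.Perm G) :
    aeval v (rename π (y0 k G)) = aeval (v ∘ π) (y0 k G) := aeval_rename ..

theorem aeval_mulLeft {E : Type} [CommRing E] [Algebra k E] (v : G → E) (g : G) :
    aeval (v ∘ Equiv.mulLeft g) (y0 k G) = aeval v (y0 k G) := by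
  rw [← aeval_mem_orb, y0_rename_mul]

omit [Group G] in
theorem aeval_esymm_comp {E : Type} [CommRing E] [Algebra k E] (v : G → E) (π : Equiv.Perm G)
    (n : ℕ) : aeval (v ∘ π) (esymm G k n) = aeval v (esymm G k n) := by
  rw [← aeval_rename, rename_esymm]

end y0

section lam

variable (G : Type) [Group G] [Fintype G]

theorem exists_lam : ∃ l : G → ℚ, Function.Injective l ∧
    (∀ q ∈ orb ℚ G, q ≠ y0 ℚ G → aeval l (y0 ℚ G) < aeval l q) ∧
    (∀ q ∈ orb ℚ G, ∀ q' ∈ orb ℚ G, q ≠ q' → (aeval l q : ℚ) ≠ aeval l q') := by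
  classical
  let D : MvPolynomial G ℚ := (∏ p ∈ (Finset.univ : Finset (G × G)).filter (fun p => p.1 ≠ p.2),
    (X p.1 - X p.2)) * ∏ p ∈ ((orb ℚ G) ×ˢ (orb ℚ G)).filter (fun p => p.1 ≠ p.2), (p.1 - p.2)
  have hD : D ≠ 0 := by
    refine mul_ne_zero (Finset.prod_ne_zero_iff.2 fun p hp => ?_)
      (Finset.prod_ne_zero_iff.2 fun p hp => ?_)
    · rw [Finset.mem_filter] at hp
      exact sub_ne_zero.2 fun h => hp.2 (X_injective h)
    · rw [Finset.mem_filter] at hp
      exact sub_ne_zero.2 hp.2
  obtain ⟨l₀, hl₀⟩ : ∃ l₀ : G → ℚ, aeval l₀ D ≠ 0 := by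
    by_contra hcon
    push Not at hcon
    apply hD
    apply MvPolynomial.funext
    intro x
    have := hcon x
    rw [map_zero]
    rwa [aeval_eq_eval] at this
  rw [map_mul, map_prod, map_prod] at hl₀
  have h1 := Finset.prod_ne_zero_iff.1 (left_ne_zero_of_mul hl₀)
  have h2 := Finset.prod_ne_zero_iff.1 (right_ne_zero_of_mul hl₀)
  have hinj : Function.Injective l₀ := by
    intro g h hgh
    by_contra hne
    apply h1 (g, h) (by simp [hne])
    simp [hgh]
  have hdist : ∀ q ∈ orb ℚ G, ∀ q' ∈ orb ℚ G, q ≠ q' → (aeval l₀ q : ℚ) ≠ aeval l₀ q' := by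
    intro q hq q' hq' hne h
    apply h2 (q, q') (by simp [hq, hq', hne])
    rw [map_sub, h, sub_self]
  obtain ⟨q₀, hq₀, hmin⟩ := (orb ℚ G).exists_min_image (fun q => (aeval l₀ q : ℚ))
    ⟨_, y0_mem_orb ℚ G⟩
  obtain ⟨π₀, rfl⟩ := (mem_orb ℚ G).1 hq₀
  refine ⟨l₀ ∘ π₀, hinj.comp π₀.injective, ?_, ?_⟩
  · intro q hq hne
    rw [← aeval_rename, ← aeval_rename]
    refine lt_of_le_of_ne (hmin _ (rename_mem_orb ℚ G π₀ hq)) ?_
    apply hdist _ hq₀ _ (rename_mem_orb ℚ G π₀ hq)
    exact fun h => hne (rename_injective _ π₀.injective h).symm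
  · intro q hq q' hq' hne
    rw [← aeval_rename, ← aeval_rename]
    apply hdist _ (rename_mem_orb ℚ G π₀ hq) _ (rename_mem_orb ℚ G π₀ hq')
    exact fun h => hne (rename_injective _ π₀.injective h)

end lam

section pc

/-- The monic polynomial with prescribed elementary symmetric functions of the roots. -/
noncomputable def Pc {E : Type} [CommRing E] {m : ℕ} (c : Fin m → E) : Polynomial E :=
  Polynomial.X ^ m + ∑ i : Fin m, Polynomial.C ((-1) ^ ((i : ℕ) + 1) * c i) *
    Polynomial.X ^ (m - 1 - i)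

theorem Pc_map {E E' : Type} [CommRing E] [CommRing E'] {m : ℕ} (c : Fin m → E)
    (f : E →+* E') : (Pc c).map f = Pc (fun i => f (c i)) := by
  simp [Pc, Polynomial.map_sum]

theorem Pc_coeff {E : Type} [CommRing E] {m : ℕ} (c : Fin m → E) (i : Fin m) :
    (Pc c).coeff (m - 1 - i) = (-1) ^ ((i : ℕ) + 1) * c i := by
  classical
  unfold Pc
  rw [Polynomial.coeff_add, Polynomial.coeff_X_pow, if_neg (by omega), zero_add,
    Polynomial.finsetSum_coeff, Finset.sum_eq_single i]
  · rw [Polynomial.coeff_C_mul, Polynomial.coeff_X_pow, if_pos rfl, mul_one]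
  · intro j _ hne
    rw [Polynomial.coeff_C_mul, Polynomial.coeff_X_pow, if_neg, mul_zero]
    intro h
    apply hne
    apply Fin.ext
    have := i.2
    have := j.2
    omega
  · intro h
    exact absurd (Finset.mem_univ _) h

theorem Pc_injective {E : Type} [CommRing E] {m : ℕ} :
    Function.Injective (Pc : (Fin m → E) → Polynomial E) := by
  intro c c' h
  funext i
  have h1 := Pc_coeff c i
  rw [h, Pc_coeff] at h1
  have h2 : IsUnit ((-1 : E) ^ ((i : ℕ) + 1)) := (isUnit_one.neg).pow _
  exact (h2.mul_left_cancel h1).symm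

theorem prod_eq_Pc {k E G : Type} [Field k] [CommRing E] [Algebra k E] [Fintype G] (v : G → E) :
    ∏ g : G, (Polynomial.X - Polynomial.C (v g)) =
      Pc (fun i : Fin (Fintype.card G) => aeval v (esymm G k (i + 1))) := by
  classical
  have h1 := Multiset.prod_X_sub_X_eq_sum_esymm (Finset.univ.val.map v)
  rw [Multiset.map_map] at h1
  have h2 : (Multiset.map ((fun t => Polynomial.X - Polynomial.C t) ∘ v)
      (Finset.univ : Finset G).val).prod = ∏ g : G, (Polynomial.X - Polynomial.C (v g)) := rfl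
  rw [h2] at h1
  rw [h1]
  simp only [Multiset.card_map, Finset.card_val, Finset.card_univ]
  rw [Finset.sum_range_succ']
  unfold Pc
  rw [add_comm]
  congr 1
  · simp [Multiset.esymm]
  · rw [Finset.sum_range]
    refine Finset.sum_congr rfl fun i _ => ?_
    change _ = Polynomial.C ((-1) ^ ((i : ℕ) + 1) * aeval v (esymm G k (i + 1))) * _
    rw [aeval_esymm_eq_multiset_esymm]
    have h3 : Fintype.card G - ((i : ℕ) + 1) = Fintype.card G - 1 - i := by omega
    rw [h3]
    simp only [Polynomial.C_mul, Polynomial.C_pow, Polynomial.C_neg, Polynomial.C_1]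
    ring

theorem Pc_natDegree {E : Type} [CommRing E] [Nontrivial E] {m : ℕ} (c : Fin m → E) :
    (Pc c).Monic ∧ (Pc c).natDegree = m := by
  unfold Pc
  have h1 : (∑ i : Fin m, Polynomial.C ((-1) ^ ((i : ℕ) + 1) * c i) *
    Polynomial.X ^ (m - 1 - i) : Polynomial E).degree < m := by
    rw [← Polynomial.mem_degreeLT]
    refine Submodule.sum_mem _ fun i _ => ?_
    rw [Polynomial.mem_degreeLT]
    refine (Polynomial.degree_C_mul_X_pow_le _ _).trans_lt ?_
    have := i.2
    exact_mod_cast (by omega : m - 1 - i < m)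
  refine ⟨Polynomial.monic_X_pow_add h1, ?_⟩
  apply Polynomial.natDegree_eq_of_degree_eq_some
  rw [Polynomial.degree_add_eq_left_of_degree_lt (by rwa [Polynomial.degree_X_pow]),
    Polynomial.degree_X_pow]

/-- Over an algebraically closed field, there are always roots. -/
theorem exists_roots {k E G : Type} [Field k] [Field E] [Algebra k E] [IsAlgClosed E] [Fintype G]
    (c : Fin (Fintype.card G) → E) :
    ∃ v : G → E, ∀ i : Fin (Fintype.card G), aeval v (esymm G k (i + 1)) = c i := by
  classical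
  obtain ⟨hm, hd⟩ := Pc_natDegree c
  have hs : (Pc c).Splits := IsAlgClosed.splits _
  have hcard : (Pc c).roots.card = Fintype.card G := hs.natDegree_eq_card_roots.symm.trans hd
  have h1 : ∃ v : G → E, (Finset.univ : Finset G).val.map v = (Pc c).roots := by
    have hc : Fintype.card G = Fintype.card (Pc c).roots.ToType := by
      rw [Multiset.card_coe, hcard]
    let e : G ≃ (Pc c).roots.ToType := Fintype.equivOfCardEq hc
    refine ⟨fun g => (e g : E), ?_⟩
    have h2 := Multiset.map_univ_val_equiv e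
    have h3 := Multiset.map_univ_coe (Pc c).roots
    rw [← h2, Multiset.map_map] at h3
    exact h3
  obtain ⟨v, hv⟩ := h1
  refine ⟨v, ?_⟩
  have h2 : ∏ g : G, (Polynomial.X - Polynomial.C (v g)) = Pc c := by
    rw [hs.eq_prod_roots_of_monic hm, ← hv, Multiset.map_map]
    rfl
  rw [prod_eq_Pc (k := k)] at h2
  exact fun i => congrFun (Pc_injective h2) i

theorem exists_perm_of_esymm {k E G : Type} [Field k] [Field E] [Algebra k E] [Fintype G]
    (v v' : G → E) (h : ∀ i : Fin (Fintype.card G),
      (aeval v (esymm G k (i + 1)) : E) = aeval v' (esymm G k (i + 1))) :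
    ∃ π : Equiv.Perm G, v' = v ∘ π := by
  classical
  have h1 : ∏ g : G, (Polynomial.X - Polynomial.C (v g)) =
      ∏ g : G, (Polynomial.X - Polynomial.C (v' g)) := by
    rw [prod_eq_Pc (k := k), prod_eq_Pc (k := k)]
    congr 1
    funext i
    exact h i
  have h2 : (Finset.univ : Finset G).val.map v = (Finset.univ : Finset G).val.map v' := by
    have h3 := congrArg Polynomial.roots h1
    have h4 : ∀ u : G → E, (∏ g : G, (Polynomial.X - Polynomial.C (u g))).roots =
        (Finset.univ : Finset G).val.map u := by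
      intro u
      have := Polynomial.roots_multiset_prod_X_sub_C ((Finset.univ : Finset G).val.map u)
      rw [Multiset.map_map] at this
      exact this
    rwa [h4, h4] at h3
  have h5 : ∀ c : E, Nonempty ({a // v' a = c} ≃ {b // v b = c}) := by
    intro c
    apply Fintype.card_eq.1
    have h6 : ∀ u : G → E, Fintype.card {a // u a = c} =
        Multiset.count c ((Finset.univ : Finset G).val.map u) := by
      intro u
      rw [Multiset.count_map, Fintype.card_subtype]
      simp only [eq_comm (a := c)]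
      rfl
    rw [h6, h6, h2]
  let π : G ≃ G := Equiv.ofFiberEquiv (f := v') (g := v) fun c => (h5 c).some
  exact ⟨π, funext fun a => (Equiv.ofFiberEquiv_map (f := v') (g := v) _ a).symm⟩

end pc

end Pool.Agent.H391R2
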