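import Mathlib

namespace Pool.Agent.H391R2

/-- Transfer of algebraic independence by counting. -/
theorem indep_of_mem {k E : Type} [Field k] [Field E] [Algebra k E] {ι J : Type} [Finite ι]
    [Finite J] (hcard : Nat.card J ≤ Nat.card ι) (θ : ι → E) (hθ : AlgebraicIndependent k θ)
    (X : J → E) (h : ∀ i, θ i ∈ IntermediateField.adjoin k (Set.range X)) :
    AlgebraicIndependent k X := by
  classical
  set K := IntermediateField.adjoin k (Set.range X) with hK
  have hXK : ∀ j, X j ∈ K := fun j => IntermediateField.subset_adjoin _ _ ⟨j, rfl⟩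
  let θ' : ι → K := fun i => ⟨θ i, h i⟩
  let X' : J → K := fun j => ⟨X j, hXK j⟩
  have hθ' : AlgebraicIndependent k θ' := by
    have h1 : AlgebraicIndependent k (K.val ∘ θ') := hθ
    exact (K.val.algebraicIndependent_iff K.val.injective).1 h1
  have hle : Cardinal.mk J ≤ Algebra.trdeg k K := by
    have h1 : Cardinal.mk J ≤ Cardinal.mk ι := by
      have := Fintype.ofFinite J
      have := Fintype.ofFinite ι
      rw [Cardinal.mk_fintype, Cardinal.mk_fintype, Nat.cast_le, ← Nat.card_eq_fintype_card,
        ← Nat.card_eq_fintype_card]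
      exact hcard
    exact h1.trans hθ'.cardinalMk_le_trdeg
  have htop : IntermediateField.adjoin k (Set.range X') = ⊤ := by
    have h1 : (IntermediateField.adjoin k (Set.range X')).map K.val = K := by
      rw [IntermediateField.adjoin_map, ← Set.range_comp]
      rfl
    have h2 : ((⊤ : IntermediateField k K)).map K.val = K := by
      rw [← AlgHom.fieldRange_eq_map]
      exact IntermediateField.fieldRange_val K
    exact IntermediateField.map_injective K.val (h1.trans h2.symm)
  have halg : Algebra.IsAlgebraic (Algebra.adjoin k (Set.range X')) K := by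
    rw [← IntermediateField.isAlgebraic_adjoin_iff_top]
    refine ⟨fun x => ?_⟩
    have hx : x ∈ IntermediateField.adjoin k (Set.range X') := by rw [htop]; trivial
    exact isAlgebraic_algebraMap (⟨x, hx⟩ : IntermediateField.adjoin k (Set.range X'))
  have h3 := (Algebra.IsAlgebraic.isTranscendenceBasis_of_le_trdeg_of_finite k X' hle).1
  exact h3.map' (f := K.val) K.val.injective

/-- In a normal extension, two embeddings of a field are conjugate. -/
theorem exists_aut_of_algHom {F K₁ N : Type} [Field F] [Field K₁] [Field N] [Algebra F K₁]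
    [Algebra F N] [Normal F N] (α β : K₁ →ₐ[F] N) : ∃ γ : N ≃ₐ[F] N, ∀ x, γ (α x) = β x := by
  let χ : α.fieldRange ≃ₐ[F] β.fieldRange :=
    (AlgEquiv.ofInjectiveField α).symm.trans (AlgEquiv.ofInjectiveField β)
  refine ⟨AlgEquiv.liftNormal χ N, fun x => ?_⟩
  have h1 := AlgEquiv.liftNormal_commutes χ N (⟨α x, ⟨x, rfl⟩⟩ : α.fieldRange)
  have h2 : χ (⟨α x, ⟨x, rfl⟩⟩ : α.fieldRange) = (⟨β x, ⟨x, rfl⟩⟩ : β.fieldRange) := by
    have h3 : (AlgEquiv.ofInjectiveField α).symm (⟨α x, ⟨x, rfl⟩⟩ : α.fieldRange) = x :=
      (AlgEquiv.ofInjectiveField α).symm_apply_apply x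
    have h4 : χ (⟨α x, ⟨x, rfl⟩⟩ : α.fieldRange) = (AlgEquiv.ofInjectiveField β)
      ((AlgEquiv.ofInjectiveField α).symm (⟨α x, ⟨x, rfl⟩⟩ : α.fieldRange)) := rfl
    exact h4.trans (congrArg (AlgEquiv.ofInjectiveField β) h3)
  rw [h2] at h1
  exact h1

/-- The embedding of the field of rational functions given by an independent family. -/
noncomputable def lft {k E J : Type} [Field k] [Field E] [Algebra k E] {X : J → E}
    (hX : AlgebraicIndependent k X) : FractionRing (MvPolynomial J k) →ₐ[k] E :=
  IsFractionRing.liftAlgHom (A := MvPolynomial J k) (g := MvPolynomial.aeval X)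
    (algebraicIndependent_iff_injective_aeval.1 hX)

theorem lft_algebraMap {k E J : Type} [Field k] [Field E] [Algebra k E] {X : J → E}
    (hX : AlgebraicIndependent k X) (p : MvPolynomial J k) :
    lft hX (algebraMap (MvPolynomial J k) (FractionRing (MvPolynomial J k)) p) =
      MvPolynomial.aeval X p := by
  unfold lft
  rw [IsFractionRing.liftAlgHom_apply, IsFractionRing.lift_algebraMap]
  rfl

theorem lft_X {k E J : Type} [Field k] [Field E] [Algebra k E] {X : J → E}
    (hX : AlgebraicIndependent k X) (j : J) :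
    lft hX (algebraMap (MvPolynomial J k) (FractionRing (MvPolynomial J k))
      (MvPolynomial.X j)) = X j := by
  rw [lft_algebraMap, MvPolynomial.aeval_X]

theorem exists_field {k E J : Type} [Field k] [Field E] [Algebra k E] {X : J → E}
    (hX : AlgebraicIndependent k X) : ∃ (F : Type) (_ : Field F) (_ : Algebra k F)
      (_ : Algebra (MvPolynomial J k) F) (_ : IsScalarTower k (MvPolynomial J k) F)
      (_ : IsFractionRing (MvPolynomial J k) F) (φ : F →ₐ[k] E),
      ∀ p : MvPolynomial J k, φ (algebraMap (MvPolynomial J k) F p) = MvPolynomial.aeval X p :=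
  ⟨FractionRing (MvPolynomial J k), inferInstance, inferInstance, inferInstance, inferInstance,
    inferInstance, lft hX, lft_algebraMap hX⟩

theorem exists_aut {k ι J N F : Type} [Field k] [Field N] [Algebra k N] [Field F] [Algebra k F]
    [Algebra (MvPolynomial ι k) F] [IsScalarTower k (MvPolynomial ι k) F]
    [IsFractionRing (MvPolynomial ι k) F] [Algebra F N] [IsScalarTower k F N] [Normal F N]
    (X Y : J → N) (hX : AlgebraicIndependent k X) (hY : AlgebraicIndependent k Y)
    (r : ι → FractionRing (MvPolynomial J k))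
    (hrX : ∀ i, lft hX (r i) = algebraMap F N (algebraMap (MvPolynomial ι k) F (MvPolynomial.X i)))
    (hrY : ∀ i, lft hY (r i) = algebraMap F N (algebraMap (MvPolynomial ι k) F (MvPolynomial.X i))) :
    ∃ γ : N ≃ₐ[F] N, ∀ j, γ (X j) = Y j := by
  classical
  -- the map `j : F → K₁`
  have key : ∀ (Z : J → N) (hZ : AlgebraicIndependent k Z),
      (∀ i, lft hZ (r i) = algebraMap F N (algebraMap (MvPolynomial ι k) F (MvPolynomial.X i))) →
      ∀ p : MvPolynomial ι k, lft hZ (MvPolynomial.aeval r p) =
        algebraMap F N (algebraMap (MvPolynomial ι k) F p) := by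
    intro Z hZ hr p
    rw [MvPolynomial.comp_aeval_apply]
    have h2 : (fun i => lft hZ (r i)) = fun i => ((IsScalarTower.toAlgHom k F N).comp
      (IsScalarTower.toAlgHom k (MvPolynomial ι k) F)) (MvPolynomial.X i) := funext hr
    rw [h2, ← MvPolynomial.comp_aeval_apply, MvPolynomial.aeval_X_left_apply]
    rfl
  have hinj : Function.Injective
      (MvPolynomial.aeval r : MvPolynomial ι k →ₐ[k] FractionRing (MvPolynomial J k)) := by
    intro p q hpq
    have h1 := congrArg (lft hX) hpq
    rw [key X hX hrX, key X hX hrX] at h1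
    exact IsFractionRing.injective (MvPolynomial ι k) F ((algebraMap F N).injective h1)
  let j : F →+* FractionRing (MvPolynomial J k) := IsFractionRing.lift hinj
  have hj : ∀ p : MvPolynomial ι k, j (algebraMap (MvPolynomial ι k) F p) =
      MvPolynomial.aeval r p := fun p => IsFractionRing.lift_algebraMap hinj p
  have hcomm : ∀ (Z : J → N) (hZ : AlgebraicIndependent k Z),
      (∀ i, lft hZ (r i) = algebraMap F N (algebraMap (MvPolynomial ι k) F (MvPolynomial.X i))) →
      ∀ x : F, lft hZ (j x) = algebraMap F N x := by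
    intro Z hZ hr x
    obtain ⟨a, b, hb, rfl⟩ := IsFractionRing.div_surjective (A := MvPolynomial ι k) x
    rw [map_div₀, map_div₀, map_div₀, hj, hj, key Z hZ hr, key Z hZ hr]
  let _ : Algebra F (FractionRing (MvPolynomial J k)) := j.toAlgebra
  let α : FractionRing (MvPolynomial J k) →ₐ[F] N :=
    { (lft hX : FractionRing (MvPolynomial J k) →+* N) with
      commutes' := fun x => hcomm X hX hrX x }
  let β : FractionRing (MvPolynomial J k) →ₐ[F] N :=
    { (lft hY : FractionRing (MvPolynomial J k) →+* N) with
      commutes' := fun x => hcomm Y hY hrY x }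
  obtain ⟨γ, hγ⟩ := exists_aut_of_algHom α β
  refine ⟨γ, fun i => ?_⟩
  have h1 := hγ (algebraMap (MvPolynomial J k) (FractionRing (MvPolynomial J k))
    (MvPolynomial.X i))
  have h2 : α (algebraMap (MvPolynomial J k) (FractionRing (MvPolynomial J k))
    (MvPolynomial.X i)) = X i := lft_X hX i
  have h3 : β (algebraMap (MvPolynomial J k) (FractionRing (MvPolynomial J k))
    (MvPolynomial.X i)) = Y i := lft_X hY i
  rw [h2, h3] at h1
  exact h1

end Pool.Agent.H391R2
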