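import Mathlib
import Pool.Agent.H391R2.WrTrd
import Pool.Agent.H391R2.WrSym

namespace Pool.Agent.H391R2

open MvPolynomial

section family

variable (k : Type) [Field k] (G : Type) [Group G] [Fintype G]

/-- Target functions. -/
noncomputable def tv : Option (Fin (Fintype.card G)) → MvPolynomial G k
  | none => y0 k G
  | some i => esymm G k (i + 1)

theorem tv_mulLeft {E : Type} [CommRing E] [Algebra k E] (v : G → E) (g : G)
    (i : Option (Fin (Fintype.card G))) :
    aeval (v ∘ Equiv.mulLeft g) (tv k G i) = aeval v (tv k G i) := by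
  cases i with
  | none => exact aeval_mulLeft k G v g
  | some i => exact aeval_esymm_comp k G v _ _

variable {k}
variable (base : Option (Fin (Fintype.card G)) → Polynomial k) (w : Polynomial k)

/-- The family of curves. -/
noncomputable def fam {E : Type} [CommRing E] [Algebra k E]
    (θ : Option (Fin (Fintype.card G)) ⊕ Option (Fin (Fintype.card G)) → E)
    (i : Option (Fin (Fintype.card G))) : Polynomial E :=
  (base i).map (algebraMap k E) + w.map (algebraMap k E) *
    (Polynomial.C (θ (Sum.inl i)) + Polynomial.C (θ (Sum.inr i)) * Polynomial.X)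

omit [Group G] in
theorem fam_eval {E : Type} [CommRing E] [Algebra k E]
    (θ : Option (Fin (Fintype.card G)) ⊕ Option (Fin (Fintype.card G)) → E)
    (i : Option (Fin (Fintype.card G))) (s : E) :
    (fam G base w θ i).eval s = Polynomial.aeval s (base i) + Polynomial.aeval s w *
      (θ (Sum.inl i) + θ (Sum.inr i) * s) := by
  simp [fam, Polynomial.eval_map_algebraMap]

omit [Group G] in
theorem fam_map {E E' : Type} [CommRing E] [Algebra k E] [CommRing E'] [Algebra k E']
    (f : E →ₐ[k] E')
    (θ : Option (Fin (Fintype.card G)) ⊕ Option (Fin (Fintype.card G)) → E)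
    (i : Option (Fin (Fintype.card G))) :
    (fam G base w θ i).map (f : E →+* E') = fam G base w (f ∘ θ) i := by
  simp only [fam, Polynomial.map_add, Polynomial.map_mul, Polynomial.map_map, Polynomial.map_C,
    Polynomial.map_X, Function.comp_apply, RingHom.coe_coe]
  have : (f : E →+* E').comp (algebraMap k E) = algebraMap k E' := f.comp_algebraMap
  rw [this]

/-- Solutions. -/
def Sol {E : Type} [CommRing E] [Algebra k E]
    (θ : Option (Fin (Fintype.card G)) ⊕ Option (Fin (Fintype.card G)) → E) (s : E)
    (v : G → E) : Prop :=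
  Polynomial.aeval s w ≠ 0 ∧ ∀ i, aeval v (tv k G i) = (fam G base w θ i).eval s

theorem Sol_map {E E' : Type} [CommRing E] [Algebra k E] [CommRing E'] [Algebra k E']
    (f : E →ₐ[k] E') (hf : Function.Injective f)
    (θ : Option (Fin (Fintype.card G)) ⊕ Option (Fin (Fintype.card G)) → E) (s : E)
    (v : G → E) : Sol G base w (f ∘ θ) (f s) (f ∘ v) ↔ Sol G base w θ s v := by
  unfold Sol
  have h1 : ∀ i, (fam G base w (f ∘ θ) i).eval (f s) = f ((fam G base w θ i).eval s) := by
    intro i
    rw [← fam_map]
    exact Polynomial.eval_map_apply ..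
  have h2 : ∀ i, aeval (f ∘ v) (tv k G i) = f (aeval v (tv k G i)) := by
    intro i
    rw [comp_aeval_apply]
    rfl
  simp only [h1, h2, hf.eq_iff]
  rw [Polynomial.aeval_algHom_apply, ne_eq, ne_eq, map_eq_zero_iff f hf]

theorem Sol_mulLeft {E : Type} [CommRing E] [Algebra k E]
    (θ : Option (Fin (Fintype.card G)) ⊕ Option (Fin (Fintype.card G)) → E) (s : E)
    (v : G → E) (g : G) (h : Sol G base w θ s v) : Sol G base w θ s (v ∘ Equiv.mulLeft g) :=
  ⟨h.1, fun i => by rw [tv_mulLeft]; exact h.2 i⟩

end family

section solve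

variable {k : Type} [Field k] {G : Type} [Group G] [Fintype G]
variable (base : Option (Fin (Fintype.card G)) → Polynomial k) (w : Polynomial k)

/-- The quotient used to solve for the parameters. -/
noncomputable def qv {E : Type} [Field E] [Algebra k E] (s : E) (v : G → E)
    (i : Option (Fin (Fintype.card G))) : E :=
  (aeval v (tv k G i) - Polynomial.aeval s (base i)) / Polynomial.aeval s w

/-- Parameters as functions of two solutions. -/
noncomputable def rr {E : Type} [Field E] [Algebra k E] (X : Option G ⊕ Option G → E) :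
    Option (Fin (Fintype.card G)) ⊕ Option (Fin (Fintype.card G)) → E :=
  Sum.elim
    (fun i => qv base w (X (Sum.inl none)) (fun g => X (Sum.inl (some g))) i -
      (qv base w (X (Sum.inl none)) (fun g => X (Sum.inl (some g))) i -
        qv base w (X (Sum.inr none)) (fun g => X (Sum.inr (some g))) i) /
        (X (Sum.inl none) - X (Sum.inr none)) * X (Sum.inl none))
    (fun i => (qv base w (X (Sum.inl none)) (fun g => X (Sum.inl (some g))) i -
        qv base w (X (Sum.inr none)) (fun g => X (Sum.inr (some g))) i) /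
        (X (Sum.inl none) - X (Sum.inr none)))

theorem qv_map {E E' : Type} [Field E] [Algebra k E] [Field E'] [Algebra k E']
    (f : E →ₐ[k] E') (s : E) (v : G → E) (i : Option (Fin (Fintype.card G))) :
    f (qv base w s v i) = qv base w (f s) (fun g => f (v g)) i := by
  unfold qv
  rw [map_div₀, map_sub, comp_aeval_apply, Polynomial.aeval_algHom_apply,
    Polynomial.aeval_algHom_apply]

theorem rr_map {E E' : Type} [Field E] [Algebra k E] [Field E'] [Algebra k E']
    (f : E →ₐ[k] E') (X : Option G ⊕ Option G → E)
    (j : Option (Fin (Fintype.card G)) ⊕ Option (Fin (Fintype.card G))) :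
    f (rr base w X j) = rr base w (fun i => f (X i)) j := by
  cases j with
  | inl i => simp only [rr, Sum.elim_inl, map_sub, map_mul, map_div₀, qv_map]
  | inr i => simp only [rr, Sum.elim_inr, map_sub, map_div₀, qv_map]

/-- Two solutions as one vector. -/
def pr {E : Type} (s : E) (v : G → E) (s' : E) (v' : G → E) : Option G ⊕ Option G → E :=
  Sum.elim (fun o => o.elim s v) (fun o => o.elim s' v')

theorem rr_eq {E : Type} [Field E] [Algebra k E]
    (θ : Option (Fin (Fintype.card G)) ⊕ Option (Fin (Fintype.card G)) → E) (s : E)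
    (v : G → E) (s' : E) (v' : G → E) (h : Sol G base w θ s v) (h' : Sol G base w θ s' v')
    (hne : s ≠ s') : rr base w (pr s v s' v') = θ := by
  have hq : ∀ i, qv base w s v i = θ (Sum.inl i) + θ (Sum.inr i) * s := by
    intro i
    unfold qv
    rw [h.2 i, fam_eval, add_sub_cancel_left, mul_div_cancel_left₀ _ h.1]
  have hq' : ∀ i, qv base w s' v' i = θ (Sum.inl i) + θ (Sum.inr i) * s' := by
    intro i
    unfold qv
    rw [h'.2 i, fam_eval, add_sub_cancel_left, mul_div_cancel_left₀ _ h'.1]
  have hb : ∀ i, (qv base w s v i - qv base w s' v' i) / (s - s') = θ (Sum.inr i) := by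
    intro i
    rw [hq, hq', div_eq_iff (sub_ne_zero.2 hne)]
    ring
  funext j
  cases j with
  | inl i =>
    change qv base w s v i - (qv base w s v i - qv base w s' v' i) / (s - s') * s = _
    rw [hb, hq]; ring
  | inr i => exact hb i

theorem pair_indep {E : Type} [Field E] [Algebra k E]
    (θ : Option (Fin (Fintype.card G)) ⊕ Option (Fin (Fintype.card G)) → E)
    (hθ : AlgebraicIndependent k θ) (s : E)
    (v : G → E) (s' : E) (v' : G → E) (h : Sol G base w θ s v) (h' : Sol G base w θ s' v')
    (hne : s ≠ s') : AlgebraicIndependent k (pr s v s' v') := by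
  refine indep_of_mem ?_ θ hθ _ fun j => ?_
  · simp [Nat.card_eq_fintype_card]
  · set X := pr s v s' v' with hX
    let X' : Option G ⊕ Option G → IntermediateField.adjoin k (Set.range X) :=
      fun i => ⟨X i, IntermediateField.subset_adjoin _ _ ⟨i, rfl⟩⟩
    have h1 := rr_map base w (IntermediateField.adjoin k (Set.range X)).val X' j
    have h2 : rr base w (fun i => (IntermediateField.adjoin k (Set.range X)).val (X' i)) j = θ j :=
      congrFun (rr_eq base w θ s v s' v' h h' hne) j
    rw [h2] at h1
    rw [← h1]
    exact (rr base w X' j).2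

theorem pair_aut {F N : Type} [Field F] [Field N] [Algebra k F] [Algebra k N]
    [Algebra (MvPolynomial
      (Option (Fin (Fintype.card G)) ⊕ Option (Fin (Fintype.card G))) k) F]
    [IsScalarTower k (MvPolynomial
      (Option (Fin (Fintype.card G)) ⊕ Option (Fin (Fintype.card G))) k) F]
    [IsFractionRing (MvPolynomial
      (Option (Fin (Fintype.card G)) ⊕ Option (Fin (Fintype.card G))) k) F]
    [Algebra F N] [IsScalarTower k F N] [Normal F N]
    (θ : Option (Fin (Fintype.card G)) ⊕ Option (Fin (Fintype.card G)) → N)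
    (hθ : AlgebraicIndependent k θ)
    (hθF : ∀ i, θ i = algebraMap F N (algebraMap (MvPolynomial
      (Option (Fin (Fintype.card G)) ⊕ Option (Fin (Fintype.card G))) k) F (MvPolynomial.X i)))
    (s : N) (v : G → N) (s' : N) (v' : G → N) (h : Sol G base w θ s v)
    (h' : Sol G base w θ s' v') (hne : s ≠ s')
    (t : N) (u : G → N) (t' : N) (u' : G → N) (k1 : Sol G base w θ t u)
    (k1' : Sol G base w θ t' u') (kne : t ≠ t') :
    ∃ γ : N ≃ₐ[F] N, γ s = t ∧ (∀ g, γ (v g) = u g) ∧ γ s' = t' ∧ (∀ g, γ (v' g) = u' g) := by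
  have hX := pair_indep base w θ hθ s v s' v' h h' hne
  have hY := pair_indep base w θ hθ t u t' u' k1 k1' kne
  have key : ∀ (Z : Option G ⊕ Option G → N) (hZ : AlgebraicIndependent k Z),
      rr base w Z = θ → ∀ i, lft hZ (rr base w (fun j => algebraMap (MvPolynomial
        (Option G ⊕ Option G) k) (FractionRing (MvPolynomial (Option G ⊕ Option G) k))
        (MvPolynomial.X j)) i) = algebraMap F N (algebraMap (MvPolynomial
      (Option (Fin (Fintype.card G)) ⊕ Option (Fin (Fintype.card G))) k) F
        (MvPolynomial.X i)) := by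
    intro Z hZ hr i
    rw [rr_map]
    have h1 : (fun j => lft hZ (algebraMap (MvPolynomial
        (Option G ⊕ Option G) k) (FractionRing (MvPolynomial (Option G ⊕ Option G) k))
        (MvPolynomial.X j))) = Z := funext fun j => lft_X hZ j
    rw [h1, hr, hθF]
  obtain ⟨γ, hγ⟩ := exists_aut (F := F) (N := N) _ _ hX hY _
    (key _ hX (rr_eq base w θ s v s' v' h h' hne))
    (key _ hY (rr_eq base w θ t u t' u' k1 k1' kne))
  exact ⟨γ, hγ (Sum.inl none), fun g => hγ (Sum.inl (some g)), hγ (Sum.inr none),
    fun g => hγ (Sum.inr (some g))⟩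

theorem indep_v {E : Type} [Field E] [Algebra k E]
    (θ : Option (Fin (Fintype.card G)) ⊕ Option (Fin (Fintype.card G)) → E)
    (hθ : AlgebraicIndependent k θ) (s : E)
    (v : G → E) (s' : E) (v' : G → E) (h : Sol G base w θ s v) (h' : Sol G base w θ s' v')
    (hne : s ≠ s') : AlgebraicIndependent k v := by
  have h1 := pair_indep base w θ hθ s v s' v' h h' hne
  exact h1.comp (fun g : G => Sum.inl (some g)) (fun a b hab => by simpa using hab)

theorem unique_v {E : Type} [Field E] [Algebra k E]
    (θ : Option (Fin (Fintype.card G)) ⊕ Option (Fin (Fintype.card G)) → E) (s : E)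
    (v u : G → E) (hv : AlgebraicIndependent k v) (h : Sol G base w θ s v)
    (h' : Sol G base w θ s u) : ∃ g : G, u = v ∘ Equiv.mulLeft g := by
  obtain ⟨π, rfl⟩ := exists_perm_of_esymm (k := k) v u (fun i => (h.2 (some i)).trans
    (h'.2 (some i)).symm)
  have h1 : aeval v (rename π (y0 k G)) = aeval v (y0 k G) := by
    rw [aeval_mem_orb]
    exact (h'.2 none).trans (h.2 none).symm
  obtain ⟨g, rfl⟩ := y0_stab k G π (algebraicIndependent_iff_injective_aeval.1 hv h1)
  exact ⟨g, rfl⟩

end solve

end Pool.Agent.H391R2
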