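import Mathlib
import Pool.Agent.H391R2.WrSol

namespace Pool.Agent.H391R2

open MvPolynomial

section phi

variable {k : Type} [Field k] {G : Type} [Group G] [Fintype G]
variable (base : Option (Fin (Fintype.card G)) → Polynomial k) (w : Polynomial k)
variable (Ψ : Polynomial (MvPolynomial (Fin (Fintype.card G)) k))

/-- The polynomial whose roots are the first coordinates of the solutions. -/
noncomputable def Phi {E : Type} [CommRing E] [Algebra k E]
    (θ : Option (Fin (Fintype.card G)) ⊕ Option (Fin (Fintype.card G)) → E) : Polynomial E :=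
  Polynomial.eval₂ ((aeval fun i => fam G base w θ (some i) :
    MvPolynomial (Fin (Fintype.card G)) k →ₐ[k] Polynomial E) :
    MvPolynomial (Fin (Fintype.card G)) k →+* Polynomial E) (fam G base w θ none) Ψ

omit [Group G] in
theorem Phi_eval {E : Type} [CommRing E] [Algebra k E]
    (θ : Option (Fin (Fintype.card G)) ⊕ Option (Fin (Fintype.card G)) → E) (s : E) :
    (Phi base w Ψ θ).eval s = (Ψ.map ((aeval fun i => (fam G base w θ (some i)).eval s :
      MvPolynomial (Fin (Fintype.card G)) k →ₐ[k] E) :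
      MvPolynomial (Fin (Fintype.card G)) k →+* E)).eval ((fam G base w θ none).eval s) := by
  unfold Phi
  rw [← Polynomial.coe_evalRingHom, Polynomial.hom_eval₂, Polynomial.eval_map]
  congr 1
  ext x
  · simp
  · simp

omit [Group G] in
theorem Phi_map {E E' : Type} [CommRing E] [Algebra k E] [CommRing E'] [Algebra k E']
    (f : E →ₐ[k] E')
    (θ : Option (Fin (Fintype.card G)) ⊕ Option (Fin (Fintype.card G)) → E) :
    (Phi base w Ψ θ).map (f : E →+* E') = Phi base w Ψ (f ∘ θ) := by
  unfold Phi
  rw [← Polynomial.coe_mapRingHom, Polynomial.hom_eval₂]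
  rw [Polynomial.coe_mapRingHom, fam_map]
  congr 1
  ext x
  · simp
  · have h1 := fam_map G base w f θ (some x)
    simp [← h1]

theorem Phi_eval_prod (hΨ : Ψ.map ((aeval fun i : Fin (Fintype.card G) => esymm G k (i + 1) :
      MvPolynomial (Fin (Fintype.card G)) k →ₐ[k] MvPolynomial G k) :
      MvPolynomial (Fin (Fintype.card G)) k →+* MvPolynomial G k) =
      ∏ q ∈ orb k G, (Polynomial.X - Polynomial.C q)) {E : Type} [CommRing E] [Algebra k E]
    (θ : Option (Fin (Fintype.card G)) ⊕ Option (Fin (Fintype.card G)) → E) (s : E)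
    (v : G → E) (hv : ∀ i : Fin (Fintype.card G),
      aeval v (esymm G k (i + 1)) = (fam G base w θ (some i)).eval s) :
    (Phi base w Ψ θ).eval s = ∏ q ∈ orb k G, ((fam G base w θ none).eval s - aeval v q) := by
  rw [Phi_eval, psi_map k G hΨ v _ (fun i => (hv i).symm), Polynomial.eval_prod]
  simp only [Polynomial.eval_sub, Polynomial.eval_X, Polynomial.eval_C]

theorem Sol_root (hΨ : Ψ.map ((aeval fun i : Fin (Fintype.card G) => esymm G k (i + 1) :
      MvPolynomial (Fin (Fintype.card G)) k →ₐ[k] MvPolynomial G k) :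
      MvPolynomial (Fin (Fintype.card G)) k →+* MvPolynomial G k) =
      ∏ q ∈ orb k G, (Polynomial.X - Polynomial.C q)) {E : Type} [CommRing E] [Algebra k E]
    (θ : Option (Fin (Fintype.card G)) ⊕ Option (Fin (Fintype.card G)) → E) (s : E)
    (v : G → E) (h : Sol G base w θ s v) : (Phi base w Ψ θ).eval s = 0 := by
  rw [Phi_eval_prod base w Ψ hΨ θ s v (fun i => h.2 (some i))]
  apply Finset.prod_eq_zero (y0_mem_orb k G)
  rw [sub_eq_zero]
  exact (h.2 none).symm

theorem exists_Sol (hΨ : Ψ.map ((aeval fun i : Fin (Fintype.card G) => esymm G k (i + 1) :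
      MvPolynomial (Fin (Fintype.card G)) k →ₐ[k] MvPolynomial G k) :
      MvPolynomial (Fin (Fintype.card G)) k →+* MvPolynomial G k) =
      ∏ q ∈ orb k G, (Polynomial.X - Polynomial.C q)) {E : Type} [Field E] [Algebra k E]
    [IsAlgClosed E]
    (θ : Option (Fin (Fintype.card G)) ⊕ Option (Fin (Fintype.card G)) → E) (s : E)
    (hw : Polynomial.aeval s w ≠ 0) (h : (Phi base w Ψ θ).eval s = 0) :
    ∃ v : G → E, Sol G base w θ s v := by
  obtain ⟨v₀, hv₀⟩ := exists_roots (k := k) (G := G)
    (fun i => (fam G base w θ (some i)).eval s)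
  rw [Phi_eval_prod base w Ψ hΨ θ s v₀ hv₀, Finset.prod_eq_zero_iff] at h
  obtain ⟨q, hq, h0⟩ := h
  obtain ⟨π, rfl⟩ := (mem_orb k G).1 hq
  refine ⟨v₀ ∘ π, hw, fun i => ?_⟩
  cases i with
  | none =>
    change aeval (v₀ ∘ π) (y0 k G) = _
    rw [← aeval_mem_orb]
    exact (sub_eq_zero.1 h0).symm
  | some i =>
    change aeval (v₀ ∘ π) (esymm G k (i + 1)) = _
    rw [aeval_esymm_comp]
    exact hv₀ i

end phi

section degree

open Polynomial in
theorem natDegree_aeval_le {k E σ : Type} [Field k] [CommRing E] [Algebra k E]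
    (F : MvPolynomial σ k) (f : σ → Polynomial E) (T D : ℕ) (hF : F.totalDegree ≤ T)
    (hf : ∀ i, (f i).natDegree ≤ D) : (MvPolynomial.aeval f F).natDegree ≤ T * D := by
  classical
  rw [MvPolynomial.aeval_def, MvPolynomial.eval₂_eq]
  apply natDegree_sum_le_of_forall_le
  intro m hm
  have h1 : (algebraMap k (Polynomial E) (F.coeff m)).natDegree = 0 := by
    rw [Polynomial.algebraMap_apply, natDegree_C]
  refine natDegree_mul_le.trans ?_
  rw [h1, zero_add]
  refine (natDegree_prod_le _ _).trans ?_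
  have h2 : ∑ i ∈ m.support, (f i ^ m i).natDegree ≤ ∑ i ∈ m.support, m i * D := by
    refine Finset.sum_le_sum fun i _ => ?_
    exact natDegree_pow_le.trans (Nat.mul_le_mul_left _ (hf i))
  refine h2.trans ?_
  rw [← Finset.sum_mul]
  refine Nat.mul_le_mul_right _ (le_trans ?_ hF)
  exact MvPolynomial.le_totalDegree hm

/-- Degree of a monic polynomial with small coefficients at a large argument. -/
theorem natDegree_eval₂ {R E : Type} [CommRing R] [Field E] (Ψ : Polynomial R) (hm : Ψ.Monic)
    (f : R →+* Polynomial E) (P : Polynomial E) (M B : ℕ) (hP : P.natDegree = M) (hMB : B < M)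
    (hB : ∀ e, (f (Ψ.coeff e)).natDegree ≤ B) :
    (Polynomial.eval₂ f P Ψ).natDegree = Ψ.natDegree * M ∧
      (Polynomial.eval₂ f P Ψ).leadingCoeff = P.leadingCoeff ^ Ψ.natDegree := by
  have hP0 : P ≠ 0 := by
    rintro rfl
    rw [Polynomial.natDegree_zero] at hP
    omega
  rw [Polynomial.eval₂_eq_sum_range, Finset.sum_range_succ, hm.coeff_natDegree, map_one, one_mul]
  rcases Nat.eq_zero_or_pos Ψ.natDegree with h0 | hpos
  · simp [h0]
  · have h1 : (∑ i ∈ Finset.range Ψ.natDegree, f (Ψ.coeff i) * P ^ i).natDegree <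
        (P ^ Ψ.natDegree).natDegree := by
      rw [Polynomial.natDegree_pow, hP]
      refine lt_of_le_of_lt (b := B + (Ψ.natDegree - 1) * M) ?_ ?_
      · apply Polynomial.natDegree_sum_le_of_forall_le
        intro i hi
        have hi' := Finset.mem_range.1 hi
        refine Polynomial.natDegree_mul_le.trans (Nat.add_le_add (hB i) ?_)
        rw [Polynomial.natDegree_pow, hP]
        exact Nat.mul_le_mul_right _ (by omega)
      · obtain ⟨d, hd⟩ : ∃ d, Ψ.natDegree = d + 1 := ⟨Ψ.natDegree - 1, by omega⟩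
        rw [hd, Nat.add_sub_cancel, Nat.succ_mul]
        omega
    refine ⟨?_, ?_⟩
    · rw [Polynomial.natDegree_add_eq_right_of_natDegree_lt h1, Polynomial.natDegree_pow, hP]
    · rw [Polynomial.leadingCoeff_add_of_degree_lt (Polynomial.degree_lt_degree h1),
        Polynomial.leadingCoeff_pow]

end degree

end Pool.Agent.H391R2
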