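import Mathlib
import Pool.Agent.H391R2.NtA
import Pool.Agent.H391R2.NtB

namespace Pool.Agent.H391R2

section geo

variable {K C : Type} [Field K] [CommRing C] [Algebra (Polynomial K) C]
  {H : Type} [Group H] [Finite H] [MulSemiringAction H C]
  [SMulCommClass H (Polynomial K) C]
  [Algebra.IsInvariant (Polynomial K) C H]
  {G : Type} [Group G] [Fintype G] {D : ℕ}

/-- Powers separate. -/
theorem exists_power_sum_ne {C G : Type} [CommRing C] [IsDomain C] [Fintype G] [Nonempty G]
    (v : G → C) (hv : Function.Injective v) (c : G → C) (hc : ∀ g, c g ≠ 0) :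
    ∃ j : ℕ, ∑ g : G, c g * v g ^ j ≠ 0 := by
  classical
  by_contra hcon
  push Not at hcon
  have h1 := linearIndependent_monoidHom (Multiplicative ℕ) C
  have h2 : Function.Injective fun g : G => powersHom C (v g) := by
    intro a b hab
    exact hv ((powersHom C).injective hab)
  have h3 := h1.comp _ h2
  rw [Fintype.linearIndependent_iff] at h3
  obtain ⟨g₀⟩ := (inferInstance : Nonempty G)
  refine hc g₀ (h3 c ?_ g₀)
  funext j
  simp only [Finset.sum_apply, Pi.smul_apply, Function.comp_apply, smul_eq_mul, Pi.zero_apply,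
    powersHom_apply]
  exact hcon _

theorem geo [IsAlgClosed K] [CharZero K] [IsDomain C] [IsIntegrallyClosed C]
    [FaithfulSMul (Polynomial K) C] (v : Fin D → G → C) (hinj : ∀ a, Function.Injective (v a))
    (hstab : ∀ (x : K) (φ : C →+* K), (∀ p, φ (algebraMap (Polynomial K) C p) = p.eval x) →
      ∀ (a : Fin D) (g : G), (fun y => φ (v a y)) ∘ Equiv.mulLeft g = (fun y => φ (v a y)) → g = 1)
    (σ : H → Equiv.Perm (Fin D)) (f : H → Fin D → G)
    (hH : ∀ h a g, h • v a g = v (σ h a) (f h a * g)) (h : H) :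
    ∏ a, Abelianization.of (f h a) = 1 := by
  classical
  by_contra hne
  have hexp : Monoid.exponent (Abelianization G) ≠ 0 := Monoid.exponent_ne_zero_of_finite
  have : NeZero (Monoid.exponent (Abelianization G)) := ⟨hexp⟩
  obtain ⟨χ, hχ⟩ := CommGroup.exists_apply_ne_one_of_hasEnoughRootsOfUnity (Abelianization G) K hne
  apply hχ
  let i : K →+* C := (algebraMap (Polynomial K) C).comp Polynomial.C
  have hiinj : Function.Injective i :=
    (FaithfulSMul.algebraMap_injective (Polynomial K) C).comp Polynomial.C_injective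
  have hi0 : ∀ u : Kˣ, i (u : K) ≠ 0 := fun u => by
    rw [map_ne_zero_iff _ hiinj]
    exact u.ne_zero
  have hsi : ∀ (h : H) (c : K), h • i c = i c := fun h c => smul_algebraMap h _
  let X : G → Kˣ := fun g => χ (Abelianization.of g)
  have hX : ∀ g g', X (g * g') = X g * X g' := fun g g' => by simp [X]
  have hex : ∀ a, ∃ j : ℕ, ∑ g : G, i (((X g)⁻¹ : Kˣ) : K) * v a g ^ j ≠ 0 := fun a =>
    exists_power_sum_ne (v a) (hinj a) _ (fun g => hi0 _)
  choose j hj using hex
  let J := (Finset.univ.sup j) + 1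
  let Y : Fin D → Polynomial C := fun a => ∑ n ∈ Finset.range J,
    Polynomial.C (∑ g : G, i (((X g)⁻¹ : Kˣ) : K) * v a g ^ n) * Polynomial.X ^ n
  have hY : ∀ a, Y a ≠ 0 := by
    intro a h0
    apply hj a
    have h1 : (Y a).coeff (j a) = ∑ g : G, i (((X g)⁻¹ : Kˣ) : K) * v a g ^ (j a) := by
      simp only [Y, Polynomial.finsetSum_coeff, Polynomial.coeff_C_mul, Polynomial.coeff_X_pow]
      rw [Finset.sum_eq_single (j a)]
      · simp
      · intro b _ hb
        rw [if_neg hb.symm, mul_zero]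
      · intro h
        exfalso
        apply h
        rw [Finset.mem_range]
        exact Nat.lt_succ_of_le (Finset.le_sup (f := j) (Finset.mem_univ a))
    rw [← h1, h0, Polynomial.coeff_zero]
  obtain ⟨c, hc⟩ : ∃ c : K, (∏ a, Y a).eval (i c) ≠ 0 := by
    by_contra hcon
    push Not at hcon
    have h1 : (∏ a, Y a) ≠ 0 := Finset.prod_ne_zero_iff.2 fun a _ => hY a
    apply h1
    apply Polynomial.eq_zero_of_infinite_isRoot
    refine Set.Infinite.mono (s := Set.range i) ?_ (Set.infinite_range_of_injective hiinj)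
    rintro _ ⟨c, rfl⟩
    exact hcon c
  rw [Polynomial.eval_prod] at hc
  have hYe : ∀ (h : H) (a : Fin D), h • (Y a).eval (i c) =
      i ((X (f h a) : Kˣ) : K) * (Y (σ h a)).eval (i c) := by
    intro h a
    simp only [Y, Polynomial.eval_finsetSum, Polynomial.eval_mul, Polynomial.eval_C,
      Polynomial.eval_pow, Polynomial.eval_X]
    rw [Finset.smul_sum, Finset.mul_sum]
    refine Finset.sum_congr rfl fun n _ => ?_
    rw [smul_mul', smul_pow', hsi, ← mul_assoc]
    congr 1
    rw [Finset.smul_sum, Finset.mul_sum]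
    refine Fintype.sum_equiv (Equiv.mulLeft (f h a)) _ _ fun g => ?_
    rw [smul_mul', hsi, smul_pow', hH, Equiv.coe_mulLeft, ← mul_assoc, ← map_mul, ← Units.val_mul,
      hX]
    congr 3
    simp
  refine Units.ext ?_
  rw [Units.val_one]
  refine kummer (C := C) (fun h : H => ((χ (∏ a, Abelianization.of (f h a)) : Kˣ) : K)) ?_
    (∏ a, (Y a).eval (i c)) hc ?_ h
  · intro x φ hφ h' hφh
    have hone : ∏ a, Abelianization.of (f h' a) = 1 := by
      obtain ⟨cl, hcl⟩ := exists_cl (G := G) (K := K)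
      have h1 : ∏ a, cl (fun y => φ (v a y)) =
          (∏ a, cl (fun y => φ (v a y))) * ∏ a, Abelianization.of (f h' a) := by
        calc ∏ a, cl (fun y => φ (v a y)) = ∏ a, cl ((fun y => φ (v (σ h' a) y)) ∘
              Equiv.mulLeft (f h' a)) := by
              refine Finset.prod_congr rfl fun a _ => ?_
              congr 1
              funext y
              rw [← hφh, hH]
              rfl
          _ = ∏ a, (cl (fun y => φ (v (σ h' a) y)) * Abelianization.of (f h' a)) := by
              refine Finset.prod_congr rfl fun a _ => ?_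
              exact hcl _ (hstab x φ hφ (σ h' a)) _
          _ = _ := by
              rw [Finset.prod_mul_distrib]
              congr 1
              exact Equiv.prod_comp (σ h') (fun a => cl (fun y => φ (v a y)))
      exact (left_eq_mul.1 h1)
    rw [hone, map_one, Units.val_one]
  · intro h'
    rw [Finset.smul_prod', Finset.prod_congr rfl (fun a _ => hYe h' a), Finset.prod_mul_distrib]
    congr 1
    · rw [map_prod, Units.coe_prod]
      change _ = i _
      rw [map_prod]
    · exact Equiv.prod_comp (σ h') (fun a => (Y a).eval (i c))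

omit [Fintype G] in
/-- Comparison of two places. -/
theorem arith [Infinite K] {CC : Type} [CommRing CC] [Algebra (Polynomial K) CC]
    (v : Fin D → G → C) (σ : H → Equiv.Perm (Fin D)) (f : H → Fin D → G)
    (hH : ∀ h a g, h • v a g = v (σ h a) (f h a * g))
    (hgeo : ∀ h, ∏ a, Abelianization.of (f h a) = 1)
    (γ : K →+* K) (ι δ : C →+* CC)
    (hι : ∀ p, ι (algebraMap (Polynomial K) C p) = algebraMap (Polynomial K) CC p)
    (hδ : ∀ p, δ (algebraMap (Polynomial K) C p) = algebraMap (Polynomial K) CC (p.map γ))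
    (vv : Fin D → G → CC) (hvv : ∀ a g, ι (v a g) = vv a g)
    (σd : Equiv.Perm (Fin D)) (fd : Fin D → G) (hd : ∀ a g, δ (v a g) = vv (σd a) (fd a * g))
    (φ₀ φ₁ : CC →+* K) (h₀ : ∀ p, φ₀ (algebraMap (Polynomial K) CC p) = p.eval 0)
    (h₁ : ∀ p, φ₁ (algebraMap (Polynomial K) CC p) = p.eval 1)
    (hs₀ : ∀ (a : Fin D) (g : G),
      (fun y => φ₀ (vv a y)) ∘ Equiv.mulLeft g = (fun y => φ₀ (vv a y)) → g = 1)
    (hγ₀ : ∀ a y, γ (φ₀ (vv a y)) = φ₀ (vv a y))
    (u : Fin D → G → K) (τ : Equiv.Perm (Fin D)) (e : Fin D → G)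
    (hu : ∀ a y, φ₁ (vv a y) = u (τ a) (e a * y))
    (hsu : ∀ (a : Fin D) (g : G), u a ∘ Equiv.mulLeft g = u a → g = 1)
    (σ₁ : Equiv.Perm (Fin D)) (f₁ : Fin D → G) (hγ₁ : ∀ a g, γ (u a g) = u (σ₁ a) (f₁ a * g)) :
    ∏ a, Abelianization.of (f₁ a) = 1 := by
  classical
  obtain ⟨cl, hcl⟩ := exists_cl (G := G) (K := K)
  have hcomp : ∀ (w : G → K) (g h : G), (w ∘ Equiv.mulLeft g) ∘ Equiv.mulLeft h =
      w ∘ Equiv.mulLeft (g * h) := by
    intro w g h
    funext x
    simp [mul_assoc]
  have hfree : ∀ (w : G → K) (g' : G), (∀ g : G, w ∘ Equiv.mulLeft g = w → g = 1) →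
      ∀ g : G, (w ∘ Equiv.mulLeft g') ∘ Equiv.mulLeft g = w ∘ Equiv.mulLeft g' → g = 1 := by
    intro w g' hw g hg
    rw [hcomp] at hg
    have h1 := congrArg (fun z : G → K => z ∘ Equiv.mulLeft g'⁻¹) hg
    simp only [hcomp, mul_inv_cancel] at h1
    have h2 : w ∘ Equiv.mulLeft (1 : G) = w := by
      funext x
      simp
    rw [h2] at h1
    have h3 := hw _ h1
    have h4 : g = g'⁻¹ * (g' * g * g'⁻¹) * g' := by group
    rw [h4, h3]
    group
  have hcls : ∀ (w : Fin D → G → K) (s : Equiv.Perm (Fin D)) (q : Fin D → G),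
      (∀ (a : Fin D) (g : G), w a ∘ Equiv.mulLeft g = w a → g = 1) →
      ∏ a, cl (w (s a) ∘ Equiv.mulLeft (q a)) = (∏ a, cl (w a)) * ∏ a, Abelianization.of (q a) := by
    intro w s q hw
    rw [Finset.prod_congr rfl (fun a _ => hcl _ (hw (s a)) (q a)), Finset.prod_mul_distrib]
    congr 1
    exact Equiv.prod_comp s (fun a => cl (w a))
  have hev : ∀ (x : K), γ x = x → ∀ p : Polynomial K, γ (p.eval x) = (p.map γ).eval x := by
    intro x hx p
    rw [← Polynomial.eval_map_apply, hx]
  -- at zero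
  have hd1 : ∏ a, Abelianization.of (fd a) = 1 := by
    obtain ⟨h, hh⟩ := place_trans (H := H) ((γ.comp φ₀).comp ι) (φ₀.comp δ) (fun p => by
      simp only [RingHom.comp_apply]
      rw [hι, hδ, h₀, h₀, hev 0 (map_zero γ)])
    simp only [RingHom.comp_apply] at hh
    have e1 : ∏ a, cl (fun y => φ₀ (δ (v a y))) =
        (∏ a, cl (fun y => φ₀ (vv a y))) * ∏ a, Abelianization.of (fd a) := by
      rw [← hcls (fun a y => φ₀ (vv a y)) σd fd hs₀]
      refine Finset.prod_congr rfl fun a _ => ?_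
      congr 1
      funext y
      rw [hd]
      rfl
    have e2 : ∏ a, cl (fun y => φ₀ (δ (v a y))) =
        (∏ a, cl (fun y => φ₀ (vv a y))) * ∏ a, Abelianization.of (f h a) := by
      rw [← hcls (fun a y => φ₀ (vv a y)) (σ h) (f h) hs₀]
      refine Finset.prod_congr rfl fun a _ => ?_
      congr 1
      funext y
      rw [hh, hH, hvv, hγ₀]
      rfl
    rw [e1, hgeo, mul_one] at e2
    exact mul_eq_left.1 e2
  -- at one
  obtain ⟨h, hh⟩ := place_trans (H := H) ((γ.comp φ₁).comp ι) (φ₁.comp δ) (fun p => by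
    simp only [RingHom.comp_apply]
    rw [hι, hδ, h₁, h₁, hev 1 (map_one γ)])
  simp only [RingHom.comp_apply] at hh
  have hs₁ : ∀ (a : Fin D) (g : G),
      (fun y => φ₁ (vv a y)) ∘ Equiv.mulLeft g = (fun y => φ₁ (vv a y)) → g = 1 := by
    intro a g hg
    have e0 : (fun y => φ₁ (vv a y)) = u (τ a) ∘ Equiv.mulLeft (e a) := by
      funext y
      rw [hu]
      rfl
    rw [e0] at hg
    exact hfree _ _ (hsu (τ a)) g hg
  have e1 : ∏ a, cl (fun y => φ₁ (δ (v a y))) =
      (∏ a, cl (fun y => φ₁ (vv a y))) * ∏ a, Abelianization.of (fd a) := by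
    rw [← hcls (fun a y => φ₁ (vv a y)) σd fd hs₁]
    refine Finset.prod_congr rfl fun a _ => ?_
    congr 1
    funext y
    rw [hd]
    rfl
  have hγinj : Function.Injective γ := γ.injective
  have e2 : ∏ a, cl (fun y => φ₁ (δ (v a y))) =
      (∏ a, cl (fun y => γ (φ₁ (vv a y)))) * ∏ a, Abelianization.of (f h a) := by
    rw [← hcls (fun a y => γ (φ₁ (vv a y))) (σ h) (f h) (fun a g hg => hs₁ a g (by
      funext y
      apply hγinj
      exact congrFun hg y))]
    refine Finset.prod_congr rfl fun a _ => ?_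
    congr 1
    funext y
    rw [hh, hH, hvv]
    rfl
  have e3 : ∏ a, cl (fun y => φ₁ (vv a y)) =
      (∏ a, cl (u a)) * ∏ a, Abelianization.of (e a) := by
    rw [← hcls u τ e hsu]
    refine Finset.prod_congr rfl fun a _ => ?_
    congr 1
    funext y
    rw [hu]
    rfl
  have e4 : ∏ a, cl (fun y => γ (φ₁ (vv a y))) =
      (∏ a, cl (u a)) * ∏ a, Abelianization.of (f₁ (τ a) * e a) := by
    rw [← hcls u (σ₁ * τ) (fun a => f₁ (τ a) * e a) hsu]
    refine Finset.prod_congr rfl fun a _ => ?_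
    congr 1
    funext y
    rw [hu, hγ₁]
    simp [mul_assoc]
  rw [e1, hd1, mul_one, hgeo, mul_one, e3, e4] at e2
  have e5 := mul_left_cancel e2
  simp only [map_mul, Finset.prod_mul_distrib] at e5
  rw [Equiv.prod_comp τ (fun a => Abelianization.of (f₁ a))] at e5
  exact (right_eq_mul.1 e5)

end geo

end Pool.Agent.H391R2
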