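import Mathlib
import Pool.Agent.H391R2.NtC

namespace Pool.Agent.H391R2

open MvPolynomial

section ntd

variable {k K : Type} [Field k] [Field K] [Algebra k K] {G : Type} [Group G] [Fintype G]

/-- A place as a `k`-algebra homomorphism. -/
noncomputable def placeAlg {B : Type} [CommRing B] [Algebra (Polynomial K) B] [Algebra k B]
    [IsScalarTower k (Polynomial K) B] (φ : B →+* K) (x : K)
    (hφ : ∀ p, φ (algebraMap (Polynomial K) B p) = p.eval x) : B →ₐ[k] K :=
  { φ with
    commutes' := fun c => by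
      change φ (algebraMap k B c) = _
      rw [IsScalarTower.algebraMap_apply k (Polynomial K) B, hφ]
      rw [Polynomial.algebraMap_apply, Polynomial.eval_C] }

theorem sol_place {B : Type} [CommRing B] [Algebra (Polynomial K) B] [Algebra k B]
    [IsScalarTower k (Polynomial K) B] (φ : B →+* K) (x : K)
    (hφ : ∀ p, φ (algebraMap (Polynomial K) B p) = p.eval x)
    (P : Option (Fin (Fintype.card G)) → Polynomial (Polynomial K)) (s : B) (w : G → B)
    (h : SolP k (fun i => (P i).map (algebraMap (Polynomial K) B)) s w) :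
    SolP k (fun i => (P i).map (Polynomial.evalRingHom x)) (φ s) (fun g => φ (w g)) := by
  have h1 := SolP_map (placeAlg (k := k) φ x hφ) _ s w h
  have h2 : (fun i => ((P i).map (algebraMap (Polynomial K) B)).map
      ((placeAlg (k := k) φ x hφ : B →ₐ[k] K) : B →+* K)) =
      fun i => (P i).map (Polynomial.evalRingHom x) := by
    funext i
    rw [Polynomial.map_map]
    congr 1
    apply RingHom.ext
    intro p
    exact hφ p
  rw [h2] at h1
  exact h1

theorem exists_galois' {F Ω : Type} [Field F] [CharZero F] [Field Ω] [IsAlgClosed Ω] [Algebra F Ω]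
    (S : Finset Ω) (hS : ∀ x ∈ S, IsIntegral F x) : ∃ (N : Type) (_ : Field N) (_ : Algebra F N)
    (_ : FiniteDimensional F N) (_ : IsGalois F N) (j : N →ₐ[F] Ω), ∀ x ∈ S, ∃ y, j y = x := by
  classical
  let P : Polynomial F := ∏ x ∈ S, minpoly F x
  have hP : P ≠ 0 := Finset.prod_ne_zero_iff.2 fun x hx => minpoly.ne_zero (hS x hx)
  let N := IntermediateField.adjoin F (P.rootSet Ω)
  have hsplit : P.IsSplittingField F N :=
    IntermediateField.adjoin_rootSet_isSplittingField (IsAlgClosed.splits _)
  have hfd : FiniteDimensional F N := hsplit.finiteDimensional N P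
  have hnormal : Normal F N := Normal.of_isSplittingField P
  have hgal : IsGalois F N := { __ := hnormal }
  refine ⟨N, inferInstance, inferInstance, hfd, hgal, N.val, fun x hx => ?_⟩
  have hx' : x ∈ N := by
    apply IntermediateField.subset_adjoin
    rw [Polynomial.mem_rootSet]
    refine ⟨hP, ?_⟩
    rw [map_prod]
    exact Finset.prod_eq_zero hx (minpoly.aeval F x)
  exact ⟨⟨x, hx'⟩, rfl⟩

/-- The final step, with all fields given. -/
theorem nt_core [IsAlgClosed K] [CharZero K]
    (P : Option (Fin (Fintype.card G)) → Polynomial (Polynomial K)) {D : ℕ}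
    (hstab : ∀ (x s : K) (v : G → K),
      SolP k (fun i => (P i).map (Polynomial.evalRingHom x)) s v →
        ∀ g : G, v ∘ Equiv.mulLeft g = v → g = 1)
    (γ : K →ₐ[k] K)
    (h0 : ∀ s (v : G → K), SolP k (fun i => (P i).map (Polynomial.evalRingHom 0)) s v →
      ∀ g, γ (v g) = v g)
    (u : Fin D → G → K) (hufree : ∀ (a : Fin D) (g : G), u a ∘ Equiv.mulLeft g = u a → g = 1)
    (σ : Equiv.Perm (Fin D)) (f : Fin D → G)
    (hσf : ∀ a g, γ (u a g) = u (σ a) (f a * g))
    {K₀ Ω M : Type} [Field K₀] [Algebra (Polynomial K) K₀] [IsFractionRing (Polynomial K) K₀]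
    [Field Ω] [Algebra K₀ Ω] [Algebra (Polynomial K) Ω] [IsScalarTower (Polynomial K) K₀ Ω]
    [Algebra k Ω] [IsScalarTower k (Polynomial K) Ω] [IsAlgClosed Ω]
    [Field M] [Algebra K₀ M] [Algebra (Polynomial K) M] [IsScalarTower (Polynomial K) K₀ M]
    [Algebra k M] [IsScalarTower k (Polynomial K) M] [FiniteDimensional K₀ M] [IsGalois K₀ M]
    (j : M →ₐ[K₀] Ω)
    (rM : Fin D → M) (vM : Fin D → G → M)
    (hrint : ∀ a, IsIntegral (Polynomial K) (rM a))
    (hvint : ∀ a g, IsIntegral (Polynomial K) (vM a g))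
    (hvinj : ∀ a, Function.Injective (vM a))
    (hsol : ∀ a, SolP k (fun i => (P i).map (algebraMap (Polynomial K) M)) (rM a) (vM a))
    (hperm : ∀ η : M →+* Ω, (∃ γ' : K →ₐ[k] K, (γ' = γ ∨ γ' = AlgHom.id k K) ∧
        ∀ p, η (algebraMap (Polynomial K) M p) =
          algebraMap (Polynomial K) Ω (p.map (γ' : K →+* K))) →
      ∃ (s : Equiv.Perm (Fin D)) (q : Fin D → G), ∀ a g, η (vM a g) = j (vM (s a) (q a * g)))
    (hone : ∀ φ : integralClosure (Polynomial K) Ω →+* K,
      (∀ p, φ (algebraMap (Polynomial K) _ p) = p.eval 1) → ∃ (τ : Equiv.Perm (Fin D))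
        (e : Fin D → G), ∀ a y, ∀ z : integralClosure (Polynomial K) Ω,
          (z : Ω) = j (vM a y) → φ z = u (τ a) (e a * y)) :
    ∏ a, Abelianization.of (f a) = 1 := by
  classical
  have hfin : Finite (M ≃ₐ[K₀] M) := inferInstance
  have hcomm : SMulCommClass (M ≃ₐ[K₀] M) (Polynomial K) M := ⟨fun h p y => by
    rw [Algebra.smul_def, Algebra.smul_def, smul_mul']
    congr 1
    rw [IsScalarTower.algebraMap_apply (Polynomial K) K₀ M]
    exact h.commutes _⟩
  let C := integralClosure (Polynomial K) M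
  have hCic : IsIntegrallyClosed C := integralClosure.isIntegrallyClosedOfFiniteExtension K₀
  have hcommC : SMulCommClass (M ≃ₐ[K₀] M) (Polynomial K) C := ⟨fun h p y =>
    Subtype.ext (hcomm.smul_comm h p (y : M))⟩
  have hinjA : Function.Injective (algebraMap (Polynomial K) M) := by
    rw [IsScalarTower.algebraMap_eq (Polynomial K) K₀ M]
    exact (algebraMap K₀ M).injective.comp (IsFractionRing.injective (Polynomial K) K₀)
  have hinjC : Function.Injective (algebraMap (Polynomial K) C) := by
    intro p q hpq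
    exact hinjA (congrArg (fun y : C => (y : M)) hpq)
  have hfs : FaithfulSMul (Polynomial K) C := (faithfulSMul_iff_algebraMap_injective _ _).2 hinjC
  have hinv : Algebra.IsInvariant (Polynomial K) C (M ≃ₐ[K₀] M) := by
    refine ⟨fun b hb => ?_⟩
    have h1 : (b : M) ∈ (⊥ : IntermediateField K₀ M) := by
      rw [IsGalois.mem_bot_iff_fixed]
      intro g
      exact congrArg (fun y : C => (y : M)) (hb g)
    rw [IntermediateField.mem_bot] at h1
    obtain ⟨c, hc⟩ := h1
    have h2 : IsIntegral (Polynomial K) c := by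
      rw [← isIntegral_algebraMap_iff (algebraMap K₀ M).injective, hc]
      exact b.2
    obtain ⟨a, rfl⟩ := IsIntegrallyClosed.algebraMap_eq_of_integral h2
    refine ⟨a, Subtype.ext ?_⟩
    rw [← hc]
    exact IsScalarTower.algebraMap_apply (Polynomial K) K₀ M a
  let rC : Fin D → C := fun a => ⟨rM a, hrint a⟩
  let vC : Fin D → G → C := fun a g => ⟨vM a g, hvint a g⟩
  have hsolC : ∀ a, SolP k (fun i => (P i).map (algebraMap (Polynomial K) C)) (rC a) (vC a) := by
    intro a
    let ι : C →ₐ[k] M := C.val.restrictScalars k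
    have hι : Function.Injective ι := Subtype.val_injective
    refine SolP_of_map ι hι _ _ _ ?_
    have h1 : (fun i => ((P i).map (algebraMap (Polynomial K) C)).map (ι : C →+* M)) =
        fun i => (P i).map (algebraMap (Polynomial K) M) := by
      funext i
      rw [Polynomial.map_map]
      rfl
    rw [h1]
    exact hsol a
  -- permutations
  have hH : ∀ h : M ≃ₐ[K₀] M, ∃ (s : Equiv.Perm (Fin D)) (q : Fin D → G),
      ∀ a g, h • vC a g = vC (s a) (q a * g) := by
    intro h
    obtain ⟨s, q, hsq⟩ := hperm ((j : M →+* Ω).comp (h : M →+* M))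
      ⟨AlgHom.id k K, Or.inr rfl, fun p => by
        have h1 : p.map ((AlgHom.id k K : K →ₐ[k] K) : K →+* K) = p := by
          have : ((AlgHom.id k K : K →ₐ[k] K) : K →+* K) = RingHom.id K := rfl
          rw [this, Polynomial.map_id]
        rw [h1, IsScalarTower.algebraMap_apply (Polynomial K) K₀ M,
          IsScalarTower.algebraMap_apply (Polynomial K) K₀ Ω]
        change j (h (algebraMap K₀ M _)) = _
        rw [h.commutes, j.commutes]⟩
    refine ⟨s, q, fun a g => Subtype.ext ?_⟩
    apply j.injective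
    exact hsq a g
  choose s q hsq using hH
  have hgeo : ∀ h, ∏ a, Abelianization.of (q h a) = 1 :=
    geo (H := M ≃ₐ[K₀] M) vC (fun a x y hxy => hvinj a (congrArg (fun z : C => (z : M)) hxy))
      (fun x φ hφ a g hg => hstab x _ _ (sol_place φ x hφ P (rC a) (vC a) (hsolC a)) g hg) s q hsq
  -- the big ring
  let CC := integralClosure (Polynomial K) Ω
  have hinjΩ : Function.Injective (algebraMap (Polynomial K) Ω) := by
    rw [IsScalarTower.algebraMap_eq (Polynomial K) K₀ Ω]
    exact (algebraMap K₀ Ω).injective.comp (IsFractionRing.injective (Polynomial K) K₀)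
  have hinjCC : Function.Injective (algebraMap (Polynomial K) CC) := by
    intro p q hpq
    exact hinjΩ (congrArg (fun y : CC => (y : Ω)) hpq)
  have hfs' : FaithfulSMul (Polynomial K) CC := (faithfulSMul_iff_algebraMap_injective _ _).2 hinjCC
  obtain ⟨φ₀, hφ₀⟩ := place_exists (C := CC) (0 : K)
  obtain ⟨φ₁, hφ₁⟩ := place_exists (C := CC) (1 : K)
  obtain ⟨τ, e, hτe⟩ := hone φ₁ hφ₁
  let jA : M →ₐ[Polynomial K] Ω := j.restrictScalars (Polynomial K)
  let ι : C →+* CC :=
    { toFun := fun y => ⟨j y, y.2.map jA⟩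
      map_one' := Subtype.ext (map_one j)
      map_mul' := fun a b => Subtype.ext (map_mul j _ _)
      map_zero' := Subtype.ext (map_zero j)
      map_add' := fun a b => Subtype.ext (map_add j _ _) }
  -- the semilinear map
  let i₀ : Polynomial K →+* Ω := (algebraMap (Polynomial K) Ω).comp
    (Polynomial.mapRingHom (γ : K →+* K))
  have hi₀ : Function.Injective i₀ :=
    hinjΩ.comp (Polynomial.map_injective _ (γ : K →+* K).injective)
  obtain ⟨δ, hδ⟩ := exists_ext (F := K₀) (E := M) (IsFractionRing.lift hi₀ : K₀ →+* Ω)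
  have hδA : ∀ p, δ (algebraMap (Polynomial K) M p) =
      algebraMap (Polynomial K) Ω (p.map (γ : K →+* K)) := by
    intro p
    rw [IsScalarTower.algebraMap_apply (Polynomial K) K₀ M, hδ, IsFractionRing.lift_algebraMap]
    rfl
  have hδint : ∀ y : M, IsIntegral (Polynomial K) y → IsIntegral (Polynomial K) (δ y) := by
    rintro y ⟨p, hp, hp0⟩
    refine ⟨p.map (Polynomial.mapRingHom (γ : K →+* K)), hp.map _, ?_⟩
    rw [Polynomial.eval₂_map]
    have h1 : (algebraMap (Polynomial K) Ω).comp (Polynomial.mapRingHom (γ : K →+* K)) =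
        δ.comp (algebraMap (Polynomial K) M) := by
      apply RingHom.ext
      intro p
      exact (hδA p).symm
    rw [h1, ← Polynomial.hom_eval₂, hp0, map_zero]
  let δC : C →+* CC :=
    { toFun := fun y => ⟨δ y, hδint y y.2⟩
      map_one' := Subtype.ext (map_one δ)
      map_mul' := fun a b => Subtype.ext (map_mul δ _ _)
      map_zero' := Subtype.ext (map_zero δ)
      map_add' := fun a b => Subtype.ext (map_add δ _ _) }
  obtain ⟨σd, fd, hd⟩ := hperm δ ⟨γ, Or.inl rfl, hδA⟩
  have hsolCC : ∀ a, SolP k (fun i => (P i).map (Polynomial.evalRingHom 0)) (φ₀ (ι (rC a)))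
      (fun g => φ₀ (ι (vC a g))) := fun a =>
    sol_place (φ₀.comp ι) 0 (fun p => by
      rw [RingHom.comp_apply]
      have h1 : ι (algebraMap (Polynomial K) C p) = algebraMap (Polynomial K) CC p :=
        Subtype.ext (jA.commutes p)
      rw [h1, hφ₀]) P (rC a) (vC a) (hsolC a)
  exact arith (K := K) (H := M ≃ₐ[K₀] M) vC s q hsq hgeo (γ : K →+* K) ι δC
    (fun p => Subtype.ext (jA.commutes p)) (fun p => Subtype.ext (hδA p))
    (fun a g => ι (vC a g)) (fun a g => rfl) σd fd (fun a g => Subtype.ext (hd a g)) φ₀ φ₁ hφ₀ hφ₁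
    (fun a g hg => hstab 0 _ _ (hsolCC a) g hg)
    (fun a y => h0 _ _ (hsolCC a) y) u τ e (fun a y => hτe a y _ rfl) hufree σ f hσf

end ntd

end Pool.Agent.H391R2
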