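import Mathlib
import Pool.Agent.H391R2.WrPhi

namespace Pool.Agent.H391R2

open Filter Topology

/-- `f` changes sign at `r`. -/
def SC (f : ℝ → ℝ) (r : ℝ) : Prop :=
  ∀ ε > 0, ∃ x y, |x - r| < ε ∧ |y - r| < ε ∧ f x < 0 ∧ 0 < f y

theorem SC.mul {f g : ℝ → ℝ} {r : ℝ} (h : SC f r) (hg : ContinuousAt g r) (hr : g r ≠ 0) :
    SC (fun x => f x * g x) r := by
  intro ε hε
  rcases lt_or_gt_of_ne hr with hneg | hpos
  · obtain ⟨δ, hδ, hδg⟩ := Metric.eventually_nhds_iff.1 (hg.eventually_lt_const hneg)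
    obtain ⟨x, y, hx, hy, hfx, hfy⟩ := h (min ε δ) (lt_min hε hδ)
    refine ⟨y, x, lt_of_lt_of_le hy (min_le_left _ _), lt_of_lt_of_le hx (min_le_left _ _), ?_, ?_⟩
    · exact mul_neg_of_pos_of_neg hfy (hδg (lt_of_lt_of_le hy (min_le_right _ _)))
    · exact mul_pos_of_neg_of_neg hfx (hδg (lt_of_lt_of_le hx (min_le_right _ _)))
  · obtain ⟨δ, hδ, hδg⟩ := Metric.eventually_nhds_iff.1 (hg.eventually_const_lt hpos)
    obtain ⟨x, y, hx, hy, hfx, hfy⟩ := h (min ε δ) (lt_min hε hδ)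
    refine ⟨x, y, lt_of_lt_of_le hx (min_le_left _ _), lt_of_lt_of_le hy (min_le_left _ _), ?_, ?_⟩
    · exact mul_neg_of_neg_of_pos hfx (hδg (lt_of_lt_of_le hx (min_le_right _ _)))
    · exact mul_pos hfy (hδg (lt_of_lt_of_le hy (min_le_right _ _)))

theorem SC_sub (r : ℝ) : SC (fun x => x - r) r := by
  intro ε hε
  refine ⟨r - ε / 2, r + ε / 2, ?_, ?_, ?_, ?_⟩
  · rw [abs_lt]; constructor <;> linarith
  · rw [abs_lt]; constructor <;> linarith
  · linarith
  · linarith

theorem SC_of_simple (p : Polynomial ℝ) (r : ℝ) (h : p.rootMultiplicity r = 1) :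
    SC (fun x => p.eval x) r := by
  have hp : p ≠ 0 := by
    rintro rfl
    simp at h
  obtain ⟨q, hq, hq'⟩ := Polynomial.exists_eq_pow_rootMultiplicity_mul_and_not_dvd p hp r
  rw [h, pow_one] at hq
  have h1 : q.eval r ≠ 0 := fun h0 => hq' (Polynomial.dvd_iff_isRoot.2 h0)
  have h2 := (SC_sub r).mul (g := fun x => q.eval x) q.continuous.continuousAt h1
  have h3 : (fun x => (x - r) * q.eval x) = fun x => p.eval x := by
    funext x
    rw [hq]
    simp
  rwa [h3] at h2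

theorem persist_one {T : Type} (l : Filter T) (Φ : T → ℝ → ℝ) (hc : ∀ t, Continuous (Φ t))
    (f : ℝ → ℝ) (hlim : ∀ x, Tendsto (fun t => Φ t x) l (𝓝 (f x))) (r : ℝ) (hr : SC f r)
    (ε : ℝ) (hε : 0 < ε) : ∀ᶠ t in l, ∃ z, |z - r| < ε ∧ Φ t z = 0 := by
  obtain ⟨x, y, hx, hy, hfx, hfy⟩ := hr ε hε
  filter_upwards [(hlim x).eventually_lt_const hfx, (hlim y).eventually_const_lt hfy] with t h1 h2
  have h3 := intermediate_value_uIcc (a := x) (b := y) (f := Φ t) (hc t).continuousOn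
  have h4 : (0 : ℝ) ∈ Set.uIcc (Φ t x) (Φ t y) := by
    rw [Set.mem_uIcc]
    exact Or.inl ⟨h1.le, h2.le⟩
  obtain ⟨z, hz, hz0⟩ := h3 h4
  refine ⟨z, ?_, hz0⟩
  rw [Set.mem_uIcc] at hz
  rw [abs_lt] at hx hy ⊢
  rcases hz with hz | hz
  · constructor <;> linarith [hz.1, hz.2, hx.1, hx.2, hy.1, hy.2]
  · constructor <;> linarith [hz.1, hz.2, hx.1, hx.2, hy.1, hy.2]

theorem persist {T : Type} (l : Filter T) (Φ : T → ℝ → ℝ) (hc : ∀ t, Continuous (Φ t))
    (f : ℝ → ℝ) (hlim : ∀ x, Tendsto (fun t => Φ t x) l (𝓝 (f x))) (S : Finset ℝ) (R : ℝ)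
    (hR : ∀ r ∈ S, |r| < R) (hS : ∀ r ∈ S, SC f r) :
    ∀ᶠ t in l, ∃ T' : Finset ℝ, T'.card = S.card ∧ ∀ x ∈ T', |x| < R ∧ Φ t x = 0 := by
  classical
  obtain ⟨ε, hε, h1, h2⟩ : ∃ ε : ℝ, 0 < ε ∧ (∀ r ∈ S, |r| + ε < R) ∧
      (∀ r ∈ S, ∀ r' ∈ S, r ≠ r' → 2 * ε < |r - r'|) := by
    have h1 : ∀ᶠ ε : ℝ in 𝓝[>] 0, ∀ r ∈ S, |r| + ε < R := by
      rw [Filter.eventually_all_finset]
      intro r hr
      apply eventually_nhdsWithin_of_eventually_nhds
      have : ContinuousAt (fun ε : ℝ => |r| + ε) 0 := by fun_prop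
      exact this.eventually_lt_const (by change |r| + 0 < R; rw [add_zero]; exact hR r hr)
    have h2 : ∀ᶠ ε : ℝ in 𝓝[>] 0, ∀ r ∈ S, ∀ r' ∈ S, r ≠ r' → 2 * ε < |r - r'| := by
      rw [Filter.eventually_all_finset]
      intro r hr
      rw [Filter.eventually_all_finset]
      intro r' hr'
      by_cases hne : r = r'
      · exact Filter.Eventually.of_forall fun ε h => absurd hne h
      · apply eventually_nhdsWithin_of_eventually_nhds
        have : ContinuousAt (fun ε : ℝ => 2 * ε) 0 := by fun_prop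
        have h3 := this.eventually_lt_const (u := |r - r'|)
          (by change 2 * 0 < |r - r'|; rw [mul_zero]; exact abs_pos.2 (sub_ne_zero.2 hne))
        exact h3.mono fun ε h _ => h
    obtain ⟨ε, ⟨ha, hb⟩, hc⟩ := ((h1.and h2).and self_mem_nhdsWithin).exists
    exact ⟨ε, hc, ha, hb⟩
  have h3 : ∀ᶠ t in l, ∀ r ∈ S, ∃ z, |z - r| < ε ∧ Φ t z = 0 := by
    rw [Filter.eventually_all_finset]
    intro r hr
    exact persist_one l Φ hc f hlim r (hS r hr) ε hε
  filter_upwards [h3] with t ht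
  have ht' : ∀ r, ∃ z, r ∈ S → |z - r| < ε ∧ Φ t z = 0 := by
    intro r
    by_cases hr : r ∈ S
    · obtain ⟨z, hz⟩ := ht r hr
      exact ⟨z, fun _ => hz⟩
    · exact ⟨0, fun h => absurd h hr⟩
  choose z hz using ht'
  refine ⟨S.image z, ?_, ?_⟩
  · apply Finset.card_image_of_injOn
    intro r hr r' hr' h
    by_contra hne
    have h4 := (hz r hr).1
    have h5 := (hz r' hr').1
    have h6 := h2 r hr r' hr' hne
    have h7 : z r = z r' := h
    rw [h7] at h4
    have h8 : |r - r'| ≤ |z r' - r| + |z r' - r'| := by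
      have := abs_sub_le r (z r') r'
      rwa [abs_sub_comm r (z r')] at this
    linarith
  · intro x hx
    obtain ⟨r, hr, rfl⟩ := Finset.mem_image.1 hx
    refine ⟨?_, (hz r hr).2⟩
    have h4 := (hz r hr).1
    have h5 := h1 r hr
    have h6 : |z r| ≤ |r| + |z r - r| := by
      have := abs_add_le r (z r - r)
      rwa [add_sub_cancel] at this
    linarith

/-- Polynomials with the maximal number of roots have simple roots. -/
theorem simple_of_card (p : Polynomial ℝ) (hp : p ≠ 0) (S : Finset ℝ) (hS : ∀ r ∈ S, p.eval r = 0)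
    (hcard : p.natDegree ≤ S.card) (r : ℝ) (hr : r ∈ S) : p.rootMultiplicity r = 1 := by
  classical
  have h1 : S.val ≤ p.roots := by
    rw [Multiset.le_iff_subset S.nodup]
    intro x hx
    rw [Polynomial.mem_roots hp]
    exact hS x hx
  have h2 : S.val = p.roots := by
    apply Multiset.eq_of_le_of_card_le h1
    exact (Polynomial.card_roots' p).trans hcard
  rw [← Polynomial.count_roots, ← h2]
  exact Multiset.count_eq_one_of_mem S.nodup hr

/-- If all complex roots are real, the values off the real line are large. -/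
theorem norm_eval_ge (p : Polynomial ℂ) (hp : ∀ z ∈ p.roots, z.im = 0) (z₀ : ℂ) :
    ‖p.leadingCoeff‖ * |z₀.im| ^ p.natDegree ≤ ‖p.eval z₀‖ := by
  have hs : p.Splits := IsAlgClosed.splits p
  have h1 : p.eval z₀ = p.leadingCoeff * (p.roots.map fun a => z₀ - a).prod := by
    conv_lhs => rw [hs.eq_prod_roots]
    rw [Polynomial.eval_mul, Polynomial.eval_C, Polynomial.eval_multiset_prod, Multiset.map_map]
    simp
  rw [h1, norm_mul]
  refine mul_le_mul_of_nonneg_left ?_ (norm_nonneg _)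
  have h2 : ∀ s : Multiset ℂ, (∀ z ∈ s, z.im = 0) →
      |z₀.im| ^ (Multiset.card s) ≤ ‖(s.map fun a => z₀ - a).prod‖ := by
    intro s
    induction s using Multiset.induction_on with
    | empty => intro _; simp
    | cons a s ih =>
      intro h
      rw [Multiset.card_cons, Multiset.map_cons, Multiset.prod_cons, norm_mul, pow_succ']
      refine mul_le_mul ?_ (ih fun z hz => h z (Multiset.mem_cons_of_mem hz))
        (pow_nonneg (abs_nonneg _) _) (norm_nonneg _)
      have h3 := Complex.abs_im_le_norm (z₀ - a)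
      rwa [Complex.sub_im, h a (Multiset.mem_cons_self a s), sub_zero] at h3
  have h3 := h2 p.roots hp
  rwa [← hs.natDegree_eq_card_roots] at h3

end Pool.Agent.H391R2
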