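import Mathlib
import Pool.Agent.H391R2.WrReal

namespace Pool.Agent.H391R2

open Filter Topology

section cont

open MvPolynomial

theorem continuous_aeval_mv {σ E : Type} [CommRing E] [TopologicalSpace E] [IsTopologicalRing E]
    [Algebra ℚ E] (p : MvPolynomial σ ℚ) : Continuous fun c : σ → E => aeval c p := by
  induction p using MvPolynomial.induction_on with
  | C a => simpa using continuous_const
  | add p q hp hq =>
    have e : (fun c : σ → E => aeval c (p + q)) =
        (fun c : σ → E => aeval c p) + fun c : σ → E => aeval c q := by funext c; simp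
    rw [e]; exact hp.add hq
  | mul_X p n hp =>
    have e : (fun c : σ → E => aeval c (p * X n)) =
        (fun c : σ → E => aeval c p) * fun c : σ → E => c n := by funext c; simp
    rw [e]; exact hp.mul (continuous_apply n)

variable {G : Type} [Group G] [Fintype G]
variable (base : Option (Fin (Fintype.card G)) → Polynomial ℚ) (w : Polynomial ℚ)
variable (Ψ : Polynomial (MvPolynomial (Fin (Fintype.card G)) ℚ))

omit [Group G] in
theorem continuous_fam {E : Type} [CommRing E] [TopologicalSpace E] [IsTopologicalRing E]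
    [Algebra ℚ E] (i : Option (Fin (Fintype.card G))) :
    Continuous fun p : ((Option (Fin (Fintype.card G)) ⊕ Option (Fin (Fintype.card G))) → E) × E =>
      (fam G base w p.1 i).eval p.2 := by
  simp only [fam_eval]
  have h1 : ∀ q : Polynomial ℚ, Continuous fun s : E => Polynomial.aeval s q := by
    intro q
    simp only [← Polynomial.eval_map_algebraMap]
    exact (q.map (algebraMap ℚ E)).continuous
  exact ((h1 _).comp continuous_snd).add (((h1 _).comp continuous_snd).mul
    ((((continuous_apply _).comp continuous_fst)).add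
      (((continuous_apply _).comp continuous_fst).mul continuous_snd)))

omit [Group G] in
theorem continuous_Phi {E : Type} [CommRing E] [TopologicalSpace E] [IsTopologicalRing E]
    [Algebra ℚ E] :
    Continuous fun p : ((Option (Fin (Fintype.card G)) ⊕ Option (Fin (Fintype.card G))) → E) × E =>
      (Phi base w Ψ p.1).eval p.2 := by
  simp only [Phi_eval, Polynomial.eval_map, Polynomial.eval₂_eq_sum_range]
  refine continuous_finsetSum _ fun e _ => ?_
  refine Continuous.mul ?_ ((continuous_fam base w none).pow e)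
  have h1 := continuous_aeval_mv (E := E) (Ψ.coeff e)
  exact h1.comp (continuous_pi fun i => continuous_fam base w (some i))

end cont

section poly

/-- The integral roots. -/
noncomputable def Rp (n : ℕ) : Polynomial ℚ :=
  ∏ k ∈ Finset.range n, (Polynomial.X - Polynomial.C ((k : ℚ) + 1))

theorem Rp_aeval {E : Type} [CommRing E] [Algebra ℚ E] (n : ℕ) (x : E) :
    Polynomial.aeval x (Rp n) = ∏ k ∈ Finset.range n, (x - ((k : E) + 1)) := by
  simp [Rp, map_prod]

theorem Rp_monic (n : ℕ) : (Rp n).Monic ∧ (Rp n).natDegree = n := by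
  refine ⟨Polynomial.monic_prod_of_monic _ _ fun k _ => Polynomial.monic_X_sub_C _, ?_⟩
  unfold Rp
  rw [Polynomial.natDegree_prod_of_monic _ _ fun k _ => Polynomial.monic_X_sub_C _,
    Finset.sum_congr rfl (fun k _ => Polynomial.natDegree_X_sub_C _)]
  simp

/-- The product over the other roots. -/
theorem Rp_split (n : ℕ) (k : ℕ) (hk : k < n) (x : ℝ) :
    Polynomial.aeval x (Rp n) = (x - ((k : ℝ) + 1)) *
      ∏ i ∈ (Finset.range n).erase k, (x - ((i : ℝ) + 1)) := by
  rw [Rp_aeval, Finset.mul_prod_erase _ (fun i : ℕ => x - ((i : ℝ) + 1)) (Finset.mem_range.2 hk)]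

theorem SC_Rp (n : ℕ) (k : ℕ) (hk : k < n) (g : ℝ → ℝ) (hg : Continuous g)
    (hg0 : g ((k : ℝ) + 1) ≠ 0) :
    SC (fun x => g x * Polynomial.aeval x (Rp n)) ((k : ℝ) + 1) := by
  have h1 : (fun x => g x * Polynomial.aeval x (Rp n)) = fun x => (x - ((k : ℝ) + 1)) *
      ((∏ i ∈ (Finset.range n).erase k, (x - ((i : ℝ) + 1))) * g x) := by
    funext x
    rw [Rp_split n k hk]
    ring
  rw [h1]
  apply (SC_sub _).mul
  · apply Continuous.continuousAt
    exact (continuous_finsetProd _ fun i _ => by fun_prop).mul hg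
  · refine mul_ne_zero (Finset.prod_ne_zero_iff.2 fun i hi => ?_) hg0
    have h2 := Finset.ne_of_mem_erase hi
    rw [add_sub_add_right_eq_sub, sub_ne_zero]
    exact_mod_cast h2.symm

theorem Rp_pos (n : ℕ) (x : ℝ) (hx : x < 1) : 0 < Polynomial.aeval x (Rp (2 * n)) := by
  rw [Rp_aeval]
  have h1 : ∏ k ∈ Finset.range (2 * n), (x - ((k : ℝ) + 1)) =
      ∏ k ∈ Finset.range (2 * n), (((k : ℝ) + 1) - x) := by
    have h2 : ∏ k ∈ Finset.range (2 * n), (x - ((k : ℝ) + 1)) =
        ∏ k ∈ Finset.range (2 * n), (-1) * (((k : ℝ) + 1) - x) :=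
      Finset.prod_congr rfl fun k _ => by ring
    rw [h2, Finset.prod_mul_distrib, Finset.prod_const, Finset.card_range, pow_mul]
    norm_num
  rw [h1]
  apply Finset.prod_pos
  intro k _
  have : (0 : ℝ) ≤ k := Nat.cast_nonneg k
  linarith

theorem roots_Q (n : ℕ) : ∀ᶠ c : ℝ in 𝓝[>] 0, ∃ S : Finset ℝ, S.card = 2 * n + 2 ∧
    ∀ x ∈ S, x ^ 2 * Polynomial.aeval x (Rp (2 * n)) = c := by
  classical
  have hcont : Continuous fun x : ℝ => x ^ 2 * Polynomial.aeval x (Rp (2 * n)) := by
    simp only [Rp_aeval]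
    exact (continuous_pow 2).mul (continuous_finsetProd _ fun i _ => by fun_prop)
  let C : Finset ℝ := insert (-1 / 8) (insert (1 / 8)
    ((Finset.range (2 * n)).image fun k : ℕ => ((k : ℝ) + 1)))
  have hC : C.card = 2 * n + 2 := by
    have h1 : ((Finset.range (2 * n)).image fun k : ℕ => ((k : ℝ) + 1)).card = 2 * n := by
      rw [Finset.card_image_of_injective, Finset.card_range]
      intro a b hab
      have : (a : ℝ) + 1 = b + 1 := hab
      exact_mod_cast add_right_cancel this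
    have h2 : (1 / 8 : ℝ) ∉ (Finset.range (2 * n)).image fun k : ℕ => ((k : ℝ) + 1) := by
      intro h
      obtain ⟨k, -, hk⟩ := Finset.mem_image.1 h
      have : (0 : ℝ) ≤ k := Nat.cast_nonneg k
      linarith
    have h3 : (-1 / 8 : ℝ) ∉ insert (1 / 8)
        ((Finset.range (2 * n)).image fun k : ℕ => ((k : ℝ) + 1)) := by
      intro h
      rcases Finset.mem_insert.1 h with h | h
      · norm_num at h
      · obtain ⟨k, -, hk⟩ := Finset.mem_image.1 h
        have : (0 : ℝ) ≤ k := Nat.cast_nonneg k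
        linarith
    rw [Finset.card_insert_of_notMem h3, Finset.card_insert_of_notMem h2, h1]
  have hsep : ∀ r ∈ C, ∀ r' ∈ C, r ≠ r' → 1 / 4 ≤ |r - r'| := by
    have key : ∀ a b : ℕ, (a : ℝ) + 1 ≠ b + 1 → 1 / 4 ≤ |((a : ℝ) + 1) - (b + 1)| := by
      intro a b hab
      have h1 : (a : ℤ) ≠ b := by
        rintro h
        apply hab
        have : (a : ℕ) = b := by exact_mod_cast h
        rw [this]
      have h2 : 1 ≤ |(a : ℤ) - b| := Int.one_le_abs (sub_ne_zero.2 h1)
      have h3 : (1 : ℝ) ≤ |(a : ℝ) - b| := by exact_mod_cast h2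
      rw [add_sub_add_right_eq_sub]
      linarith
    intro r hr r' hr' hne
    simp only [C, Finset.mem_insert, Finset.mem_image, Finset.mem_range] at hr hr'
    rcases hr with rfl | rfl | ⟨a, -, rfl⟩ <;> rcases hr' with rfl | rfl | ⟨b, -, rfl⟩
    · exact absurd rfl hne
    · norm_num
    · have : (0 : ℝ) ≤ b := Nat.cast_nonneg b
      rw [le_abs]; right; linarith
    · norm_num
    · exact absurd rfl hne
    · have : (0 : ℝ) ≤ b := Nat.cast_nonneg b
      rw [le_abs]; right; linarith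
    · have : (0 : ℝ) ≤ a := Nat.cast_nonneg a
      rw [le_abs]; left; linarith
    · have : (0 : ℝ) ≤ a := Nat.cast_nonneg a
      rw [le_abs]; left; linarith
    · exact key a b hne
  have hmain : ∀ᶠ c : ℝ in 𝓝[>] 0, ∀ r ∈ C, ∃ z, |z - r| < 1 / 8 ∧
      z ^ 2 * Polynomial.aeval z (Rp (2 * n)) - c = 0 := by
    have hpos : ∀ x : ℝ, x < 1 → x ≠ 0 → 0 < x ^ 2 * Polynomial.aeval x (Rp (2 * n)) :=
      fun x hx hx0 => mul_pos (by positivity) (Rp_pos n x hx)
    have h1 : ∀ᶠ c : ℝ in 𝓝[>] 0, 0 < c := self_mem_nhdsWithin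
    have h2 : ∀ᶠ c : ℝ in 𝓝[>] 0, c < (1 / 4 : ℝ) ^ 2 * Polynomial.aeval (1 / 4 : ℝ)
        (Rp (2 * n)) :=
      eventually_nhdsWithin_of_eventually_nhds (eventually_lt_nhds (hpos _ (by norm_num)
        (by norm_num)))
    have h3 : ∀ᶠ c : ℝ in 𝓝[>] 0, c < (-1 / 4 : ℝ) ^ 2 * Polynomial.aeval (-1 / 4 : ℝ)
        (Rp (2 * n)) :=
      eventually_nhdsWithin_of_eventually_nhds (eventually_lt_nhds (hpos _ (by norm_num)
        (by norm_num)))
    rw [Filter.eventually_all_finset]
    intro r hr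
    simp only [C, Finset.mem_insert, Finset.mem_image, Finset.mem_range] at hr
    rcases hr with rfl | rfl | ⟨a, ha, rfl⟩
    · filter_upwards [h1, h3] with c hc hc'
      have h4 := intermediate_value_Icc' (a := (-1 / 4 : ℝ)) (b := 0) (by norm_num)
        hcont.continuousOn
      obtain ⟨z, hz, hzc⟩ := h4 (show c ∈ Set.Icc _ _ from ⟨by simpa using hc.le, hc'.le⟩)
      have hzc' : z ^ 2 * Polynomial.aeval z (Rp (2 * n)) = c := hzc
      have hz0 : z ≠ 0 := by
        rintro rfl
        rw [zero_pow two_ne_zero, zero_mul] at hzc'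
        exact hc.ne hzc'
      have hz1 : z ≠ -1 / 4 := by
        rintro rfl
        exact hc'.ne hzc'.symm
      refine ⟨z, ?_, sub_eq_zero.2 hzc'⟩
      rw [abs_lt]
      have h5 := lt_of_le_of_ne hz.1 (Ne.symm hz1)
      have h6 := lt_of_le_of_ne hz.2 hz0
      constructor <;> linarith
    · filter_upwards [h1, h2] with c hc hc'
      have h4 := intermediate_value_Icc (a := (0 : ℝ)) (b := 1 / 4) (by norm_num)
        hcont.continuousOn
      obtain ⟨z, hz, hzc⟩ := h4 (show c ∈ Set.Icc _ _ from ⟨by simpa using hc.le, hc'.le⟩)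
      have hzc' : z ^ 2 * Polynomial.aeval z (Rp (2 * n)) = c := hzc
      have hz0 : z ≠ 0 := by
        rintro rfl
        rw [zero_pow two_ne_zero, zero_mul] at hzc'
        exact hc.ne hzc'
      have hz1 : z ≠ 1 / 4 := by
        rintro rfl
        exact hc'.ne hzc'.symm
      refine ⟨z, ?_, sub_eq_zero.2 hzc'⟩
      rw [abs_lt]
      have h5 := lt_of_le_of_ne hz.1 (Ne.symm hz0)
      have h6 := lt_of_le_of_ne hz.2 hz1
      constructor <;> linarith
    · refine persist_one _ (fun c x => x ^ 2 * Polynomial.aeval x (Rp (2 * n)) - c)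
        (fun c => hcont.sub continuous_const) _ (fun x => ?_) _
        (SC_Rp (2 * n) a ha (fun x => x ^ 2) (continuous_pow 2) ?_) _ (by norm_num)
      · have h7 : Tendsto (fun c : ℝ => x ^ 2 * Polynomial.aeval x (Rp (2 * n)) - c) (𝓝[>] 0)
            (𝓝 (x ^ 2 * Polynomial.aeval x (Rp (2 * n)) - 0)) :=
          tendsto_const_nhds.sub (tendsto_id.mono_left nhdsWithin_le_nhds)
        rwa [sub_zero] at h7
      · positivity
  filter_upwards [hmain] with c hc
  have ht' : ∀ r, ∃ z, r ∈ C → |z - r| < 1 / 8 ∧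
      z ^ 2 * Polynomial.aeval z (Rp (2 * n)) - c = 0 := by
    intro r
    by_cases hr : r ∈ C
    · obtain ⟨z, hz⟩ := hc r hr
      exact ⟨z, fun _ => hz⟩
    · exact ⟨0, fun h => absurd h hr⟩
  choose z hz using ht'
  refine ⟨C.image z, ?_, ?_⟩
  · rw [Finset.card_image_of_injOn, hC]
    intro r hr r' hr' h
    by_contra hne
    have h4 := (hz r hr).1
    have h5 := (hz r' hr').1
    have h6 := hsep r hr r' hr' hne
    have h7 : z r = z r' := h
    rw [h7] at h4
    have h8 : |r - r'| ≤ |z r' - r| + |z r' - r'| := by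
      have := abs_sub_le r (z r') r'
      rwa [abs_sub_comm r (z r')] at this
    linarith
  · intro x hx
    obtain ⟨r, hr, rfl⟩ := Finset.mem_image.1 hx
    exact sub_eq_zero.1 (hz r hr).2

/-- The polynomial `(X² + η²) ∏ (X - k)`. -/
noncomputable def Pp (n : ℕ) (η : ℚ) : Polynomial ℚ :=
  (Polynomial.X ^ 2 + Polynomial.C (η ^ 2)) * Rp (2 * n)

theorem Pp_aeval {E : Type} [CommRing E] [Algebra ℚ E] (n : ℕ) (η : ℚ) (x : E) :
    Polynomial.aeval x (Pp n η) = (x ^ 2 + algebraMap ℚ E η ^ 2) *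
      Polynomial.aeval x (Rp (2 * n)) := by
  simp [Pp]

theorem Pp_monic (n : ℕ) (η : ℚ) : (Pp n η).Monic ∧ (Pp n η).natDegree = 2 * n + 2 := by
  have h1 : (Polynomial.X ^ 2 + Polynomial.C (η ^ 2)).Monic :=
    Polynomial.monic_X_pow_add_C _ two_ne_zero
  have h2 : (Polynomial.X ^ 2 + Polynomial.C (η ^ 2)).natDegree = 2 :=
    Polynomial.natDegree_X_pow_add_C
  refine ⟨h1.mul (Rp_monic _).1, ?_⟩
  unfold Pp
  rw [h1.natDegree_mul (Rp_monic _).1, h2, (Rp_monic _).2]
  ring

theorem exists_K_eta (n : ℕ) (Δ : Finset ℚ) (hΔ : ∀ δ ∈ Δ, 0 < δ) : ∃ K η : ℚ, 0 < K ∧ 0 < η ∧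
    ∀ δ ∈ Δ, ∃ S : Finset ℝ, S.card = 2 * n + 2 ∧
      ∀ x ∈ S, (K : ℝ) * Polynomial.aeval x (Pp n η) - (δ : ℝ) = 0 := by
  classical
  have h1 : ∀ᶠ N : ℕ in atTop, ∀ δ ∈ Δ, ∃ S : Finset ℝ, S.card = 2 * n + 2 ∧
      ∀ x ∈ S, x ^ 2 * Polynomial.aeval x (Rp (2 * n)) = (δ : ℝ) / (N : ℝ) := by
    rw [Filter.eventually_all_finset]
    intro δ hδ
    have h2 : Tendsto (fun N : ℕ => (δ : ℝ) / (N : ℝ)) atTop (𝓝[>] 0) := by
      rw [tendsto_nhdsWithin_iff]
      refine ⟨tendsto_const_div_atTop_nhds_zero_nat _, ?_⟩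
      filter_upwards [eventually_gt_atTop 0] with N hN
      have h3 : (0 : ℝ) < δ := by exact_mod_cast hΔ δ hδ
      have h4 : (0 : ℝ) < N := by exact_mod_cast hN
      exact div_pos h3 h4
    exact h2.eventually (roots_Q n)
  obtain ⟨N, hN, hN0⟩ := (h1.and (eventually_gt_atTop 0)).exists
  have hN0' : (0 : ℝ) < N := by exact_mod_cast hN0
  have h2 : ∀ᶠ N' : ℕ in atTop, ∀ δ ∈ Δ, ∃ S : Finset ℝ, S.card = 2 * n + 2 ∧
      ∀ x ∈ S, (x ^ 2 + (1 / ((N' : ℝ) + 1)) ^ 2) * Polynomial.aeval x (Rp (2 * n)) -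
        (δ : ℝ) / (N : ℝ) = 0 := by
    rw [Filter.eventually_all_finset]
    intro δ hδ
    obtain ⟨S, hS, hSr⟩ := hN δ hδ
    let p : Polynomial ℝ := Polynomial.X ^ 2 * (Rp (2 * n)).map (algebraMap ℚ ℝ) -
      Polynomial.C ((δ : ℝ) / (N : ℝ))
    have hpe : ∀ x, p.eval x = x ^ 2 * Polynomial.aeval x (Rp (2 * n)) - (δ : ℝ) / (N : ℝ) := by
      intro x
      simp [p, Polynomial.eval_map_algebraMap]
    have hpd : p.natDegree = 2 * n + 2 := by
      have h3 : (Polynomial.X ^ 2 * (Rp (2 * n)).map (algebraMap ℚ ℝ) :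
          Polynomial ℝ).natDegree = 2 * n + 2 := by
        rw [(Polynomial.monic_X_pow 2).natDegree_mul ((Rp_monic _).1.map _),
          Polynomial.natDegree_X_pow, (Rp_monic _).1.natDegree_map, (Rp_monic _).2]
        ring
      rw [Polynomial.natDegree_sub_C, h3]
    have hp0 : p ≠ 0 := by
      intro h
      rw [h, Polynomial.natDegree_zero] at hpd
      omega
    have hSC : ∀ r ∈ S, SC (fun x => p.eval x) r := by
      intro r hr
      apply SC_of_simple
      exact simple_of_card p hp0 S (fun r hr => by rw [hpe, hSr r hr, sub_self])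
        (by rw [hpd, hS]) r hr
    obtain ⟨R, hR⟩ : ∃ R : ℝ, ∀ r ∈ S, |r| < R := by
      obtain ⟨R, hR⟩ := (S.image fun r => |r|).finite_toSet.bddAbove
      refine ⟨R + 1, fun r hr => ?_⟩
      have := hR (Finset.mem_coe.2 (Finset.mem_image_of_mem (fun r => |r|) hr))
      linarith
    have h3 := persist atTop (fun (N' : ℕ) (x : ℝ) => (x ^ 2 + (1 / ((N' : ℝ) + 1)) ^ 2) *
      Polynomial.aeval x (Rp (2 * n)) - (δ : ℝ) / (N : ℝ)) (fun N' => by
        simp only [Rp_aeval]
        refine Continuous.sub (Continuous.mul (by fun_prop)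
          (continuous_finsetProd _ fun i _ => by fun_prop)) continuous_const)
      (fun x => p.eval x) (fun x => by
        rw [hpe]
        have h4 : Tendsto (fun N' : ℕ => (x ^ 2 + (1 / ((N' : ℝ) + 1)) ^ 2) *
            Polynomial.aeval x (Rp (2 * n)) - (δ : ℝ) / (N : ℝ)) atTop
            (𝓝 ((x ^ 2 + 0 ^ 2) * Polynomial.aeval x (Rp (2 * n)) - (δ : ℝ) / (N : ℝ))) := by
          refine Tendsto.sub (Tendsto.mul (tendsto_const_nhds.add
            (tendsto_one_div_add_atTop_nhds_zero_nat.pow 2)) tendsto_const_nhds)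
            tendsto_const_nhds
        have h5 : x ^ 2 + (0 : ℝ) ^ 2 = x ^ 2 := by ring
        rwa [h5] at h4) S R hR hSC
    filter_upwards [h3] with N' h
    obtain ⟨T', hT', hT''⟩ := h
    exact ⟨T', hT'.trans hS, fun x hx => (hT'' x hx).2⟩
  obtain ⟨N', hN'⟩ := h2.exists
  refine ⟨N, 1 / ((N' : ℚ) + 1), by exact_mod_cast hN0, by positivity, fun δ hδ => ?_⟩
  obtain ⟨S, hS, hSr⟩ := hN' δ hδ
  refine ⟨S, hS, fun x hx => ?_⟩
  have h3 := hSr x hx
  rw [sub_eq_zero, eq_div_iff hN0'.ne'] at h3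
  rw [Pp_aeval, sub_eq_zero, ← h3]
  simp
  ring

end poly

end Pool.Agent.H391R2
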