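import Mathlib
import Pool.Agent.H391R2.WrPoly

namespace Pool.Agent.H391R2

open Filter Topology MvPolynomial

section rm

variable {G : Type} [Group G] [Fintype G]

/-- The fixed part of the family. -/
noncomputable def bs (l : G → ℚ) (K η : ℚ) (n : ℕ) :
    Option (Fin (Fintype.card G)) → Polynomial ℚ
  | none => Polynomial.C (aeval l (y0 ℚ G)) + Polynomial.C K * Pp n η
  | some i => Polynomial.C (aeval l (esymm G ℚ (i + 1)))

/-- Index type of the parameters. -/
abbrev Ix (G : Type) [Fintype G] : Type :=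
  Option (Fin (Fintype.card G)) ⊕ Option (Fin (Fintype.card G))

omit [Group G] [Fintype G] in
theorem aeval_algebraMap_rat {E : Type} [CommRing E] [Algebra ℚ E] (l : G → ℚ)
    (q : MvPolynomial G ℚ) :
    aeval (fun g => algebraMap ℚ E (l g)) q = algebraMap ℚ E (aeval l q) := by
  have h := comp_aeval_apply (f := l) (φ := Algebra.ofId ℚ E) q
  exact h.symm

theorem Phi_zero_eval (l : G → ℚ) (K η : ℚ) (n j : ℕ)
    (Ψ : Polynomial (MvPolynomial (Fin (Fintype.card G)) ℚ))
    (hΨ : Ψ.map ((aeval fun i : Fin (Fintype.card G) => esymm G ℚ (i + 1) :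
      MvPolynomial (Fin (Fintype.card G)) ℚ →ₐ[ℚ] MvPolynomial G ℚ) :
      MvPolynomial (Fin (Fintype.card G)) ℚ →+* MvPolynomial G ℚ) =
      ∏ q ∈ orb ℚ G, (Polynomial.X - Polynomial.C q))
    {E : Type} [CommRing E] [Algebra ℚ E] (s : E) :
    (Phi (bs l K η n) (Rp j) Ψ (0 : Ix G → E)).eval s =
      ∏ q ∈ orb ℚ G, (algebraMap ℚ E K * Polynomial.aeval s (Pp n η) -
        algebraMap ℚ E (aeval l q - aeval l (y0 ℚ G))) := by
  rw [Phi_eval_prod (bs l K η n) (Rp j) Ψ hΨ 0 s (fun g => algebraMap ℚ E (l g))]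
  · refine Finset.prod_congr rfl fun q _ => ?_
    rw [aeval_algebraMap_rat, fam_eval]
    simp only [bs, map_add, map_mul, Polynomial.aeval_C, Pi.zero_apply, map_sub]
    ring
  · intro i
    rw [aeval_algebraMap_rat, fam_eval]
    simp only [bs, Polynomial.aeval_C, Pi.zero_apply]
    ring

theorem fam_natDegree_some (l : G → ℚ) (K η : ℚ) (n j : ℕ) {E : Type} [Field E] [Algebra ℚ E]
    (θ : Option (Fin (Fintype.card G)) ⊕ Option (Fin (Fintype.card G)) → E)
    (i : Fin (Fintype.card G)) : (fam G (bs l K η n) (Rp j) θ (some i)).natDegree ≤ j + 1 := by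
  unfold fam bs
  refine (Polynomial.natDegree_add_le _ _).trans (max_le ?_ ?_)
  · rw [Polynomial.map_C, Polynomial.natDegree_C]
    exact Nat.zero_le _
  · refine Polynomial.natDegree_mul_le.trans ?_
    rw [Polynomial.natDegree_map, (Rp_monic j).2]
    refine Nat.add_le_add_left ?_ _
    compute_degree

theorem fam_natDegree_none (l : G → ℚ) (K η : ℚ) (hK : K ≠ 0) (n j : ℕ) (hj : j ≤ 2 * n)
    {E : Type} [Field E] [Algebra ℚ E]
    (θ : Option (Fin (Fintype.card G)) ⊕ Option (Fin (Fintype.card G)) → E) :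
    (fam G (bs l K η n) (Rp j) θ none).natDegree = 2 * n + 2 ∧
    (fam G (bs l K η n) (Rp j) θ none).leadingCoeff = algebraMap ℚ E K := by
  have hK' : algebraMap ℚ E K ≠ 0 := by
    rw [_root_.map_ne_zero]
    exact hK
  have h1 : (Polynomial.C (algebraMap ℚ E K) * (Pp n η).map (algebraMap ℚ E)).natDegree =
      2 * n + 2 := by
    rw [Polynomial.natDegree_C_mul hK', Polynomial.natDegree_map, (Pp_monic n η).2]
  have h2 : (Polynomial.C (algebraMap ℚ E K) * (Pp n η).map (algebraMap ℚ E)).leadingCoeff =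
      algebraMap ℚ E K := by
    rw [Polynomial.leadingCoeff_mul, Polynomial.leadingCoeff_C,
      ((Pp_monic n η).1.map _).leadingCoeff, mul_one]
  have h3 : fam G (bs l K η n) (Rp j) θ none =
      (Polynomial.C (algebraMap ℚ E (aeval l (y0 ℚ G))) + (Rp j).map (algebraMap ℚ E) *
        (Polynomial.C (θ (Sum.inl none)) + Polynomial.C (θ (Sum.inr none)) * Polynomial.X)) +
      (Polynomial.C (algebraMap ℚ E K) * (Pp n η).map (algebraMap ℚ E)) := by
    unfold fam bs
    rw [Polynomial.map_add, Polynomial.map_mul, Polynomial.map_C, Polynomial.map_C]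
    ring
  have h4 : (Polynomial.C (algebraMap ℚ E (aeval l (y0 ℚ G))) + (Rp j).map (algebraMap ℚ E) *
        (Polynomial.C (θ (Sum.inl none)) +
          Polynomial.C (θ (Sum.inr none)) * Polynomial.X)).natDegree <
      (Polynomial.C (algebraMap ℚ E K) * (Pp n η).map (algebraMap ℚ E)).natDegree := by
    rw [h1]
    refine lt_of_le_of_lt (b := j + 1) ?_ (by omega)
    refine (Polynomial.natDegree_add_le _ _).trans (max_le ?_ ?_)
    · rw [Polynomial.natDegree_C]
      exact Nat.zero_le _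
    · refine Polynomial.natDegree_mul_le.trans ?_
      rw [Polynomial.natDegree_map, (Rp_monic j).2]
      refine Nat.add_le_add_left ?_ _
      compute_degree
  rw [h3]
  refine ⟨?_, ?_⟩
  · rw [Polynomial.natDegree_add_eq_right_of_natDegree_lt h4, h1]
  · rw [Polynomial.leadingCoeff_add_of_degree_lt (Polynomial.degree_lt_degree h4), h2]

theorem Phi_natDegree (l : G → ℚ) (K η : ℚ) (hK : K ≠ 0) (n j : ℕ) (hj : j ≤ 2 * n)
    (Ψ : Polynomial (MvPolynomial (Fin (Fintype.card G)) ℚ)) (hm : Ψ.Monic) (T : ℕ)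
    (hT : ∀ e, (Ψ.coeff e).totalDegree ≤ T) (hTn : T * (j + 1) < 2 * n + 2)
    {E : Type} [Field E] [Algebra ℚ E]
    (θ : Option (Fin (Fintype.card G)) ⊕ Option (Fin (Fintype.card G)) → E) :
    (Phi (bs l K η n) (Rp j) Ψ θ).natDegree = Ψ.natDegree * (2 * n + 2) ∧
    (Phi (bs l K η n) (Rp j) Ψ θ).leadingCoeff = (algebraMap ℚ E K) ^ Ψ.natDegree := by
  obtain ⟨h1, h2⟩ := fam_natDegree_none l K η hK n j hj θ
  have h3 := natDegree_eval₂ Ψ hm ((aeval fun i => fam G (bs l K η n) (Rp j) θ (some i) :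
    MvPolynomial (Fin (Fintype.card G)) ℚ →ₐ[ℚ] Polynomial E) :
    MvPolynomial (Fin (Fintype.card G)) ℚ →+* Polynomial E)
    (fam G (bs l K η n) (Rp j) θ none) (2 * n + 2) (T * (j + 1)) h1 hTn (fun e =>
      natDegree_aeval_le _ _ T (j + 1) (hT e) (fam_natDegree_some l K η n j θ))
  rw [h2] at h3
  exact h3

end rm

end Pool.Agent.H391R2
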