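import Mathlib
import Pool.Agent.H391R2.WrRM
import Pool.Agent.H391R2.NtB

namespace Pool.Agent.H391R2

open Filter Topology MvPolynomial

section rn

variable {G : Type} [Group G] [Fintype G]

/-- Perturbed tuple. -/
noncomputable def pert (base : Option (Fin (Fintype.card G)) → Polynomial ℚ) {J : ℕ} {E : Type}
    [CommRing E] [Algebra ℚ E] (d : Option (Fin (Fintype.card G)) × Fin J → E)
    (i : Option (Fin (Fintype.card G))) : Polynomial E :=
  (base i).map (algebraMap ℚ E) + ∑ e : Fin J, Polynomial.C (d (i, e)) * Polynomial.X ^ (e : ℕ)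

omit [Group G] in
theorem pert_map (base : Option (Fin (Fintype.card G)) → Polynomial ℚ) {J : ℕ} {E E' : Type}
    [CommRing E] [Algebra ℚ E] [CommRing E'] [Algebra ℚ E'] (f : E →ₐ[ℚ] E')
    (d : Option (Fin (Fintype.card G)) × Fin J → E) (i : Option (Fin (Fintype.card G))) :
    (pert base d i).map (f : E →+* E') = pert base (f ∘ d) i := by
  have : (f : E →+* E').comp (algebraMap ℚ E) = algebraMap ℚ E' := f.comp_algebraMap
  simp only [pert, Polynomial.map_add, Polynomial.map_sum, Polynomial.map_mul, Polynomial.map_map,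
    Polynomial.map_C, Polynomial.map_pow, Polynomial.map_X, Function.comp_apply, RingHom.coe_coe,
    this]

omit [Group G] in
theorem pert_eval (base : Option (Fin (Fintype.card G)) → Polynomial ℚ) {J : ℕ} {E : Type}
    [CommRing E] [Algebra ℚ E] (d : Option (Fin (Fintype.card G)) × Fin J → E)
    (i : Option (Fin (Fintype.card G))) (s : E) :
    (pert base d i).eval s = Polynomial.aeval s (base i) + ∑ e : Fin J, d (i, e) * s ^ (e : ℕ) := by
  simp [pert, Polynomial.eval_map_algebraMap, Polynomial.eval_finsetSum]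

omit [Group G] in
theorem continuous_pert (base : Option (Fin (Fintype.card G)) → Polynomial ℚ) {J : ℕ}
    {E : Type} [CommRing E] [TopologicalSpace E] [IsTopologicalRing E]
    [Algebra ℚ E] (i : Option (Fin (Fintype.card G))) :
    Continuous fun p : (Option (Fin (Fintype.card G)) × Fin J → E) × E =>
      (pert base p.1 i).eval p.2 := by
  simp only [pert_eval]
  have h1 : ∀ q : Polynomial ℚ, Continuous fun s : E => Polynomial.aeval s q := by
    intro q
    simp only [← Polynomial.eval_map_algebraMap]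
    exact (q.map (algebraMap ℚ E)).continuous
  exact ((h1 _).comp continuous_snd).add (continuous_finsetSum _ fun e _ =>
    ((continuous_apply _).comp continuous_fst).mul (continuous_snd.pow _))

omit [Group G] in
theorem continuous_PhiP_pert (base : Option (Fin (Fintype.card G)) → Polynomial ℚ)
    (Ψ : Polynomial (MvPolynomial (Fin (Fintype.card G)) ℚ)) {J : ℕ}
    {E : Type} [CommRing E] [TopologicalSpace E] [IsTopologicalRing E] [Algebra ℚ E] :
    Continuous fun p : (Option (Fin (Fintype.card G)) × Fin J → E) × E =>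
      (PhiP Ψ (pert base p.1)).eval p.2 := by
  simp only [PhiP_eval, Polynomial.eval_map, Polynomial.eval₂_eq_sum_range]
  refine continuous_finsetSum _ fun e _ => ?_
  refine Continuous.mul ?_ ((continuous_pert base none).pow e)
  have h1 := continuous_aeval_mv (E := E) (Ψ.coeff e)
  exact h1.comp (continuous_pi fun i => continuous_pert base (some i))

/-- The degree of the eliminant. -/
theorem PhiP_natDegree {k : Type} [Field k] {G : Type} [Fintype G]
    (Ψ : Polynomial (MvPolynomial (Fin (Fintype.card G)) k)) (hm : Ψ.Monic) (T : ℕ)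
    (hT : ∀ e, (Ψ.coeff e).totalDegree ≤ T) {E : Type} [Field E] [Algebra k E]
    (P : Option (Fin (Fintype.card G)) → Polynomial E) (B M : ℕ) (hB : T * B < M)
    (hsome : ∀ i, (P (some i)).natDegree ≤ B) (hnone : (P none).natDegree = M) :
    (PhiP Ψ P).natDegree = Ψ.natDegree * M ∧
      (PhiP Ψ P).leadingCoeff = (P none).leadingCoeff ^ Ψ.natDegree :=
  natDegree_eval₂ Ψ hm ((aeval fun i => P (some i) :
    MvPolynomial (Fin (Fintype.card G)) k →ₐ[k] Polynomial E) :
    MvPolynomial (Fin (Fintype.card G)) k →+* Polynomial E) (P none) M (T * B) hnone hB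
    (fun e => natDegree_aeval_le _ _ T B (hT e) hsome)

/-- The base tuple. -/
noncomputable def bsQ (l : G → ℚ) (Q : Polynomial ℚ) :
    Option (Fin (Fintype.card G)) → Polynomial ℚ
  | none => Polynomial.C (aeval l (y0 ℚ G)) + Q
  | some i => Polynomial.C (aeval l (esymm G ℚ (i + 1)))

theorem bsQ_eval_prod (l : G → ℚ) (Q : Polynomial ℚ)
    (Ψ : Polynomial (MvPolynomial (Fin (Fintype.card G)) ℚ))
    (hΨ : Ψ.map ((aeval fun i : Fin (Fintype.card G) => esymm G ℚ (i + 1) :
      MvPolynomial (Fin (Fintype.card G)) ℚ →ₐ[ℚ] MvPolynomial G ℚ) :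
      MvPolynomial (Fin (Fintype.card G)) ℚ →+* MvPolynomial G ℚ) =
      ∏ q ∈ orb ℚ G, (Polynomial.X - Polynomial.C q))
    {E : Type} [CommRing E] [Algebra ℚ E] (s : E) :
    (PhiP Ψ (fun i => (bsQ l Q i).map (algebraMap ℚ E))).eval s =
      ∏ q ∈ orb ℚ G, (Polynomial.aeval s Q -
        algebraMap ℚ E (aeval l q - aeval l (y0 ℚ G))) := by
  rw [PhiP_eval_prod Ψ hΨ _ s (fun g => algebraMap ℚ E (l g))]
  · refine Finset.prod_congr rfl fun q _ => ?_
    rw [aeval_algebraMap_rat, Polynomial.eval_map_algebraMap]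
    simp only [bsQ, map_add, Polynomial.aeval_C, map_sub]
    ring
  · intro i
    rw [aeval_algebraMap_rat, Polynomial.eval_map_algebraMap]
    simp only [bsQ, Polynomial.aeval_C]

omit [Group G] in
theorem pert_zero (base : Option (Fin (Fintype.card G)) → Polynomial ℚ) {J : ℕ} {E : Type}
    [CommRing E] [Algebra ℚ E] :
    pert base (0 : Option (Fin (Fintype.card G)) × Fin J → E) =
      fun i => (base i).map (algebraMap ℚ E) := by
  funext i
  simp [pert]

omit [Group G] in
theorem pert_natDegree_le (base : Option (Fin (Fintype.card G)) → Polynomial ℚ) {J : ℕ} {E : Type}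
    [Field E] [Algebra ℚ E] (d : Option (Fin (Fintype.card G)) × Fin J → E)
    (i : Option (Fin (Fintype.card G))) (h : (base i).natDegree ≤ J) :
    (pert base d i).natDegree ≤ J := by
  unfold pert
  refine (Polynomial.natDegree_add_le _ _).trans (max_le (by rwa [Polynomial.natDegree_map]) ?_)
  apply Polynomial.natDegree_sum_le_of_forall_le
  intro e _
  exact (Polynomial.natDegree_C_mul_X_pow_le _ _).trans e.2.le

theorem pert_bsQ_degree (l : G → ℚ) (Q : Polynomial ℚ) (M : ℕ) (hQ : Q.natDegree = M)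
    {J : ℕ} (hJ : J ≤ M) (hM : 0 < M) {E : Type} [Field E] [Algebra ℚ E]
    (d : Option (Fin (Fintype.card G)) × Fin J → E) :
    (∀ i, (pert (bsQ l Q) d (some i)).natDegree ≤ J) ∧
    (pert (bsQ l Q) d none).natDegree = M ∧
    (pert (bsQ l Q) d none).leadingCoeff = algebraMap ℚ E Q.leadingCoeff := by
  have h2 : (Q.map (algebraMap ℚ E)).natDegree = M := by
    rw [Polynomial.natDegree_map, hQ]
  have h3 : pert (bsQ l Q) d none = (Polynomial.C (algebraMap ℚ E (aeval l (y0 ℚ G))) +
      ∑ e : Fin J, Polynomial.C (d (none, e)) * Polynomial.X ^ (e : ℕ)) +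
      Q.map (algebraMap ℚ E) := by
    simp only [pert, bsQ, Polynomial.map_add, Polynomial.map_C]
    ring
  have h4 : (Polynomial.C (algebraMap ℚ E (aeval l (y0 ℚ G))) +
      ∑ e : Fin J, Polynomial.C (d (none, e)) * Polynomial.X ^ (e : ℕ)).natDegree <
      (Q.map (algebraMap ℚ E)).natDegree := by
    rw [h2]
    refine lt_of_le_of_lt (b := M - 1) ?_ (by omega)
    refine (Polynomial.natDegree_add_le _ _).trans (max_le ?_ ?_)
    · rw [Polynomial.natDegree_C]
      exact Nat.zero_le _
    · apply Polynomial.natDegree_sum_le_of_forall_le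
      intro e _
      refine (Polynomial.natDegree_C_mul_X_pow_le _ _).trans ?_
      have := e.2
      omega
  refine ⟨fun i => pert_natDegree_le _ d _ ?_, ?_, ?_⟩
  · simp only [bsQ, Polynomial.natDegree_C]
    exact Nat.zero_le _
  · rw [h3, Polynomial.natDegree_add_eq_right_of_natDegree_lt h4, h2]
  · rw [h3, Polynomial.leadingCoeff_add_of_degree_lt (Polynomial.degree_lt_degree h4),
      Polynomial.leadingCoeff_map]

theorem PhiP_pert_degree (l : G → ℚ) (Q : Polynomial ℚ) (M : ℕ) (hQ : Q.natDegree = M)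
    {J : ℕ} (hJ : J ≤ M) (hM : 0 < M)
    (Ψ : Polynomial (MvPolynomial (Fin (Fintype.card G)) ℚ)) (hm : Ψ.Monic) (T : ℕ)
    (hT : ∀ e, (Ψ.coeff e).totalDegree ≤ T) (hTn : T * J < M)
    {E : Type} [Field E] [Algebra ℚ E] (d : Option (Fin (Fintype.card G)) × Fin J → E) :
    (PhiP Ψ (pert (bsQ l Q) d)).natDegree = Ψ.natDegree * M ∧
    (PhiP Ψ (pert (bsQ l Q) d)).leadingCoeff = (algebraMap ℚ E Q.leadingCoeff) ^ Ψ.natDegree := by
  obtain ⟨h1, h2, h3⟩ := pert_bsQ_degree l Q M hQ hJ hM d
  rw [← h3]
  exact PhiP_natDegree Ψ hm T hT _ J M hTn h1 h2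

end rn

end Pool.Agent.H391R2
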