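import Mathlib
import Pool.Agent.H391R2.RnA

namespace Pool.Agent.H391R2

open Filter Topology MvPolynomial

section rn2

variable {G : Type} [Group G] [Fintype G]

/-- Real roots. -/
theorem real_rootsQ (l : G → ℚ)
    (hdist : ∀ q ∈ orb ℚ G, ∀ q' ∈ orb ℚ G, q ≠ q' → (aeval l q : ℚ) ≠ aeval l q')
    (Q : Polynomial ℚ) (M : ℕ) (hQ : Q.natDegree = M) (hM : 0 < M) (J : ℕ)
    (Ψ : Polynomial (MvPolynomial (Fin (Fintype.card G)) ℚ))
    (hΨ : Ψ.map ((aeval fun i : Fin (Fintype.card G) => esymm G ℚ (i + 1) :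
      MvPolynomial (Fin (Fintype.card G)) ℚ →ₐ[ℚ] MvPolynomial G ℚ) :
      MvPolynomial (Fin (Fintype.card G)) ℚ →+* MvPolynomial G ℚ) =
      ∏ q ∈ orb ℚ G, (Polynomial.X - Polynomial.C q))
    (S0 : Finset ℝ) (hS0 : ∀ x ∈ S0, Polynomial.aeval x Q = 0 ∧
      SC (fun x => Polynomial.aeval x Q) x)
    (hKη : ∀ q ∈ orb ℚ G, q ≠ y0 ℚ G → ∃ S : Finset ℝ, S.card = M ∧
      ∀ x ∈ S, Polynomial.aeval x Q -
        ((aeval l q - aeval l (y0 ℚ G) : ℚ) : ℝ) = 0) :
    ∃ R : ℝ, 0 < R ∧ ∀ᶠ d in 𝓝 (0 : Option (Fin (Fintype.card G)) × Fin J → ℝ),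
      ∃ T' : Finset ℝ, T'.card = S0.card + ((orb ℚ G).card - 1) * M ∧
      ∀ x ∈ T', |x| < R ∧ (PhiP Ψ (pert (bsQ l Q) d)).eval x = 0 := by
  classical
  have hex : ∀ q, ∃ S : Finset ℝ, q ∈ orb ℚ G → q ≠ y0 ℚ G → S.card = M ∧
      ∀ x ∈ S, Polynomial.aeval x Q -
        ((aeval l q - aeval l (y0 ℚ G) : ℚ) : ℝ) = 0 := by
    intro q
    by_cases h : q ∈ orb ℚ G ∧ q ≠ y0 ℚ G
    · obtain ⟨S, hS⟩ := hKη q h.1 h.2
      exact ⟨S, fun _ _ => hS⟩
    · exact ⟨∅, fun h1 h2 => absurd ⟨h1, h2⟩ h⟩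
  choose S hS using hex
  let S1 : Finset ℝ := ((orb ℚ G).erase (y0 ℚ G)).biUnion S
  have hinj : ∀ q ∈ orb ℚ G, ∀ q' ∈ orb ℚ G, q ≠ q' →
      ((aeval l q - aeval l (y0 ℚ G) : ℚ) : ℝ) ≠ ((aeval l q' - aeval l (y0 ℚ G) : ℚ) : ℝ) := by
    intro q hq q' hq' hne h
    apply hdist q hq q' hq' hne
    have h1 : (aeval l q - aeval l (y0 ℚ G) : ℚ) = aeval l q' - aeval l (y0 ℚ G) := by
      exact_mod_cast h
    exact sub_left_injective h1
  have hS1 : S1.card = ((orb ℚ G).card - 1) * M := by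
    rw [Finset.card_biUnion]
    · rw [Finset.sum_congr rfl (fun q hq => (hS q (Finset.mem_of_mem_erase hq)
        (Finset.ne_of_mem_erase hq)).1), Finset.sum_const, Finset.card_erase_of_mem
        (y0_mem_orb ℚ G), smul_eq_mul]
    · intro q hq q' hq' hne
      rw [Function.onFun, Finset.disjoint_left]
      intro x hx hx'
      have h1 := (hS q (Finset.mem_of_mem_erase hq) (Finset.ne_of_mem_erase hq)).2 x hx
      have h2 := (hS q' (Finset.mem_of_mem_erase hq') (Finset.ne_of_mem_erase hq')).2 x hx'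
      apply hinj q (Finset.mem_of_mem_erase hq) q' (Finset.mem_of_mem_erase hq') hne
      linarith
  have hdisj : Disjoint S0 S1 := by
    rw [Finset.disjoint_left]
    intro x hx hx'
    obtain ⟨q, hq, hxq⟩ := Finset.mem_biUnion.1 hx'
    have h1 := (hS q (Finset.mem_of_mem_erase hq) (Finset.ne_of_mem_erase hq)).2 x hxq
    rw [(hS0 x hx).1] at h1
    apply hinj q (Finset.mem_of_mem_erase hq) _ (y0_mem_orb ℚ G) (Finset.ne_of_mem_erase hq)
    rw [sub_self, Rat.cast_zero]
    linarith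
  have hcard : (S0 ∪ S1).card = S0.card + ((orb ℚ G).card - 1) * M := by
    rw [Finset.card_union_of_disjoint hdisj, hS1]
  -- sign changes
  let f : ℝ → ℝ := fun x => (PhiP Ψ (pert (bsQ l Q)
    (0 : Option (Fin (Fintype.card G)) × Fin J → ℝ))).eval x
  let fac : MvPolynomial G ℚ → ℝ → ℝ := fun q x => Polynomial.aeval x Q -
        ((aeval l q - aeval l (y0 ℚ G) : ℚ) : ℝ)
  have hf : ∀ x, f x = ∏ q ∈ orb ℚ G, fac q x := by
    intro x
    simp only [f]
    rw [pert_zero, bsQ_eval_prod l Q Ψ hΨ]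
    rfl
  have hQc : Continuous fun x : ℝ => Polynomial.aeval x Q := by
    simp only [← Polynomial.eval_map_algebraMap]
    exact (Q.map (algebraMap ℚ ℝ)).continuous
  have hfaccont : ∀ q, Continuous (fac q) := fun q => hQc.sub continuous_const
  have hSCf : ∀ q ∈ orb ℚ G, ∀ r, SC (fac q) r → fac q r = 0 → SC f r := by
    intro q hq r hr hr0
    have h1 : f = fun x => fac q x * ∏ q' ∈ (orb ℚ G).erase q, fac q' x := by
      funext x
      rw [hf, Finset.mul_prod_erase _ (fun q' => fac q' x) hq]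
    rw [h1]
    apply hr.mul
    · exact (continuous_finsetProd _ fun i _ => hfaccont i).continuousAt
    · refine Finset.prod_ne_zero_iff.2 fun q' hq' h0 => ?_
      apply hinj q hq q' (Finset.mem_of_mem_erase hq') (Finset.ne_of_mem_erase hq').symm
      simp only [fac] at hr0 h0
      linarith
  have hSC : ∀ r ∈ S0 ∪ S1, SC f r := by
    intro r hr
    rcases Finset.mem_union.1 hr with hr | hr
    · refine hSCf _ (y0_mem_orb ℚ G) r ?_ ?_
      · have h3 : fac (y0 ℚ G) = fun x => Polynomial.aeval x Q := by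
          funext x
          simp only [fac, sub_self, Rat.cast_zero, sub_zero]
        rw [h3]
        exact (hS0 r hr).2
      · simp only [fac]
        rw [(hS0 r hr).1]
        simp
    · obtain ⟨q, hq, hrq⟩ := Finset.mem_biUnion.1 hr
      obtain ⟨h1, h2⟩ := hS q (Finset.mem_of_mem_erase hq) (Finset.ne_of_mem_erase hq)
      refine hSCf q (Finset.mem_of_mem_erase hq) r ?_ (h2 r hrq)
      let p : Polynomial ℝ := Q.map (algebraMap ℚ ℝ) -
        Polynomial.C ((aeval l q - aeval l (y0 ℚ G) : ℚ) : ℝ)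
      have hpe : ∀ x, p.eval x = fac q x := by
        intro x
        simp only [p, fac, Polynomial.eval_sub, Polynomial.eval_C,
          Polynomial.eval_map_algebraMap]
      have hpd : p.natDegree = M := by
        rw [Polynomial.natDegree_sub_C, Polynomial.natDegree_map, hQ]
      have hp0 : p ≠ 0 := by
        intro h
        rw [h, Polynomial.natDegree_zero] at hpd
        omega
      have h3 : (fun x => p.eval x) = fac q := funext hpe
      rw [← h3]
      apply SC_of_simple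
      exact simple_of_card p hp0 (S q) (fun r hr => by rw [hpe]; exact h2 r hr)
        (by rw [hpd, h1]) r hrq
  obtain ⟨R, hR0, hR⟩ : ∃ R : ℝ, 0 < R ∧ ∀ r ∈ S0 ∪ S1, |r| < R := by
    obtain ⟨R, hR⟩ := ((S0 ∪ S1).image fun r => |r|).finite_toSet.bddAbove
    refine ⟨max R 0 + 1, by positivity, fun r hr => ?_⟩
    have := hR (Finset.mem_coe.2 (Finset.mem_image_of_mem (fun r => |r|) hr))
    have h2 := le_max_left R 0
    linarith
  refine ⟨R, hR0, ?_⟩
  have h4 := persist (𝓝 (0 : Option (Fin (Fintype.card G)) × Fin J → ℝ))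
    (fun d x => (PhiP Ψ (pert (bsQ l Q) d)).eval x)
    (fun d => (PhiP Ψ (pert (bsQ l Q) d)).continuous) f (fun x => by
      have h5 := (continuous_PhiP_pert (bsQ l Q) Ψ (J := J) (E := ℝ)).comp
        (Continuous.prodMk_left x :
          Continuous fun d : Option (Fin (Fintype.card G)) × Fin J → ℝ => (d, x))
      exact h5.tendsto 0) (S0 ∪ S1) R hR hSC
  filter_upwards [h4] with d hd
  obtain ⟨T', h5, h6⟩ := hd
  exact ⟨T', by rw [h5, hcard], h6⟩

/-- A non-real root. -/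
theorem nonreal_rootQ (l : G → ℚ) (Q : Polynomial ℚ) (M : ℕ) (hQ : Q.natDegree = M)
    (hM : 0 < M) (J : ℕ) (hJ : J ≤ M)
    (Ψ : Polynomial (MvPolynomial (Fin (Fintype.card G)) ℚ)) (hm : Ψ.Monic)
    (hΨ : Ψ.map ((aeval fun i : Fin (Fintype.card G) => esymm G ℚ (i + 1) :
      MvPolynomial (Fin (Fintype.card G)) ℚ →ₐ[ℚ] MvPolynomial G ℚ) :
      MvPolynomial (Fin (Fintype.card G)) ℚ →+* MvPolynomial G ℚ) =
      ∏ q ∈ orb ℚ G, (Polynomial.X - Polynomial.C q))
    (T : ℕ) (hT : ∀ e, (Ψ.coeff e).totalDegree ≤ T) (hTn : T * J < M)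
    (z₀ : ℂ) (hz₀ : z₀.im ≠ 0) (hQ0 : Polynomial.aeval z₀ Q = 0) :
    ∀ᶠ d in 𝓝 (0 : Option (Fin (Fintype.card G)) × Fin J → ℝ), ∃ z : ℂ, z.im ≠ 0 ∧
      (PhiP Ψ (pert (bsQ l Q) (fun i => (d i : ℂ)))).eval z = 0 := by
  have hQne : Q ≠ 0 := by
    rintro rfl
    rw [Polynomial.natDegree_zero] at hQ
    omega
  have hlc : (0 : ℝ) < |(Q.leadingCoeff : ℝ)| := by
    rw [abs_pos]
    exact_mod_cast Polynomial.leadingCoeff_ne_zero.2 hQne
  have him : (0 : ℝ) < |z₀.im| := abs_pos.2 hz₀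
  have h0 : (PhiP Ψ (pert (bsQ l Q)
      (0 : Option (Fin (Fintype.card G)) × Fin J → ℂ))).eval z₀ = 0 := by
    rw [pert_zero, bsQ_eval_prod l Q Ψ hΨ]
    apply Finset.prod_eq_zero (y0_mem_orb ℚ G)
    rw [sub_self, map_zero, sub_zero, hQ0]
  have hcont : Continuous fun d : Option (Fin (Fintype.card G)) × Fin J → ℝ =>
      (PhiP Ψ (pert (bsQ l Q) (fun i => (d i : ℂ)))).eval z₀ := by
    have h5 := (continuous_PhiP_pert (bsQ l Q) Ψ (J := J) (E := ℂ))
    have h6 : Continuous fun d : Option (Fin (Fintype.card G)) × Fin J → ℝ =>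
        ((fun i => (d i : ℂ) : Option (Fin (Fintype.card G)) × Fin J → ℂ), z₀) := by
      fun_prop
    exact h5.comp h6
  have hbound : 0 < |(Q.leadingCoeff : ℝ)| ^ Ψ.natDegree * |z₀.im| ^ (Ψ.natDegree * M) := by
    positivity
  have hlim : ∀ᶠ d in 𝓝 (0 : Option (Fin (Fintype.card G)) × Fin J → ℝ),
      ‖(PhiP Ψ (pert (bsQ l Q) (fun i => (d i : ℂ)))).eval z₀‖ <
      |(Q.leadingCoeff : ℝ)| ^ Ψ.natDegree * |z₀.im| ^ (Ψ.natDegree * M) := by
    apply (hcont.norm.tendsto 0).eventually_lt_const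
    have h7 : (fun i => (((0 : Option (Fin (Fintype.card G)) × Fin J → ℝ) i : ℝ) : ℂ)) =
        (0 : Option (Fin (Fintype.card G)) × Fin J → ℂ) := by
      funext i
      simp
    rw [h7, h0, norm_zero]
    exact hbound
  filter_upwards [hlim] with d hd
  by_contra hcon
  push Not at hcon
  obtain ⟨h1, h2⟩ := PhiP_pert_degree l Q M hQ hJ hM Ψ hm T hT hTn (fun i => (d i : ℂ))
  have hlcC : algebraMap ℚ ℂ Q.leadingCoeff ≠ 0 := by
    rw [_root_.map_ne_zero]
    exact Polynomial.leadingCoeff_ne_zero.2 hQne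
  have hne : (PhiP Ψ (pert (bsQ l Q) (fun i => (d i : ℂ)))) ≠ 0 := by
    intro h
    rw [h, Polynomial.leadingCoeff_zero] at h2
    exact pow_ne_zero _ hlcC h2.symm
  have h3 := norm_eval_ge (PhiP Ψ (pert (bsQ l Q) (fun i => (d i : ℂ)))) (fun z hz => by
    by_contra him
    exact hcon z him ((Polynomial.mem_roots hne).1 hz)) z₀
  rw [h1, h2, norm_pow] at h3
  have h4 : ‖algebraMap ℚ ℂ Q.leadingCoeff‖ = |(Q.leadingCoeff : ℝ)| := by
    have h5 : algebraMap ℚ ℂ Q.leadingCoeff = ((Q.leadingCoeff : ℝ) : ℂ) := by simp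
    rw [h5, Complex.norm_real, Real.norm_eq_abs]
  rw [h4] at h3
  linarith

/-- The auxiliary polynomial has real roots. -/
theorem real_coordsQ (l : G → ℚ) (hl : Function.Injective l) (Q : Polynomial ℚ) (J : ℕ) (R : ℝ) :
    ∀ᶠ d in 𝓝 (0 : Option (Fin (Fintype.card G)) × Fin J → ℝ), ∀ x ∈ Set.Icc (-R) R,
      ∃ S : Finset ℝ, S.card = Fintype.card G ∧
      ∀ y ∈ S, (Pc (fun i => (pert (bsQ l Q) d (some i)).eval x)).eval y = 0 := by
  classical
  let c₀ : Fin (Fintype.card G) → ℝ := fun i => algebraMap ℚ ℝ (aeval l (esymm G ℚ (i + 1)))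
  have hc₀ : Pc c₀ = ∏ g : G, (Polynomial.X - Polynomial.C ((l g : ℝ))) := by
    have h1 := prod_eq_Pc (k := ℚ) (E := ℝ) (G := G) (fun g => algebraMap ℚ ℝ (l g))
    simp only [aeval_algebraMap_rat] at h1
    exact h1.symm
  have hev : ∀ y, (Pc c₀).eval y = ∏ g : G, (y - (l g : ℝ)) := by
    intro y
    rw [hc₀, Polynomial.eval_prod]
    simp
  have hnear : ∀ᶠ c in 𝓝 c₀, ∃ S : Finset ℝ, S.card = Fintype.card G ∧
      ∀ y ∈ S, (Pc c).eval y = 0 := by
    let S : Finset ℝ := Finset.univ.image fun g : G => (l g : ℝ)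
    have hScard : S.card = Fintype.card G := by
      rw [Finset.card_image_of_injective, Finset.card_univ]
      intro a b hab
      apply hl
      have : (l a : ℝ) = l b := hab
      exact_mod_cast this
    have hSC : ∀ r ∈ S, SC (fun y => (Pc c₀).eval y) r := by
      intro r hr
      obtain ⟨g, -, rfl⟩ := Finset.mem_image.1 hr
      have h2 : (fun y => (Pc c₀).eval y) = fun y => (y - (l g : ℝ)) *
          ∏ h ∈ Finset.univ.erase g, (y - (l h : ℝ)) := by
        funext y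
        rw [hev, Finset.mul_prod_erase _ (fun h => y - (l h : ℝ)) (Finset.mem_univ g)]
      rw [h2]
      apply (SC_sub _).mul
      · exact (continuous_finsetProd _ fun i _ => by fun_prop).continuousAt
      · refine Finset.prod_ne_zero_iff.2 fun h hh => ?_
        rw [sub_ne_zero]
        intro h3
        apply Finset.ne_of_mem_erase hh
        apply hl
        exact_mod_cast h3.symm
    obtain ⟨R, hR⟩ : ∃ R : ℝ, ∀ r ∈ S, |r| < R := by
      obtain ⟨R, hR⟩ := (S.image fun r => |r|).finite_toSet.bddAbove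
      refine ⟨R + 1, fun r hr => ?_⟩
      have := hR (Finset.mem_coe.2 (Finset.mem_image_of_mem (fun r => |r|) hr))
      linarith
    have h4 := persist (𝓝 c₀) (fun c y => (Pc c).eval y) (fun c => (Pc c).continuous)
      (fun y => (Pc c₀).eval y) (fun y => by
        have h5 : Continuous fun c : Fin (Fintype.card G) → ℝ => (Pc c).eval y := by
          simp only [Pc, Polynomial.eval_add, Polynomial.eval_pow, Polynomial.eval_X,
            Polynomial.eval_finsetSum, Polynomial.eval_mul, Polynomial.eval_C]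
          fun_prop
        exact h5.tendsto c₀) S R hR hSC
    filter_upwards [h4] with c hc
    obtain ⟨T', h5, h6⟩ := hc
    exact ⟨T', h5.trans hScard, fun y hy => (h6 y hy).2⟩
  apply (isCompact_Icc (a := -R) (b := R)).eventually_forall_of_forall_eventually
  intro x _
  have hcont : Continuous fun p : (Option (Fin (Fintype.card G)) × Fin J → ℝ) × ℝ =>
      fun i : Fin (Fintype.card G) => (pert (bsQ l Q) p.1 (some i)).eval p.2 :=
    continuous_pi fun i => continuous_pert (bsQ l Q) (some i)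
  have hval : (fun i : Fin (Fintype.card G) =>
      (pert (bsQ l Q) (0 : Option (Fin (Fintype.card G)) × Fin J → ℝ) (some i)).eval x) = c₀ := by
    funext i
    rw [pert_eval]
    simp [bsQ, c₀]
  have h7 := hcont.tendsto ((0 : Option (Fin (Fintype.card G)) × Fin J → ℝ), x)
  simp only [hval] at h7
  exact h7.eventually hnear

end rn2

end Pool.Agent.H391R2
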