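import Mathlib
import Pool.Agent.H391R2.WrTrd

namespace Pool.Agent.H391R2

open Filter Topology

theorem exists_indep_real (ι : Type) [Finite ι] : ∃ x : ι → ℝ, AlgebraicIndependent ℚ x := by
  classical
  obtain ⟨κ, x, hx⟩ := exists_isTranscendenceBasis' ℚ ℝ
  have hinf : Infinite κ := by
    by_contra hcon
    have hfin : Finite κ := not_infinite_iff_finite.1 hcon
    have h2 : Cardinal.mk κ ≤ Cardinal.aleph0 := (Cardinal.lt_aleph0_of_finite κ).le
    have halg : Algebra.IsAlgebraic (Algebra.adjoin ℚ (Set.range x)) ℝ := hx.isAlgebraic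
    have h3 := Algebra.IsAlgebraic.cardinalMk_le_max (Algebra.adjoin ℚ (Set.range x)) ℝ
    have h4 : Cardinal.mk (Algebra.adjoin ℚ (Set.range x)) ≤ Cardinal.aleph0 := by
      have h5 : Cardinal.mk (MvPolynomial κ ℚ) =
          Cardinal.mk (Algebra.adjoin ℚ (Set.range x)) :=
        Cardinal.mk_congr hx.1.aevalEquiv.toEquiv
      rw [← h5]
      refine MvPolynomial.cardinalMk_le_max.trans ?_
      simp [h2]
    rw [Cardinal.mk_real] at h3
    exact absurd (h3.trans (max_le h4 le_rfl)) (not_le.2 Cardinal.aleph0_lt_continuum)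
  obtain ⟨n, ⟨e⟩⟩ := Finite.exists_equiv_fin ι
  obtain ⟨f⟩ : Nonempty (Fin n ↪ κ) := by
    exact ⟨(Fin.valEmbedding).trans (Infinite.natEmbedding κ)⟩
  exact ⟨x ∘ (f ∘ e), hx.1.comp _ (f.injective.comp e.injective)⟩

theorem exists_indep_near (ι : Type) [Finite ι] (U : Set (ι → ℝ)) (hU : U ∈ 𝓝 (0 : ι → ℝ)) :
    ∃ θ ∈ U, AlgebraicIndependent ℚ θ := by
  obtain ⟨x, hx⟩ := exists_indep_real ι
  have h1 : Tendsto (fun N : ℕ => fun i : ι => x i / ((N : ℝ) + 1)) atTop (𝓝 0) := by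
    rw [tendsto_pi_nhds]
    intro i
    have h2 := (tendsto_one_div_add_atTop_nhds_zero_nat (𝕜 := ℝ)).const_mul (x i)
    simp only [mul_zero, mul_one_div] at h2
    exact h2
  obtain ⟨N, hN⟩ := (h1.eventually hU).exists
  refine ⟨_, hN, ?_⟩
  refine indep_of_mem le_rfl x hx _ fun i => ?_
  have h3 : x i = (algebraMap ℚ ℝ ((N : ℚ) + 1)) * (x i / ((N : ℝ) + 1)) := by
    have h4 : (algebraMap ℚ ℝ ((N : ℚ) + 1)) = (N : ℝ) + 1 := by simp
    rw [h4, mul_div_cancel₀]
    positivity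
  rw [h3]
  exact mul_mem (IntermediateField.algebraMap_mem _ _)
    (IntermediateField.subset_adjoin _ _ ⟨i, rfl⟩)

end Pool.Agent.H391R2
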