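import Mathlib
import Pool.Agent.H391R2.RnB
import Pool.Agent.H391R2.NtS
import Pool.Agent.H391R2.WrExist

namespace Pool.Agent.H391R2

open Filter Topology MvPolynomial

theorem numbers2 (d T c : ℕ) (hd : 0 < d) : ∃ n₀ : ℕ, ∀ n ≥ n₀, 3 ≤ n ∧ ∃ a j : ℕ,
    n + j = d * (2 * a + 2) ∧ c ≤ j ∧ j ≤ 2 * a ∧ T * (j + 2) < 2 * a + 2 := by
  refine ⟨2 * d * (d + c + T * (2 * d + c + 2) + 1) + 3, fun n hn => ⟨by omega, ?_⟩⟩
  have h1 := Nat.div_add_mod (n + c) (2 * d)
  have h2 := Nat.mod_lt (n + c) (show 0 < 2 * d by omega)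
  have h3 : d + c + T * (2 * d + c + 2) + 1 ≤ (n + c) / (2 * d) := by
    rw [Nat.le_div_iff_mul_le (by omega)]
    calc (d + c + T * (2 * d + c + 2) + 1) * (2 * d) =
        2 * d * (d + c + T * (2 * d + c + 2) + 1) := by ring
      _ ≤ n + c := by omega
  refine ⟨(n + c) / (2 * d), 2 * d - (n + c) % (2 * d) + c, ?_, by omega, by omega, ?_⟩
  · have h4 : n + (2 * d - (n + c) % (2 * d) + c) = 2 * d * ((n + c) / (2 * d)) + 2 * d := by omega
    rw [h4]; ring
  · have h5 : T * (2 * d - (n + c) % (2 * d) + c + 2) ≤ T * (2 * d + c + 2) :=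
      Nat.mul_le_mul_left _ (by omega)
    omega

section pf

variable {G : Type} [Group G] [Fintype G]

omit [Group G] in
theorem pert_of (base : Option (Fin (Fintype.card G)) → Polynomial ℚ) {J : ℕ} {E : Type}
    [CommRing E] [Algebra ℚ E] (R : Option (Fin (Fintype.card G)) → Polynomial E)
    (hR : ∀ i, (R i).natDegree < J) :
    (fun i => (base i).map (algebraMap ℚ E) + R i) =
      pert base (fun p : Option (Fin (Fintype.card G)) × Fin J => (R p.1).coeff p.2) := by
  funext i
  unfold pert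
  congr 1
  nth_rewrite 1 [Polynomial.as_sum_range' (R i) J (hR i)]
  rw [Finset.sum_range]
  refine Finset.sum_congr rfl fun e _ => ?_
  rw [Polynomial.C_mul_X_pow_eq_monomial]

/-- Nodes. -/
noncomputable def nd (J : ℕ) (k : Fin J) : ℚ := (k : ℚ) + 1

theorem nd_inj (J : ℕ) : Function.Injective (nd J) := by
  intro a b hab
  have h1 : (a : ℚ) + 1 = b + 1 := hab
  have h2 : ((a : ℕ) : ℚ) = (b : ℕ) := add_right_cancel h1
  exact Fin.ext (by exact_mod_cast h2)

/-- Lagrange polynomials. -/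
noncomputable def lb (J : ℕ) (k : Fin J) : Polynomial ℚ := Lagrange.basis Finset.univ (nd J) k

theorem lb_self (J : ℕ) (k : Fin J) : (lb J k).eval (nd J k) = 1 :=
  Lagrange.eval_basis_self ((nd_inj J).injOn) (Finset.mem_univ k)

theorem lb_ne (J : ℕ) (k k' : Fin J) (h : k ≠ k') : (lb J k).eval (nd J k') = 0 :=
  Lagrange.eval_basis_of_ne h (Finset.mem_univ k')

theorem lb_natDegree (J : ℕ) (k : Fin J) : (lb J k).natDegree ≤ J := by
  have h1 := Lagrange.degree_basis ((nd_inj J).injOn) (Finset.mem_univ k)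
  have h2 : (lb J k).natDegree = Finset.card (Finset.univ : Finset (Fin J)) - 1 :=
    Polynomial.natDegree_eq_of_degree_eq_some h1
  rw [h2, Finset.card_univ, Fintype.card_fin]
  omega

theorem Rp_nd (J : ℕ) (k : Fin J) : Polynomial.aeval (nd J k) (Rp J) = 0 := by
  rw [Rp_aeval]
  exact Finset.prod_eq_zero (Finset.mem_range.2 k.2) (sub_self _)

theorem Rp_roots (J : ℕ) {E : Type} [Field E] [Algebra ℚ E] (s : E)
    (h : Polynomial.aeval s (Rp J) = 0) : ∃ k, s = algebraMap ℚ E (nd J k) := by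
  rw [Rp_aeval, Finset.prod_eq_zero_iff] at h
  obtain ⟨k, hk, h0⟩ := h
  refine ⟨⟨k, Finset.mem_range.1 hk⟩, ?_⟩
  rw [sub_eq_zero.1 h0]
  change (k : E) + 1 = algebraMap ℚ E ((k : ℚ) + 1)
  rw [map_add, map_one, map_natCast]

/-- The correction term. -/
noncomputable def cor {J : ℕ} {E : Type} [CommRing E] [Algebra ℚ E]
    (κ : Fin J × Option (Fin (Fintype.card G)) → E) (i : Option (Fin (Fintype.card G))) :
    Polynomial E :=
  ∑ k : Fin J, Polynomial.C (κ (k, i)) * (lb J k).map (algebraMap ℚ E)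

omit [Group G] in
theorem cor_natDegree {J : ℕ} {E : Type} [Field E] [Algebra ℚ E]
    (κ : Fin J × Option (Fin (Fintype.card G)) → E) (i : Option (Fin (Fintype.card G))) :
    (cor κ i).natDegree ≤ J := by
  apply Polynomial.natDegree_sum_le_of_forall_le
  intro k _
  refine (Polynomial.natDegree_C_mul_le _ _).trans ?_
  rw [Polynomial.natDegree_map]
  exact lb_natDegree J k

omit [Group G] in
theorem cor_map {J : ℕ} {E E' : Type} [CommRing E] [Algebra ℚ E] [CommRing E'] [Algebra ℚ E']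
    (f : E →ₐ[ℚ] E') (κ : Fin J × Option (Fin (Fintype.card G)) → E)
    (i : Option (Fin (Fintype.card G))) :
    (cor κ i).map (f : E →+* E') = cor (fun p => f (κ p)) i := by
  have : (f : E →+* E').comp (algebraMap ℚ E) = algebraMap ℚ E' := f.comp_algebraMap
  simp only [cor, Polynomial.map_sum, Polynomial.map_mul, Polynomial.map_map, Polynomial.map_C,
    RingHom.coe_coe, this]

omit [Group G] in
theorem cor_eval {J : ℕ} (κ : Fin J × Option (Fin (Fintype.card G)) → ℚ)
    (i : Option (Fin (Fintype.card G))) (k : Fin J) :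
    (cor κ i).eval (nd J k) = κ (k, i) := by
  classical
  unfold cor
  rw [Polynomial.eval_finsetSum, Finset.sum_eq_single k]
  · rw [Polynomial.eval_mul, Polynomial.eval_C]
    have h1 : (lb J k).map (algebraMap ℚ ℚ) = lb J k := Polynomial.map_id
    rw [h1, lb_self, mul_one]
  · intro b _ hb
    rw [Polynomial.eval_mul]
    have h1 : (lb J b).map (algebraMap ℚ ℚ) = lb J b := Polynomial.map_id
    rw [h1, lb_ne J b k hb, mul_zero]
  · intro h
    exact absurd (Finset.mem_univ _) h

/-- The moving part. -/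
noncomputable def mvp (J : ℕ) {E : Type} [CommRing E] [Algebra ℚ E]
    (θ : Option (Fin (Fintype.card G)) ⊕ Option (Fin (Fintype.card G)) → E)
    (i : Option (Fin (Fintype.card G))) : Polynomial E :=
  (Rp J).map (algebraMap ℚ E) *
    (Polynomial.C (θ (Sum.inl i)) + Polynomial.C (θ (Sum.inr i)) * Polynomial.X)

omit [Group G] in
theorem mvp_natDegree (J : ℕ) {E : Type} [Field E] [Algebra ℚ E]
    (θ : Option (Fin (Fintype.card G)) ⊕ Option (Fin (Fintype.card G)) → E)
    (i : Option (Fin (Fintype.card G))) : (mvp J θ i).natDegree ≤ J + 1 := by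
  refine Polynomial.natDegree_mul_le.trans ?_
  rw [Polynomial.natDegree_map, (Rp_monic J).2]
  refine Nat.add_le_add_left ?_ _
  compute_degree

/-- Coefficients of the perturbation. -/
noncomputable def dfun (J : ℕ) {E : Type} [CommRing E] [Algebra ℚ E]
    (q : (Fin J × Option (Fin (Fintype.card G)) → E) ×
      (Option (Fin (Fintype.card G)) ⊕ Option (Fin (Fintype.card G)) → E))
    (p : Option (Fin (Fintype.card G)) × Fin (J + 2)) : E :=
  (cor q.1 p.1 + mvp J q.2 p.1).coeff p.2

omit [Group G] in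
theorem fam_eq_pert (base : Option (Fin (Fintype.card G)) → Polynomial ℚ) (J : ℕ)
    {E : Type} [Field E] [Algebra ℚ E] (κ : Fin J × Option (Fin (Fintype.card G)) → ℚ)
    (θ : Option (Fin (Fintype.card G)) ⊕ Option (Fin (Fintype.card G)) → E) :
    fam G (fun i => base i + cor κ i) (Rp J) θ =
      pert base (dfun J (fun p => algebraMap ℚ E (κ p), θ)) := by
  have h1 := pert_of base (J := J + 2) (E := E)
    (fun i => cor (fun p => algebraMap ℚ E (κ p)) i + mvp J θ i) (fun i => by
      refine lt_of_le_of_lt (Polynomial.natDegree_add_le _ _) (max_lt ?_ ?_)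
      · have := cor_natDegree (fun p => algebraMap ℚ E (κ p)) i
        omega
      · have := mvp_natDegree J θ i
        omega)
  unfold dfun
  rw [← h1]
  funext i
  have h2 := cor_map (Algebra.ofId ℚ E) κ i
  have h3 : (fun p => Algebra.ofId ℚ E (κ p)) = fun p => algebraMap ℚ E (κ p) := rfl
  rw [h3] at h2
  rw [← h2]
  unfold fam mvp
  rw [Polynomial.map_add, add_assoc]
  rfl

omit [Group G] in
theorem continuous_dfun (J : ℕ) :
    Continuous (dfun (G := G) J (E := ℝ)) := by
  refine continuous_pi fun p => ?_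
  unfold dfun cor mvp
  simp only [Polynomial.coeff_add, Polynomial.finsetSum_coeff, Polynomial.coeff_C_mul, mul_add,
    ← mul_assoc, Polynomial.coeff_mul_C]
  have h1 : ∀ (q : Polynomial ℝ) (c : ℝ) (e : ℕ), (q * Polynomial.C c * Polynomial.X).coeff e =
      c * (q * Polynomial.X).coeff e := by
    intro q c e
    rw [mul_comm q, mul_assoc, Polynomial.coeff_C_mul]
  simp only [h1]
  fun_prop

omit [Group G] in
theorem dfun_zero (J : ℕ) : dfun (G := G) J (E := ℝ) (0, 0) = 0 := by
  funext p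
  simp [dfun, cor, mvp]

omit [Group G] in
theorem dfun_ofReal (J : ℕ) (κ : Fin J × Option (Fin (Fintype.card G)) → ℚ)
    (θ : Option (Fin (Fintype.card G)) ⊕ Option (Fin (Fintype.card G)) → ℝ) :
    (fun p => ((dfun J (fun p => algebraMap ℚ ℝ (κ p), θ) p : ℝ) : ℂ)) =
      dfun J (fun p => algebraMap ℚ ℂ (κ p), fun i => (θ i : ℂ)) := by
  let ofRQ : ℝ →ₐ[ℚ] ℂ := (Complex.ofRealHom).toRatAlgHom
  have h0 : ∀ x : ℝ, (x : ℂ) = ofRQ x := fun x => rfl
  funext p
  unfold dfun
  have h1 := cor_map ofRQ (fun p => algebraMap ℚ ℝ (κ p)) p.1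
  have h2 : (fun p => ofRQ (algebraMap ℚ ℝ (κ p))) = fun p => algebraMap ℚ ℂ (κ p) := by
    funext p
    exact ofRQ.commutes _
  rw [h2] at h1
  have h3 : (mvp J θ p.1).map (ofRQ : ℝ →+* ℂ) = mvp J (fun i => (θ i : ℂ)) p.1 := by
    have : (ofRQ : ℝ →+* ℂ).comp (algebraMap ℚ ℝ) = algebraMap ℚ ℂ := ofRQ.comp_algebraMap
    unfold mvp
    simp only [Polynomial.map_add, Polynomial.map_mul, Polynomial.map_map, Polynomial.map_C,
      Polynomial.map_X, this]
    rfl
  rw [← h1, ← h3, ← Polynomial.map_add, Polynomial.coeff_map]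
  rfl

/-- Degrees along the path. -/
theorem path_degree (l : G → ℚ) (Q : Polynomial ℚ) (M : ℕ) (hQ : Q.natDegree = M)
    {J : ℕ} (hJ : J + 2 ≤ M)
    (Ψ : Polynomial (MvPolynomial (Fin (Fintype.card G)) ℚ)) (hm : Ψ.Monic) (T : ℕ)
    (hT : ∀ e, (Ψ.coeff e).totalDegree ≤ T) (hTn : T * (J + 2) < M)
    (κ : Fin J × Option (Fin (Fintype.card G)) → ℚ) (E : Type) [Field E] [Algebra ℚ E]
    (θ : Option (Fin (Fintype.card G)) ⊕ Option (Fin (Fintype.card G)) → E) (x : E) :
    (PhiP Ψ (path (bsQ l Q) (cor κ) (Rp J) θ x)).natDegree = Ψ.natDegree * M ∧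
    (PhiP Ψ (path (bsQ l Q) (cor κ) (Rp J) θ x)).leadingCoeff =
      algebraMap ℚ E (Q.leadingCoeff ^ Ψ.natDegree) := by
  have h1 := pert_of (bsQ l Q) (J := J + 2) (E := E)
    (fun i => Polynomial.C x * (cor κ i).map (algebraMap ℚ E) +
      Polynomial.C (x * (1 - x) * θ (Sum.inr i)) + Polynomial.C x * mvp J θ i) (fun i => by
      refine lt_of_le_of_lt (Polynomial.natDegree_add_le _ _) (max_lt ?_ ?_)
      · refine lt_of_le_of_lt (Polynomial.natDegree_add_le _ _) (max_lt ?_ ?_)
        · refine lt_of_le_of_lt (Polynomial.natDegree_C_mul_le _ _) ?_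
          rw [Polynomial.natDegree_map]
          have := cor_natDegree κ i
          omega
        · rw [Polynomial.natDegree_C]
          omega
      · refine lt_of_le_of_lt (Polynomial.natDegree_C_mul_le _ _) ?_
        have := mvp_natDegree J θ i
        omega)
  have h2 : path (bsQ l Q) (cor κ) (Rp J) θ x =
      fun i => (bsQ l Q i).map (algebraMap ℚ E) + (Polynomial.C x * (cor κ i).map (algebraMap ℚ E) +
      Polynomial.C (x * (1 - x) * θ (Sum.inr i)) + Polynomial.C x * mvp J θ i) := by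
    funext i
    unfold path mvp
    ring
  rw [h2, h1, map_pow]
  exact PhiP_pert_degree l Q M hQ hJ (by omega) Ψ hm T hT hTn _

end pf

end Pool.Agent.H391R2
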