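import Mathlib
import Pool.Agent.H391R2.FnA

namespace Pool.Agent.H391R2

open Filter Topology MvPolynomial

section cfg

theorem ev_ne {X : Type} [TopologicalSpace X] (f g : X → ℝ) (hf : Continuous f)
    (hg : Continuous g) (x : X) (h : f x ≠ g x) : ∀ᶠ y in 𝓝 x, f y ≠ g y :=
  (isOpen_ne_fun hf hg).mem_nhds h

variable {G : Type} [Group G] [Fintype G]

/-- The property of real parameters that is used. -/
def Good (l : G → ℚ) (Q : Polynomial ℚ) (J : ℕ)
    (Ψ : Polynomial (MvPolynomial (Fin (Fintype.card G)) ℚ)) (D : ℕ) (R : ℝ)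
    (d : Option (Fin (Fintype.card G)) × Fin J → ℝ) : Prop :=
  (∃ T' : Finset ℝ, T'.card + 2 = D ∧
      ∀ x ∈ T', |x| < R ∧ (PhiP Ψ (pert (bsQ l Q) d)).eval x = 0) ∧
  (∃ z : ℂ, z.im ≠ 0 ∧ (PhiP Ψ (pert (bsQ l Q) (fun i => (d i : ℂ)))).eval z = 0) ∧
  (∀ x ∈ Set.Icc (-R) R, ∃ S : Finset ℝ, S.card = Fintype.card G ∧
      ∀ y ∈ S, (Pc (fun i => (pert (bsQ l Q) d (some i)).eval x)).eval y = 0)

theorem config (l : G → ℚ) (hl : Function.Injective l)
    (hdist : ∀ q ∈ orb ℚ G, ∀ q' ∈ orb ℚ G, q ≠ q' → (aeval l q : ℚ) ≠ aeval l q')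
    (Q : Polynomial ℚ) (J : ℕ) (Ψ : Polynomial (MvPolynomial (Fin (Fintype.card G)) ℚ)) (D : ℕ)
    (R : ℝ) (hgood : ∀ᶠ d in 𝓝 (0 : Option (Fin (Fintype.card G)) × Fin (J + 2) → ℝ),
      Good l Q (J + 2) Ψ D R d) :
    ∃ δ : ℝ, 0 < δ ∧ ∀ ν : Fin J → G → ℝ, (∀ k y, |ν k y - l y| < δ) →
      (∀ k, Function.Injective (ν k)) ∧
      (∀ k, ∀ q ∈ orb ℚ G, q ≠ y0 ℚ G → aeval (ν k) q ≠ aeval (ν k) (y0 ℚ G)) ∧
      ∀ κ : Fin J × Option (Fin (Fintype.card G)) → ℚ,
        (∀ k i, algebraMap ℚ ℝ (κ (k, i)) = aeval (ν k) (tv ℚ G i) -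
          aeval (fun y => (l y : ℝ)) (tv ℚ G i)) →
        ∃ θ : Ix G → ℝ, AlgebraicIndependent ℚ θ ∧
          Good l Q (J + 2) Ψ D R (dfun J (fun p => algebraMap ℚ ℝ (κ p), θ)) := by
  classical
  -- parameters
  have h1 : ∀ᶠ q in 𝓝 ((0, 0) : (Fin J × Option (Fin (Fintype.card G)) → ℝ) × (Ix G → ℝ)),
      Good l Q (J + 2) Ψ D R (dfun J q) := by
    have h2 := (continuous_dfun (G := G) J).tendsto ((0, 0) :
      (Fin J × Option (Fin (Fintype.card G)) → ℝ) × (Ix G → ℝ))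
    rw [dfun_zero] at h2
    exact h2.eventually hgood
  rw [nhds_prod_eq, eventually_prod_iff] at h1
  obtain ⟨pa, hpa, pb, hpb, hab⟩ := h1
  -- as a function of the nodes
  let lR : G → ℝ := fun y => (l y : ℝ)
  let κf : (Fin J → G → ℝ) → Fin J × Option (Fin (Fintype.card G)) → ℝ := fun ν p =>
    aeval (ν p.1) (tv ℚ G p.2) - aeval lR (tv ℚ G p.2)
  have hκc : Continuous κf := by
    refine continuous_pi fun p => ?_
    exact ((continuous_aeval_mv (tv ℚ G p.2)).comp (continuous_apply p.1)).sub continuous_const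
  have hκ0 : κf (fun _ => lR) = 0 := by
    funext p
    simp [κf]
  have h2 : ∀ᶠ ν in 𝓝 (fun _ : Fin J => lR), pa (κf ν) := by
    have h3 := hκc.tendsto (fun _ : Fin J => lR)
    rw [hκ0] at h3
    exact h3.eventually hpa
  have h3 : ∀ᶠ ν in 𝓝 (fun _ : Fin J => lR), ∀ k, Function.Injective (ν k) := by
    rw [eventually_all]
    intro k
    have h4 : ∀ᶠ ν in 𝓝 (fun _ : Fin J => lR), ∀ a b : G, a ≠ b → ν k a ≠ ν k b := by
      rw [eventually_all]
      intro a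
      rw [eventually_all]
      intro b
      by_cases hab : a = b
      · exact Eventually.of_forall fun ν h => absurd hab h
      · have h6 := ev_ne (fun ν : Fin J → G → ℝ => ν k a) (fun ν : Fin J → G → ℝ => ν k b)
          (by fun_prop) (by fun_prop) (fun _ : Fin J => lR) (by
            change (l a : ℝ) ≠ l b
            intro h
            apply hab
            apply hl
            exact_mod_cast h)
        exact h6.mono fun ν h _ => h
    exact h4.mono fun ν h a b hab => by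
      by_contra hne
      exact h a b hne hab
  have h4 : ∀ᶠ ν in 𝓝 (fun _ : Fin J => lR), ∀ k, ∀ q ∈ orb ℚ G, q ≠ y0 ℚ G →
      aeval (ν k) q ≠ aeval (ν k) (y0 ℚ G) := by
    rw [eventually_all]
    intro k
    rw [Filter.eventually_all_finset]
    intro q hq
    by_cases hne : q = y0 ℚ G
    · exact Eventually.of_forall fun ν h => absurd hne h
    · have h6 := ev_ne (fun ν : Fin J → G → ℝ => (aeval (ν k) q : ℝ))
        (fun ν : Fin J → G → ℝ => (aeval (ν k) (y0 ℚ G) : ℝ))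
        ((continuous_aeval_mv q).comp (continuous_apply k))
        ((continuous_aeval_mv (y0 ℚ G)).comp (continuous_apply k)) (fun _ : Fin J => lR) (by
          change (aeval (fun y => algebraMap ℚ ℝ (l y)) q : ℝ) ≠
            aeval (fun y => algebraMap ℚ ℝ (l y)) (y0 ℚ G)
          rw [aeval_algebraMap_rat, aeval_algebraMap_rat]
          intro h
          exact hdist q hq _ (y0_mem_orb ℚ G) hne ((algebraMap ℚ ℝ).injective h))
      exact h6.mono fun ν h _ => h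
  obtain ⟨δ, hδ, hδ'⟩ := Metric.eventually_nhds_iff.1 ((h2.and h3).and h4)
  refine ⟨δ, hδ, fun ν hν => ?_⟩
  have hdist' : dist ν (fun _ : Fin J => lR) < δ := by
    rw [dist_pi_lt_iff hδ]
    intro k
    rw [dist_pi_lt_iff hδ]
    intro y
    rw [Real.dist_eq]
    exact hν k y
  obtain ⟨⟨e1, e2⟩, e3⟩ := hδ' hdist'
  refine ⟨e2, e3, fun κ hκ => ?_⟩
  obtain ⟨θ, hθb, hθ⟩ := exists_indep_near (Ix G) _ hpb
  refine ⟨θ, hθ, ?_⟩
  have h5 : (fun p => algebraMap ℚ ℝ (κ p)) = κf ν := by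
    funext p
    exact hκ p.1 p.2
  rw [h5]
  exact hab e1 hθb

/-- All small perturbations are good. -/
theorem all_good (l : G → ℚ) (hl : Function.Injective l)
    (hdist : ∀ q ∈ orb ℚ G, ∀ q' ∈ orb ℚ G, q ≠ q' → (aeval l q : ℚ) ≠ aeval l q')
    (K η : ℚ) (hK : 0 < K) (hη : 0 < η) (a J : ℕ) (hJ : J ≤ 2 * a)
    (Ψ : Polynomial (MvPolynomial (Fin (Fintype.card G)) ℚ)) (hm : Ψ.Monic)
    (hΨ : Ψ.map ((aeval fun i : Fin (Fintype.card G) => esymm G ℚ (i + 1) :
      MvPolynomial (Fin (Fintype.card G)) ℚ →ₐ[ℚ] MvPolynomial G ℚ) :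
      MvPolynomial (Fin (Fintype.card G)) ℚ →+* MvPolynomial G ℚ) =
      ∏ q ∈ orb ℚ G, (Polynomial.X - Polynomial.C q))
    (T : ℕ) (hT : ∀ e, (Ψ.coeff e).totalDegree ≤ T) (hTn : T * (J + 2) < 2 * a + 2)
    (hKη : ∀ q ∈ orb ℚ G, q ≠ y0 ℚ G → ∃ S : Finset ℝ, S.card = 2 * a + 2 ∧
      ∀ x ∈ S, (K : ℝ) * Polynomial.aeval x (Pp a η) -
        ((aeval l q - aeval l (y0 ℚ G) : ℚ) : ℝ) = 0) :
    ∃ R : ℝ, ∀ᶠ d in 𝓝 (0 : Option (Fin (Fintype.card G)) × Fin (J + 2) → ℝ),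
      Good l (Polynomial.C K * Pp a η) (J + 2) Ψ ((orb ℚ G).card * (2 * a + 2)) R d := by
  classical
  have hKR : (0 : ℝ) < K := by exact_mod_cast hK
  have hQd : (Polynomial.C K * Pp a η).natDegree = 2 * a + 2 := by
    rw [Polynomial.natDegree_C_mul hK.ne', (Pp_monic a η).2]
  have hQe : ∀ x : ℝ, Polynomial.aeval x (Polynomial.C K * Pp a η) =
      (K : ℝ) * Polynomial.aeval x (Pp a η) := by
    intro x
    simp
  let S0 : Finset ℝ := (Finset.range (2 * a)).image fun k : ℕ => ((k : ℝ) + 1)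
  have hS0 : S0.card = 2 * a := by
    rw [Finset.card_image_of_injective, Finset.card_range]
    intro a b hab
    have : (a : ℝ) + 1 = b + 1 := hab
    exact_mod_cast add_right_cancel this
  obtain ⟨R, hR0, hR⟩ := real_rootsQ l hdist (Polynomial.C K * Pp a η) (2 * a + 2) hQd (by omega)
    (J + 2) Ψ hΨ S0 (by
      intro x hx
      obtain ⟨k, hk, rfl⟩ := Finset.mem_image.1 hx
      refine ⟨?_, ?_⟩
      · rw [hQe, Pp_aeval, Rp_split (2 * a) k (Finset.mem_range.1 hk)]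
        simp
      · have h2 := SC_Rp (2 * a) k (Finset.mem_range.1 hk) (fun x => (K : ℝ) *
          (x ^ 2 + (η : ℝ) ^ 2)) (by fun_prop) (by positivity)
        have h3 : (fun x : ℝ => Polynomial.aeval x (Polynomial.C K * Pp a η)) =
            fun x => (K : ℝ) * (x ^ 2 + (η : ℝ) ^ 2) * Polynomial.aeval x (Rp (2 * a)) := by
          funext x
          rw [hQe, Pp_aeval, mul_assoc]
          rfl
        rw [h3]
        exact h2)
    (by
      intro q hq hne
      obtain ⟨S, hS, hS'⟩ := hKη q hq hne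
      refine ⟨S, hS, fun x hx => ?_⟩
      rw [hQe]
      exact hS' x hx)
  have hnonreal := nonreal_rootQ l (Polynomial.C K * Pp a η) (2 * a + 2) hQd (by omega)
    (J + 2) (by omega) Ψ hm hΨ T hT hTn ((η : ℂ) * Complex.I) (by
      have h1 : ((η : ℂ) * Complex.I).im = η := by simp
      rw [h1]
      have : (0 : ℝ) < η := by exact_mod_cast hη
      exact this.ne') (by
      rw [map_mul, Pp_aeval]
      have h1 : ((η : ℂ) * Complex.I) ^ 2 + algebraMap ℚ ℂ η ^ 2 = 0 := by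
        rw [mul_pow, Complex.I_sq]
        simp
      rw [h1, zero_mul, mul_zero])
  have hcoord := real_coordsQ l hl (Polynomial.C K * Pp a η) (J + 2) R
  refine ⟨R, ?_⟩
  filter_upwards [hR, hnonreal, hcoord] with d h1 h2 h3
  obtain ⟨T', hT', hT''⟩ := h1
  refine ⟨⟨T', ?_, hT''⟩, h2, h3⟩
  rw [hT', hS0]
  have hpos : 0 < (orb ℚ G).card := Finset.card_pos.2 ⟨_, y0_mem_orb ℚ G⟩
  obtain ⟨d, hd⟩ : ∃ d, (orb ℚ G).card = d + 1 := ⟨(orb ℚ G).card - 1, by omega⟩
  rw [hd, Nat.add_sub_cancel]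
  ring

end cfg

end Pool.Agent.H391R2
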