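import Mathlib

namespace Pool.Agent.H391R2

/-- A character of a cyclic group killing the elements of order two. -/
theorem exists_char {U G : Type} [Group U] [Group G] [Finite U] [Finite G] [IsCyclic U]
    (e : ℕ) (he : 2 * e ∣ Nat.card U) (g : G) (hg : orderOf g ∣ e) :
    ∃ ψ : U →* G, (∃ ω, ψ ω = g) ∧ ∀ u, u * u = 1 → ψ u = 1 := by
  obtain ⟨ω, hω⟩ := IsCyclic.exists_generator (α := U)
  have hord : orderOf ω = Nat.card U := orderOf_eq_card_of_forall_mem_zpowers hω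
  have hdvd : orderOf g ∣ orderOf ω := by
    rw [hord]
    exact hg.trans ((Dvd.intro_left 2 rfl).trans he)
  refine ⟨monoidHomOfForallMemZpowers hω hdvd, ⟨ω, monoidHomOfForallMemZpowers_apply_gen hω hdvd⟩,
    fun u hu => ?_⟩
  obtain ⟨j, rfl⟩ := Subgroup.mem_zpowers_iff.1 (hω u)
  rw [map_zpow, monoidHomOfForallMemZpowers_apply_gen hω hdvd]
  rw [← orderOf_dvd_iff_zpow_eq_one]
  have h1 : (orderOf ω : ℤ) ∣ 2 * j := by
    rw [orderOf_dvd_iff_zpow_eq_one, two_mul, zpow_add]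
    exact hu
  rw [hord] at h1
  have h2 : ((2 * e : ℕ) : ℤ) ∣ 2 * j := (Int.natCast_dvd_natCast.2 he).trans h1
  have h3 : (e : ℤ) ∣ j := by
    have h4 : (2 : ℤ) * e ∣ 2 * j := by exact_mod_cast h2
    exact (mul_dvd_mul_iff_left (by norm_num : (2 : ℤ) ≠ 0)).1 h4
  exact (Int.natCast_dvd_natCast.2 hg).trans h3

theorem exists_primes (G : Type) [Finite G] (e : ℕ) (he : e ≠ 0) : ∃ q : G → ℕ,
    Function.Injective q ∧ ∀ g, (q g).Prime ∧ q g ≡ 1 [MOD e] := by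
  have h1 := Nat.infinite_setOfPred_prime_modEq_one he
  obtain ⟨n, ⟨f⟩⟩ := Finite.exists_equiv_fin G
  let emb := h1.natEmbedding
  refine ⟨fun g => (emb (f g) : ℕ), fun a b hab => ?_, fun g => (emb (f g)).2⟩
  have h2 := emb.injective (Subtype.ext hab)
  exact f.injective (Fin.ext h2)

/-- Many independent characters on a cyclotomic Galois group. -/
theorem exists_cyclotomic (G : Type) [Group G] [Finite G] :
    ∃ (Z : Type) (_ : Field Z) (_ : Algebra ℚ Z) (_ : FiniteDimensional ℚ Z) (_ : IsGalois ℚ Z)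
      (ε : G → (Z ≃ₐ[ℚ] Z) →* G), (∀ a b : Z ≃ₐ[ℚ] Z, a * b = b * a) ∧
      (∀ l c, c * c = 1 → ε l c = 1) ∧
      ∀ g₀, ∃ ρ, ∀ l, (l = g₀ → ε l ρ = g₀) ∧ (l ≠ g₀ → ε l ρ = 1) := by
  classical
  cases nonempty_fintype G
  set e := Fintype.card G with he
  have he0 : e ≠ 0 := Fintype.card_ne_zero
  obtain ⟨q, hqinj, hq⟩ := exists_primes G (2 * e) (by omega)
  have hcop : Pairwise (Function.onFun Nat.Coprime q) := fun a b hab =>
    (Nat.coprime_primes (hq a).1 (hq b).1).2 fun h => hab (hqinj h)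
  have hfact : ∀ g, Fact (q g).Prime := fun g => ⟨(hq g).1⟩
  set Q := ∏ g, q g with hQ
  have hQ0 : NeZero Q := ⟨Finset.prod_ne_zero_iff.2 fun g _ => (hq g).1.ne_zero⟩
  let Z := CyclotomicField Q ℚ
  have hQ1 : NeZero ((Q : ℕ) : ℚ) := ⟨by exact_mod_cast hQ0.out⟩
  have hcyc : IsCyclotomicExtension {Q} ℚ Z := CyclotomicField.isCyclotomicExtension Q ℚ
  have hgal : IsGalois ℚ Z := IsCyclotomicExtension.isGalois {Q} ℚ Z
  have hirr : Irreducible (Polynomial.cyclotomic Q ℚ) :=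
    Polynomial.cyclotomic.irreducible_rat (Nat.pos_of_ne_zero hQ0.out)
  let E1 : (Z ≃ₐ[ℚ] Z) ≃* (ZMod Q)ˣ := IsCyclotomicExtension.autEquivPow Z hirr
  let E2 : (ZMod Q)ˣ ≃* ∀ g, (ZMod (q g))ˣ :=
    (Units.mapEquiv (ZMod.prodEquivPi q hcop).toMulEquiv).trans MulEquiv.piUnits
  let E3 := E1.trans E2
  have hψ : ∀ g : G, ∃ ψ : (ZMod (q g))ˣ →* G, (∃ ω, ψ ω = g) ∧ ∀ u, u * u = 1 → ψ u = 1 := by
    intro g
    have hcard : 2 * e ∣ Nat.card (ZMod (q g))ˣ := by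
      rw [Nat.card_eq_fintype_card, ZMod.card_units]
      exact (Nat.modEq_iff_dvd' (hq g).1.one_lt.le).1 (hq g).2.symm
    exact exists_char e hcard g (orderOf_dvd_card)
  choose ψ hψ1 hψ2 using hψ
  choose ω hω using hψ1
  refine ⟨Z, inferInstance, inferInstance, inferInstance, hgal,
    fun l => (ψ l).comp ((Pi.evalMonoidHom (fun g => (ZMod (q g))ˣ) l).comp E3.toMonoidHom),
    fun a b => ?_, fun l c hc => ?_, fun g₀ => ?_⟩
  · apply E1.injective
    rw [map_mul, map_mul, mul_comm]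
  · simp only [MonoidHom.comp_apply]
    apply hψ2
    rw [← map_mul, ← map_mul, hc, map_one, map_one]
  · refine ⟨E3.symm (Pi.mulSingle g₀ (ω g₀)), fun l => ⟨?_, fun hne => ?_⟩⟩
    · rintro rfl
      simp only [MonoidHom.comp_apply]
      change ψ l ((E3 (E3.symm _)) l) = l
      rw [E3.apply_symm_apply, Pi.mulSingle_eq_same, hω]
    · simp only [MonoidHom.comp_apply]
      change ψ l ((E3 (E3.symm _)) l) = 1
      rw [E3.apply_symm_apply, Pi.mulSingle_eq_of_ne hne, map_one]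

end Pool.Agent.H391R2
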