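import Mathlib
import Pool.Agent.H391R2.TwA
import Pool.Agent.H391R2.WrSol

namespace Pool.Agent.H391R2

open Filter Topology

/-- Descent to the real subfield. -/
theorem real_subfield {k Z G : Type} [Field k] [Field Z] [Algebra k Z] [FiniteDimensional k Z]
    [IsGalois k Z] [Group G] (hcomm : ∀ a b : Z ≃ₐ[k] Z, a * b = b * a) (j : Z →+* ℂ)
    (c : Z ≃ₐ[k] Z) (hc : ∀ z, j (c z) = (starRingEnd ℂ) (j z))
    (ε : G → (Z ≃ₐ[k] Z) →* G) (hinv : ∀ l, ε l c = 1)
    (hε : ∀ g₀, ∃ ρ, ∀ l, (l = g₀ → ε l ρ = g₀) ∧ (l ≠ g₀ → ε l ρ = 1)) :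
    ∃ (E : Type) (_ : Field E) (_ : Algebra k E) (_ : FiniteDimensional k E) (_ : IsGalois k E)
      (_ : E →+* ℝ) (ε : G → (E ≃ₐ[k] E) →* G),
      ∀ g₀, ∃ ρ, ∀ l, (l = g₀ → ε l ρ = g₀) ∧ (l ≠ g₀ → ε l ρ = 1) := by
  classical
  let C := Subgroup.zpowers c
  have hCn : C.Normal := ⟨fun n hn g => by
    have : g * n * g⁻¹ = n := by rw [hcomm g n, mul_inv_cancel_right]
    rwa [this]⟩
  let E := IntermediateField.fixedField C
  have hreal : ∀ y : E, (j (y : Z)).im = 0 := by
    intro y
    have h1 : c (y : Z) = y := y.2 ⟨c, Subgroup.mem_zpowers c⟩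
    have h2 := hc (y : Z)
    rw [h1] at h2
    exact Complex.conj_eq_iff_im.1 h2.symm
  let iE : E →+* ℝ :=
    { toFun := fun y => (j (y : Z)).re
      map_one' := by simp
      map_mul' := fun a b => by
        simp [Complex.mul_re, hreal]
      map_zero' := by simp
      map_add' := fun a b => by simp }
  let eq := IsGalois.normalAutEquivQuotient (K := k) (L := Z) C
  have hker : ∀ l, C ≤ (ε l).ker := by
    intro l x hx
    obtain ⟨n, rfl⟩ := Subgroup.mem_zpowers_iff.1 hx
    rw [MonoidHom.mem_ker, map_zpow, hinv l, one_zpow]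
  let ε' : G → (E ≃ₐ[k] E) →* G := fun l =>
    (QuotientGroup.lift C (ε l) (hker l)).comp eq.symm.toMonoidHom
  refine ⟨E, inferInstance, inferInstance, inferInstance, inferInstance, iE, ε', fun g₀ => ?_⟩
  obtain ⟨ρ, hρ⟩ := hε g₀
  refine ⟨eq (QuotientGroup.mk ρ), fun l => ?_⟩
  have h1 : ε' l (eq (QuotientGroup.mk ρ)) = ε l ρ := by
    change QuotientGroup.lift C (ε l) (hker l) (eq.symm (eq (QuotientGroup.mk ρ))) = _
    rw [eq.symm_apply_apply]
    rfl
  rw [h1]
  exact hρ l

/-- Many independent characters on the Galois group of a real number field. -/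
theorem exists_real_field (G : Type) [Group G] [Finite G] :
    ∃ (E : Type) (_ : Field E) (_ : Algebra ℚ E) (_ : FiniteDimensional ℚ E) (_ : IsGalois ℚ E)
      (_ : E →+* ℝ) (ε : G → (E ≃ₐ[ℚ] E) →* G),
      ∀ g₀, ∃ ρ, ∀ l, (l = g₀ → ε l ρ = g₀) ∧ (l ≠ g₀ → ε l ρ = 1) := by
  classical
  obtain ⟨Z, i1, i2, i3, i4, ε, hcomm, hinv, hε⟩ := exists_cyclotomic G
  let j : Z →ₐ[ℚ] ℂ := IsAlgClosed.lift
  let _ : Algebra Z ℂ := j.toRingHom.toAlgebra
  have hT : IsScalarTower ℚ Z ℂ := IsScalarTower.of_algebraMap_eq fun x => (j.commutes x).symm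
  let cj : ℂ ≃ₐ[ℚ] ℂ := Complex.conjAe.restrictScalars ℚ
  let c : Z ≃ₐ[ℚ] Z := cj.restrictNormal Z
  have hc : ∀ z, j (c z) = (starRingEnd ℂ) (j z) := fun z => AlgEquiv.restrictNormal_commutes cj Z z
  have hcc : c * c = 1 := by
    apply AlgEquiv.ext
    intro x
    apply j.injective
    change j (c (c x)) = j x
    rw [hc, hc, Complex.conj_conj]
  exact real_subfield hcomm (j : Z →+* ℂ) c hc ε (fun l => hinv l c hcc) hε

section dens

variable {E : Type} [Field E] [Algebra ℚ E] [FiniteDimensional ℚ E] (iE : E →+* ℝ)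

/-- Weak approximation at the conjugates of a real place. -/
theorem exists_approx (t : (E ≃ₐ[ℚ] E) → ℝ) (δ : ℝ) (hδ : 0 < δ) :
    ∃ x : E, ∀ σ : E ≃ₐ[ℚ] E, |iE (σ x) - t σ| < δ := by
  classical
  let v : E →+ ((E ≃ₐ[ℚ] E) → ℝ) :=
    { toFun := fun x σ => iE (σ x)
      map_zero' := by funext σ; simp
      map_add' := fun a b => by funext σ; simp }
  have hv : ∀ x σ, v x σ = iE (σ x) := fun x σ => rfl
  have hspan : Submodule.span ℝ (Set.range v) = ⊤ := by
    by_contra hne
    obtain ⟨f, hf, hle⟩ := Submodule.exists_le_ker_of_lt_top _ (lt_top_iff_ne_top.2 hne)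
    apply hf
    have h1 := linearIndependent_monoidHom E ℝ
    have h2 : Function.Injective fun σ : E ≃ₐ[ℚ] E =>
        (((iE : E →+* ℝ).comp (σ : E →+* E)) : E →* ℝ) := by
      intro a b hab
      apply AlgEquiv.ext
      intro x
      apply iE.injective
      exact DFunLike.congr_fun hab x
    have h3 := h1.comp _ h2
    rw [Fintype.linearIndependent_iff] at h3
    have h4 : ∀ σ, f (Pi.single σ 1) = 0 := by
      refine h3 (fun σ => f (Pi.single σ 1)) ?_
      funext x
      have h5 : f (v x) = 0 := hle (Submodule.subset_span ⟨x, rfl⟩)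
      have h6 : v x = ∑ σ, v x σ • (Pi.single σ 1 : (E ≃ₐ[ℚ] E) → ℝ) := by
        funext τ
        simp [Finset.sum_apply, Pi.single_apply]
      rw [h6, map_sum] at h5
      simp only [Finset.sum_apply, Pi.smul_apply, Function.comp_apply, smul_eq_mul, Pi.zero_apply]
      rw [← h5]
      refine Finset.sum_congr rfl fun σ _ => ?_
      rw [map_smul, smul_eq_mul, mul_comm]
      rfl
    apply LinearMap.pi_ext'
    intro σ
    apply LinearMap.ext_ring
    simpa using h4 σ
  have hcl : ∀ s ∈ Submodule.span ℝ (Set.range v), s ∈ closure (Set.range v) := by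
    intro s hs
    induction hs using Submodule.span_induction with
    | mem x hx => exact subset_closure hx
    | zero => exact subset_closure ⟨0, map_zero v⟩
    | add x y _ _ hx hy =>
      have h1 : closure (Set.range v) = (v.range.topologicalClosure : Set _) := by
        rw [AddSubgroup.topologicalClosure_coe, AddMonoidHom.coe_range]
      rw [h1] at hx hy ⊢
      exact AddSubgroup.add_mem _ hx hy
    | smul a x _ hx =>
      refine Rat.denseRange_cast.induction_on (p := fun a : ℝ => a • x ∈ closure (Set.range v)) a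
        ?_ ?_
      · exact isClosed_closure.preimage (continuous_id.smul continuous_const)
      · intro q
        have hc : Continuous fun y : (E ≃ₐ[ℚ] E) → ℝ => (q : ℝ) • y :=
          continuous_const_smul (q : ℝ)
        have h1 : Set.MapsTo (fun y : (E ≃ₐ[ℚ] E) → ℝ => (q : ℝ) • y) (Set.range v)
            (Set.range v) := by
          rintro _ ⟨y, rfl⟩
          refine ⟨algebraMap ℚ E q * y, ?_⟩
          funext σ
          rw [hv, map_mul, map_mul, AlgEquiv.commutes]
          simp [hv]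
        exact h1.closure hc hx
  have ht : t ∈ closure (Set.range v) := hcl t (by rw [hspan]; trivial)
  obtain ⟨_, ⟨x, rfl⟩, hx⟩ := Metric.mem_closure_iff.1 ht δ hδ
  refine ⟨x, fun σ => ?_⟩
  have h1 := (dist_le_pi_dist t (v x) σ).trans_lt hx
  rwa [Real.dist_eq, abs_sub_comm] at h1

/-- Twisted vectors are dense. -/
theorem exists_twisted {G : Type} [Group G] [Fintype G] (ε : (E ≃ₐ[ℚ] E) →* G) (lam : G → ℝ)
    (δ : ℝ) (hδ : 0 < δ) : ∃ M : G → E, (∀ (ρ : E ≃ₐ[ℚ] E) y, ρ (M y) = M (ε ρ * y)) ∧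
      ∀ y, |iE (M y) - lam y| < δ := by
  classical
  set c : ℝ := (Fintype.card (E ≃ₐ[ℚ] E) : ℝ) with hc
  have hc0 : 0 < c := by
    rw [hc]
    exact_mod_cast Fintype.card_pos
  have h1 : ∀ h₀ : G, ∃ x : E, ∀ σ : E ≃ₐ[ℚ] E, |iE (σ x) - lam (ε σ * h₀) / c| < δ / c :=
    fun h₀ => exists_approx iE _ _ (div_pos hδ hc0)
  choose x hx using h1
  refine ⟨fun y => ∑ σ : E ≃ₐ[ℚ] E, σ (x ((ε σ)⁻¹ * y)), fun ρ y => ?_, fun y => ?_⟩
  · rw [map_sum]
    refine Fintype.sum_equiv (Equiv.mulLeft ρ) _ _ fun σ => ?_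
    rw [Equiv.coe_mulLeft, map_mul, mul_inv_rev, AlgEquiv.mul_apply]
    congr 3
    group
  · rw [map_sum]
    have h2 : lam y = ∑ σ : E ≃ₐ[ℚ] E, lam (ε σ * ((ε σ)⁻¹ * y)) / c := by
      simp only [mul_inv_cancel_left]
      rw [Finset.sum_const, Finset.card_univ, nsmul_eq_mul, mul_div_cancel₀ _ hc0.ne']
    rw [h2, ← Finset.sum_sub_distrib]
    refine (Finset.abs_sum_le_sum_abs _ _).trans_lt ?_
    have h3 : δ = ∑ _σ : E ≃ₐ[ℚ] E, δ / c := by
      rw [Finset.sum_const, Finset.card_univ, nsmul_eq_mul, mul_div_cancel₀ _ hc0.ne']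
    rw [h3]
    exact Finset.sum_lt_sum_of_nonempty Finset.univ_nonempty fun σ _ => hx _ σ

end dens

/-- Invariants of twisted vectors are rational. -/
theorem twisted_rational {k E G : Type} [Field k] [Field E] [Algebra k E] [FiniteDimensional k E]
    [IsGalois k E] [Group G] [Fintype G] (ε : (E ≃ₐ[k] E) →* G) (M : G → E)
    (hM : ∀ (ρ : E ≃ₐ[k] E) y, ρ (M y) = M (ε ρ * y)) (i : Option (Fin (Fintype.card G))) :
    ∃ c : k, MvPolynomial.aeval M (tv k G i) = algebraMap k E c := by
  have h1 : MvPolynomial.aeval M (tv k G i) ∈ (⊥ : IntermediateField k E) := by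
    rw [IsGalois.mem_bot_iff_fixed]
    intro ρ
    have h2 := MvPolynomial.comp_aeval_apply (f := M) (φ := (ρ : E →ₐ[k] E)) (tv k G i)
    have h3 : (fun y => (ρ : E →ₐ[k] E) (M y)) = M ∘ Equiv.mulLeft (ε ρ) := by
      funext y
      exact hM ρ y
    rw [h3, tv_mulLeft] at h2
    exact h2
  obtain ⟨c, hc⟩ := IntermediateField.mem_bot.1 h1
  exact ⟨c, hc.symm⟩

/-- Algebraic elements of a field of rational functions are constants. -/
theorem const_of_algebraic {k F ι : Type} [Field k] [CharZero k] [Field F]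
    [Algebra (MvPolynomial ι k) F] [IsFractionRing (MvPolynomial ι k) F]
    [Algebra k F] [IsScalarTower k (MvPolynomial ι k) F] (c : F) (hc : IsAlgebraic k c) :
    ∃ a : k, c = algebraMap k F a := by
  classical
  have h1 : IsIntegral k c := hc.isIntegral
  have h2 : IsIntegral (MvPolynomial ι k) c := h1.tower_top
  obtain ⟨p, rfl⟩ := IsIntegrallyClosed.algebraMap_eq_of_integral h2
  obtain ⟨f, hf, hf0⟩ := h1
  have hfp : Polynomial.aeval p f = 0 := by
    apply IsFractionRing.injective (MvPolynomial ι k) F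
    rw [map_zero, ← Polynomial.aeval_algebraMap_apply]
    exact hf0
  have h3 : ∀ x : ι → k, MvPolynomial.eval x p ∈ f.roots.toFinset := by
    intro x
    rw [Multiset.mem_toFinset, Polynomial.mem_roots hf.ne_zero, Polynomial.IsRoot.def]
    have h4 := congrArg (MvPolynomial.aeval x : MvPolynomial ι k →ₐ[k] k) hfp
    rw [map_zero, ← Polynomial.aeval_algHom_apply] at h4
    have h5 : (MvPolynomial.aeval x : MvPolynomial ι k →ₐ[k] k) p = MvPolynomial.eval x p :=
      DFunLike.congr_fun (MvPolynomial.coe_aeval_eq_eval x) p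
    rw [h5] at h4
    rw [← h4, Polynomial.coe_aeval_eq_eval]
  have h4 : ∏ r ∈ f.roots.toFinset, (p - MvPolynomial.C r) = 0 := by
    apply MvPolynomial.funext
    intro x
    rw [map_prod, map_zero]
    apply Finset.prod_eq_zero (h3 x)
    rw [map_sub, MvPolynomial.eval_C, sub_self]
  obtain ⟨r, -, hr⟩ := Finset.prod_eq_zero_iff.1 h4
  refine ⟨r, ?_⟩
  rw [sub_eq_zero.1 hr, IsScalarTower.algebraMap_apply k (MvPolynomial ι k) F,
    MvPolynomial.algebraMap_eq]

/-- Extension of automorphisms of constants. -/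
theorem exists_lift_const {k F N E ι : Type} [Field k] [CharZero k] [Field F]
    [Algebra (MvPolynomial ι k) F] [IsFractionRing (MvPolynomial ι k) F]
    [Algebra k F] [IsScalarTower k (MvPolynomial ι k) F] [Field N] [Algebra F N]
    [FiniteDimensional F N] [IsGalois F N] [Algebra k N] [IsScalarTower k F N]
    [Field E] [Algebra k E] [FiniteDimensional k E] [IsGalois k E] (jE : E →ₐ[k] N)
    (ρ : E ≃ₐ[k] E) : ∃ γ : N ≃ₐ[F] N, ∀ y, γ (jE y) = jE (ρ y) := by
  classical
  let _ : Algebra E N := jE.toRingHom.toAlgebra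
  have hT : IsScalarTower k E N := IsScalarTower.of_algebraMap_eq fun x => (jE.commutes x).symm
  let R : (N ≃ₐ[F] N) →* (E ≃ₐ[k] E) :=
    { toFun := fun γ => (γ.restrictScalars k).restrictNormal E
      map_one' := by
        apply AlgEquiv.ext
        intro x
        apply jE.injective
        exact AlgEquiv.restrictNormal_commutes _ E x
      map_mul' := fun a b => by
        apply AlgEquiv.ext
        intro x
        apply jE.injective
        have h1 := AlgEquiv.restrictNormal_commutes ((a * b).restrictScalars k) E x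
        have h2 := AlgEquiv.restrictNormal_commutes (a.restrictScalars k) E
          ((b.restrictScalars k).restrictNormal E x)
        have h3 := AlgEquiv.restrictNormal_commutes (b.restrictScalars k) E x
        refine h1.trans (Eq.trans ?_ h2.symm)
        rw [h3]
        rfl }
  have hR : ∀ γ y, jE (R γ y) = γ (jE y) := fun γ y =>
    AlgEquiv.restrictNormal_commutes (γ.restrictScalars k) E y
  have hbot : IntermediateField.fixedField R.range = ⊥ := by
    rw [eq_bot_iff]
    intro x hx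
    have h1 : ∀ γ : N ≃ₐ[F] N, γ (jE x) = jE x := by
      intro γ
      rw [← hR]
      congr 1
      exact hx ⟨R γ, ⟨γ, rfl⟩⟩
    have h2 : jE x ∈ (⊥ : IntermediateField F N) := (IsGalois.mem_bot_iff_fixed _).2 h1
    obtain ⟨c, hc⟩ := IntermediateField.mem_bot.1 h2
    have h3 : IsAlgebraic k c := by
      rw [← isAlgebraic_algebraMap_iff (algebraMap F N).injective, hc]
      exact (Algebra.IsAlgebraic.isAlgebraic (R := k) x).algHom jE
    obtain ⟨a, rfl⟩ := const_of_algebraic (ι := ι) c h3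
    rw [IntermediateField.mem_bot]
    refine ⟨a, jE.injective ?_⟩
    change jE (algebraMap k E a) = jE x
    rw [← hc, jE.commutes, ← IsScalarTower.algebraMap_apply]
  have htop : R.range = ⊤ := by
    rw [← IntermediateField.fixingSubgroup_fixedField R.range, hbot,
      IntermediateField.fixingSubgroup_bot]
  obtain ⟨γ, hγ⟩ : ρ ∈ R.range := by rw [htop]; trivial
  exact ⟨γ, fun y => by rw [← hR, hγ]⟩

end Pool.Agent.H391R2
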