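import Mathlib
import Pool.Agent.H391R2.WrAbs
import Pool.Agent.H391R2.WrPhi

namespace Pool.Agent.H391R2

section asm

variable {G : Type} [Group G] [Fintype G]
variable (base : Option (Fin (Fintype.card G)) → Polynomial ℚ) (w : Polynomial ℚ)

theorem assembly2 {F N : Type} [Field F] [Field N] [Algebra ℚ F] [Algebra ℚ N]
    [Algebra (MvPolynomial
      (Option (Fin (Fintype.card G)) ⊕ Option (Fin (Fintype.card G))) ℚ) F]
    [IsScalarTower ℚ (MvPolynomial
      (Option (Fin (Fintype.card G)) ⊕ Option (Fin (Fintype.card G))) ℚ) F]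
    [IsFractionRing (MvPolynomial
      (Option (Fin (Fintype.card G)) ⊕ Option (Fin (Fintype.card G))) ℚ) F]
    [Algebra F N] [IsScalarTower ℚ F N] [Normal F N] [Algebra F ℂ] (j : N →ₐ[F] ℂ)
    (θ : Option (Fin (Fintype.card G)) ⊕ Option (Fin (Fintype.card G)) → ℂ)
    (hθ : AlgebraicIndependent ℚ θ)
    (hθF : ∀ i, θ i = algebraMap F ℂ (algebraMap (MvPolynomial
      (Option (Fin (Fintype.card G)) ⊕ Option (Fin (Fintype.card G))) ℚ) F (MvPolynomial.X i)))
    (hconj : ∀ x : F, (starRingEnd ℂ) (algebraMap F ℂ x) = algebraMap F ℂ x)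
    (n : ℕ) (hn : 3 ≤ n) (r : Fin n → N) (hr : Function.Injective r) (vv : Fin n → G → N)
    (hsol : ∀ i, Sol G base w θ (j (r i)) (fun g => j (vv i g)))
    (hall : ∀ s v, Sol G base w θ s v → ∃ i, s = j (r i))
    (k₁ k₂ : Fin n) (hk : k₁ ≠ k₂) (hτ1 : (starRingEnd ℂ) (j (r k₁)) = j (r k₂))
    (hτr : ∀ i, i ≠ k₁ → i ≠ k₂ → (starRingEnd ℂ) (j (r i)) = j (r i) ∧
      ∀ g, (starRingEnd ℂ) (j (vv i g)) = j (vv i g)) :
    ∃ π : (N ≃ₐ[F] N) →* Wr G n, ∀ x : Wr G n, ∏ i, Abelianization.of (x.left i) = 1 →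
      x ∈ π.range := by
  classical
  have hjinj : ∀ a b, j a = j b → a = b := fun a b h => j.injective h
  let cF : ℂ ≃ₐ[F] ℂ := AlgEquiv.ofRingEquiv (f := Complex.conjAe.toRingEquiv) hconj
  let _ : Algebra N ℂ := j.toRingHom.toAlgebra
  have hT : IsScalarTower F N ℂ := IsScalarTower.of_algebraMap_eq fun x => (j.commutes x).symm
  let τ : N ≃ₐ[F] N := cF.restrictNormal N
  have hτ : ∀ x, j (τ x) = (starRingEnd ℂ) (j x) := fun x =>
    AlgEquiv.restrictNormal_commutes cF N x
  have hττ : τ * τ = 1 := by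
    apply AlgEquiv.ext
    intro x
    apply hjinj
    rw [AlgEquiv.mul_apply, hτ, hτ, Complex.conj_conj]
    rfl
  let jQ : N →ₐ[ℚ] ℂ := (j : N →+* ℂ).toRatAlgHom
  have hjQ : ∀ x, jQ x = j x := fun x => rfl
  let θN : Option (Fin (Fintype.card G)) ⊕ Option (Fin (Fintype.card G)) → N := fun i =>
    algebraMap F N (algebraMap (MvPolynomial
      (Option (Fin (Fintype.card G)) ⊕ Option (Fin (Fintype.card G))) ℚ) F (MvPolynomial.X i))
  have hθN : jQ ∘ θN = θ := by
    funext i
    rw [hθF]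
    exact j.commutes _
  have hind : AlgebraicIndependent ℚ θN := by
    rw [← jQ.algebraicIndependent_iff jQ.injective, hθN]
    exact hθ
  have hsolN : ∀ s v, Sol G base w θN s v ↔ Sol G base w θ (j s) (fun g => j (v g)) := by
    intro s v
    rw [← Sol_map G base w jQ jQ.injective θN s v, hθN]
    rfl
  refine main_abs base w θN hind (fun _ => rfl) n hn r hr vv (fun i => (hsolN _ _).2 (hsol i))
    (fun s v h => ?_) τ k₁ k₂ hk ?_ (fun i hi1 hi2 => ⟨?_, fun g => ?_⟩) hττ
  · obtain ⟨i, hi⟩ := hall _ _ ((hsolN _ _).1 h)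
    exact ⟨i, j.injective hi⟩
  · apply hjinj
    rw [hτ, hτ1]
  · apply hjinj
    rw [hτ, (hτr i hi1 hi2).1]
  · apply hjinj
    rw [hτ, (hτr i hi1 hi2).2]

end asm

/-- A finite Galois extension inside `ℂ` containing given algebraic numbers. -/
theorem exists_galois {F : Type} [Field F] [CharZero F] [Algebra F ℂ] (S : Finset ℂ)
    (hS : ∀ x ∈ S, IsIntegral F x) : ∃ (N : Type) (_ : Field N) (_ : Algebra F N)
    (_ : FiniteDimensional F N) (_ : IsGalois F N) (j : N →ₐ[F] ℂ), ∀ x ∈ S, ∃ y, j y = x := by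
  classical
  let P : Polynomial F := ∏ x ∈ S, minpoly F x
  have hP : P ≠ 0 := Finset.prod_ne_zero_iff.2 fun x hx => minpoly.ne_zero (hS x hx)
  let N := IntermediateField.adjoin F (P.rootSet ℂ)
  have hsplit : P.IsSplittingField F N :=
    IntermediateField.adjoin_rootSet_isSplittingField (IsAlgClosed.splits _)
  have hfd : FiniteDimensional F N := hsplit.finiteDimensional N P
  have hnormal : Normal F N := Normal.of_isSplittingField P
  have hgal : IsGalois F N := { __ := hnormal }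
  refine ⟨N, inferInstance, inferInstance, hfd, hgal, N.val, fun x hx => ?_⟩
  have hx' : x ∈ N := by
    apply IntermediateField.subset_adjoin
    rw [Polynomial.mem_rootSet]
    refine ⟨hP, ?_⟩
    rw [map_prod]
    exact Finset.prod_eq_zero hx (minpoly.aeval F x)
  exact ⟨⟨x, hx'⟩, rfl⟩

end Pool.Agent.H391R2
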