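import Mathlib
import Pool.Agent.H391R2.WrAsm
import Pool.Agent.H391R2.WrRM2
import Pool.Agent.H391R2.WrExist

namespace Pool.Agent.H391R2

open Filter Topology MvPolynomial

theorem numbers (d T : ℕ) (hd : 0 < d) : ∃ n₀ : ℕ, ∀ n ≥ n₀, 3 ≤ n ∧ ∃ a j : ℕ,
    n + j = d * (2 * a + 2) ∧ j ≤ 2 * a ∧ T * (j + 1) < 2 * a + 2 := by
  refine ⟨2 * d * (d + T * (2 * d + 1) + 1) + 3, fun n hn => ⟨by omega, ?_⟩⟩
  have h1 := Nat.div_add_mod n (2 * d)
  have h2 := Nat.mod_lt n (show 0 < 2 * d by omega)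
  have h3 : d + T * (2 * d + 1) + 1 ≤ n / (2 * d) := by
    rw [Nat.le_div_iff_mul_le (by omega)]
    calc (d + T * (2 * d + 1) + 1) * (2 * d) = 2 * d * (d + T * (2 * d + 1) + 1) := by ring
      _ ≤ n := by omega
  refine ⟨n / (2 * d), 2 * d - n % (2 * d), ?_, by omega, ?_⟩
  · have h4 : n + (2 * d - n % (2 * d)) = 2 * d * (n / (2 * d)) + 2 * d := by omega
    rw [h4]; ring
  · have h5 : T * (2 * d - n % (2 * d) + 1) ≤ T * (2 * d + 1) :=
      Nat.mul_le_mul_left _ (by omega)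
    omega

/-- Real coordinates. -/
theorem real_of_Pc {m : ℕ} (c : Fin m → ℝ) (S : Finset ℝ) (hS : S.card = m)
    (hroot : ∀ y ∈ S, (Pc c).eval y = 0) (z : ℂ) (hz : (Pc fun i => (c i : ℂ)).eval z = 0) :
    (starRingEnd ℂ) z = z := by
  classical
  obtain ⟨hm, hd⟩ := Pc_natDegree c
  have h1 : S.val ≤ (Pc c).roots := by
    rw [Multiset.le_iff_subset S.nodup]
    intro x hx
    rw [Polynomial.mem_roots hm.ne_zero]
    exact hroot x hx
  have h2 : S.val = (Pc c).roots := by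
    apply Multiset.eq_of_le_of_card_le h1
    refine (Polynomial.card_roots' _).trans ?_
    rw [hd]
    exact hS.symm.le
  have h3 : (Pc c) = ∏ y ∈ S, (Polynomial.X - Polynomial.C y) := by
    have h4 := Polynomial.prod_multiset_X_sub_C_of_monic_of_roots_card_eq hm (by
      rw [← h2, hd]; exact hS)
    rw [← h4, ← h2]
    rfl
  have h4 : (Pc fun i => (c i : ℂ)) = (Pc c).map Complex.ofRealHom := by
    rw [Pc_map]
    rfl
  rw [h4, h3, Polynomial.map_prod, Polynomial.eval_prod, Finset.prod_eq_zero_iff] at hz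
  obtain ⟨y, -, hy⟩ := hz
  simp only [Polynomial.map_sub, Polynomial.map_X, Polynomial.map_C, Polynomial.eval_sub,
    Polynomial.eval_X, Polynomial.eval_C, sub_eq_zero] at hy
  rw [hy]
  exact Complex.conj_ofReal y

/-- The set of roots. -/
theorem roots_eq (p : Polynomial ℂ) (hp : p ≠ 0) (pR : Polynomial ℝ)
    (hpR : pR.map Complex.ofRealHom = p) (D : ℕ) (hD : p.natDegree = D) (T' : Finset ℝ)
    (hT' : T'.card + 2 = D) (hroot : ∀ x ∈ T', pR.eval x = 0) (z : ℂ) (hz : z.im ≠ 0)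
    (hz0 : p.eval z = 0) : ∃ Rts : Finset ℂ, Rts.card = D ∧ (∀ s, p.eval s = 0 ↔ s ∈ Rts) ∧
      z ∈ Rts ∧ (starRingEnd ℂ) z ∈ Rts ∧
      ∀ s ∈ Rts, s ≠ z → s ≠ (starRingEnd ℂ) z → ∃ x ∈ T', s = (x : ℂ) := by
  classical
  have hconj : p.eval ((starRingEnd ℂ) z) = 0 := by
    have h0 : ∀ s, p.eval s = Polynomial.aeval s pR := by
      intro s
      rw [← hpR]
      exact Polynomial.eval_map_algebraMap pR s
    rw [h0] at hz0 ⊢
    rw [Polynomial.aeval_conj, hz0, map_zero]
  let TC : Finset ℂ := T'.image fun x : ℝ => (x : ℂ)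
  have hTC : TC.card = T'.card := by
    apply Finset.card_image_of_injective
    exact Complex.ofReal_injective
  have h1 : (starRingEnd ℂ) z ∉ TC := by
    intro h
    obtain ⟨x, -, hx⟩ := Finset.mem_image.1 h
    apply hz
    have := congrArg Complex.im hx
    simpa using this.symm
  have h2 : z ∉ insert ((starRingEnd ℂ) z) TC := by
    intro h
    rcases Finset.mem_insert.1 h with h | h
    · apply hz
      have := congrArg Complex.im h
      rw [Complex.conj_im] at this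
      linarith
    · obtain ⟨x, -, hx⟩ := Finset.mem_image.1 h
      apply hz
      rw [← hx]
      simp
  let Rts : Finset ℂ := insert z (insert ((starRingEnd ℂ) z) TC)
  have hcard : Rts.card = D := by
    simp only [Rts]
    rw [Finset.card_insert_of_notMem h2, Finset.card_insert_of_notMem h1, hTC, ← hT']
  have hall : ∀ s ∈ Rts, p.eval s = 0 := by
    intro s hs
    rcases Finset.mem_insert.1 hs with rfl | hs
    · exact hz0
    · rcases Finset.mem_insert.1 hs with rfl | hs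
      · exact hconj
      · obtain ⟨x, hx, rfl⟩ := Finset.mem_image.1 hs
        rw [← hpR]
        have h3 := Polynomial.eval_map_apply (f := Complex.ofRealHom) (p := pR) (x := x)
        rw [hroot x hx, map_zero] at h3
        exact h3
  have hroots : Rts.val = p.roots := by
    have h3 : Rts.val ≤ p.roots := by
      rw [Multiset.le_iff_subset Rts.nodup]
      intro x hx
      rw [Polynomial.mem_roots hp]
      exact hall x hx
    apply Multiset.eq_of_le_of_card_le h3
    refine (Polynomial.card_roots' _).trans ?_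
    rw [hD]
    exact hcard.symm.le
  refine ⟨Rts, hcard, fun s => ⟨fun hs => ?_, hall s⟩, Finset.mem_insert_self _ _,
    Finset.mem_insert_of_mem (Finset.mem_insert_self _ _), fun s hs hsz hsz' => ?_⟩
  · rw [← Finset.mem_val, hroots, Polynomial.mem_roots hp]
    exact hs
  · rcases Finset.mem_insert.1 hs with rfl | hs
    · exact absurd rfl hsz
    · rcases Finset.mem_insert.1 hs with rfl | hs
      · exact absurd rfl hsz'
      · obtain ⟨x, hx, rfl⟩ := Finset.mem_image.1 hs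
        exact ⟨x, hx, rfl⟩

/-- Integral roots are roots of the base polynomial. -/
theorem base_points {G : Type} [Group G] [Fintype G] (l : G → ℚ) (K η : ℚ) (n j : ℕ)
    (hj : j ≤ 2 * n)
    (Ψ : Polynomial (MvPolynomial (Fin (Fintype.card G)) ℚ))
    (hΨ : Ψ.map ((aeval fun i : Fin (Fintype.card G) => esymm G ℚ (i + 1) :
      MvPolynomial (Fin (Fintype.card G)) ℚ →ₐ[ℚ] MvPolynomial G ℚ) :
      MvPolynomial (Fin (Fintype.card G)) ℚ →+* MvPolynomial G ℚ) =
      ∏ q ∈ orb ℚ G, (Polynomial.X - Polynomial.C q))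
    (θ : Ix G → ℂ) (k : ℕ) (hk : k < j) :
    (Phi (bs l K η n) (Rp j) Ψ θ).eval ((k : ℂ) + 1) = 0 := by
  have hw : ∀ m, k < m → Polynomial.aeval ((k : ℂ) + 1) (Rp m) = 0 := by
    intro m hm
    rw [Rp_aeval]
    exact Finset.prod_eq_zero (Finset.mem_range.2 hm) (sub_self _)
  have h1 : (Phi (bs l K η n) (Rp j) Ψ θ).eval ((k : ℂ) + 1) =
      (Phi (bs l K η n) (Rp j) Ψ (0 : Ix G → ℂ)).eval ((k : ℂ) + 1) := by
    rw [Phi_eval, Phi_eval]
    simp only [fam_eval, hw j hk, zero_mul]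
  rw [h1, Phi_zero_eval l K η n j Ψ hΨ]
  apply Finset.prod_eq_zero (y0_mem_orb ℚ G)
  rw [Pp_aeval, hw (2 * n) (by omega)]
  simp

theorem exists_gal (G : Type) [Group G] [Fintype G] : ∃ n₀ : ℕ, ∀ n ≥ n₀,
    ∃ (F N : Type) (_ : Field F) (_ : Algebra (MvPolynomial (Ix G) ℚ) F)
      (_ : IsFractionRing (MvPolynomial (Ix G) ℚ) F) (_ : Field N) (_ : Algebra F N)
      (_ : FiniteDimensional F N) (_ : IsGalois F N) (π : (N ≃ₐ[F] N) →* Wr G n),
      ∀ x : Wr G n, ∏ i, Abelianization.of (x.left i) = 1 → x ∈ π.range := by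
  classical
  obtain ⟨l, hl, hmin, hdist⟩ := exists_lam G
  obtain ⟨Ψ, hm, hdeg, hΨ⟩ := exists_psi ℚ G
  obtain ⟨T, hT⟩ : ∃ T : ℕ, ∀ e, (Ψ.coeff e).totalDegree ≤ T := by
    refine ⟨(Finset.range (Ψ.natDegree + 1)).sup fun e => (Ψ.coeff e).totalDegree, fun e => ?_⟩
    by_cases he : e ≤ Ψ.natDegree
    · exact Finset.le_sup (f := fun e => (Ψ.coeff e).totalDegree)
        (Finset.mem_range.2 (Nat.lt_succ_of_le he))
    · rw [Polynomial.coeff_eq_zero_of_natDegree_lt (not_le.1 he), totalDegree_zero]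
      exact Nat.zero_le _
  have hd0 : 0 < (orb ℚ G).card := Finset.card_pos.2 ⟨_, y0_mem_orb ℚ G⟩
  obtain ⟨n₀, hn₀⟩ := numbers (orb ℚ G).card T hd0
  refine ⟨n₀, fun n hn => ?_⟩
  obtain ⟨hn3, a, j, hnj, hja, hTa⟩ := hn₀ n hn
  obtain ⟨K, η, hK, hη, hKη⟩ := exists_K_eta a
    (((orb ℚ G).erase (y0 ℚ G)).image fun q => (aeval l q - aeval l (y0 ℚ G) : ℚ)) (by
      intro δ hδ
      obtain ⟨q, hq, rfl⟩ := Finset.mem_image.1 hδ
      exact sub_pos.2 (hmin q (Finset.mem_of_mem_erase hq) (Finset.ne_of_mem_erase hq)))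
  obtain ⟨R, hR0, hreal⟩ := real_roots l hdist K η hK hη a j Ψ hΨ (fun q hq hne =>
    hKη _ (Finset.mem_image_of_mem _ (Finset.mem_erase.2 ⟨hne, hq⟩)))
  have hnonreal := nonreal_root l K η hK hη a j hja Ψ hm hΨ T hT hTa
  have hcoord := real_coords l hl K η a j R
  obtain ⟨θ, ⟨⟨⟨T', hT', hT'r⟩, z, hz, hz0⟩, hc⟩, hθ⟩ :=
    exists_indep_near (Ix G) _ ((hreal.and hnonreal).and hcoord)
  -- complex parameters
  set θc : Ix G → ℂ := fun i => (θ i : ℂ) with hθc
  let ofRQ : ℝ →ₐ[ℚ] ℂ := (Complex.ofRealHom).toRatAlgHom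
  have hofR : ofRQ ∘ θ = θc := rfl
  have hθind : AlgebraicIndependent ℚ θc := by
    rw [← hofR]
    exact hθ.map' ofRQ.injective
  set p := Phi (bs l K η a) (Rp j) Ψ θc with hp
  have hpR : (Phi (bs l K η a) (Rp j) Ψ θ).map Complex.ofRealHom = p :=
    Phi_map (bs l K η a) (Rp j) Ψ ofRQ θ
  obtain ⟨hpd, hpl⟩ := Phi_natDegree l K η hK.ne' a j hja Ψ hm T hT hTa θc
  rw [← hp] at hpd hpl
  have hp0 : p ≠ 0 := by
    intro h
    rw [h, Polynomial.leadingCoeff_zero] at hpl
    have h3 : algebraMap ℚ ℂ K ≠ 0 := by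
      rw [_root_.map_ne_zero]
      exact hK.ne'
    exact pow_ne_zero _ h3 hpl.symm
  rw [hdeg, ← hnj] at hpd
  rw [← hnj] at hT'
  obtain ⟨Rts, hRcard, hRroot, hzR, hzR', hRreal⟩ := roots_eq p hp0 _ hpR (n + j) hpd T' hT'
    (fun x hx => (hT'r x hx).2) z hz hz0
  -- remove base points
  let Wj : Finset ℂ := (Finset.range j).image fun k : ℕ => ((k : ℂ) + 1)
  have hWcard : Wj.card = j := by
    simp only [Wj]
    rw [Finset.card_image_of_injective, Finset.card_range]
    intro a b hab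
    have : (a : ℂ) + 1 = b + 1 := hab
    exact_mod_cast add_right_cancel this
  have hWsub : Wj ⊆ Rts := by
    intro s hs
    obtain ⟨k, hk, rfl⟩ := Finset.mem_image.1 hs
    exact (hRroot _).1 (base_points l K η a j hja Ψ hΨ θc k (Finset.mem_range.1 hk))
  have hWw : ∀ s : ℂ, Polynomial.aeval s (Rp j) ≠ 0 ↔ s ∉ Wj := by
    intro s
    rw [not_iff_not, Rp_aeval, Finset.prod_eq_zero_iff]
    simp only [Wj, Finset.mem_image, sub_eq_zero, eq_comm (a := s)]
  let B : Finset ℂ := Rts \ Wj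
  have hBcard : B.card = n := by
    simp only [B]
    rw [Finset.card_sdiff_of_subset hWsub, hRcard, hWcard, Nat.add_sub_cancel]
  let e : Fin n ≃ B := (Finset.equivFinOfCardEq hBcard).symm
  have heB : ∀ i, p.eval (e i : ℂ) = 0 ∧ Polynomial.aeval (e i : ℂ) (Rp j) ≠ 0 := by
    intro i
    have h1 := (Finset.mem_sdiff.1 (e i).2)
    exact ⟨(hRroot _).2 h1.1, (hWw _).2 h1.2⟩
  have hex : ∀ i : Fin n, ∃ v : G → ℂ, Sol G (bs l K η a) (Rp j) θc (e i : ℂ) v := fun i =>
    exists_Sol (bs l K η a) (Rp j) Ψ hΨ θc _ (heB i).2 (heB i).1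
  choose vv hvv using hex
  have hWreal : ∀ s ∈ Wj, s.im = 0 := by
    intro s hs
    obtain ⟨k, -, rfl⟩ := Finset.mem_image.1 hs
    simp
  have hzB : z ∈ B := Finset.mem_sdiff.2 ⟨hzR, fun h => hz (hWreal z h)⟩
  have hzB' : (starRingEnd ℂ) z ∈ B := Finset.mem_sdiff.2 ⟨hzR', fun h => hz (by
    have := hWreal _ h
    rw [Complex.conj_im] at this
    linarith)⟩
  -- the base field
  obtain ⟨F, iF1, iF2, iF3, iF4, iF5, φ, hφ⟩ := exists_field hθind
  let algF : Algebra F ℂ := φ.toRingHom.toAlgebra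
  have hlft : ∀ x, algebraMap F ℂ x = φ x := fun x => rfl
  have hθF : ∀ i, θc i = algebraMap F ℂ
      (algebraMap (MvPolynomial (Ix G) ℚ) F (MvPolynomial.X i)) := by
    intro i
    rw [hlft, hφ, MvPolynomial.aeval_X]
  have hconjF : ∀ x : F, (starRingEnd ℂ) (algebraMap _ ℂ x) = algebraMap _ ℂ x := by
    intro x
    obtain ⟨u, v, hv, rfl⟩ := IsFractionRing.div_surjective (A := MvPolynomial (Ix G) ℚ) x
    have h1 : ∀ q : MvPolynomial (Ix G) ℚ, (starRingEnd ℂ) (aeval θc q) = aeval θc q := by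
      intro q
      have h2 := comp_aeval_apply (f := θ) (φ := ofRQ) q
      have h3 : (fun i => ofRQ (θ i)) = θc := rfl
      rw [h3] at h2
      rw [← h2]
      exact Complex.conj_ofReal _
    rw [hlft, map_div₀, hφ, hφ, map_div₀, h1, h1]
  have hchar : CharZero F := charZero_of_injective_algebraMap (algebraMap ℚ F).injective
  -- integrality
  let θF : Ix G → F := fun i => algebraMap (MvPolynomial (Ix G) ℚ) F (MvPolynomial.X i)
  have hθF' : φ ∘ θF = θc := funext fun i => (hθF i).symm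
  have hrint : ∀ i, IsIntegral F (e i : ℂ) := by
    intro i
    rw [← isAlgebraic_iff_isIntegral]
    refine ⟨Phi (bs l K η a) (Rp j) Ψ θF, fun h => ?_, ?_⟩
    · apply hp0
      have h1 := Phi_map (bs l K η a) (Rp j) Ψ φ θF
      rw [h, hθF', Polynomial.map_zero] at h1
      exact h1.symm
    · have h1 := Phi_map (bs l K η a) (Rp j) Ψ φ θF
      rw [hθF'] at h1
      rw [← Polynomial.eval_map_algebraMap]
      have h2 : (algebraMap F ℂ) = ((φ : F →ₐ[ℚ] ℂ) : F →+* ℂ) := rfl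
      rw [h2, h1]
      exact (heB i).1
  have hPc : ∀ i g, (Pc (fun i' : Fin (Fintype.card G) =>
      (fam G (bs l K η a) (Rp j) θc (some i')).eval (e i : ℂ))).eval (vv i g) = 0 := by
    intro i g
    have h1 := prod_eq_Pc (k := ℚ) (vv i)
    have h2 : (fun i' : Fin (Fintype.card G) => aeval (vv i) (esymm G ℚ (i' + 1))) =
        fun i' => (fam G (bs l K η a) (Rp j) θc (some i')).eval (e i : ℂ) :=
      funext fun i' => (hvv i).2 (some i')
    rw [h2] at h1
    rw [← h1, Polynomial.eval_prod]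
    exact Finset.prod_eq_zero (Finset.mem_univ g) (by simp)
  have hvint : ∀ i g, IsIntegral F (vv i g) := by
    intro i g
    have hmem : ∀ i' : Fin (Fintype.card G),
        (fam G (bs l K η a) (Rp j) θc (some i')).eval (e i : ℂ) ∈ integralClosure F ℂ := by
      intro i'
      have h1 := fam_map G (bs l K η a) (Rp j) φ θF (some i')
      rw [hθF'] at h1
      have h2 : (algebraMap F ℂ) = ((φ : F →ₐ[ℚ] ℂ) : F →+* ℂ) := rfl
      rw [← h1, ← h2, Polynomial.eval_map_algebraMap]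
      exact Algebra.adjoin_le (Set.singleton_subset_iff.2 (hrint i))
        (Polynomial.aeval_mem_adjoin_singleton _ _)
    have h3 : IsIntegral (integralClosure F ℂ) (vv i g) := by
      refine ⟨Pc fun i' => (⟨_, hmem i'⟩ : integralClosure F ℂ), (Pc_natDegree _).1, ?_⟩
      rw [← Polynomial.eval_map, Pc_map]
      exact hPc i g
    exact isIntegral_trans _ h3
  let S : Finset ℂ := (Finset.univ.image fun i : Fin n => (e i : ℂ)) ∪
    (Finset.univ.image fun q : Fin n × G => vv q.1 q.2)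
  obtain ⟨N, h1, h2, h3, h4, jj, hjj⟩ := exists_galois
    (F := F) S (by
      intro x hx
      rcases Finset.mem_union.1 hx with hx | hx
      · obtain ⟨i, -, rfl⟩ := Finset.mem_image.1 hx
        exact hrint i
      · obtain ⟨q, -, rfl⟩ := Finset.mem_image.1 hx
        exact hvint q.1 q.2)
  have hr' : ∀ i : Fin n, ∃ y : N, jj y = (e i : ℂ) := fun i => hjj _
    (Finset.mem_union_left _ (Finset.mem_image_of_mem _ (Finset.mem_univ i)))
  have hv' : ∀ (i : Fin n) (g : G), ∃ y : N, jj y = vv i g := fun i g => hjj _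
    (Finset.mem_union_right _ (Finset.mem_image_of_mem (fun q : Fin n × G => vv q.1 q.2)
      (Finset.mem_univ (i, g))))
  choose r hr using hr'
  choose vN hvN using hv'
  refine ⟨F, N, iF1, iF3, iF5, h1, h2, h3, h4, ?_⟩
  have hcN : CharZero N := charZero_of_injective_algebraMap (algebraMap F N).injective
  refine assembly2 (bs l K η a) (Rp j) jj θc hθind hθF hconjF n hn3 r ?_ vN ?_ ?_
    (e.symm ⟨z, hzB⟩) (e.symm ⟨_, hzB'⟩) ?_ ?_ ?_
  · intro i i' hii
    have h5 : (e i : ℂ) = e i' := by rw [← hr i, ← hr i', hii]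
    exact e.injective (Subtype.ext h5)
  · intro i
    have h5 : (fun g => jj (vN i g)) = vv i := funext fun g => hvN i g
    rw [h5, hr i]
    exact hvv i
  · intro s v hs
    have h5 : p.eval s = 0 := Sol_root (bs l K η a) (Rp j) Ψ hΨ θc s v hs
    have h6 : s ∈ B := Finset.mem_sdiff.2 ⟨(hRroot s).1 h5, (hWw s).1 hs.1⟩
    refine ⟨e.symm ⟨s, h6⟩, ?_⟩
    rw [hr, Equiv.apply_symm_apply]
  · intro h
    have h5 := e.symm.injective h
    have h6 := congrArg (fun x : B => (x : ℂ).im) h5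
    simp only [Complex.conj_im] at h6
    apply hz
    linarith
  · rw [hr, hr, Equiv.apply_symm_apply, Equiv.apply_symm_apply]
  · intro i hi1 hi2
    have h5 : (e i : ℂ) ≠ z := fun h => hi1 (by
      rw [Equiv.eq_symm_apply]; exact Subtype.ext h)
    have h6 : (e i : ℂ) ≠ (starRingEnd ℂ) z := fun h => hi2 (by
      rw [Equiv.eq_symm_apply]; exact Subtype.ext h)
    obtain ⟨x, hx, hxe⟩ := hRreal _ (Finset.mem_sdiff.1 (e i).2).1 h5 h6
    refine ⟨by rw [hr, hxe]; exact Complex.conj_ofReal x, fun g => ?_⟩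
    rw [hvN]
    obtain ⟨S', hS', hS'r⟩ := hc x (by
      have := (hT'r x hx).1
      rw [abs_lt] at this
      exact ⟨this.1.le, this.2.le⟩)
    refine real_of_Pc _ S' hS' hS'r _ ?_
    rw [← hPc i g]
    congr 2
    funext i'
    have h7 := fam_map G (bs l K η a) (Rp j) ofRQ θ (some i')
    rw [hofR] at h7
    rw [← h7, hxe]
    exact (Polynomial.eval_map_apply (f := (ofRQ : ℝ →+* ℂ)) ..).symm

end Pool.Agent.H391R2
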