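import Mathlib
import Pool.Agent.H391R2.FnB
import Pool.Agent.H391R2.NtF
import Pool.Agent.H391R2.TwB
import Pool.Agent.H391R2.WrAsm2
import Pool.Agent.H391R2.WrFinal

namespace Pool.Agent.H391R2

open Filter Topology MvPolynomial

/-- The class of an element of the wreath product. -/
noncomputable def wcls (G : Type) [Group G] (n : ℕ) : Wr G n →* Abelianization G :=
  MonoidHom.mk' (fun x => ∏ i, Abelianization.of (x.left i)) (fun a b => by
    simp only [wr_mul_left, map_mul, Finset.prod_mul_distrib]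
    congr 1
    exact Equiv.prod_comp a.right⁻¹ (fun i => Abelianization.of (b.left i)))

theorem wcls_apply (G : Type) [Group G] (n : ℕ) (x : Wr G n) :
    wcls G n x = ∏ i, Abelianization.of (x.left i) := rfl

/-- From characters to the full group. -/
theorem range_top {H G : Type} [Group H] [Group G] {n : ℕ} (π : H →* Wr G n)
    (h0 : ∀ x : Wr G n, ∏ i, Abelianization.of (x.left i) = 1 → x ∈ π.range)
    (h1 : ∀ g : G, ∃ γ : H, wcls G n (π γ) * Abelianization.of g = 1) :
    Function.Surjective π := by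
  intro x
  obtain ⟨g, hg⟩ : ∃ g : G, Abelianization.of g = (wcls G n x)⁻¹ :=
    QuotientGroup.mk_surjective _
  obtain ⟨γ, hγ⟩ := h1 g
  rw [hg, mul_inv_eq_one] at hγ
  have h2 : x * (π γ)⁻¹ ∈ π.range := by
    apply h0
    rw [← wcls_apply, map_mul, map_inv, hγ, mul_inv_cancel]
  have h3 : x ∈ π.range := by
    have h4 := π.range.mul_mem h2 ⟨γ, rfl⟩
    rwa [inv_mul_cancel_right] at h4
  exact h3

theorem exists_gal_full (G : Type) [Group G] [Fintype G] (hG3 : 3 ≤ Fintype.card G) :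
    ∃ n₀ : ℕ, ∀ n ≥ n₀,
    ∃ (F N : Type) (_ : Field F) (_ : Algebra (MvPolynomial (Ix G) ℚ) F)
      (_ : IsFractionRing (MvPolynomial (Ix G) ℚ) F) (_ : Field N) (_ : Algebra F N)
      (_ : FiniteDimensional F N) (_ : IsGalois F N) (π : (N ≃ₐ[F] N) →* Wr G n),
      Function.Surjective π := by
  classical
  obtain ⟨l, hl, hmin, hdist⟩ := exists_lam G
  obtain ⟨Ψ, hm, hdeg, hΨ⟩ := exists_psi ℚ G
  obtain ⟨T, hT⟩ : ∃ T : ℕ, ∀ e, (Ψ.coeff e).totalDegree ≤ T := by
    refine ⟨(Finset.range (Ψ.natDegree + 1)).sup fun e => (Ψ.coeff e).totalDegree, fun e => ?_⟩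
    by_cases he : e ≤ Ψ.natDegree
    · exact Finset.le_sup (f := fun e => (Ψ.coeff e).totalDegree)
        (Finset.mem_range.2 (Nat.lt_succ_of_le he))
    · rw [Polynomial.coeff_eq_zero_of_natDegree_lt (not_le.1 he), totalDegree_zero]
      exact Nat.zero_le _
  have hd0 : 0 < (orb ℚ G).card := Finset.card_pos.2 ⟨_, y0_mem_orb ℚ G⟩
  obtain ⟨n₀, hn₀⟩ := numbers2 (orb ℚ G).card T (Fintype.card G) hd0
  refine ⟨n₀, fun n hn => ?_⟩
  obtain ⟨hn3, a, J, hnJ, hGJ, hJa, hTa⟩ := hn₀ n hn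
  obtain ⟨K, η, hK, hη, hKη⟩ := exists_K_eta a
    (((orb ℚ G).erase (y0 ℚ G)).image fun q => (aeval l q - aeval l (y0 ℚ G) : ℚ)) (by
      intro δ hδ
      obtain ⟨q, hq, rfl⟩ := Finset.mem_image.1 hδ
      exact sub_pos.2 (hmin q (Finset.mem_of_mem_erase hq) (Finset.ne_of_mem_erase hq)))
  obtain ⟨R, hgood⟩ := all_good l hl hdist K η hK hη a J hJa Ψ hm hΨ T hT hTa (fun q hq hne =>
    hKη _ (Finset.mem_image_of_mem _ (Finset.mem_erase.2 ⟨hne, hq⟩)))
  set Q : Polynomial ℚ := Polynomial.C K * Pp a η with hQ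
  have hQd : Q.natDegree = 2 * a + 2 := by
    rw [hQ, Polynomial.natDegree_C_mul hK.ne', (Pp_monic a η).2]
  have hQlc : Q.leadingCoeff = K := by
    rw [hQ, Polynomial.leadingCoeff_mul, Polynomial.leadingCoeff_C, (Pp_monic a η).1.leadingCoeff,
      mul_one]
  obtain ⟨δ, hδ, hcfg⟩ := config l hl hdist Q J Ψ _ R hgood
  -- the real number field
  obtain ⟨E, iE1, iE2, iE3, iE4, iE, ε, hε⟩ := exists_real_field G
  obtain ⟨emb⟩ : Nonempty (G ↪ Fin J) := by
    rw [Function.Embedding.nonempty_iff_card_le, Fintype.card_fin]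
    exact hGJ
  let εJ : Fin J → (E ≃ₐ[ℚ] E) →* G := fun k => if h : ∃ g, emb g = k then ε h.choose else 1
  have hεJ : ∀ g, εJ (emb g) = ε g := by
    intro g
    have h : ∃ g', emb g' = emb g := ⟨g, rfl⟩
    simp only [εJ, dif_pos h]
    congr 1
    exact emb.injective h.choose_spec
  have hεJ' : ∀ k, (¬ ∃ g, emb g = k) → εJ k = 1 := by
    intro k h
    simp only [εJ, dif_neg h]
  have htw : ∀ k, ∃ M : G → E, (∀ (ρ : E ≃ₐ[ℚ] E) y, ρ (M y) = M (εJ k ρ * y)) ∧
      ∀ y, |iE (M y) - l y| < δ := fun k => exists_twisted iE (εJ k) (fun y => (l y : ℝ)) δ hδ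
  choose M hM hMδ using htw
  obtain ⟨hνinj, hνy, hνκ⟩ := hcfg (fun k y => iE (M k y)) hMδ
  have hrat : ∀ k i, ∃ c : ℚ, aeval (M k) (tv ℚ G i) = algebraMap ℚ E c := fun k i =>
    twisted_rational (εJ k) (M k) (hM k) i
  choose c hc using hrat
  let iEQ : E →ₐ[ℚ] ℝ := iE.toRatAlgHom
  have hiEQ : ∀ x, iEQ x = iE x := fun x => rfl
  let κ : Fin J × Option (Fin (Fintype.card G)) → ℚ := fun p =>
    c p.1 p.2 - aeval l (tv ℚ G p.2)
  have hκ : ∀ k i, algebraMap ℚ ℝ (κ (k, i)) = aeval (fun y => iE (M k y)) (tv ℚ G i) -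
      aeval (fun y => (l y : ℝ)) (tv ℚ G i) := by
    intro k i
    have h1 := comp_aeval_apply (f := M k) (φ := iEQ) (tv ℚ G i)
    rw [hc, AlgHom.commutes] at h1
    have h2 : (fun y => iEQ (M k y)) = fun y => iE (M k y) := rfl
    rw [h2] at h1
    rw [← h1]
    have h3 : (aeval (fun y => (l y : ℝ)) (tv ℚ G i) : ℝ) =
        algebraMap ℚ ℝ (aeval l (tv ℚ G i)) := aeval_algebraMap_rat l (tv ℚ G i)
    rw [h3, ← map_sub]
  obtain ⟨θ, hθ, ⟨T', hT', hT'r⟩, ⟨z, hz, hz0⟩, hcoord⟩ := hνκ κ hκ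
  rw [dfun_ofReal] at hz0
  -- complex parameters
  set θc : Ix G → ℂ := fun i => (θ i : ℂ) with hθc
  let ofRQ : ℝ →ₐ[ℚ] ℂ := (Complex.ofRealHom).toRatAlgHom
  have hofR : ofRQ ∘ θ = θc := rfl
  have hθind : AlgebraicIndependent ℚ θc := by
    rw [← hofR]
    exact hθ.map' ofRQ.injective
  set base : Option (Fin (Fintype.card G)) → Polynomial ℚ := fun i => bsQ l Q i + cor κ i
    with hbase
  set w := Rp J with hw
  set p := Phi base w Ψ θc with hp
  have hfamR : fam G base w θ = pert (bsQ l Q) (dfun J (fun p => algebraMap ℚ ℝ (κ p), θ)) :=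
    fam_eq_pert (bsQ l Q) J κ θ
  have hfamC : fam G base w θc = pert (bsQ l Q) (dfun J (fun p => algebraMap ℚ ℂ (κ p), θc)) :=
    fam_eq_pert (bsQ l Q) J κ θc
  have hpR' : PhiP Ψ (pert (bsQ l Q) (dfun J (fun p => algebraMap ℚ ℝ (κ p), θ))) =
      Phi base w Ψ θ := by
    rw [← hfamR]
    rfl
  have hpC' : PhiP Ψ (pert (bsQ l Q) (dfun J (fun p => algebraMap ℚ ℂ (κ p), θc))) = p := by
    rw [← hfamC]
    rfl
  rw [hpR'] at hT'r
  rw [hpC'] at hz0
  have hpR : (Phi base w Ψ θ).map Complex.ofRealHom = p :=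
    Phi_map base w Ψ ofRQ θ
  have hpdl : p.natDegree = Ψ.natDegree * (2 * a + 2) ∧
      p.leadingCoeff = (algebraMap ℚ ℂ Q.leadingCoeff) ^ Ψ.natDegree := by
    rw [← hpC']
    exact PhiP_pert_degree l Q (2 * a + 2) hQd (by omega) (by omega) Ψ hm T hT hTa _
  obtain ⟨hpd, hpl⟩ := hpdl
  have hKC : algebraMap ℚ ℂ K ≠ 0 := by
    rw [_root_.map_ne_zero]
    exact hK.ne'
  have hp0 : p ≠ 0 := by
    intro h
    rw [h, Polynomial.leadingCoeff_zero, hQlc] at hpl
    exact pow_ne_zero _ hKC hpl.symm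
  rw [hdeg, ← hnJ] at hpd
  rw [← hnJ] at hT'
  obtain ⟨Rts, hRcard, hRroot, hzR, hzR', hRreal⟩ := roots_eq p hp0 _ hpR (n + J) hpd T' hT'
    (fun x hx => (hT'r x hx).2) z hz hz0
  -- base points
  have hnd : ∀ k : Fin J, Polynomial.aeval (nd J k) Q = 0 := by
    intro k
    have h1 : Polynomial.aeval (nd J k) (Rp (2 * a)) = 0 := by
      rw [Rp_aeval]
      exact Finset.prod_eq_zero (Finset.mem_range.2 (lt_of_lt_of_le k.2 hJa)) (sub_self _)
    rw [hQ, map_mul, Pp_aeval, h1, mul_zero, mul_zero]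
  have hbaseval : ∀ (k : Fin J) i, (base i).eval (nd J k) = c k i := by
    intro k i
    rw [hbase]
    simp only [Polynomial.eval_add]
    rw [cor_eval]
    have h1 : (bsQ l Q i).eval (nd J k) = aeval l (tv ℚ G i) := by
      cases i with
      | none =>
        simp only [bsQ, Polynomial.eval_add, Polynomial.eval_C, tv]
        have h2 := hnd k
        rw [Polynomial.coe_aeval_eq_eval] at h2
        rw [h2, add_zero]
      | some i => simp only [bsQ, Polynomial.eval_C, tv]
    rw [h1]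
    simp [κ]
  have hνsol : ∀ (N' : Type) [Field N'] [Algebra ℚ N'] (jj : E →ₐ[ℚ] N') (k : Fin J),
      SolP ℚ (fun i => (base i).map (algebraMap ℚ N')) (algebraMap ℚ N' (nd J k))
        (fun y => jj (M k y)) := by
    intro N' _ _ jj k i
    have h1 := comp_aeval_apply (f := M k) (φ := jj) (tv ℚ G i)
    rw [hc, AlgHom.commutes] at h1
    rw [← h1, Polynomial.eval_map_algebraMap, Polynomial.aeval_algebraMap_apply,
      Polynomial.coe_aeval_eq_eval, hbaseval]
  have hwnd : ∀ k : Fin J, Polynomial.aeval (nd J k) w = 0 := fun k => Rp_nd J k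
  let iEC : E →ₐ[ℚ] ℂ := ofRQ.comp iEQ
  -- remove base points
  let Wj : Finset ℂ := Finset.univ.image fun k : Fin J => algebraMap ℚ ℂ (nd J k)
  have hWcard : Wj.card = J := by
    simp only [Wj]
    rw [Finset.card_image_of_injective, Finset.card_univ, Fintype.card_fin]
    exact (algebraMap ℚ ℂ).injective.comp (nd_inj J)
  have hWsub : Wj ⊆ Rts := by
    intro s hs
    obtain ⟨k, -, rfl⟩ := Finset.mem_image.1 hs
    rw [← hRroot]
    have h1 := hνsol ℂ iEC k
    have h2 : SolP ℚ (fam G base w θc) (algebraMap ℚ ℂ (nd J k)) (fun y => iEC (M k y)) := by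
      intro i
      rw [h1 i, fam_eval, Polynomial.aeval_algebraMap_apply _ _ w, hwnd, map_zero, zero_mul,
        add_zero, Polynomial.eval_map_algebraMap]
    exact SolP_root Ψ hΨ _ _ _ h2
  have hWw : ∀ s : ℂ, Polynomial.aeval s w ≠ 0 ↔ s ∉ Wj := by
    intro s
    rw [not_iff_not]
    constructor
    · intro h
      obtain ⟨k, rfl⟩ := Rp_roots J s h
      exact Finset.mem_image_of_mem _ (Finset.mem_univ k)
    · intro h
      obtain ⟨k, -, rfl⟩ := Finset.mem_image.1 h
      rw [Polynomial.aeval_algebraMap_apply _ _ w, hwnd, map_zero]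
  let B : Finset ℂ := Rts \ Wj
  have hBcard : B.card = n := by
    simp only [B]
    rw [Finset.card_sdiff_of_subset hWsub, hRcard, hWcard, Nat.add_sub_cancel]
  let e : Fin n ≃ B := (Finset.equivFinOfCardEq hBcard).symm
  have heB : ∀ i, p.eval (e i : ℂ) = 0 ∧ Polynomial.aeval (e i : ℂ) w ≠ 0 := by
    intro i
    have h1 := (Finset.mem_sdiff.1 (e i).2)
    exact ⟨(hRroot _).2 h1.1, (hWw _).2 h1.2⟩
  have hex : ∀ i : Fin n, ∃ v : G → ℂ, Sol G base w θc (e i : ℂ) v := fun i =>
    exists_Sol base w Ψ hΨ θc _ (heB i).2 (heB i).1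
  choose vv hvv using hex
  have hWreal : ∀ s ∈ Wj, s.im = 0 := by
    intro s hs
    obtain ⟨k, -, rfl⟩ := Finset.mem_image.1 hs
    simp
  have hzB : z ∈ B := Finset.mem_sdiff.2 ⟨hzR, fun h => hz (hWreal z h)⟩
  have hzB' : (starRingEnd ℂ) z ∈ B := Finset.mem_sdiff.2 ⟨hzR', fun h => hz (by
    have := hWreal _ h
    rw [Complex.conj_im] at this
    linarith)⟩
  -- the base field
  obtain ⟨F, iF1, iF2, iF3, iF4, iF5, φ, hφ⟩ := exists_field hθind
  let algF : Algebra F ℂ := φ.toRingHom.toAlgebra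
  have hlft : ∀ x, algebraMap F ℂ x = φ x := fun x => rfl
  have hθF : ∀ i, θc i = algebraMap F ℂ
      (algebraMap (MvPolynomial (Ix G) ℚ) F (MvPolynomial.X i)) := by
    intro i
    rw [hlft, hφ, MvPolynomial.aeval_X]
  have hconjF : ∀ x : F, (starRingEnd ℂ) (algebraMap _ ℂ x) = algebraMap _ ℂ x := by
    intro x
    obtain ⟨u, v, hv, rfl⟩ := IsFractionRing.div_surjective (A := MvPolynomial (Ix G) ℚ) x
    have h1 : ∀ q : MvPolynomial (Ix G) ℚ, (starRingEnd ℂ) (aeval θc q) = aeval θc q := by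
      intro q
      have h2 := comp_aeval_apply (f := θ) (φ := ofRQ) q
      have h3 : (fun i => ofRQ (θ i)) = θc := rfl
      rw [h3] at h2
      rw [← h2]
      exact Complex.conj_ofReal _
    rw [hlft, map_div₀, hφ, hφ, map_div₀, h1, h1]
  have hchar : CharZero F := charZero_of_injective_algebraMap (algebraMap ℚ F).injective
  -- integrality
  let θF : Ix G → F := fun i => algebraMap (MvPolynomial (Ix G) ℚ) F (MvPolynomial.X i)
  have hθF' : φ ∘ θF = θc := funext fun i => (hθF i).symm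
  have hrint : ∀ i, IsIntegral F (e i : ℂ) := by
    intro i
    rw [← isAlgebraic_iff_isIntegral]
    refine ⟨Phi base w Ψ θF, fun h => ?_, ?_⟩
    · apply hp0
      have h1 := Phi_map base w Ψ φ θF
      rw [h, hθF', Polynomial.map_zero] at h1
      exact h1.symm
    · have h1 := Phi_map base w Ψ φ θF
      rw [hθF'] at h1
      rw [← Polynomial.eval_map_algebraMap]
      have h2 : (algebraMap F ℂ) = ((φ : F →ₐ[ℚ] ℂ) : F →+* ℂ) := rfl
      rw [h2, h1]
      exact (heB i).1
  have hPc : ∀ i g, (Pc (fun i' : Fin (Fintype.card G) =>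
      (fam G base w θc (some i')).eval (e i : ℂ))).eval (vv i g) = 0 := fun i g =>
    SolP_Pc _ _ _ (hvv i).2 g
  have hvint : ∀ i g, IsIntegral F (vv i g) := by
    intro i g
    have hmem : ∀ i' : Fin (Fintype.card G),
        (fam G base w θc (some i')).eval (e i : ℂ) ∈ integralClosure F ℂ := by
      intro i'
      have h1 := fam_map G base w φ θF (some i')
      rw [hθF'] at h1
      have h2 : (algebraMap F ℂ) = ((φ : F →ₐ[ℚ] ℂ) : F →+* ℂ) := rfl
      rw [← h1, ← h2, Polynomial.eval_map_algebraMap]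
      exact Algebra.adjoin_le (Set.singleton_subset_iff.2 (hrint i))
        (Polynomial.aeval_mem_adjoin_singleton _ _)
    have h3 : IsIntegral (integralClosure F ℂ) (vv i g) := by
      refine ⟨Pc fun i' => (⟨_, hmem i'⟩ : integralClosure F ℂ), (Pc_natDegree _).1, ?_⟩
      rw [← Polynomial.eval_map, Pc_map]
      exact hPc i g
    exact isIntegral_trans _ h3
  let b := Module.finBasis ℚ E
  have hEint : ∀ x : E, IsIntegral F (iEC x) := by
    intro x
    have h1 : IsIntegral ℚ x := Algebra.IsIntegral.isIntegral x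
    have h2 : IsIntegral ℚ (iEC x) := h1.map iEC
    exact h2.tower_top
  let S : Finset ℂ := (Finset.univ.image fun i : Fin n => (e i : ℂ)) ∪
    ((Finset.univ.image fun q : Fin n × G => vv q.1 q.2) ∪
    (Finset.univ.image fun q => iEC (b q)))
  obtain ⟨N, h1, h2, h3, h4, jj, hjj⟩ := exists_galois
    (F := F) S (by
      intro x hx
      rcases Finset.mem_union.1 hx with hx | hx
      · obtain ⟨i, -, rfl⟩ := Finset.mem_image.1 hx
        exact hrint i
      · rcases Finset.mem_union.1 hx with hx | hx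
        · obtain ⟨q, -, rfl⟩ := Finset.mem_image.1 hx
          exact hvint q.1 q.2
        · obtain ⟨q, -, rfl⟩ := Finset.mem_image.1 hx
          exact hEint _)
  have hr' : ∀ i : Fin n, ∃ y : N, jj y = (e i : ℂ) := fun i => hjj _
    (Finset.mem_union_left _ (Finset.mem_image_of_mem _ (Finset.mem_univ i)))
  have hv' : ∀ (i : Fin n) (g : G), ∃ y : N, jj y = vv i g := fun i g => hjj _
    (Finset.mem_union_right _ (Finset.mem_union_left _
      (Finset.mem_image_of_mem (fun q : Fin n × G => vv q.1 q.2)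
      (Finset.mem_univ (i, g)))))
  have hb' : ∀ q, ∃ y : N, jj y = iEC (b q) := fun q => hjj _
    (Finset.mem_union_right _ (Finset.mem_union_right _
      (Finset.mem_image_of_mem (fun q => iEC (b q)) (Finset.mem_univ q))))
  choose r hr using hr'
  choose vN hvN using hv'
  choose bN hbN using hb'
  have hcN : CharZero N := charZero_of_injective_algebraMap (algebraMap F N).injective
  let algN : Algebra ℚ N := ((algebraMap F N).comp (algebraMap ℚ F)).toAlgebra
  have hTN : IsScalarTower ℚ F N := IsScalarTower.of_algebraMap_eq fun x => rfl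
  let jQ : N →ₐ[ℚ] ℂ := (jj : N →+* ℂ).toRatAlgHom
  have hjQ : ∀ x, jQ x = jj x := fun x => rfl
  have hjQinj : Function.Injective jQ := jQ.injective
  -- constants
  have hErange : ∀ x : E, iEC x ∈ jQ.range := by
    intro x
    rw [← b.sum_repr x, map_sum]
    refine Subalgebra.sum_mem _ fun q _ => ?_
    rw [map_smul]
    have hmem : iEC (b q) ∈ jQ.range := (AlgHom.mem_range jQ).2 ⟨bN q, hbN q⟩
    exact Subalgebra.smul_mem _ hmem _
  let jE : E →ₐ[ℚ] N := ((AlgEquiv.ofInjective jQ hjQinj).symm : jQ.range →ₐ[ℚ] N).comp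
    (iEC.codRestrict jQ.range hErange)
  have hjE : ∀ x, jQ (jE x) = iEC x := by
    intro x
    have h5 := (AlgEquiv.ofInjective jQ hjQinj).apply_symm_apply ⟨iEC x, hErange x⟩
    exact congrArg Subtype.val h5
  let θN : Ix G → N := fun i => algebraMap F N (θF i)
  have hθN : jQ ∘ θN = θc := by
    funext i
    rw [hθF]
    exact jj.commutes _
  have hindN : AlgebraicIndependent ℚ θN := by
    rw [← jQ.algebraicIndependent_iff jQ.injective, hθN]
    exact hθind
  have hsolN : ∀ i, Sol G base w θN (r i) (vN i) := by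
    intro i
    rw [← Sol_map G base w jQ hjQinj θN (r i) (vN i), hθN]
    have h5 : jQ ∘ (vN i) = vv i := funext fun g => hvN i g
    rw [h5, hjQ, hr i]
    exact hvv i
  have hrinj : Function.Injective r := by
    intro i i' hii
    have h5 : (e i : ℂ) = e i' := by rw [← hr i, ← hr i', hii]
    exact e.injective (Subtype.ext h5)
  have hasm : ∃ π : (N ≃ₐ[F] N) →* Wr G n, (∀ x : Wr G n,
      ∏ i, Abelianization.of (x.left i) = 1 → x ∈ π.range) ∧
      ∀ γ i, γ (r i) = r ((π γ).right i) ∧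
        ∀ g, γ (vN i g) = vN ((π γ).right i) ((π γ).left ((π γ).right i) * g) := by
    refine assembly3 base w jj θc hθind hθF hconjF n hn3 r hrinj vN ?_ ?_
      (e.symm ⟨z, hzB⟩) (e.symm ⟨_, hzB'⟩) ?_ ?_ ?_
    · intro i
      have h5 : (fun g => jj (vN i g)) = vv i := funext fun g => hvN i g
      rw [h5, hr i]
      exact hvv i
    · intro s v hs
      have h5 : p.eval s = 0 := Sol_root base w Ψ hΨ θc s v hs
      have h6 : s ∈ B := Finset.mem_sdiff.2 ⟨(hRroot s).1 h5, (hWw s).1 hs.1⟩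
      refine ⟨e.symm ⟨s, h6⟩, ?_⟩
      rw [hr, Equiv.apply_symm_apply]
    · intro h
      have h5 := e.symm.injective h
      have h6 := congrArg (fun x : B => (x : ℂ).im) h5
      simp only [Complex.conj_im] at h6
      apply hz
      linarith
    · rw [hr, hr, Equiv.apply_symm_apply, Equiv.apply_symm_apply]
    · intro i hi1 hi2
      have h5 : (e i : ℂ) ≠ z := fun h => hi1 (by
        rw [Equiv.eq_symm_apply]; exact Subtype.ext h)
      have h6 : (e i : ℂ) ≠ (starRingEnd ℂ) z := fun h => hi2 (by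
        rw [Equiv.eq_symm_apply]; exact Subtype.ext h)
      obtain ⟨x, hx, hxe⟩ := hRreal _ (Finset.mem_sdiff.1 (e i).2).1 h5 h6
      refine ⟨by rw [hr, hxe]; exact Complex.conj_ofReal x, fun g => ?_⟩
      rw [hvN]
      obtain ⟨S', hS', hS'r⟩ := hcoord x (by
        have := (hT'r x hx).1
        rw [abs_lt] at this
        exact ⟨this.1.le, this.2.le⟩)
      rw [← hfamR] at hS'r
      refine real_of_Pc _ S' hS' hS'r _ ?_
      rw [← hPc i g]
      congr 2
      funext i'
      have h7 := fam_map G base w ofRQ θ (some i')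
      rw [hofR] at h7
      rw [← h7, hxe]
      exact (Polynomial.eval_map_apply (f := (ofRQ : ℝ →+* ℂ)) ..).symm
  obtain ⟨π, hπ0, hπ⟩ := hasm
  refine ⟨F, N, iF1, iF3, iF5, h1, h2, h3, h4, π, range_top π hπ0 fun g₀ => ?_⟩
  obtain ⟨ρ, hρ⟩ := hε g₀
  obtain ⟨γ, hγ⟩ := exists_lift_const (k := ℚ) (F := F) (N := N) (ι := Ix G) jE ρ
  have hyy : ∀ k (π : Equiv.Perm G), aeval ((fun y => jE (M k y)) ∘ π) (y0 ℚ G) =
      aeval (fun y => jE (M k y)) (y0 ℚ G) → ∃ g : G, π = Equiv.mulLeft g := by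
    intro k π' h
    by_contra hcon
    have h5 : rename π' (y0 ℚ G) ≠ y0 ℚ G := fun h => hcon (y0_stab ℚ G π' h)
    apply hνy k _ ((mem_orb ℚ G).2 ⟨π', rfl⟩) h5
    rw [aeval_mem_orb]
    have h6 := comp_aeval_apply (f := M k ∘ π') (φ := jE) (y0 ℚ G)
    have h7 := comp_aeval_apply (f := M k) (φ := jE) (y0 ℚ G)
    have h8 := comp_aeval_apply (f := M k ∘ π') (φ := iEQ) (y0 ℚ G)
    have h9 := comp_aeval_apply (f := M k) (φ := iEQ) (y0 ℚ G)
    change aeval (fun y => iEQ ((M k ∘ π') y)) (y0 ℚ G) = aeval (fun y => iEQ (M k y)) (y0 ℚ G)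
    rw [← h8, ← h9]
    congr 1
    apply jE.injective
    change jE (aeval (M k ∘ π') (y0 ℚ G)) = jE (aeval (M k) (y0 ℚ G))
    rw [h6, h7]
    exact h
  have hmain := class_eq (k := ℚ) hG3 Ψ hΨ (bsQ l Q) (cor κ) (Rp J) (n := n) (J := J)
    (Q.leadingCoeff ^ Ψ.natDegree) (pow_ne_zero _ (by rw [hQlc]; exact hK.ne'))
    (fun E' _ _ θ' x => by
      have h5 := path_degree l Q (2 * a + 2) hQd (by omega) Ψ hm T hT hTa κ E' θ' x
      rw [hdeg, ← hnJ] at h5
      refine ⟨h5.1, ?_⟩
      rw [hdeg]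
      exact h5.2)
    (nd J) (nd_inj J) hwnd (fun E' _ _ s hs => Rp_roots J s hs) l hl (fun i => rfl)
    θN hindN (by omega) r hrinj vN hsolN (fun k y => jE (M k y))
    (fun k => hνsol N jE k)
    (fun k => jE.injective.comp (fun y y' hyy' => hνinj k (congrArg iE hyy')))
    hyy ((γ : N →ₐ[F] N).restrictScalars ℚ) (fun i => γ.commutes _)
    (π γ).right (fun i => (π γ).left ((π γ).right i)) (fun i g => (hπ γ i).2 g)
    (fun k => εJ k ρ) (fun k y => by
      change γ (jE (M k y)) = _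
      rw [hγ, hM])
  have h5 : ∏ i, Abelianization.of ((π γ).left ((π γ).right i)) = wcls G n (π γ) :=
    Equiv.prod_comp (π γ).right (fun i => Abelianization.of ((π γ).left i))
  have h6 : ∏ k, Abelianization.of (εJ k ρ) = Abelianization.of g₀ := by
    rw [Finset.prod_eq_single (emb g₀)]
    · rw [hεJ, (hρ g₀).1 rfl]
    · intro k _ hk
      by_cases hex' : ∃ g, emb g = k
      · obtain ⟨g, rfl⟩ := hex'
        rw [hεJ, (hρ g).2 (fun h => hk (by rw [h])), map_one]
      · rw [hεJ' k hex', MonoidHom.one_apply, map_one]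
    · intro h
      exact absurd (Finset.mem_univ _) h
  rw [h5, h6] at hmain
  exact ⟨γ, hmain⟩

end Pool.Agent.H391R2
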