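import Mathlib

/-! # Determinant estimates used in the p-adic determinant method -/

namespace Pool.Agent.H391R2

open Polynomial

/-- Injective functions into the naturals have a large sum. -/
theorem sum_le_of_injective {J : Type*} [Fintype J] (φ : J → ℕ) (hφ : Function.Injective φ) :
    (Fintype.card J) * (Fintype.card J - 1) / 2 ≤ ∑ j, φ j := by
  classical
  set S : Finset ℕ := Finset.univ.image φ with hS
  have hcard : S.card = Fintype.card J := by
    rw [hS, Finset.card_image_of_injective _ hφ, Finset.card_univ]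
  have hsum : ∑ j, φ j = ∑ x ∈ S, x := by
    rw [hS, Finset.sum_image (fun a _ b _ h => hφ h)]
  rw [hsum, ← Finset.sum_range_id, ← hcard]
  have h1 : ∑ x ∈ S, x = ∑ i : Fin S.card, S.orderEmbOfFin rfl i := by
    have h2 := Finset.sum_coe_sort S (fun x => x)
    rw [← h2]
    exact (Fintype.sum_equiv (S.orderIsoOfFin rfl).toEquiv
      (fun i => ((S.orderEmbOfFin rfl i : ℕ))) (fun x : S => (x : ℕ)) (fun i => rfl)).symm
  rw [h1, Finset.sum_range]
  apply Finset.sum_le_sum
  intro i _
  have h3 : ∀ k : ℕ, ∀ hk : k < S.card, k ≤ S.orderEmbOfFin rfl ⟨k, hk⟩ := by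
    intro k
    induction k with
    | zero => intro hk; exact Nat.zero_le _
    | succ k ih =>
      intro hk
      have h4 := ih (by omega)
      have h5 : S.orderEmbOfFin rfl ⟨k, by omega⟩ < S.orderEmbOfFin rfl ⟨k + 1, hk⟩ := by
        apply (S.orderEmbOfFin rfl).strictMono
        simp [Fin.lt_def]
      omega
  exact h3 i i.2

/-- The determinant of the values of integer polynomials at multiples of `q`. -/
theorem pow_dvd_det {J : Type*} [Fintype J] [DecidableEq J] (g : J → ℤ[X]) (u : J → ℤ) (q : ℤ)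
    (hu : ∀ i, q ∣ u i) :
    q ^ ((Fintype.card J) * (Fintype.card J - 1) / 2) ∣
      (Matrix.of fun i j : J => (g j).eval (u i)).det := by
  classical
  obtain ⟨L, hL⟩ : ∃ L : ℕ, ∀ j, (g j).natDegree < L := by
    refine ⟨(Finset.univ.sup fun j => (g j).natDegree) + 1, fun j => ?_⟩
    exact Nat.lt_succ_of_le (Finset.le_sup (f := fun j => (g j).natDegree) (Finset.mem_univ j))
  rw [← Matrix.det_transpose]
  have h1 : (Matrix.of fun i j : J => (g j).eval (u i)).transpose =
      fun j => ∑ l : Fin L, (g j).coeff l • (fun i => (u i) ^ (l : ℕ)) := by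
    ext j i
    simp only [Matrix.transpose_apply, Matrix.of_apply, Finset.sum_apply, Pi.smul_apply,
      smul_eq_mul]
    rw [Polynomial.eval_eq_sum_range' (hL j), Finset.sum_range]
  have h2 : (Matrix.of fun i j : J => (g j).eval (u i)).transpose.det =
      ∑ r : J → Fin L, (∏ j, (g j).coeff (r j)) *
        Matrix.det (fun j i => (u i) ^ ((r j : Fin L) : ℕ)) := by
    rw [h1]
    have := (Matrix.detRowAlternating (n := J) (R := ℤ)).toMultilinearMap.map_sum
      (fun j (l : Fin L) => (g j).coeff l • (fun i => (u i) ^ (l : ℕ)))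
    refine this.trans ?_
    refine Finset.sum_congr rfl fun r _ => ?_
    rw [MultilinearMap.map_smul_univ]
    rfl
  rw [h2]
  refine Finset.dvd_sum fun r _ => Dvd.dvd.mul_left ?_ _
  by_cases hr : Function.Injective fun j => ((r j : Fin L) : ℕ)
  · choose w hw using hu
    have h3 : (fun j i => (u i) ^ ((r j : Fin L) : ℕ) : Matrix J J ℤ) =
        Matrix.of fun j i => q ^ ((r j : Fin L) : ℕ) *
          (Matrix.of fun j i => (w i) ^ ((r j : Fin L) : ℕ) : Matrix J J ℤ) j i := by
      ext j i
      simp only [Matrix.of_apply]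
      rw [← mul_pow, ← hw]
    rw [h3, Matrix.det_mul_column]
    rw [Finset.prod_pow_eq_pow_sum]
    exact (pow_dvd_pow q (sum_le_of_injective _ hr)).mul_right _
  · have h4 : Matrix.det (fun j i => (u i) ^ ((r j : Fin L) : ℕ) : Matrix J J ℤ) = 0 := by
      rw [Function.Injective] at hr
      push Not at hr
      obtain ⟨a, b, hab, hne⟩ := hr
      apply Matrix.det_zero_of_row_eq hne
      ext i
      simp only [hab]
    rw [h4]
    exact dvd_zero _

/-- Upper bound for a determinant with column bounds. -/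
theorem abs_det_le {J : Type*} [Fintype J] [DecidableEq J] (M : Matrix J J ℤ) (B : J → ℤ)
    (hM : ∀ i j, |M i j| ≤ B j) :
    |M.det| ≤ (Fintype.card J).factorial * ∏ j, B j := by
  rw [Matrix.det_apply]
  calc |∑ σ : Equiv.Perm J, Equiv.Perm.sign σ • ∏ i, M (σ i) i|
      ≤ ∑ σ : Equiv.Perm J, |Equiv.Perm.sign σ • ∏ i, M (σ i) i| := Finset.abs_sum_le_sum_abs _ _
    _ ≤ ∑ _σ : Equiv.Perm J, ∏ j, B j := by
        refine Finset.sum_le_sum fun σ _ => ?_
        have h1 : |Equiv.Perm.sign σ • ∏ i, M (σ i) i| = ∏ i, |M (σ i) i| := by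
          rw [← Finset.abs_prod]
          rcases Int.units_eq_one_or (Equiv.Perm.sign σ) with h | h <;> rw [h] <;> simp
        rw [h1]
        exact Finset.prod_le_prod (fun i _ => abs_nonneg _) (fun i _ => hM _ _)
    _ = (Fintype.card J).factorial * ∏ j, B j := by
        rw [Finset.sum_const, Finset.card_univ, Fintype.card_perm, nsmul_eq_mul]

/-- Congruence of values. -/
theorem evalEval_congr (G : ℤ[X][X]) (p a₀ x₀ u y : ℤ) (hu : p ∣ u) (hy : p ∣ y - x₀) :
    p ∣ G.evalEval (a₀ + u) y - G.evalEval a₀ x₀ := by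
  have h1 : y - x₀ ∣ G.evalEval (a₀ + u) y - G.evalEval (a₀ + u) x₀ := by
    rw [← Polynomial.map_evalRingHom_eval, ← Polynomial.map_evalRingHom_eval]
    exact Polynomial.sub_dvd_eval_sub _ _ _
  have h2 : u ∣ G.evalEval (a₀ + u) x₀ - G.evalEval a₀ x₀ := by
    have := Polynomial.sub_dvd_eval_sub (a₀ + u) a₀ (G.eval (C x₀))
    simpa [Polynomial.evalEval] using this
  have h3 := dvd_add (hy.trans h1) (hu.trans h2)
  simpa using h3

/-- Taylor expansion. -/
theorem evalEval_taylor (h : ℤ[X][X]) (a x d : ℤ) :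
    ∃ k : ℤ, h.evalEval a (x + d) = h.evalEval a x + (derivative h).evalEval a x * d + k * d ^ 2 := by
  obtain ⟨k, hk⟩ := Polynomial.binomExpansion (h.map (evalRingHom a)) x d
  refine ⟨k, ?_⟩
  rw [← Polynomial.map_evalRingHom_eval, hk, ← Polynomial.map_evalRingHom_eval,
    ← Polynomial.map_evalRingHom_eval, derivative_map]

/-- Hensel lifting of a simple root along `T ≡ a₀ mod p`, in terms of integer polynomials. -/
theorem hensel_poly (h : ℤ[X][X]) (p : ℤ) (a₀ x₀ w : ℤ) (h0 : p ∣ h.evalEval a₀ x₀)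
    (hw : p ∣ 1 - w * (derivative h).evalEval a₀ x₀) (n : ℕ) :
    ∃ P : ℤ[X], ∀ u : ℤ, p ∣ u → p ∣ P.eval u - x₀ ∧
      p ^ (n + 1) ∣ h.evalEval (a₀ + u) (P.eval u) := by
  induction n with
  | zero =>
    refine ⟨C x₀, fun u hu => ⟨by simp, ?_⟩⟩
    have := evalEval_congr h p a₀ x₀ u x₀ hu (by simp)
    simp only [zero_add, pow_one, eval_C]
    have h2 := dvd_add this h0
    simpa using h2
  | succ n ih =>
    obtain ⟨P, hP⟩ := ih
    refine ⟨P - C w * (h.map (compRingHom (C a₀ + X))).eval P, fun u hu => ?_⟩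
    obtain ⟨h1, h2⟩ := hP u hu
    have h3 : (P - C w * (h.map (compRingHom (C a₀ + X))).eval P).eval u =
        P.eval u + -(w * h.evalEval (a₀ + u) (P.eval u)) := by
      rw [eval_sub, eval_mul, eval_C, sub_eq_add_neg]
      congr 3
      have h4 : (eval P (h.map (compRingHom (C a₀ + X)))).eval u =
          ((h.map (compRingHom (C a₀ + X))).map (evalRingHom u)).eval (P.eval u) := by
        exact (Polynomial.eval_map_apply (evalRingHom u) P).symm
      rw [h4, Polynomial.map_map, ← Polynomial.map_evalRingHom_eval]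
      congr 2
      ext q
      simp
      simp
    rw [h3]
    constructor
    · have h5 : p ∣ w * h.evalEval (a₀ + u) (P.eval u) :=
        Dvd.dvd.mul_left ((dvd_pow_self p (by omega)).trans h2) _
      have h6 := dvd_sub h1 h5
      have h7 : P.eval u + -(w * h.evalEval (a₀ + u) (P.eval u)) - x₀ =
        P.eval u - x₀ - w * h.evalEval (a₀ + u) (P.eval u) := by ring
      rw [h7]
      exact h6
    · obtain ⟨k, hk⟩ := evalEval_taylor h (a₀ + u) (P.eval u)
        (-(w * h.evalEval (a₀ + u) (P.eval u)))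
      rw [hk]
      have h6 : p ∣ 1 - w * (derivative h).evalEval (a₀ + u) (P.eval u) := by
        have h7 := evalEval_congr (derivative h) p a₀ x₀ u (P.eval u) hu h1
        have h8 := dvd_sub hw (Dvd.dvd.mul_left h7 w)
        have h9 : 1 - w * (derivative h).evalEval (a₀ + u) (P.eval u) =
          1 - w * (derivative h).evalEval a₀ x₀ -
          w * ((derivative h).evalEval (a₀ + u) (P.eval u) - (derivative h).evalEval a₀ x₀) := by
          ring
        rw [h9]
        exact h8
      set e := h.evalEval (a₀ + u) (P.eval u) with he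
      set D := (derivative h).evalEval (a₀ + u) (P.eval u) with hD
      have h9 : e + D * -(w * e) + k * (-(w * e)) ^ 2 =
          (1 - w * D) * e + k * w ^ 2 * (e * e) := by ring
      rw [h9]
      apply dvd_add
      · rw [pow_succ, mul_comm (1 - w * D) e]
        exact mul_dvd_mul h2 h6
      · apply Dvd.dvd.mul_left
        have : p ^ (n + 1 + 1) ∣ p ^ (n + 1) * p ^ (n + 1) := by
          rw [← pow_add]
          exact pow_dvd_pow p (by omega)
        exact this.trans (mul_dvd_mul h2 h2)

/-- The roots in a residue class are given by one integer polynomial modulo `p ^ n`. -/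
theorem root_congr (h : ℤ[X][X]) (p : ℤ) (hp : Prime p) (a₀ x₀ : ℤ)
    (h1 : ¬ p ∣ (derivative h).evalEval a₀ x₀) (h0 : p ∣ h.evalEval a₀ x₀) (n : ℕ) :
    ∃ P : ℤ[X], ∀ u x : ℤ, p ∣ u → p ∣ x - x₀ → h.evalEval (a₀ + u) x = 0 →
      p ^ n ∣ x - P.eval u := by
  have hcop : IsCoprime p ((derivative h).evalEval a₀ x₀) :=
    (Prime.coprime_iff_not_dvd hp).2 h1
  obtain ⟨a, w, haw⟩ := hcop
  obtain ⟨P, hP⟩ := hensel_poly h p a₀ x₀ w h0 ⟨a, by linear_combination (-1) * haw⟩ n
  refine ⟨P, fun u x hu hx hroot => ?_⟩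
  obtain ⟨h2, h3⟩ := hP u hu
  obtain ⟨k, hk⟩ := evalEval_taylor h (a₀ + u) (P.eval u) (x - P.eval u)
  rw [add_sub_cancel, hroot] at hk
  have h4 : p ∣ x - P.eval u := by
    have := dvd_sub hx h2
    simpa using this
  have h5 : ¬ p ∣ (derivative h).evalEval (a₀ + u) (P.eval u) + k * (x - P.eval u) := by
    intro h6
    apply h1
    have h7 := evalEval_congr (derivative h) p a₀ x₀ u (P.eval u) hu h2
    have h8 := dvd_sub (dvd_sub h6 (Dvd.dvd.mul_left h4 k)) h7
    have h9 : (derivative h).evalEval a₀ x₀ =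
      (derivative h).evalEval (a₀ + u) (P.eval u) + k * (x - P.eval u) - k * (x - P.eval u) -
        ((derivative h).evalEval (a₀ + u) (P.eval u) - (derivative h).evalEval a₀ x₀) := by ring
    rw [h9]
    exact h8
  have h6 : p ^ n ∣ (x - P.eval u) *
      ((derivative h).evalEval (a₀ + u) (P.eval u) + k * (x - P.eval u)) := by
    have h7 : (x - P.eval u) *
      ((derivative h).evalEval (a₀ + u) (P.eval u) + k * (x - P.eval u)) =
      - h.evalEval (a₀ + u) (P.eval u) := by linear_combination (-1) * hk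
    rw [h7]
    exact ((pow_dvd_pow p (Nat.le_succ n)).trans h3).neg_right
  exact (IsCoprime.pow_left ((Prime.coprime_iff_not_dvd hp).2 h5)).dvd_of_dvd_mul_right h6

end Pool.Agent.H391R2
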