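import Mathlib
import Pool.Agent.H391R2.HitDet

namespace Pool.Agent.H391R2

open Polynomial UniqueFactorizationMonoid

/-- Clearing denominators in a polynomial over a fraction field. -/
theorem exists_clear {R K : Type*} [CommRing R] [IsDomain R] [Field K] [Algebra R K]
    [IsFractionRing R K] (p : K[X]) :
    ∃ (c : R) (P : R[X]), c ≠ 0 ∧ P.map (algebraMap R K) = C (algebraMap R K c) * p := by
  obtain ⟨b, hbm, hb⟩ := IsLocalization.integerNormalization_spec (nonZeroDivisors R) p
  refine ⟨b, IsLocalization.integerNormalization (nonZeroDivisors R) p,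
    nonZeroDivisors.ne_zero hbm, ?_⟩
  rw [hb]
  ext i
  rw [coeff_smul, coeff_C_mul, Algebra.smul_def]

theorem exists_sqfree (f : ℤ[X][X]) (hf : f.Monic) (hroot : ∀ g : ℤ[X], f.eval g ≠ 0) :
    ∃ h : ℤ[X][X], h.Monic ∧ (∀ g : ℤ[X], h.eval g ≠ 0) ∧
      (∀ t x : ℤ, f.evalEval t x = 0 → h.evalEval t x = 0) ∧
      ∃ (U V : ℤ[X][X]) (r : ℤ[X]), r ≠ 0 ∧ U * h + V * derivative h = C r := by
  classical
  let K := FractionRing ℤ[X]
  let φ := algebraMap ℤ[X] K
  have hφ : Function.Injective φ := IsFractionRing.injective _ _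
  have : CharZero K := charZero_of_injective_algebraMap hφ
  set F : K[X] := f.map φ with hF
  have hF0 : F ≠ 0 := (hf.map φ).ne_zero
  obtain ⟨h, hh⟩ := IsIntegrallyClosed.eq_map_mul_C_of_dvd K hf (g := radical F) radical_dvd_self
  have hrad0 : radical F ≠ 0 := radical_ne_zero
  have hlc : (radical F).leadingCoeff ≠ 0 := leadingCoeff_ne_zero.2 hrad0
  -- `h` has unit leading coefficient; rescale
  have hmapmonic : (h.map φ).Monic := by
    have h1 := congrArg leadingCoeff hh
    rw [leadingCoeff_mul, leadingCoeff_C] at h1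
    exact mul_right_cancel₀ hlc (by rw [h1, one_mul])
  have hm : h.Monic := monic_of_injective hφ hmapmonic
  have hdvd : h.map φ ∣ F := (Dvd.intro _ hh).trans radical_dvd_self
  have hsq : Squarefree (h.map φ) := (squarefree_radical (a := F)).squarefree_of_dvd (Dvd.intro _ hh)
  have hhf : h ∣ f := (map_dvd_map φ hφ hm).1 hdvd
  obtain ⟨n, hn⟩ := exists_dvd_radical_self_pow hF0
  have hfh : f ∣ h ^ n := by
    rw [← map_dvd_map φ hφ hf, Polynomial.map_pow]
    refine hn.trans ?_
    rw [← hh, mul_pow, ← C_pow]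
    obtain ⟨q, hq⟩ : IsUnit (C ((radical F).leadingCoeff ^ n)) :=
      (IsUnit.mk0 _ (pow_ne_zero n hlc)).map C
    rw [← hq]
    exact Units.mul_right_dvd.2 dvd_rfl
  have hfh' : ∀ t x : ℤ, f.evalEval t x = 0 → h.evalEval t x = 0 := by
    intro t x h1
    have h2 := evalEval_dvd t x hfh
    rw [h1, zero_dvd_iff, evalEval_pow] at h2
    by_contra hne
    exact pow_ne_zero n hne h2
  refine ⟨h, hm, ?_, hfh', ?_⟩
  · intro g hg
    obtain ⟨k, hk⟩ := hhf
    apply hroot g
    rw [hk, eval_mul, hg, zero_mul]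
  · have hsep : (h.map φ).Separable := PerfectField.separable_iff_squarefree.2 hsq
    obtain ⟨a, b, hab⟩ := hsep
    obtain ⟨c, U, hc, hU⟩ := exists_clear (R := ℤ[X]) a
    obtain ⟨d, V, hd, hV⟩ := exists_clear (R := ℤ[X]) b
    refine ⟨C d * U, C c * V, c * d, mul_ne_zero hc hd, ?_⟩
    apply map_injective φ hφ
    rw [Polynomial.map_add, Polynomial.map_mul, Polynomial.map_mul, Polynomial.map_mul,
      Polynomial.map_mul, map_C, map_C, map_C, hU, hV, ← derivative_map, map_mul, C_mul]
    linear_combination (C (φ c) * C (φ d)) * hab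

end Pool.Agent.H391R2
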