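import Mathlib
import Pool.Agent.H391R2.HitSq

namespace Pool.Agent.H391R2

open Polynomial

/-- If all maximal minors of the monomial matrix vanish, the points lie on a curve of degree at
most one in the second variable. -/
theorem aux_linear (R : ℕ) {ι : Type} (t x : ι → ℤ)
    (hdet : ∀ u : (Fin (R + 1) × Fin 2) → ι,
      (Matrix.of fun i j : Fin (R + 1) × Fin 2 =>
        t (u i) ^ (j.1 : ℕ) * x (u i) ^ (j.2 : ℕ)).det = 0) :
    ∃ G0 G1 : ℤ[X], (G0 ≠ 0 ∨ G1 ≠ 0) ∧ G0.natDegree ≤ R ∧ G1.natDegree ≤ R ∧
      ∀ i, G0.eval (t i) + G1.eval (t i) * x i = 0 := by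
  classical
  let v : ι → ((Fin (R + 1) × Fin 2) → ℚ) :=
    fun i j => ((t i ^ (j.1 : ℕ) * x i ^ (j.2 : ℕ) : ℤ) : ℚ)
  by_cases hspan : Submodule.span ℚ (Set.range v) = ⊤
  · exfalso
    obtain ⟨κ, a, ha, hsp, hli⟩ := exists_linearIndependent' ℚ v
    have hb := Module.Basis.mk hli (by rw [hsp, hspan])
    let e := hb.indexEquiv (Pi.basisFun ℚ (Fin (R + 1) × Fin 2))
    have h1 := hli.comp e.symm e.symm.injective
    have h2 := hdet (fun i => a (e.symm i))
    set M : Matrix (Fin (R + 1) × Fin 2) (Fin (R + 1) × Fin 2) ℤ :=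
      Matrix.of fun i j : Fin (R + 1) × Fin 2 =>
        t (a (e.symm i)) ^ (j.1 : ℕ) * x (a (e.symm i)) ^ (j.2 : ℕ) with hM
    have h3 : IsUnit (M.map (Int.castRingHom ℚ)) := by
      rw [← Matrix.linearIndependent_rows_iff_isUnit]
      exact h1
    rw [Matrix.isUnit_iff_isUnit_det] at h3
    have h4 : (M.map (Int.castRingHom ℚ)).det = 0 := by
      have := RingHom.map_det (Int.castRingHom ℚ) M
      rw [h2, map_zero] at this
      exact this.symm
    rw [h4] at h3
    exact not_isUnit_zero h3
  · obtain ⟨f, hf, hker⟩ := Submodule.exists_le_ker_of_lt_top _ (lt_top_iff_ne_top.2 hspan)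
    obtain ⟨b, hb⟩ := IsLocalization.exist_integer_multiples_of_finite (nonZeroDivisors ℤ)
      (fun j : Fin (R + 1) × Fin 2 => f (Pi.single j 1))
    choose c hc using hb
    have hb0 : ((b : ℤ) : ℚ) ≠ 0 := by
      exact_mod_cast nonZeroDivisors.ne_zero b.2
    have hc' : ∀ j, (c j : ℚ) = (b : ℤ) * f (Pi.single j 1) := by
      intro j
      have := hc j
      simpa [Algebra.smul_def] using this
    let G : Fin 2 → ℤ[X] := fun β => ∑ α : Fin (R + 1), C (c (α, β)) * X ^ (α : ℕ)
    have hcoeff : ∀ β (α : Fin (R + 1)), (G β).coeff α = c (α, β) := by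
      intro β α
      simp only [G, finsetSum_coeff, coeff_C_mul, coeff_X_pow]
      rw [Finset.sum_eq_single α]
      · simp
      · intro α' _ hne
        rw [if_neg, mul_zero]
        intro h
        exact hne (Fin.ext h.symm)
      · simp
    have hdeg : ∀ β, (G β).natDegree ≤ R := by
      intro β
      apply natDegree_sum_le_of_forall_le
      intro α _
      refine (natDegree_C_mul_X_pow_le _ _).trans (Nat.lt_succ_iff.1 α.2)
    refine ⟨G 0, G 1, ?_, hdeg 0, hdeg 1, ?_⟩
    · by_contra hcon
      push Not at hcon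
      apply hf
      apply LinearMap.pi_ext
      intro j r
      have h1 : c j = 0 := by
        rcases j with ⟨α, β⟩
        rw [← hcoeff]
        fin_cases β
        · simp only [Fin.zero_eta, hcon.1, coeff_zero]
        · simp only [Fin.mk_one, hcon.2, coeff_zero]
      have h2 : f (Pi.single j 1) = 0 := by
        have := hc' j
        rw [h1, Int.cast_zero] at this
        rcases mul_eq_zero.1 this.symm with h | h
        · exact absurd h hb0
        · exact h
      have h3 : (Pi.single j r : (Fin (R + 1) × Fin 2) → ℚ) = r • Pi.single j 1 := by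
        rw [← Pi.single_smul, smul_eq_mul, mul_one]
      rw [h3, map_smul, h2, smul_zero, LinearMap.zero_apply]
    · intro i
      have h1 : f (v i) = 0 := hker (Submodule.subset_span ⟨i, rfl⟩)
      have h2 : v i = ∑ j, v i j • (Pi.single j 1 : (Fin (R + 1) × Fin 2) → ℚ) := by
        ext k
        simp [Finset.sum_apply, Pi.single_apply]
      rw [h2, map_sum] at h1
      simp only [map_smul, smul_eq_mul] at h1
      have h3 : (((G 0).eval (t i) + (G 1).eval (t i) * x i : ℤ) : ℚ) =
          (b : ℤ) * ∑ j, v i j * f (Pi.single j 1) := by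
        simp only [G, eval_finsetSum, eval_mul, eval_C, eval_pow, eval_X]
        rw [Fintype.sum_prod_type, Finset.mul_sum]
        push_cast
        rw [Finset.sum_mul, ← Finset.sum_add_distrib]
        refine Finset.sum_congr rfl fun α _ => ?_
        rw [Fin.sum_univ_two]
        simp only [v]
        rw [hc', hc']
        push_cast
        simp
        ring
      rw [h1, mul_zero] at h3
      exact_mod_cast h3

/-- The resultant with a polynomial of degree at most one in the second variable. -/
theorem exists_res (h : ℤ[X][X]) (hm : h.Monic) (hroot : ∀ g : ℤ[X], h.eval g ≠ 0) (D : ℕ)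
    (hD : ∀ i, (h.coeff i).natDegree ≤ D) (R : ℕ)
    (G0 G1 : ℤ[X]) (hG : G0 ≠ 0 ∨ G1 ≠ 0) (h0 : G0.natDegree ≤ R) (h1 : G1.natDegree ≤ R) :
    ∃ H : ℤ[X], H ≠ 0 ∧ H.natDegree ≤ D + h.natDegree * R ∧
      ∀ t x : ℤ, h.evalEval t x = 0 → G0.eval t + G1.eval t * x = 0 → H.eval t = 0 := by
  classical
  set d := h.natDegree with hd
  let H : ℤ[X] := ∑ i ∈ Finset.range (d + 1), h.coeff i * (-G0) ^ i * G1 ^ (d - i)
  refine ⟨H, ?_, ?_, ?_⟩
  · intro hH
    by_cases hG1 : G1 = 0
    · have hG0 : G0 ≠ 0 := by
        rcases hG with h | h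
        · exact h
        · exact absurd hG1 h
      have h2 : H = (-G0) ^ d := by
        simp only [H, hG1]
        rw [Finset.sum_eq_single d]
        · rw [Nat.sub_self, pow_zero, mul_one, hd, hm.coeff_natDegree, one_mul]
        · intro i hi hne
          rw [zero_pow, mul_zero]
          have := Finset.mem_range.1 hi
          omega
        · simp
      rw [h2] at hH
      exact pow_ne_zero d (neg_ne_zero.2 hG0) hH
    · let K := FractionRing ℤ[X]
      let φ := algebraMap ℤ[X] K
      have hφ : Function.Injective φ := IsFractionRing.injective _ _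
      have hφ1 : φ G1 ≠ 0 := by
        rw [Ne, map_eq_zero_iff φ hφ]; exact hG1
      set y : K := -φ G0 / φ G1 with hy
      have h2 : (h.map φ).eval y = 0 := by
        have h3 : φ G1 ^ d * (h.map φ).eval y = φ H := by
          rw [eval_eq_sum_range, hm.natDegree_map, ← hd, Finset.mul_sum, map_sum]
          refine Finset.sum_congr rfl fun i hi => ?_
          have hi' : i ≤ d := Nat.lt_succ_iff.1 (Finset.mem_range.1 hi)
          rw [coeff_map, map_mul, map_mul, map_pow, map_pow, map_neg]
          have h4 : φ G1 ^ d = φ G1 ^ (d - i) * φ G1 ^ i := by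
            rw [← pow_add, Nat.sub_add_cancel hi']
          have h5 : (-φ G0) ^ i = y ^ i * φ G1 ^ i := by
            rw [← mul_pow, hy, div_mul_cancel₀ _ hφ1]
          rw [h4, h5]
          ring
        rw [hH, map_zero] at h3
        exact (mul_eq_zero.1 h3).resolve_left (pow_ne_zero _ hφ1)
      have h3 : IsIntegral ℤ[X] y := ⟨h, hm, by rw [← eval_map]; exact h2⟩
      obtain ⟨g, hg⟩ := IsIntegrallyClosed.isIntegral_iff.1 h3
      apply hroot g
      apply hφ
      rw [map_zero, ← h2, ← hg, eval_map_apply]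
  · apply natDegree_sum_le_of_forall_le
    intro i hi
    have hi' : i ≤ d := Nat.lt_succ_iff.1 (Finset.mem_range.1 hi)
    refine natDegree_mul_le.trans ?_
    have h2 : (h.coeff i * (-G0) ^ i).natDegree ≤ D + i * R := by
      refine natDegree_mul_le.trans (Nat.add_le_add (hD i) ?_)
      refine natDegree_pow_le.trans (Nat.mul_le_mul_left _ ?_)
      rw [natDegree_neg]; exact h0
    have h3 : (G1 ^ (d - i)).natDegree ≤ (d - i) * R :=
      natDegree_pow_le.trans (Nat.mul_le_mul_left _ h1)
    have h4 : d * R = i * R + (d - i) * R := by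
      rw [← Nat.add_mul, Nat.add_sub_cancel' hi']
    omega
  · intro t x hx hG'
    have h2 : H.eval t = G1.eval t ^ d * h.evalEval t x := by
      rw [← map_evalRingHom_eval,
        eval_eq_sum_range' (p := h.map (evalRingHom t)) (n := d + 1), Finset.mul_sum]
      · simp only [H, eval_finsetSum]
        refine Finset.sum_congr rfl fun i hi => ?_
        have hi' : i ≤ d := Nat.lt_succ_iff.1 (Finset.mem_range.1 hi)
        rw [coeff_map, eval_mul, eval_mul, eval_pow, eval_pow, eval_neg]
        have h4 : eval t G1 ^ d = eval t G1 ^ (d - i) * eval t G1 ^ i := by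
          rw [← pow_add, Nat.sub_add_cancel hi']
        have h5 : -eval t G0 = eval t G1 * x := by linear_combination (-1) * hG'
        rw [h4, h5, mul_pow]
        simp only [coe_evalRingHom]
        ring
      · exact Nat.lt_succ_of_le natDegree_map_le
    rw [h2, hx, mul_zero]

/-- Bound for the integer roots. -/
theorem root_bound (h : ℤ[X][X]) (hm : h.Monic) (D : ℕ) (hD : ∀ i, (h.coeff i).natDegree ≤ D) :
    ∃ C0 : ℤ, 1 ≤ C0 ∧ ∀ T t x : ℤ, 1 ≤ T → |t| ≤ T → h.evalEval t x = 0 → |x| ≤ C0 * T ^ D := by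
  classical
  set d := h.natDegree with hd
  refine ⟨1 + ∑ i ∈ Finset.range d, ∑ k ∈ Finset.range (D + 1), |(h.coeff i).coeff k|, ?_, ?_⟩
  · have : (0 : ℤ) ≤ ∑ i ∈ Finset.range d, ∑ k ∈ Finset.range (D + 1), |(h.coeff i).coeff k| :=
      Finset.sum_nonneg fun i _ => Finset.sum_nonneg fun k _ => abs_nonneg _
    omega
  · intro T t x hT ht hx
    set A : ℤ := ∑ i ∈ Finset.range d, ∑ k ∈ Finset.range (D + 1), |(h.coeff i).coeff k| with hA
    have hTD : (1 : ℤ) ≤ T ^ D := one_le_pow₀ hT
    have hS : ∑ i ∈ Finset.range d, |(h.coeff i).eval t| ≤ A * T ^ D := by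
      rw [hA, Finset.sum_mul]
      refine Finset.sum_le_sum fun i _ => ?_
      rw [eval_eq_sum_range' (Nat.lt_succ_of_le (hD i)), Finset.sum_mul]
      refine (Finset.abs_sum_le_sum_abs _ _).trans (Finset.sum_le_sum fun k hk => ?_)
      rw [abs_mul, abs_pow]
      refine mul_le_mul_of_nonneg_left ?_ (abs_nonneg _)
      calc |t| ^ k ≤ T ^ k := pow_le_pow_left₀ (abs_nonneg _) ht k
        _ ≤ T ^ D := pow_le_pow_right₀ hT (Nat.lt_succ_iff.1 (Finset.mem_range.1 hk))
    by_contra hcon
    push Not at hcon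
    have hxS : ∑ i ∈ Finset.range d, |(h.coeff i).eval t| < |x| := by
      have : A * T ^ D ≤ (1 + A) * T ^ D := by nlinarith
      omega
    have hx1 : 1 ≤ |x| := by
      have : (0 : ℤ) ≤ ∑ i ∈ Finset.range d, |(h.coeff i).eval t| :=
        Finset.sum_nonneg fun i _ => abs_nonneg _
      omega
    rw [← map_evalRingHom_eval, eval_eq_sum_range' (n := d + 1)
      (Nat.lt_succ_of_le natDegree_map_le), Finset.sum_range_succ] at hx
    rw [coeff_map, hd, hm.coeff_natDegree, map_one, one_mul, ← hd] at hx
    rcases Nat.eq_zero_or_pos d with h0 | hpos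
    · rw [h0] at hx
      simp at hx
    · have h2 : |x| ^ d ≤ (∑ i ∈ Finset.range d, |(h.coeff i).eval t|) * |x| ^ (d - 1) := by
        have h3 : x ^ d = -∑ i ∈ Finset.range d, (h.map (evalRingHom t)).coeff i * x ^ i := by
          linear_combination hx
        rw [← abs_pow, h3, abs_neg, Finset.sum_mul]
        refine (Finset.abs_sum_le_sum_abs _ _).trans (Finset.sum_le_sum fun i hi => ?_)
        rw [abs_mul, abs_pow, coeff_map, coe_evalRingHom]
        refine mul_le_mul_of_nonneg_left ?_ (abs_nonneg _)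
        apply pow_le_pow_right₀ hx1
        have := Finset.mem_range.1 hi
        omega
      have h3 : |x| ^ d = |x| * |x| ^ (d - 1) := by
        rw [← pow_succ', Nat.sub_add_cancel hpos]
      rw [h3] at h2
      have h4 : 0 < |x| ^ (d - 1) := pow_pos (by omega) _
      have h5 := le_of_mul_le_mul_right h2 h4
      omega

end Pool.Agent.H391R2
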