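import Mathlib
import Pool.Agent.H391R2.HitAux

namespace Pool.Agent.H391R2

open Polynomial

theorem dvd_det_sub {J : Type*} [Fintype J] [DecidableEq J] (M M' : Matrix J J ℤ) (m : ℤ)
    (h : ∀ i j, m ∣ M i j - M' i j) : m ∣ M.det - M'.det := by
  have h1 : M.map (Ideal.Quotient.mk (Ideal.span {m})) =
      M'.map (Ideal.Quotient.mk (Ideal.span {m})) := by
    ext i j
    simp only [Matrix.map_apply]
    rw [Ideal.Quotient.eq, Ideal.mem_span_singleton]
    exact h i j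
  rw [← Ideal.mem_span_singleton, ← Ideal.Quotient.eq, RingHom.map_det, RingHom.map_det]
  congr 1

theorem bad_card (h : ℤ[X][X]) (hm : h.Monic) (hroot : ∀ g : ℤ[X], h.eval g ≠ 0) (D : ℕ)
    (hD : ∀ i, (h.coeff i).natDegree ≤ D) (C0 : ℤ) (_hC0 : 1 ≤ C0)
    (hb : ∀ T t x : ℤ, 1 ≤ T → |t| ≤ T → h.evalEval t x = 0 → |x| ≤ C0 * T ^ D)
    (p : ℕ) (hp : p.Prime) (a₀ x₀ : ℤ) (hx1 : ¬ (p : ℤ) ∣ (derivative h).evalEval a₀ x₀)
    (hx0 : (p : ℤ) ∣ h.evalEval a₀ x₀) (k : ℕ) (hk : 1 ≤ k)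
    (hz : ((2 * (3 * D + 1)).factorial : ℤ) * C0 ^ (3 * D + 1) *
      (|a₀| + 1) ^ ((3 * D + 1) * (4 * D)) < (p : ℤ) ^ k)
    (S : Finset ℤ) (hS : ∀ u ∈ S, 1 ≤ u ∧ u ≤ (p : ℤ) ^ k ∧
      ∃ x : ℤ, (p : ℤ) ∣ x - x₀ ∧ h.evalEval (a₀ + ((p : ℤ) ^ k) ^ 2 * u) x = 0) :
    S.card ≤ D + h.natDegree * (3 * D) := by
  classical
  set z : ℤ := (p : ℤ) ^ k with hzdef
  have hp1 : (1 : ℤ) < p := by exact_mod_cast hp.one_lt
  have hz1 : 1 ≤ z := one_le_pow₀ hp1.le
  have hpz : (p : ℤ) ∣ z := dvd_pow_self _ (by omega)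
  set R := 3 * D with hR
  let J := Fin (R + 1) × Fin 2
  have hcardJ : Fintype.card J = 2 * (R + 1) := by
    simp [J, mul_comm]
  have hS' : ∀ u : S, ∃ x : ℤ, (p : ℤ) ∣ x - x₀ ∧ h.evalEval (a₀ + z ^ 2 * (u : ℤ)) x = 0 :=
    fun u => (hS u u.2).2.2
  choose X0 hX using hS'
  set e : ℕ := (Fintype.card J) * (Fintype.card J - 1) / 2 with he
  have he' : e = (R + 1) * (2 * R + 1) := by
    rw [he, hcardJ]
    have : 2 * (R + 1) * (2 * (R + 1) - 1) = 2 * ((R + 1) * (2 * R + 1)) := by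
      have : 2 * (R + 1) - 1 = 2 * R + 1 := by omega
      rw [this]; ring
    rw [this, Nat.mul_div_cancel_left _ (by norm_num)]
  set n : ℕ := k * (2 * e) with hn
  have hpn : (p : ℤ) ^ n = z ^ (2 * e) := by rw [hn, pow_mul]
  obtain ⟨P, hP⟩ := root_congr h p (Nat.prime_iff_prime_int.1 hp) a₀ x₀ hx1 hx0 n
  obtain ⟨G0, G1, hG, hG0, hG1, hGe⟩ := aux_linear R (ι := S) (fun u => a₀ + z ^ 2 * (u : ℤ)) X0 (by
    intro u
    set M : Matrix J J ℤ := Matrix.of fun i j : J =>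
      (a₀ + z ^ 2 * ((u i : S) : ℤ)) ^ (j.1 : ℕ) * X0 (u i) ^ (j.2 : ℕ) with hM
    let g : J → ℤ[X] := fun j => (C a₀ + X) ^ (j.1 : ℕ) * P ^ (j.2 : ℕ)
    set M' : Matrix J J ℤ := Matrix.of fun i j : J => (g j).eval (z ^ 2 * ((u i : S) : ℤ)) with hM'
    have h1 : (p : ℤ) ^ n ∣ M'.det := by
      have := pow_dvd_det g (fun i => z ^ 2 * ((u i : S) : ℤ)) (z ^ 2) (fun i => dvd_mul_right _ _)
      rw [← he, ← pow_mul, ← hpn] at this
      exact this
    have h2 : (p : ℤ) ^ n ∣ M.det - M'.det := by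
      apply dvd_det_sub
      intro i j
      simp only [hM, hM', Matrix.of_apply, g, eval_mul, eval_pow, eval_add, eval_C, eval_X]
      rw [← mul_sub]
      apply Dvd.dvd.mul_left
      have h3 := hP (z ^ 2 * ((u i : S) : ℤ)) (X0 (u i))
        (Dvd.dvd.mul_right (hpz.trans (dvd_pow_self z (by norm_num))) _) (hX (u i)).1 (hX (u i)).2
      exact h3.trans (sub_dvd_pow_sub_pow _ _ _)
    have h3 : (p : ℤ) ^ n ∣ M.det := by
      have := dvd_add h2 h1
      simpa using this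
    set T : ℤ := (|a₀| + 1) * z ^ 3 with hT
    have hz3 : (1 : ℤ) ≤ z ^ 3 := one_le_pow₀ hz1
    have hT1 : 1 ≤ T := by
      have := abs_nonneg a₀
      nlinarith
    have ht : ∀ v : S, |a₀ + z ^ 2 * (v : ℤ)| ≤ T := by
      intro v
      obtain ⟨h4, h5, -⟩ := hS v v.2
      refine (abs_add_le _ _).trans ?_
      rw [abs_of_nonneg (by positivity : 0 ≤ z ^ 2 * (v : ℤ))]
      have h6 : z ^ 2 * (v : ℤ) ≤ z ^ 3 := by
        have : z ^ 3 = z ^ 2 * z := by ring
        rw [this]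
        exact mul_le_mul_of_nonneg_left h5 (by positivity)
      have := abs_nonneg a₀
      nlinarith
    let B : J → ℤ := fun j => T ^ (j.1 : ℕ) * (C0 * T ^ D) ^ (j.2 : ℕ)
    have h4 : |M.det| ≤ (Fintype.card J).factorial * ∏ j, B j := by
      apply abs_det_le
      intro i j
      simp only [hM, Matrix.of_apply, B]
      rw [abs_mul, abs_pow, abs_pow]
      apply mul_le_mul
      · exact pow_le_pow_left₀ (abs_nonneg _) (ht _) _
      · exact pow_le_pow_left₀ (abs_nonneg _) (hb T _ _ hT1 (ht _) (hX (u i)).2) _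
      · positivity
      · positivity
    have h5 : ∏ j, B j = C0 ^ (R + 1) * T ^ ((R + 1) * (R + D)) := by
      have h6 : ∀ α : Fin (R + 1), ∏ β : Fin 2, B (α, β) = C0 * T ^ D * T ^ (2 * (α : ℕ)) := by
        intro α
        rw [Fin.prod_univ_two]
        simp only [B]
        simp
        ring
      rw [Fintype.prod_prod_type]
      simp only [h6]
      rw [Finset.prod_mul_distrib, Finset.prod_const, Finset.card_univ, Fintype.card_fin,
        Finset.prod_pow_eq_pow_sum, mul_pow, ← pow_mul, mul_assoc, ← pow_add]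
      congr 2
      rw [← Finset.mul_sum]
      have h7 : ∑ i : Fin (R + 1), (i : ℕ) = ∑ i ∈ Finset.range (R + 1), i :=
        Fin.sum_univ_eq_sum_range (fun i => i) (R + 1)
      have h8 := Finset.sum_range_id_mul_two (R + 1)
      rw [h7, mul_comm 2, h8]
      simp
      ring
    have h6 : |M.det| < (p : ℤ) ^ n := by
      rw [hpn]
      refine h4.trans_lt ?_
      rw [h5, hcardJ, hT, mul_pow, ← pow_mul]
      have h7 : 2 * e = 3 * ((R + 1) * (R + D)) + 2 * (R + 1) := by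
        rw [he', hR]; ring
      have h8 : z ^ (2 * e) = z ^ (3 * ((R + 1) * (R + D))) * z ^ (2 * (R + 1)) := by
        rw [h7, pow_add]
      rw [h8]
      have h9 : z ≤ z ^ (2 * (R + 1)) := le_self_pow₀ hz1 (by omega)
      have h10 : 0 < z ^ (3 * ((R + 1) * (R + D))) := by positivity
      have h11 : (R + 1) * (R + D) = (3 * D + 1) * (4 * D) := by rw [hR]; ring
      calc ((2 * (R + 1)).factorial : ℤ) * (C0 ^ (R + 1) * ((|a₀| + 1) ^ ((R + 1) * (R + D)) *
            z ^ (3 * ((R + 1) * (R + D)))))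
          = z ^ (3 * ((R + 1) * (R + D))) * (((2 * (R + 1)).factorial : ℤ) * C0 ^ (R + 1) *
            (|a₀| + 1) ^ ((R + 1) * (R + D))) := by ring
        _ < z ^ (3 * ((R + 1) * (R + D))) * z := by
            apply mul_lt_mul_of_pos_left _ h10
            rw [h11]; exact hz
        _ ≤ z ^ (3 * ((R + 1) * (R + D))) * z ^ (2 * (R + 1)) :=
            mul_le_mul_of_nonneg_left h9 h10.le
    exact Int.eq_zero_of_abs_lt_dvd h3 h6)
  obtain ⟨H, hH0, hHd, hH⟩ := exists_res h hm hroot D hD R G0 G1 hG hG0 hG1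
  have hinj : Function.Injective (fun u : ℤ => a₀ + z ^ 2 * u) := by
    intro u v huv
    have : z ^ 2 ≠ 0 := by positivity
    simpa [this] using huv
  have hsub : S.image (fun u : ℤ => a₀ + z ^ 2 * u) ⊆ H.roots.toFinset := by
    intro t ht
    obtain ⟨u, hu, rfl⟩ := Finset.mem_image.1 ht
    rw [Multiset.mem_toFinset, mem_roots hH0]
    exact hH _ (X0 ⟨u, hu⟩) (hX ⟨u, hu⟩).2 (hGe ⟨u, hu⟩)
  calc S.card = (S.image (fun u : ℤ => a₀ + z ^ 2 * u)).card :=
        (Finset.card_image_of_injective _ hinj).symm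
    _ ≤ H.roots.toFinset.card := Finset.card_le_card hsub
    _ ≤ Multiset.card H.roots := Multiset.toFinset_card_le _
    _ ≤ H.natDegree := H.card_roots'
    _ ≤ D + h.natDegree * R := hHd

/-- Hilbert's irreducibility theorem over `ℤ`, one parameter, root form. -/
theorem hit_int (f : ℤ[X][X]) (hf : f.Monic) (hroot : ∀ g : ℤ[X], f.eval g ≠ 0) (B : ℤ) :
    ∃ t : ℤ, B < t ∧ ∀ x : ℤ, f.evalEval t x ≠ 0 := by
  classical
  obtain ⟨h, hm, hhroot, hfh, U, V, r, hr, hUV⟩ := exists_sqfree f hf hroot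
  obtain ⟨D, hD⟩ : ∃ D : ℕ, ∀ i, (h.coeff i).natDegree ≤ D := by
    refine ⟨(Finset.range (h.natDegree + 1)).sup fun i => (h.coeff i).natDegree, fun i => ?_⟩
    by_cases hi : i ≤ h.natDegree
    · exact Finset.le_sup (f := fun i => (h.coeff i).natDegree)
        (Finset.mem_range.2 (Nat.lt_succ_of_le hi))
    · rw [coeff_eq_zero_of_natDegree_lt (not_le.1 hi), natDegree_zero]
      exact Nat.zero_le _
  obtain ⟨C0, hC0, hb⟩ := root_bound h hm D hD
  -- choose `a₀` with `r(a₀) ≠ 0`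
  obtain ⟨a₀, ha₀⟩ : ∃ a : ℤ, r.eval a ≠ 0 := by
    by_contra hcon
    push Not at hcon
    exact hr (Polynomial.funext fun a => by rw [hcon a, eval_zero])
  -- choose a prime `p` not dividing `r(a₀)`
  obtain ⟨p, hple, hp⟩ := Nat.exists_infinite_primes ((r.eval a₀).natAbs + 1)
  have hpr : ¬ (p : ℤ) ∣ r.eval a₀ := by
    intro hdvd
    have := Int.natAbs_dvd_natAbs.2 hdvd
    rw [Int.natAbs_natCast] at this
    have := Nat.le_of_dvd (Int.natAbs_pos.2 ha₀) this
    omega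
  have hp1 : 1 < p := hp.one_lt
  -- choose `k`
  set C3 : ℤ := ((2 * (3 * D + 1)).factorial : ℤ) * C0 ^ (3 * D + 1) *
      (|a₀| + 1) ^ ((3 * D + 1) * (4 * D)) with hC3
  set N : ℕ := D + h.natDegree * (3 * D) with hN
  obtain ⟨k, hk⟩ : ∃ k : ℕ, C3.natAbs + p * N + B.natAbs + a₀.natAbs + 1 < p ^ k :=
    ⟨_, Nat.lt_pow_self hp1⟩
  have hk1 : 1 ≤ k := by
    by_contra hcon
    have : k = 0 := by omega
    rw [this, pow_zero] at hk
    omega
  have hkz : |C3| + p * N + |B| + |a₀| + 1 < (p : ℤ) ^ k := by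
    rw [Int.abs_eq_natAbs, Int.abs_eq_natAbs, Int.abs_eq_natAbs]
    exact_mod_cast hk
  have hA1 := le_abs_self C3
  have hA2 := abs_nonneg C3
  have hA3 := le_abs_self B
  have hA4 := abs_nonneg B
  have hA5 := neg_abs_le a₀
  have hA6 := abs_nonneg a₀
  have hC3z : C3 < (p : ℤ) ^ k := by
    have : (0 : ℤ) ≤ (p : ℤ) * N := by positivity
    omega
  set z : ℤ := (p : ℤ) ^ k with hz
  -- the bad parameters
  let Bad : ℕ → Finset ℤ := fun x₀ => (Finset.Icc 1 z).filter fun u =>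
    ∃ x : ℤ, (p : ℤ) ∣ x - x₀ ∧ h.evalEval (a₀ + z ^ 2 * u) x = 0
  have hBad : ∀ x₀ : ℕ, (Bad x₀).card ≤ N := by
    intro x₀
    by_cases hx0 : (p : ℤ) ∣ h.evalEval a₀ x₀
    · have hx1 : ¬ (p : ℤ) ∣ (derivative h).evalEval a₀ x₀ := by
        intro hx1
        apply hpr
        have h1 := congrArg (evalEval a₀ (x₀ : ℤ)) hUV
        rw [evalEval_add, evalEval_mul, evalEval_mul, evalEval_C] at h1
        rw [← h1]
        exact dvd_add (Dvd.dvd.mul_left hx0 _) (Dvd.dvd.mul_left hx1 _)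
      apply bad_card h hm hhroot D hD C0 hC0 hb p hp a₀ x₀ hx1 hx0 k hk1 hC3z
      intro u hu
      obtain ⟨h1, h2⟩ := Finset.mem_filter.1 hu
      obtain ⟨h3, h4⟩ := Finset.mem_Icc.1 h1
      exact ⟨h3, h4, h2⟩
    · have : Bad x₀ = ∅ := by
        apply Finset.filter_eq_empty_iff.2
        rintro u - ⟨x, hx, hxu⟩
        apply hx0
        have h1 := evalEval_congr h p a₀ x₀ (z ^ 2 * u) x
          (Dvd.dvd.mul_right ((dvd_pow_self _ (by omega)).trans (dvd_pow_self z (by norm_num))) _) hx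
        rw [hxu, zero_sub, dvd_neg] at h1
        exact h1
      rw [this, Finset.card_empty]
      exact Nat.zero_le _
  have hunion : ((Finset.range p).biUnion Bad).card < (Finset.Icc 1 z).card := by
    refine Finset.card_biUnion_le.trans_lt ?_
    refine (Finset.sum_le_sum fun x₀ _ => hBad x₀).trans_lt ?_
    rw [Finset.sum_const, Finset.card_range, smul_eq_mul, Int.card_Icc]
    have : (0 : ℤ) ≤ (p : ℤ) * N := by positivity
    have h1 : ((z + 1 - 1).toNat : ℤ) = z := by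
      rw [Int.toNat_of_nonneg] <;> omega
    zify
    rw [h1]
    omega
  obtain ⟨u, hu, hunot⟩ := Finset.exists_mem_notMem_of_card_lt_card hunion
  obtain ⟨hu1, hu2⟩ := Finset.mem_Icc.1 hu
  refine ⟨a₀ + z ^ 2 * u, ?_, ?_⟩
  · have : (0 : ℤ) ≤ (p : ℤ) * N := by positivity
    have h1 : z ≤ z ^ 2 * u := by
      have : z ≤ z ^ 2 := le_self_pow₀ (by omega) (by norm_num)
      nlinarith
    omega
  · intro x hx
    apply hunot
    rw [Finset.mem_biUnion]
    have hp0 : (0 : ℤ) < p := by exact_mod_cast hp.pos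
    refine ⟨(x % p).toNat, ?_, ?_⟩
    · rw [Finset.mem_range]
      have := Int.emod_lt_of_pos x hp0
      have := Int.emod_nonneg x hp0.ne'
      omega
    · refine Finset.mem_filter.2 ⟨hu, x, ?_, hfh _ _ hx⟩
      rw [Int.toNat_of_nonneg (Int.emod_nonneg x hp0.ne')]
      exact Int.dvd_self_sub_emod

end Pool.Agent.H391R2
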