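import Mathlib
import Pool.Agent.H391R2.HitOne

namespace Pool.Agent.H391R2

open Polynomial

/-- Root form of Hilbert irreducibility, one integer parameter, over a `ℚ`-algebra. -/
def HP (A : Type) [CommRing A] : Prop :=
  ∀ f : A[X][X], f.Monic → (∀ g : A[X], f.eval g ≠ 0) → ∀ B : ℤ,
    ∃ t : ℤ, B < t ∧ ∀ x : A, f.evalEval (t : A) x ≠ 0

theorem hp_rat : HP ℚ := by
  intro f hf hroot B
  classical
  set φ : ℤ[X] →+* ℚ[X] := mapRingHom (Int.castRingHom ℚ) with hφ
  have hφinj : Function.Injective φ := map_injective _ Int.cast_injective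
  have hclear : ∀ i, ∃ c : ℤ, c ≠ 0 ∧ C (c : ℚ) * f.coeff i ∈ φ.range := by
    intro i
    obtain ⟨c, P, hc, hP⟩ := exists_clear (R := ℤ) (f.coeff i)
    refine ⟨c, hc, P, ?_⟩
    rw [hφ, coe_mapRingHom]
    simpa using hP
  choose c hc0 hc using hclear
  set δ : ℤ := ∏ i ∈ Finset.range (f.natDegree), c i with hδ
  have hδ0 : δ ≠ 0 := Finset.prod_ne_zero_iff.2 fun i _ => hc0 i
  have hδQ : (δ : ℚ) ≠ 0 := by exact_mod_cast hδ0
  have hCint : ∀ m : ℤ, C (m : ℚ) ∈ φ.range := fun m => ⟨C m, by simp [hφ]⟩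
  have hlift : scaleRoots f (C (δ : ℚ)) ∈ lifts φ := by
    rw [lifts_iff_coeff_lifts]
    intro i
    rw [coeff_scaleRoots]
    change _ ∈ φ.range
    rcases lt_trichotomy i f.natDegree with hi | hi | hi
    · have h1 : f.coeff i * C (δ : ℚ) ^ (f.natDegree - i) =
        (C ((∏ k ∈ (Finset.range f.natDegree).erase i, c k : ℤ) : ℚ)) * (C (c i : ℚ) * f.coeff i) *
          C (δ : ℚ) ^ (f.natDegree - i - 1) := by
        have h2 : (δ : ℚ) = ((∏ k ∈ (Finset.range f.natDegree).erase i, c k : ℤ) : ℚ) * c i := by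
          rw [hδ, ← Finset.prod_erase_mul _ _ (Finset.mem_range.2 hi)]
          push_cast; rfl
        have h3 : C (δ : ℚ) ^ (f.natDegree - i) =
            C (δ : ℚ) * C (δ : ℚ) ^ (f.natDegree - i - 1) := by
          rw [← pow_succ']; congr 1; omega
        have h4 : C (δ : ℚ) = C ((∏ k ∈ (Finset.range f.natDegree).erase i, c k : ℤ) : ℚ) *
            C (c i : ℚ) := by rw [← C_mul, ← h2]
        rw [h3]
        nth_rewrite 1 [h4]
        ring
      rw [h1]
      exact φ.range.mul_mem (φ.range.mul_mem (hCint _) (hc i)) (φ.range.pow_mem (hCint δ) _)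
    · rw [hi, hf.coeff_natDegree, Nat.sub_self, pow_zero, mul_one]
      exact φ.range.one_mem
    · rw [coeff_eq_zero_of_natDegree_lt hi, zero_mul]
      exact φ.range.zero_mem
  obtain ⟨F, hF, -, hFm⟩ := lifts_and_natDegree_eq_and_monic hlift
    ((monic_scaleRoots_iff _).2 hf)
  have hFroot : ∀ g : ℤ[X], F.eval g ≠ 0 := by
    intro g hg
    apply hroot (C (δ : ℚ)⁻¹ * φ g)
    have h1 : (scaleRoots f (C (δ : ℚ))).eval (φ g) = 0 := by
      rw [← hF, eval_map_apply, hg, map_zero]
    have h2 : φ g = C (δ : ℚ) * (C (δ : ℚ)⁻¹ * φ g) := by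
      rw [← mul_assoc, ← C_mul, mul_inv_cancel₀ hδQ, C_1, one_mul]
    rw [h2, scaleRoots_eval_mul] at h1
    have h3 : (C (δ : ℚ)) ^ f.natDegree ≠ 0 := pow_ne_zero _ (C_ne_zero.2 hδQ)
    exact (mul_eq_zero.1 h1).resolve_left h3
  obtain ⟨t, ht, hroot'⟩ := hit_int F hFm hFroot B
  refine ⟨t, ht, fun x hx => ?_⟩
  -- `δ x` is an integer root of `F(t, X)`
  have h1 : ((F.map (evalRingHom t)).map (Int.castRingHom ℚ)).eval ((δ : ℚ) * x) = 0 := by
    have h2 : (F.map (evalRingHom t)).map (Int.castRingHom ℚ) =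
        (scaleRoots f (C (δ : ℚ))).map (evalRingHom (t : ℚ)) := by
      rw [← hF, Polynomial.map_map, Polynomial.map_map]
      congr 1
      ext q
      · simp [hφ]
      · simp [hφ]
    rw [h2, eval_map]
    have h3 := scaleRoots_eval₂_mul (p := f) (evalRingHom (t : ℚ)) x (C (δ : ℚ))
    rw [coe_evalRingHom, eval_C] at h3
    rw [h3, eval₂_evalRingHom, hx, mul_zero]
  have h4 : IsIntegral ℤ ((δ : ℚ) * x) := by
    refine ⟨F.map (evalRingHom t), hFm.map _, ?_⟩
    rw [← eval_map]
    exact h1
  obtain ⟨y, hy⟩ := IsIntegrallyClosed.isIntegral_iff.1 h4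
  apply hroot' y
  rw [← hy] at h1
  have h5 : (Int.castRingHom ℚ) y = algebraMap ℤ ℚ y := rfl
  rw [← h5, eval_map_apply] at h1
  rw [← map_evalRingHom_eval]
  simpa using h1

/-- Degree bound for a polynomial root. -/
theorem natDegree_root_le {A : Type} [CommRing A] [IsDomain A] (p : A[X][X]) (hp : p.Monic)
    (D : ℕ) (hD : ∀ i, (p.coeff i).natDegree ≤ D) (g : A[X]) (hg : p.eval g = 0) :
    g.natDegree ≤ D := by
  by_contra hcon
  push Not at hcon
  set d := p.natDegree with hd
  rcases Nat.eq_zero_or_pos d with h0 | hpos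
  · have h1 : p = 1 := hp.natDegree_eq_zero.1 h0
    rw [h1, eval_one] at hg
    exact one_ne_zero hg
  · rw [eval_eq_sum_range, Finset.sum_range_succ, hp.coeff_natDegree, one_mul, ← hd] at hg
    have h1 : g ^ d = -∑ i ∈ Finset.range d, p.coeff i * g ^ i := by
      linear_combination hg
    have h2 : (g ^ d).natDegree ≤ D + (d - 1) * g.natDegree := by
      rw [h1, natDegree_neg]
      apply natDegree_sum_le_of_forall_le
      intro i hi
      have hi' := Finset.mem_range.1 hi
      refine natDegree_mul_le.trans (Nat.add_le_add (hD i) ?_)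
      refine natDegree_pow_le.trans (Nat.mul_le_mul_right _ (by omega))
    rw [natDegree_pow] at h2
    have h3 : d * g.natDegree = (d - 1) * g.natDegree + g.natDegree := by
      obtain ⟨e, he⟩ : ∃ e, d = e + 1 := ⟨d - 1, by omega⟩
      rw [he, Nat.add_sub_cancel]; ring
    omega

theorem hp_poly {A : Type} [CommRing A] [IsDomain A] [Algebra ℚ A] (hA : HP A) : HP A[X] := by
  classical
  intro f hf hroot B
  by_contra hcon
  push Not at hcon
  have hcast : Function.Injective (fun t : ℤ => (t : A)) := by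
    have : CharZero A := algebraRat.charZero A
    exact Int.cast_injective
  -- degree bound
  obtain ⟨D, hD⟩ : ∃ D : ℕ, ∀ i k, ((f.coeff i).coeff k).natDegree ≤ D := by
    refine ⟨(Finset.range (f.natDegree + 1)).sup fun i =>
      (Finset.range ((f.coeff i).natDegree + 1)).sup fun k =>
        ((f.coeff i).coeff k).natDegree, fun i k => ?_⟩
    by_cases hi : i ≤ f.natDegree
    · by_cases hk : k ≤ (f.coeff i).natDegree
      · refine le_trans ?_ (Finset.le_sup (f := fun i =>
          (Finset.range ((f.coeff i).natDegree + 1)).sup fun k =>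
          ((f.coeff i).coeff k).natDegree) (Finset.mem_range.2 (Nat.lt_succ_of_le hi)))
        exact Finset.le_sup (f := fun k => ((f.coeff i).coeff k).natDegree)
          (Finset.mem_range.2 (Nat.lt_succ_of_le hk))
      · rw [coeff_eq_zero_of_natDegree_lt (not_le.1 hk), natDegree_zero]
        exact Nat.zero_le _
    · rw [coeff_eq_zero_of_natDegree_lt (not_le.1 hi), coeff_zero, natDegree_zero]
      exact Nat.zero_le _
  have hDt : ∀ (t : ℤ) (i : ℕ), ((f.map (evalRingHom (t : A[X]))).coeff i).natDegree ≤ D := by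
    intro t i
    rw [coeff_map, coe_evalRingHom, eval_eq_sum_range]
    apply natDegree_sum_le_of_forall_le
    intro k _
    refine natDegree_mul_le.trans ?_
    have h1 : ((t : A[X]) ^ k).natDegree = 0 := by
      rw [← Int.cast_pow, natDegree_intCast]
    rw [h1, add_zero]
    exact hD i k
  -- specialisations in the inner variable
  let fb : ℕ → A[X][X] := fun b => f.map (mapRingHom (evalRingHom (b : A)))
  have hfb : ∀ b, (fb b).Monic := fun b => hf.map _
  have hfac : ∀ b, ∃ q : A[X][X], (Multiset.map (fun a => X - C a) (fb b).roots).prod * q = fb b ∧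
      q.Monic ∧ ∀ g : A[X], q.eval g ≠ 0 := by
    intro b
    obtain ⟨q, hq, -, hq0⟩ := exists_prod_multiset_X_sub_C_mul (fb b)
    have hqm : q.Monic := (monic_multiset_prod_of_monic _ _ (fun a _ => monic_X_sub_C a)).of_mul_monic_left
      (by rw [hq]; exact hfb b)
    refine ⟨q, hq, hqm, fun g hg => ?_⟩
    have : g ∈ q.roots := (mem_roots hqm.ne_zero).2 hg
    rw [hq0] at this
    exact absurd this (Multiset.notMem_zero _)
  choose q hq hqm hqroot using hfac
  let F : A[X][X] := ∏ b ∈ Finset.range (D + 1), q b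
  have hFm : F.Monic := monic_prod_of_monic _ _ fun b _ => hqm b
  have hFroot : ∀ g : A[X], F.eval g ≠ 0 := by
    intro g
    rw [eval_prod]
    exact Finset.prod_ne_zero_iff.2 fun b _ => hqroot b g
  let T : Set ℤ := {t | B < t ∧ ∀ x : A, F.evalEval (t : A) x ≠ 0}
  have hTinf : T.Infinite := by
    apply Set.infinite_of_not_bddAbove
    rintro ⟨M, hM⟩
    obtain ⟨t, ht, hx⟩ := hA F hFm hFroot (max B M)
    have : t ≤ M := hM ⟨lt_of_le_of_lt (le_max_left _ _) ht, hx⟩
    exact absurd (lt_of_le_of_lt (le_max_right _ _) ht) (not_lt.2 this)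
  -- the roots
  have hg : ∀ t : T, ∃ g : A[X], f.evalEval ((t : ℤ) : A[X]) g = 0 := fun t => hcon t t.2.1
  choose g hg using hg
  have hgD : ∀ t : T, (g t).natDegree ≤ D := by
    intro t
    refine natDegree_root_le (f.map (evalRingHom (((t : ℤ) : A[X])))) (hf.map _) D (hDt t) (g t) ?_
    rw [map_evalRingHom_eval]
    exact hg t
  have hchoice : ∀ (t : T) (b : Fin (D + 1)), ∃ a : (fb b).roots.toFinset,
      (g t).eval (b : A) = (a : A[X]).eval ((t : ℤ) : A) := by
    intro t b
    have h1 : (fb b).evalEval ((t : ℤ) : A) ((g t).eval (b : A)) = 0 := by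
      have h2 := congrArg (eval ((b : ℕ) : A)) (hg t)
      rw [eval_zero] at h2
      rw [← h2]
      simp only [fb]
      have h3 := map_mapRingHom_evalEval (evalRingHom ((b : ℕ) : A)) f (((t : ℤ) : A[X])) (g t)
      simp only [coe_evalRingHom, eval_intCast] at h3
      exact h3
    rw [← hq b, evalEval_mul] at h1
    have h2 : (q b).evalEval ((t : ℤ) : A) ((g t).eval (b : A)) ≠ 0 := by
      intro h3
      apply t.2.2 ((g t).eval (b : A))
      simp only [F]
      rw [evalEval_prod]
      exact Finset.prod_eq_zero (Finset.mem_range.2 b.2) h3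
    have h3 := (mul_eq_zero.1 h1).resolve_right h2
    rw [evalEval_multiset_prod, Multiset.prod_eq_zero_iff, Multiset.map_map, Multiset.mem_map] at h3
    obtain ⟨a, ha, ha0⟩ := h3
    refine ⟨⟨a, Multiset.mem_toFinset.2 ha⟩, ?_⟩
    simp only [Function.comp_apply, evalEval_sub, evalEval_X, evalEval_C] at ha0
    exact sub_eq_zero.1 ha0
  choose c hc using hchoice
  have : Infinite T := hTinf.to_subtype
  obtain ⟨c0, hc0⟩ := Finite.exists_infinite_fiber (fun (t : T) (b : Fin (D + 1)) => c t b)
  -- interpolate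
  let ℓ : Fin (D + 1) → A[X] := fun b =>
    (Lagrange.basis Finset.univ (fun b : Fin (D + 1) => ((b : ℕ) : ℚ)) b).map (algebraMap ℚ A)
  have hinjQ : Set.InjOn (fun b : Fin (D + 1) => ((b : ℕ) : ℚ))
      ((Finset.univ : Finset (Fin (D + 1))) : Set (Fin (D + 1))) := by
    intro a _ b _ hab
    apply Fin.ext
    have h : ((a : ℕ) : ℚ) = ((b : ℕ) : ℚ) := hab
    exact_mod_cast h
  have hℓ : ∀ b b' : Fin (D + 1), (ℓ b).eval ((b' : ℕ) : A) = if b = b' then 1 else 0 := by
    intro b b'
    have h1 : ((b' : ℕ) : A) = algebraMap ℚ A ((b' : ℕ) : ℚ) := by simp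
    simp only [ℓ]
    rw [h1, eval_map_apply]
    split_ifs with h
    · have h2 := Lagrange.eval_basis_self hinjQ (Finset.mem_univ b')
      rw [h]
      exact (congrArg (algebraMap ℚ A) h2).trans (map_one _)
    · have h2 := Lagrange.eval_basis_of_ne (s := Finset.univ)
        (v := fun b : Fin (D + 1) => ((b : ℕ) : ℚ)) h (Finset.mem_univ b')
      exact (congrArg (algebraMap ℚ A) h2).trans (map_zero _)
  have hℓdeg : ∀ b, (ℓ b).natDegree ≤ D := by
    intro b
    refine natDegree_map_le.trans ?_
    have := Lagrange.degree_basis hinjQ (Finset.mem_univ b)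
    have h2 := natDegree_eq_of_degree_eq_some this
    rw [h2]
    simp
  let G : A[X][X] := ∑ b : Fin (D + 1), C (ℓ b) * ((c0 b : (fb b).roots.toFinset) : A[X]).map C
  have hGt : ∀ t : T, t ∈ (fun (t : T) (b : Fin (D + 1)) => c t b) ⁻¹' {c0} →
      G.eval ((t : ℤ) : A[X]) = g t := by
    intro t ht
    have hct : ∀ b, c t b = c0 b := fun b => congrFun ht b
    have h1 : G.eval ((t : ℤ) : A[X]) = ∑ b : Fin (D + 1), ℓ b * C ((g t).eval ((b : ℕ) : A)) := by
      simp only [G, eval_finsetSum, eval_mul, eval_C]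
      refine Finset.sum_congr rfl fun b _ => ?_
      congr 1
      have h2 : (((t : ℤ) : A[X])) = C ((t : ℤ) : A) := by simp
      rw [h2, eval_map_apply, hc t b, hct b]
    rw [h1]
    apply eq_of_degrees_lt_of_eval_finset_eq
      (Finset.univ.image fun b : Fin (D + 1) => ((b : ℕ) : A))
    · rw [Finset.card_image_of_injective, Finset.card_univ, Fintype.card_fin]
      · refine (degree_sum_le _ _).trans_lt ?_
        rw [Finset.sup_lt_iff]
        · intro b _
          refine (degree_mul_le _ _).trans_lt ?_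
          calc (ℓ b).degree + (C ((g t).eval ((b : ℕ) : A))).degree
              ≤ (ℓ b).degree + 0 := by gcongr; exact degree_C_le
            _ = (ℓ b).degree := add_zero _
            _ ≤ ((ℓ b).natDegree : WithBot ℕ) := degree_le_natDegree
            _ < ((D + 1 : ℕ) : WithBot ℕ) := by
                exact_mod_cast Nat.lt_succ_of_le (hℓdeg b)
        · exact WithBot.bot_lt_coe _
      · intro a b hab
        apply Fin.ext
        have : ((a : ℕ) : ℤ) = (b : ℕ) := hcast (by simpa using hab)
        exact_mod_cast this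
    · rw [Finset.card_image_of_injective, Finset.card_univ, Fintype.card_fin]
      · refine degree_le_natDegree.trans_lt ?_
        exact_mod_cast Nat.lt_succ_of_le (hgD t)
      · intro a b hab
        apply Fin.ext
        have : ((a : ℕ) : ℤ) = (b : ℕ) := hcast (by simpa using hab)
        exact_mod_cast this
    · intro x hx
      obtain ⟨b', -, rfl⟩ := Finset.mem_image.1 hx
      rw [eval_finsetSum]
      simp only [eval_mul, eval_C, hℓ]
      rw [Finset.sum_eq_single b']
      · simp
      · intro b _ hne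
        rw [if_neg hne, zero_mul]
      · simp
  apply hroot G
  apply eq_zero_of_infinite_isRoot
  let emb : ((fun (t : T) (b : Fin (D + 1)) => c t b) ⁻¹' {c0}) → A[X] :=
    fun t => (((t : T) : ℤ) : A[X])
  have hemb : Function.Injective emb := by
    intro a b hab
    apply Subtype.ext
    apply Subtype.ext
    apply hcast
    simp only [emb] at hab
    have := congrArg (coeff · 0) hab
    simpa using this
  refine (Set.infinite_range_of_injective hemb).mono ?_
  rintro _ ⟨t, rfl⟩
  change (f.eval G).eval (((t : T) : ℤ) : A[X]) = 0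
  have h1 := hg t
  rw [← hGt t t.2] at h1
  rw [← map_evalRingHom_eval] at h1
  have h2 : G.eval (((t : T) : ℤ) : A[X]) = evalRingHom (((t : T) : ℤ) : A[X]) G := rfl
  rw [h2, eval_map_apply] at h1
  exact h1

end Pool.Agent.H391R2
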