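import Mathlib
import Pool.Agent.H391R2.HitMulti

namespace Pool.Agent.H391R2

open Polynomial

/-- Rational specialisations keeping a monic polynomial without roots. -/
def SP (A : Type) [CommRing A] : Prop :=
  ∀ f : A[X], f.Monic → (∀ x : A, f.eval x ≠ 0) → ∀ D : A, D ≠ 0 →
    ∃ φ : A →+* ℚ, φ D ≠ 0 ∧ ∀ x : ℚ, (f.map φ).eval x ≠ 0

theorem HP.of_equiv {A A' : Type} [CommRing A] [CommRing A'] (e : A ≃+* A') (h : HP A) :
    HP A' := by
  intro f hf hroot B
  set g : A[X][X] := f.map (mapRingHom (e.symm : A' →+* A)) with hg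
  have hgm : g.Monic := hf.map _
  have hroot' : ∀ q : A[X], g.eval q ≠ 0 := by
    intro q hq
    apply hroot (mapRingHom (e : A →+* A') q)
    have h1 := congrArg (mapRingHom (e : A →+* A')) hq
    rw [← eval_map_apply, hg, Polynomial.map_map, map_zero] at h1
    have h2 : (mapRingHom (e : A →+* A')).comp (mapRingHom (e.symm : A' →+* A)) = RingHom.id _ := by
      ext x <;> simp
    rw [h2, Polynomial.map_id] at h1
    exact h1
  obtain ⟨t, ht, hx⟩ := h g hgm hroot' B
  refine ⟨t, ht, fun x hx0 => hx (e.symm x) ?_⟩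
  have h3 := map_mapRingHom_evalEval (e.symm : A' →+* A) f ((t : A')) x
  simp only [RingEquiv.coe_toRingHom, map_intCast] at h3
  rw [hg]
  rw [h3, hx0, map_zero]

theorem SP.of_equiv {A A' : Type} [CommRing A] [CommRing A'] (e : A ≃+* A') (h : SP A) :
    SP A' := by
  intro f hf hroot D hD
  obtain ⟨φ, h1, h2⟩ := h (f.map (e.symm : A' →+* A)) (hf.map _) (fun x hx => by
    apply hroot (e x)
    have h3 := congrArg e hx
    have h4 := eval_map_apply (f := (e.symm : A' →+* A)) (p := f) (x := e x)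
    simp only [RingEquiv.coe_toRingHom, RingEquiv.symm_apply_apply] at h4
    rw [map_zero] at h3
    rw [h4] at h3
    simpa using h3) (e.symm D) (by simpa using hD)
  refine ⟨φ.comp (e.symm : A' →+* A), by simpa using h1, fun x => ?_⟩
  rw [← Polynomial.map_map]
  exact h2 x

theorem sp_rat : SP ℚ := by
  intro f _ hroot D hD
  exact ⟨RingHom.id ℚ, by simpa using hD, fun x => by simpa using hroot x⟩

theorem sp_poly {A : Type} [CommRing A] [IsDomain A] [Algebra ℚ A] (hA : HP A) (hS : SP A) :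
    SP A[X] := by
  classical
  intro f hf hroot D hD
  have : CharZero A := algebraRat.charZero A
  -- a bound for the roots of D among the integers
  have hfin : {t : ℤ | D.eval (t : A) = 0}.Finite := by
    have h1 : (D.rootSet A).Finite := D.rootSet_finite A
    refine Set.Finite.preimage (f := fun t : ℤ => (t : A)) (Int.cast_injective.injOn) (h1.subset ?_) |>.subset (s := (fun t : ℤ => (t : A)) ⁻¹' {x | D.eval x = 0}) ?_
    · intro x hx
      rw [mem_rootSet]
      exact ⟨hD, by simpa using hx⟩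
    · intro t ht
      exact ht
  obtain ⟨B, hB⟩ := hfin.bddAbove
  obtain ⟨t, ht, hx⟩ := hA f hf hroot B
  have hDt : D.eval (t : A) ≠ 0 := fun h => absurd (hB h) (not_le.2 ht)
  obtain ⟨φ, h1, h2⟩ := hS (f.map (evalRingHom (t : A))) (hf.map _)
    (fun x => by rw [map_evalRingHom_eval]; exact hx x) _ hDt
  exact ⟨φ.comp (evalRingHom (t : A)), h1, fun x => by rw [← Polynomial.map_map]; exact h2 x⟩

theorem hp_sp_fin (n : ℕ) : HP (MvPolynomial (Fin n) ℚ) ∧ SP (MvPolynomial (Fin n) ℚ) := by
  induction n with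
  | zero =>
    exact ⟨hp_rat.of_equiv (MvPolynomial.isEmptyRingEquiv ℚ (Fin 0)).symm,
      sp_rat.of_equiv (MvPolynomial.isEmptyRingEquiv ℚ (Fin 0)).symm⟩
  | succ n ih =>
    have e := (MvPolynomial.finSuccEquiv ℚ n).toRingEquiv
    exact ⟨(hp_poly ih.1).of_equiv e.symm, (sp_poly ih.1 ih.2).of_equiv e.symm⟩

theorem sp_mvPolynomial (ι : Type) [Finite ι] : SP (MvPolynomial ι ℚ) := by
  classical
  obtain ⟨n, ⟨e⟩⟩ := Finite.exists_equiv_fin ι
  exact (hp_sp_fin n).2.of_equiv (MvPolynomial.renameEquiv ℚ e.symm).toRingEquiv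

end Pool.Agent.H391R2
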