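import Mathlib
import Pool.Agent.H391R2.HitSpec

namespace Pool.Agent.H391R2

open Polynomial
open scoped Pointwise

section abs

variable {A C G : Type} [CommRing A] [CommRing C] [Algebra A C] [Algebra ℚ A] [IsDomain A]
  [IsDomain C] [FaithfulSMul A C] [Group G] [Finite G] [MulSemiringAction G C]
  [Algebra.IsInvariant A C G] [SMulCommClass G A C] [FaithfulSMul G C]

theorem spec_aux
    (hθ : ∀ Δ : Subgroup G, Δ ≠ ⊤ →
      ∃ θ : C, (∀ g ∈ Δ, g • θ = θ) ∧ ∀ a : A, algebraMap A C a ≠ θ)
    (hS : SP A) :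
    ∃ (L : Type) (_ : Field L) (_ : Algebra ℚ L), IsGalois ℚ L ∧ Nonempty (G ≃* (L ≃ₐ[ℚ] L)) := by
  classical
  cases nonempty_fintype G
  have hinj : Function.Injective (algebraMap A C) := FaithfulSMul.algebraMap_injective A C
  -- the polynomial `f`
  have h1 : ∀ Δ : {Δ : Subgroup G // Δ ≠ ⊤}, ∃ (θ : C) (c : A[X]),
      (∀ g ∈ Δ.1, g • θ = θ) ∧ c.Monic ∧ (∀ a : A, c.eval a ≠ 0) ∧
      c.map (algebraMap A C) = MulSemiringAction.charpoly G θ := by
    intro Δ
    obtain ⟨θ, hθ1, hθ2⟩ := hθ Δ.1 Δ.2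
    obtain ⟨c, hc, -, h_monic⟩ := lifts_and_natDegree_eq_and_monic
      (Algebra.IsInvariant.charpoly_mem_lifts A C G θ) (MulSemiringAction.monic_charpoly ..)
    refine ⟨θ, c, hθ1, h_monic, fun a ha => ?_, hc⟩
    have h2 : (MulSemiringAction.charpoly G θ).eval (algebraMap A C a) = 0 := by
      rw [← hc, eval_map_apply, ha, map_zero]
    rw [MulSemiringAction.charpoly_eq, eval_prod, Finset.prod_eq_zero_iff] at h2
    obtain ⟨g, -, hg⟩ := h2
    rw [eval_sub, eval_X, eval_C, sub_eq_zero] at hg
    apply hθ2 a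
    have h3 : g • (algebraMap A C a) = algebraMap A C a := smul_algebraMap g a
    have h4 : g • (algebraMap A C a) = g • θ := by rw [h3, hg]
    exact smul_left_cancel g h4
  choose θ c hθ1 hcm hcroot hcmap using h1
  let _ : Fintype {Δ : Subgroup G // Δ ≠ ⊤} := Fintype.ofFinite _
  let f : A[X] := ∏ Δ : {Δ : Subgroup G // Δ ≠ ⊤}, c Δ
  have hfm : f.Monic := monic_prod_of_monic _ _ fun Δ _ => hcm Δ
  have hfroot : ∀ a : A, f.eval a ≠ 0 := by
    intro a
    rw [eval_prod]
    exact Finset.prod_ne_zero_iff.2 fun Δ _ => hcroot Δ a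
  -- the discriminant like element
  have h2 : ∀ g : G, ∃ x : C, g ≠ 1 → g • x - x ≠ 0 := by
    intro g
    by_cases hg : g = 1
    · exact ⟨0, fun h => absurd hg h⟩
    · by_contra hcon
      push Not at hcon
      apply hg
      apply FaithfulSMul.eq_of_smul_eq_smul (α := C)
      intro x
      rw [one_smul]
      exact sub_eq_zero.1 (hcon x).2
  choose x hx using h2
  let D' : C := ∏ g ∈ Finset.univ.erase (1 : G), (g • x g - x g)
  have hD' : D' ≠ 0 := Finset.prod_ne_zero_iff.2 fun g hg => hx g (Finset.ne_of_mem_erase hg)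
  have h3 : ∃ D : A, algebraMap A C D = ∏ h : G, h • D' := by
    apply Algebra.IsInvariant.isInvariant (G := G)
    intro g
    rw [Finset.smul_prod']
    simp only [smul_smul]
    exact Fintype.prod_bijective (fun h => g * h) (Group.mulLeft_bijective g) _ _ fun _ => rfl
  obtain ⟨D, hD⟩ := h3
  have hD0 : D ≠ 0 := by
    rintro rfl
    rw [map_zero] at hD
    have := Finset.prod_ne_zero_iff.2 (fun (h : G) (_ : h ∈ Finset.univ) =>
      (smul_ne_zero_iff_ne h).2 hD')
    exact this hD.symm
  obtain ⟨φ, hφD, hφroot⟩ := hS f hfm hfroot D hD0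
  have hφsurj : Function.Surjective φ := by
    intro q
    refine ⟨algebraMap ℚ A q, ?_⟩
    have : φ.comp (algebraMap ℚ A) = RingHom.id ℚ := Subsingleton.elim _ _
    exact congrArg (fun h : ℚ →+* ℚ => h q) this
  let P : Ideal A := RingHom.ker φ
  have hPmax : P.IsMaximal := RingHom.ker_isMaximal_of_surjective φ hφsurj
  have hintegral : Algebra.IsIntegral A C := Algebra.IsInvariant.isIntegral A C G
  obtain ⟨Q, hQmax, hQP⟩ := Ideal.exists_maximal_ideal_liesOver_of_isIntegral (S := C) P
  let _ : Field (A ⧸ P) := Ideal.Quotient.field P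
  let _ : Field (C ⧸ Q) := Ideal.Quotient.field Q
  let e : ℚ ≃+* A ⧸ P := (RingHom.quotientKerEquivOfSurjective hφsurj).symm
  have he : ∀ a : A, e (φ a) = Ideal.Quotient.mk P a := by
    intro a
    rw [RingEquiv.symm_apply_eq]
    rfl
  have hchar : CharZero (A ⧸ P) := charZero_of_injective_ringHom (f := (e : ℚ →+* A ⧸ P)) e.injective
  have hnormal : Normal (A ⧸ P) (C ⧸ Q) := Ideal.Quotient.normal G P Q
  have hgal : IsGalois (A ⧸ P) (C ⧸ Q) := { __ := hnormal }
  have hfd : Module.Finite (A ⧸ P) (C ⧸ Q) := Ideal.Quotient.finite_of_isInvariant G P Q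
  have hsurj := Ideal.Quotient.stabilizerHom_surjective G P Q
  have hφunder : ∀ a : A, algebraMap A C a ∈ Q ↔ φ a = 0 := by
    intro a
    have h4 : P = Q.under A := hQP.over
    rw [← RingHom.mem_ker]
    change _ ↔ a ∈ P
    rw [h4]
    rfl
  -- the stabilizer is everything
  have hstab : MulAction.stabilizer G Q = ⊤ := by
    by_contra hne
    let Δ : {Δ : Subgroup G // Δ ≠ ⊤} := ⟨MulAction.stabilizer G Q, hne⟩
    have h5 : Ideal.Quotient.mk Q (θ Δ) ∈ Set.range (algebraMap (A ⧸ P) (C ⧸ Q)) := by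
      rw [IsGalois.mem_range_algebraMap_iff_fixed]
      intro τ
      obtain ⟨g, rfl⟩ := hsurj τ
      change Ideal.Quotient.mk Q ((g : G) • θ Δ) = _
      rw [hθ1 Δ g g.2]
    obtain ⟨y, hy⟩ := h5
    obtain ⟨q, rfl⟩ := e.surjective y
    obtain ⟨a, rfl⟩ := hφsurj q
    rw [he] at hy
    have h6 : Ideal.Quotient.mk Q (algebraMap A C a) = Ideal.Quotient.mk Q (θ Δ) := hy
    -- evaluate `c`
    have h7 : algebraMap A C ((c Δ).eval a) ∈ Q := by
      rw [← Ideal.Quotient.eq_zero_iff_mem, ← eval_map_apply, hcmap, ← eval_map_apply, h6,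
        eval_map_apply, MulSemiringAction.eval_charpoly, map_zero]
    rw [hφunder] at h7
    apply hφroot (φ a)
    have h8 : (f.map φ).eval (φ a) = φ (f.eval a) := eval_map_apply ..
    rw [h8, eval_prod, map_prod]
    exact Finset.prod_eq_zero (Finset.mem_univ Δ) h7
  -- injectivity
  have hinj' : Function.Injective (Ideal.Quotient.stabilizerHom Q P G) := by
    rw [injective_iff_map_eq_one]
    intro g hg
    by_contra hne
    have hne' : (g : G) ≠ 1 := fun h => hne (Subtype.ext h)
    have h5 : (g : G) • x g - x g ∈ Q := by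
      rw [← Ideal.Quotient.eq]
      have h6 := congrArg (fun τ : (C ⧸ Q) ≃ₐ[A ⧸ P] (C ⧸ Q) => τ (Ideal.Quotient.mk Q (x g))) hg
      exact h6
    have h6 : D' ∈ Q := by
      change (∏ g ∈ Finset.univ.erase (1 : G), (g • x g - x g)) ∈ Q
      rw [← Finset.mul_prod_erase _ _ (Finset.mem_erase.2 ⟨hne', Finset.mem_univ _⟩)]
      exact Q.mul_mem_right _ h5
    have h7 : algebraMap A C D ∈ Q := by
      rw [hD, ← Finset.mul_prod_erase _ _ (Finset.mem_univ (1 : G)), one_smul]
      exact Q.mul_mem_right _ h6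
    exact hφD ((hφunder D).1 h7)
  let E1 : MulAction.stabilizer G Q ≃* ((C ⧸ Q) ≃ₐ[A ⧸ P] (C ⧸ Q)) :=
    MulEquiv.ofBijective _ ⟨hinj', hsurj⟩
  let E0 : G ≃* MulAction.stabilizer G Q :=
    Subgroup.topEquiv.symm.trans (MulEquiv.subgroupCongr hstab.symm)
  let algQ : Algebra ℚ (C ⧸ Q) := ((algebraMap (A ⧸ P) (C ⧸ Q)).comp (e : ℚ →+* A ⧸ P)).toAlgebra
  have halg : ∀ q : ℚ, algebraMap ℚ (C ⧸ Q) q = algebraMap (A ⧸ P) (C ⧸ Q) (e q) := fun q => rfl
  refine ⟨C ⧸ Q, inferInstance, algQ, ?_, ?_⟩
  · refine IsGalois.of_equiv_equiv (f := e.symm) (g := RingEquiv.refl (C ⧸ Q)) ?_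
    apply RingHom.ext
    intro y
    obtain ⟨q, rfl⟩ := e.surjective y
    change algebraMap ℚ (C ⧸ Q) (e.symm (e q)) = algebraMap (A ⧸ P) (C ⧸ Q) (e q)
    rw [e.symm_apply_apply]
    exact halg q
  · let E2 : ((C ⧸ Q) ≃ₐ[A ⧸ P] (C ⧸ Q)) ≃* ((C ⧸ Q) ≃ₐ[ℚ] (C ⧸ Q)) :=
      { toFun := fun τ => AlgEquiv.ofRingEquiv (f := τ.toRingEquiv) (fun q => by
          rw [halg]; exact τ.commutes _)
        invFun := fun τ => AlgEquiv.ofRingEquiv (f := τ.toRingEquiv) (fun y => by
          obtain ⟨q, rfl⟩ := e.surjective y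
          rw [← halg]; exact τ.commutes _)
        left_inv := fun τ => by ext; rfl
        right_inv := fun τ => by ext; rfl
        map_mul' := fun τ τ' => by ext; rfl }
    exact ⟨E0.trans (E1.trans E2)⟩

end abs

section gal

variable {A : Type} [CommRing A] [IsDomain A] [IsIntegrallyClosed A] [Algebra ℚ A]
  {F N : Type} [Field F] [Algebra A F] [IsFractionRing A F] [Field N] [Algebra F N]
  [FiniteDimensional F N] [IsGalois F N]

/-- Specialisation of a Galois extension of the fraction field of `A` to `ℚ`. -/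
theorem galois_spec (hS : SP A) :
    ∃ (L : Type) (_ : Field L) (_ : Algebra ℚ L), IsGalois ℚ L ∧
      Nonempty ((N ≃ₐ[F] N) ≃* (L ≃ₐ[ℚ] L)) := by
  classical
  let algAN : Algebra A N := ((algebraMap F N).comp (algebraMap A F)).toAlgebra
  have tower : IsScalarTower A F N := IsScalarTower.of_algebraMap_eq fun _ => rfl
  have hfr : IsFractionRing (integralClosure A N) N :=
    integralClosure.isFractionRing_of_finite_extension F N
  have hfin : Finite ((integralClosure A N) ≃ₐ[A] (integralClosure A N)) :=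
    Finite.of_equiv _ (galRestrict A F N (integralClosure A N)).toEquiv
  have hinv : Algebra.IsInvariant A (integralClosure A N)
      ((integralClosure A N) ≃ₐ[A] (integralClosure A N)) :=
    Algebra.isInvariant_of_isGalois' A F N (integralClosure A N)
  have hAN : Function.Injective (algebraMap A N) := by
    rw [IsScalarTower.algebraMap_eq A F N]
    exact (algebraMap F N).injective.comp (IsFractionRing.injective A F)
  have hAC : Function.Injective (algebraMap A (integralClosure A N)) := by
    intro a b hab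
    apply hAN
    exact congrArg (Subtype.val) hab
  have : FaithfulSMul A (integralClosure A N) :=
    (faithfulSMul_iff_algebraMap_injective A _).2 hAC
  obtain ⟨L, h1, h2, h3, ⟨e⟩⟩ := spec_aux (A := A) (C := integralClosure A N)
    (G := (integralClosure A N) ≃ₐ[A] (integralClosure A N)) (by
      intro Δ hΔ
      let ρ := galRestrict A F N (integralClosure A N)
      let Δ' : Subgroup (N ≃ₐ[F] N) := Δ.comap ρ.toMonoidHom
      have hΔ' : Δ' ≠ ⊤ := by
        intro h
        apply hΔ
        rw [eq_top_iff]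
        intro g _
        obtain ⟨τ, rfl⟩ := ρ.surjective g
        have : τ ∈ Δ' := by rw [h]; trivial
        exact this
      have hfix : IntermediateField.fixedField Δ' ≠ ⊥ := by
        intro h
        apply hΔ'
        rw [← IntermediateField.fixingSubgroup_fixedField Δ', h,
          IntermediateField.fixingSubgroup_bot]
      have hex : ∃ x ∈ IntermediateField.fixedField Δ', x ∉ (⊥ : IntermediateField F N) := by
        by_contra hcon
        push Not at hcon
        exact hfix (le_antisymm hcon bot_le)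
      obtain ⟨x, hx, hx'⟩ := hex
      have hxalg : IsAlgebraic A x := by
        rw [IsFractionRing.isAlgebraic_iff A F N]
        exact Algebra.IsAlgebraic.isAlgebraic x
      obtain ⟨a, ha, hint⟩ := hxalg.exists_integral_multiple
      refine ⟨⟨a • x, hint⟩, ?_, ?_⟩
      · intro g hg
        obtain ⟨τ, rfl⟩ := ρ.surjective g
        apply Subtype.ext
        have h1 : algebraMap (integralClosure A N) N (galRestrict A F N (integralClosure A N) τ ⟨a • x, hint⟩) =
            τ (algebraMap (integralClosure A N) N ⟨a • x, hint⟩) :=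
          algebraMap_galRestrict_apply A τ _
        have h2 : τ x = x := hx ⟨τ, hg⟩
        have h3 : τ (a • x) = a • x := by
          rw [Algebra.smul_def, map_mul, h2, IsScalarTower.algebraMap_apply A F N,
            AlgEquiv.commutes]
        exact h1.trans h3
      · intro b hb
        apply hx'
        have h1 : algebraMap A N b = a • x := congrArg Subtype.val hb
        rw [IntermediateField.mem_bot]
        have ha' : algebraMap A F a ≠ 0 := by
          intro h
          apply ha
          exact IsFractionRing.injective A F (by rw [h, map_zero])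
        refine ⟨algebraMap A F b / algebraMap A F a, ?_⟩
        rw [map_div₀, ← IsScalarTower.algebraMap_apply, ← IsScalarTower.algebraMap_apply, h1,
          Algebra.smul_def]
        have ha'' : algebraMap A N a ≠ 0 := by
          rw [IsScalarTower.algebraMap_apply A F N]
          exact (_root_.map_ne_zero (algebraMap F N)).2 ha'
        rw [mul_div_cancel_left₀ _ ha'']) hS
  exact ⟨L, h1, h2, h3, ⟨(galRestrict A F N (integralClosure A N)).trans e⟩⟩

end gal

/-- Every quotient of the Galois group of a finite Galois extension of `ℚ(t_1, …, t_r)` is a Galois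
group over `ℚ`. -/
theorem realize_quotient (ι : Type) [Finite ι] (F N : Type) [Field F]
    [Algebra (MvPolynomial ι ℚ) F] [IsFractionRing (MvPolynomial ι ℚ) F] [Field N] [Algebra F N]
    [FiniteDimensional F N] [IsGalois F N] (W : Type) [Group W] (π : (N ≃ₐ[F] N) →* W)
    (hπ : Function.Surjective π) :
    ∃ (L : Type) (_ : Field L) (_ : Algebra ℚ L), IsGalois ℚ L ∧ Nonempty (W ≃* (L ≃ₐ[ℚ] L)) := by
  obtain ⟨M, hM1, hM2, hM3, ⟨e⟩⟩ : ∃ (M : Type) (_ : Field M) (_ : Algebra F M),
      (FiniteDimensional F M ∧ IsGalois F M) ∧ Nonempty (W ≃* (M ≃ₐ[F] M)) := by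
    refine ⟨IntermediateField.fixedField π.ker, inferInstance, inferInstance,
      ⟨inferInstance, inferInstance⟩, ?_⟩
    exact ⟨(QuotientGroup.quotientKerEquivOfSurjective π hπ).symm.trans
      (IsGalois.normalAutEquivQuotient π.ker)⟩
  obtain ⟨hfd, hg⟩ := hM3
  obtain ⟨L, h1, h2, h3, ⟨e'⟩⟩ := galois_spec (A := MvPolynomial ι ℚ) (F := F) (N := M)
    (sp_mvPolynomial ι)
  exact ⟨L, h1, h2, h3, ⟨e.trans e'⟩⟩

end Pool.Agent.H391R2
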