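import Mathlib
import Pool.Prelude.Def_F_b1b78ff3
import Pool.Agent.H391R2.HitGal
import Pool.Agent.H391R2.WrFinal

namespace Pool.Agent.H391R2

open Nfff32c05

/-- The group `Γ` is a Galois group over `ℚ`. -/
theorem wreath_realize (G : Type) [Group G] [Finite G] : ∃ n₀ : ℕ, ∀ n ≥ n₀, 3 ≤ n ∧
    ∃ Γ : Subgroup (Wr G n), (∀ x : Wr G n, ∏ i, Abelianization.of (x.left i) = 1 → x ∈ Γ) ∧
      ∃ (L : Type) (_ : Field L) (_ : Algebra ℚ L), IsGalois ℚ L ∧
        Nonempty (Γ ≃* (L ≃ₐ[ℚ] L)) := by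
  have := Fintype.ofFinite G
  obtain ⟨n₀, hn₀⟩ := exists_gal G
  refine ⟨max n₀ 3, fun n hn => ⟨le_of_max_le_right hn, ?_⟩⟩
  obtain ⟨F, N, i1, i2, i3, i4, i5, i6, i7, π, hπ⟩ := hn₀ n (le_of_max_le_left hn)
  obtain ⟨L, h1, h2, h3, h4⟩ := realize_quotient (Ix G) F N π.range π.rangeRestrict
    π.rangeRestrict_surjective
  exact ⟨π.range, hπ, L, h1, h2, h3, h4⟩

theorem isRealizable_of {K G : Type} [Field K] [Group G] (L : Type) [Field L] [Algebra K L]
    [IsGalois K L] (e : G ≃* (L ≃ₐ[K] L)) : IsRealizable K G :=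
  ⟨⟨⟨L, inferInstance, inferInstance, inferInstance, e⟩⟩⟩

/-- Quotients of Galois groups. -/
theorem isRealizable_quotient {K G : Type} [Field K] [Group G] (L : Type) [Field L] [Algebra K L]
    [FiniteDimensional K L] [IsGalois K L] (χ : (L ≃ₐ[K] L) →* G) (hχ : Function.Surjective χ) :
    IsRealizable K G :=
  isRealizable_of (IntermediateField.fixedField χ.ker)
    ((QuotientGroup.quotientKerEquivOfSurjective χ hχ).symm.trans
      (IsGalois.normalAutEquivQuotient χ.ker))

theorem number_field {k G : Type} [Field k] [Group G] [Finite G] {n : ℕ} (hn : 3 ≤ n) (Γ : Subgroup (Wr G n))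
    (hΓ : ∀ x : Wr G n, ∏ i, Abelianization.of (x.left i) = 1 → x ∈ Γ)
    (L : Type) [Field L] [Algebra k L] [IsGalois k L] (e : Γ ≃* (L ≃ₐ[k] L)) (i : Fin n) :
    ∃ (M : Type) (_ : Field M) (_ : Algebra k M) (_ : IsGalois k M)
      (ψ : (M ≃ₐ[k] M) ≃* Equiv.Perm (Fin n)),
      IsRealizable (IntermediateField.fixedField
        ((MulAction.stabilizer (Equiv.Perm (Fin n)) i).comap ψ.toMonoidHom)) G := by
  classical
  have hfinΓ : Finite (Wr G n) := Finite.of_equiv _ (SemidirectProduct.equivProd).symm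
  have hfin : Finite (L ≃ₐ[k] L) := Finite.of_equiv _ e.toEquiv
  have hfd : FiniteDimensional k L := IsGalois.finiteDimensional_of_finite k L
  -- projection to the symmetric group
  let ψ₀ : (L ≃ₐ[k] L) →* Equiv.Perm (Fin n) :=
    (SemidirectProduct.rightHom.comp Γ.subtype).comp e.symm.toMonoidHom
  have hψ₀ : ∀ σ, ψ₀ σ = ((e.symm σ : Γ) : Wr G n).right := fun σ => rfl
  have hsurj : Function.Surjective ψ₀ := by
    intro ρ
    have hmem : (SemidirectProduct.inr ρ : Wr G n) ∈ Γ := hΓ _ (by simp)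
    refine ⟨e ⟨_, hmem⟩, ?_⟩
    rw [hψ₀, MulEquiv.symm_apply_apply]
    rfl
  let M := IntermediateField.fixedField ψ₀.ker
  let ψ : (M ≃ₐ[k] M) ≃* Equiv.Perm (Fin n) :=
    (IsGalois.normalAutEquivQuotient ψ₀.ker).symm.trans
      (QuotientGroup.quotientKerEquivOfSurjective ψ₀ hsurj)
  have hψ : ∀ σ : L ≃ₐ[k] L, ψ (AlgEquiv.restrictNormalHom M σ) = ψ₀ σ := by
    intro σ
    have h1 : AlgEquiv.restrictNormalHom M σ = IsGalois.normalAutEquivQuotient ψ₀.ker σ :=
      (IsGalois.normalAutEquivQuotient_apply ψ₀.ker σ).symm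
    simp only [ψ, MulEquiv.trans_apply]
    rw [h1, MulEquiv.symm_apply_apply]
    rfl
  refine ⟨M, inferInstance, inferInstance, inferInstance, ψ, ?_⟩
  set K := IntermediateField.fixedField
    ((MulAction.stabilizer (Equiv.Perm (Fin n)) i).comap ψ.toMonoidHom) with hK
  have hgal : IsGalois K L := IsGalois.tower_top_of_isGalois k K L
  have hfd' : FiniteDimensional K L := FiniteDimensional.right k K L
  have hfix : K.fixingSubgroup =
      (MulAction.stabilizer (Equiv.Perm (Fin n)) i).comap ψ.toMonoidHom :=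
    IntermediateField.fixingSubgroup_fixedField _
  have hres : ∀ τ : L ≃ₐ[K] L, ψ₀ (τ.restrictScalars k) i = i := by
    intro τ
    rw [← hψ]
    have h1 : AlgEquiv.restrictNormalHom M (τ.restrictScalars k) ∈ K.fixingSubgroup := by
      rw [IntermediateField.mem_fixingSubgroup_iff]
      intro x hx
      apply Subtype.ext
      have h2 := AlgEquiv.restrictNormal_commutes (τ.restrictScalars k) M x
      have h3 : τ (algebraMap K L ⟨x, hx⟩) = algebraMap K L ⟨x, hx⟩ := τ.commutes _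
      exact h2.trans h3
    rw [hfix] at h1
    exact h1
  -- the character to `G`
  let χ : (L ≃ₐ[K] L) →* G := MonoidHom.mk'
    (fun τ => ((e.symm (τ.restrictScalars k) : Γ) : Wr G n).left i) (fun τ τ' => by
      have h1 : (τ * τ').restrictScalars k = τ.restrictScalars k * τ'.restrictScalars k := rfl
      rw [h1, map_mul, Subgroup.coe_mul, wr_mul_left]
      have h2 := hres τ
      rw [hψ₀] at h2
      have h3 : ((e.symm (τ.restrictScalars k) : Γ) : Wr G n).right⁻¹ i = i := by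
        rw [Equiv.Perm.inv_eq_iff_eq]
        exact h2.symm
      rw [h3])
  apply isRealizable_quotient L χ
  intro g
  obtain ⟨i', hi'⟩ : ∃ i' : Fin n, i' ≠ i := by
    have : Nontrivial (Fin n) := Fin.nontrivial_iff_two_le.2 (by omega)
    exact exists_ne i
  let x : Wr G n := ⟨Pi.mulSingle i g * Pi.mulSingle i' g⁻¹, 1⟩
  have hx : x ∈ Γ := by
    apply hΓ
    simp only [x, Pi.mul_apply, map_mul, Finset.prod_mul_distrib]
    rw [Finset.prod_eq_single i (fun k _ h => by rw [Pi.mulSingle_eq_of_ne h, map_one])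
      (fun h => absurd (Finset.mem_univ _) h),
      Finset.prod_eq_single i' (fun k _ h => by rw [Pi.mulSingle_eq_of_ne h, map_one])
      (fun h => absurd (Finset.mem_univ _) h), Pi.mulSingle_eq_same, Pi.mulSingle_eq_same]
    simp
  have hker : e ⟨x, hx⟩ ∈ ψ₀.ker := by
    rw [MonoidHom.mem_ker, hψ₀, MulEquiv.symm_apply_apply]
  have hfixM : ∀ y : M, (e ⟨x, hx⟩) (y : L) = y := by
    intro y
    have := y.2
    exact this ⟨_, hker⟩
  let τ : L ≃ₐ[K] L := AlgEquiv.ofRingEquiv (f := (e ⟨x, hx⟩).toRingEquiv) (fun y => hfixM y.1)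
  refine ⟨τ, ?_⟩
  have h5 : τ.restrictScalars k = e ⟨x, hx⟩ := by
    ext y
    rfl
  change ((e.symm (τ.restrictScalars k) : Γ) : Wr G n).left i = g
  rw [h5, MulEquiv.symm_apply_apply]
  simp [x, Pi.mulSingle_eq_of_ne hi'.symm]

end Pool.Agent.H391R2
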