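import Mathlib
import Pool.Prelude.Def_F_b1b78ff3
import Pool.Agent.H391R2.FnC
import Pool.Agent.H391R2.WrRes

namespace Pool.Agent.H391R2

open Nfff32c05

/-- Functoriality of the wreath product in the base group. -/
noncomputable def wrMap {G H : Type} [Group G] [Group H] (f : G →* H) (n : ℕ) : Wr G n →* Wr H n :=
  SemidirectProduct.map (f.compLeft (Fin n)) (MonoidHom.id _) (fun σ => by
    ext x i
    rfl)

theorem wrMap_surjective {G H : Type} [Group G] [Group H] (f : G →* H) (n : ℕ)
    (hf : Function.Surjective f) : Function.Surjective (wrMap f n) := by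
  intro x
  choose g hg using fun i => hf (x.left i)
  refine ⟨⟨g, x.right⟩, ?_⟩
  apply SemidirectProduct.ext
  · funext i
    exact hg i
  · rfl

/-- `G ≀ S_n` is a Galois group over `ℚ` for every finite group `G` and large `n`. -/
theorem wreath_realize_full (G : Type) [Group G] [Finite G] : ∃ n₀ : ℕ, ∀ n ≥ n₀, 3 ≤ n ∧
    ∃ (L : Type) (_ : Field L) (_ : Algebra ℚ L), IsGalois ℚ L ∧
        Nonempty (Wr G n ≃* (L ≃ₐ[ℚ] L)) := by
  have := Fintype.ofFinite G
  have hcard : 3 ≤ Fintype.card (G × Multiplicative (ZMod 3)) := by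
    rw [Fintype.card_prod, Fintype.card_multiplicative, ZMod.card]
    have := Fintype.card_pos (α := G)
    omega
  obtain ⟨n₀, hn₀⟩ := exists_gal_full (G × Multiplicative (ZMod 3)) hcard
  refine ⟨max n₀ 3, fun n hn => ⟨le_of_max_le_right hn, ?_⟩⟩
  obtain ⟨F, N, i1, i2, i3, i4, i5, i6, i7, π, hπ⟩ := hn₀ n (le_of_max_le_left hn)
  obtain ⟨L, h1, h2, h3, h4⟩ := realize_quotient (Ix (G × Multiplicative (ZMod 3))) F N (Wr G n)
    ((wrMap (MonoidHom.fst G (Multiplicative (ZMod 3))) n).comp π)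
    ((wrMap_surjective _ n Prod.fst_surjective).comp hπ)
  exact ⟨L, h1, h2, h3, h4⟩

end Pool.Agent.H391R2
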